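import Pool.Agent.helper12.BR.Defs

/-!
# BR-APa: uniform limits of trigonometric polynomials

PROOFS.  `AP f`: for every `ε > 0` there is a trigonometric polynomial `q` with `|f - q| ≤ ε`.  `AP.bdd`, `AP.cont`: `TPr.bmr`, `TPr.contDiff` (uniform limits of
continuous functions are continuous, e.g. `continuous_of_uniform_approx_of_continuous` or a direct `ε/3` argument), `AP.bmr` from both.  `AP.add`, `AP.mul`: `TPr.add`, `TPr.mul` (after `TPr.mono` to a common
frequency bound), boundedness.  `AP.comp`: approximate `g` on `[A, B]` by a polynomial (`exists_polynomial_near_of_continuousOn`), and polynomials of an `AP` function are `AP`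
(by induction from `AP.add`, `AP.mul`, `AP.const`), then an `ε/2` argument.  `AP.cs`: `cs_tpr`.
-/

set_option autoImplicit false

open MeasureTheory FourierTransform
open scoped ENNReal InnerProductSpace ComplexConjugate

namespace Pool.Agent.helper12.BR

open Pool.Agent.helper12.RT
open Pool.Agent.helper12.AI (beurlingSymbol)

variable {n : ℕ}

theorem AP.of_tpr {K : ℝ} {q : E n → ℝ} (h : TPr K q) : AP q := by
  intro ε hε
  refine ⟨K, q, h, fun x => ?_⟩
  rw [sub_self, abs_zero]
  exact hε.le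

theorem AP.const (c : ℝ) : AP fun _ : E n => c := by
  exact AP.of_tpr (TPr.const le_rfl c)

theorem AP.cont {f : E n → ℝ} (h : AP f) : Continuous f := by
  refine continuous_of_uniform_approx_of_continuous fun u hu => ?_
  obtain ⟨ε, hε, h1⟩ := Metric.mem_uniformity_dist.1 hu
  obtain ⟨K, q, hq, h2⟩ := h (ε / 2) (half_pos hε)
  refine ⟨q, hq.contDiff.continuous, fun y => h1 ?_⟩
  rw [Real.dist_eq]
  exact lt_of_le_of_lt (h2 y) (half_lt_self hε)

theorem AP.bdd {f : E n → ℝ} (h : AP f) : ∃ C : ℝ, ∀ x, |f x| ≤ C := by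
  obtain ⟨K, q, hq, h2⟩ := h 1 one_pos
  obtain ⟨-, C, hC⟩ := hq.bmr
  refine ⟨C + 1, fun x => ?_⟩
  have h3 : f x = q x + (f x - q x) := by ring
  rw [h3]
  exact (abs_add_le _ _).trans (add_le_add (hC x) (h2 x))

theorem AP.bmr {f : E n → ℝ} (h : AP f) : BMr f := by
  exact ⟨h.cont.measurable, h.bdd⟩

theorem AP.add {f g : E n → ℝ} (hf : AP f) (hg : AP g) : AP fun x => f x + g x := by
  intro ε hε
  obtain ⟨K, p, hp, h1⟩ := hf (ε / 2) (half_pos hε)
  obtain ⟨K', q, hq, h2⟩ := hg (ε / 2) (half_pos hε)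
  refine ⟨max K K', fun x => p x + q x,
    (hp.mono (le_max_left _ _)).add (hq.mono (le_max_right _ _)), fun x => ?_⟩
  have h3 : f x + g x - (p x + q x) = (f x - p x) + (g x - q x) := by ring
  rw [h3]
  exact (abs_add_le _ _).trans ((add_le_add (h1 x) (h2 x)).trans (by linarith))

theorem AP.mul {f g : E n → ℝ} (hf : AP f) (hg : AP g) : AP fun x => f x * g x := by
  intro ε hε
  obtain ⟨C, hC⟩ := hf.bdd
  obtain ⟨D, hD⟩ := hg.bdd
  have hpos : 0 < |C| + |D| + 1 := by positivity
  set δ : ℝ := min 1 (ε / (|C| + |D| + 1)) with hδ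
  have hδ0 : 0 < δ := lt_min one_pos (div_pos hε hpos)
  have hδ1 : δ ≤ 1 := min_le_left _ _
  have hδ2 : (|C| + |D| + 1) * δ ≤ ε := by
    have h0 : δ ≤ ε / (|C| + |D| + 1) := min_le_right _ _
    rw [le_div_iff₀ hpos] at h0
    linarith
  obtain ⟨K, p, hp, h1⟩ := hf δ hδ0
  obtain ⟨K', q, hq, h2⟩ := hg δ hδ0
  refine ⟨K + K', fun x => p x * q x, hp.mul hq, fun x => ?_⟩
  have h3 : f x * g x - p x * q x = f x * (g x - q x) + q x * (f x - p x) := by ring
  have h4 : |f x| ≤ |C| := (hC x).trans (le_abs_self C)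
  have h5 : |q x| ≤ |D| + 1 := by
    have h6 : q x = g x - (g x - q x) := by ring
    rw [h6]
    have h7 := abs_sub (g x) (g x - q x)
    have h8 := (hD x).trans (le_abs_self D)
    have h9 := h2 x
    linarith
  rw [h3]
  have h10 : |f x * (g x - q x)| ≤ |C| * δ := by
    rw [abs_mul]
    exact mul_le_mul h4 (h2 x) (abs_nonneg _) (abs_nonneg _)
  have h11 : |q x * (f x - p x)| ≤ (|D| + 1) * δ := by
    rw [abs_mul]
    exact mul_le_mul h5 (h1 x) (abs_nonneg _) (by positivity)
  have h12 := abs_add_le (f x * (g x - q x)) (q x * (f x - p x))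
  linarith

theorem AP.neg {f : E n → ℝ} (hf : AP f) : AP fun x => -f x := by
  have h1 := (AP.const (n := n) (-1)).mul hf
  have h2 : (fun x => -f x) = fun x => (-1 : ℝ) * f x := by
    funext x
    ring
  rw [h2]
  exact h1

theorem AP.sub {f g : E n → ℝ} (hf : AP f) (hg : AP g) : AP fun x => f x - g x := by
  have h1 := hf.add hg.neg
  have h2 : (fun x => f x - g x) = fun x => f x + -g x := by
    funext x
    ring
  rw [h2]
  exact h1

theorem AP.cs {d : E n} (hd : ‖d‖ = 1) (lam : ℝ) : AP (cs d lam) := by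
  exact AP.of_tpr (cs_tpr hd lam)

private theorem APa_pow {f : E n → ℝ} (hf : AP f) (k : ℕ) : AP fun x => f x ^ k := by
  induction k with
  | zero =>
    simp only [pow_zero]
    exact AP.const 1
  | succ k ih =>
    simp only [pow_succ]
    exact ih.mul hf

private theorem APa_poly {f : E n → ℝ} (hf : AP f) (P : Polynomial ℝ) :
    AP fun x => P.eval (f x) := by
  induction P using Polynomial.induction_on' with
  | add p q hp hq =>
    simp only [Polynomial.eval_add]
    exact hp.add hq
  | monomial k a =>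
    simp only [Polynomial.eval_monomial]
    exact (AP.const a).mul (APa_pow hf k)

theorem AP.comp {f : E n → ℝ} (hf : AP f) {A B : ℝ} (h : ∀ x, f x ∈ Set.Icc A B) {g : ℝ → ℝ}
    (hg : ContinuousOn g (Set.Icc A B)) : AP fun x => g (f x) := by
  intro ε hε
  obtain ⟨P, hP⟩ := exists_polynomial_near_of_continuousOn A B g hg (ε / 2) (half_pos hε)
  obtain ⟨K, q, hq, h1⟩ := APa_poly hf P (ε / 2) (half_pos hε)
  refine ⟨K, q, hq, fun x => ?_⟩
  have h2 := hP (f x) (h x)
  have h3 := h1 x
  have h4 : g (f x) - q x = -(P.eval (f x) - g (f x)) + (P.eval (f x) - q x) := by ring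
  rw [h4]
  refine (abs_add_le _ _).trans ?_
  rw [abs_neg]
  linarith

end Pool.Agent.helper12.BR
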