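import Pool.Agent.helper12.BR.APa

/-!
# BR-APb: uniform limits of polynomials in the variable `c` with trigonometric polynomials as coefficients

PROOFS.  As in `APa`.  `polyC` is closed under sums and products (products: Cauchy product of the coefficients, `pk k = ∑_(i + j = k) ...`, with coefficients set to 0 beyond the
degree; it may be easier to show by induction on `r` that `AP2` approximability is closed under multiplication by `pk k x * c ^ k`).
`AP2.cs`: substitute `c = cs d lam x` (`cs_abs`, `AP.cs`): `polyC pk r x (cs d lam x)` is a trigonometric polynomial, the error is uniform.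
`AP2.contOn`: uniform limit of polynomials in `c`.
-/

set_option autoImplicit false

open MeasureTheory FourierTransform
open scoped ENNReal InnerProductSpace ComplexConjugate

namespace Pool.Agent.helper12.BR

open Pool.Agent.helper12.RT
open Pool.Agent.helper12.AI (beurlingSymbol)

variable {n : ℕ}

/-- polynomials in `c` with trigonometric polynomials as coefficients -/
private def PC (p : E n → ℝ → ℝ) : Prop :=
  ∃ (K : ℝ) (r : ℕ) (pk : ℕ → E n → ℝ), 0 ≤ K ∧ (∀ k, TPr K (pk k)) ∧
    ∀ x c, p x c = polyC pk r x c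

private theorem APb_polyC_succ (pk : ℕ → E n → ℝ) (r : ℕ) (x : E n) (c : ℝ) :
    polyC pk (r + 1) x c = polyC pk r x c + pk r x * c ^ r := by
  unfold polyC
  rw [Finset.sum_range_succ]

private theorem APb_polyC_zero (pk : ℕ → E n → ℝ) (x : E n) (c : ℝ) :
    polyC pk 0 x c = 0 := by
  unfold polyC
  rw [Finset.sum_range_zero]

private theorem APb_AP2_iff (f : E n → ℝ → ℝ) : AP2 f ↔ ∀ ε > 0, ∃ p : E n → ℝ → ℝ, PC p ∧
    ∀ x, ∀ c ∈ Set.Icc (-1 : ℝ) 1, |f x c - p x c| ≤ ε := by
  constructor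
  · intro h ε hε
    obtain ⟨K, r, pk, h1, h2⟩ := h ε hε
    exact ⟨polyC pk r, ⟨max K 0, r, pk, le_max_right _ _, fun k => (h1 k).mono (le_max_left _ _),
      fun _ _ => rfl⟩, h2⟩
  · intro h ε hε
    obtain ⟨p, ⟨K, r, pk, _, h1, h2⟩, h3⟩ := h ε hε
    refine ⟨K, r, pk, h1, fun x c hc => ?_⟩
    rw [← h2]
    exact h3 x c hc

private theorem APb_PC_tpr {K : ℝ} {q : E n → ℝ} (h : TPr K q) :
    PC fun x (_ : ℝ) => q x := by
  refine ⟨max K 0, 1, fun _ => q, le_max_right _ _, fun _ => h.mono (le_max_left _ _),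
    fun x c => ?_⟩
  unfold polyC
  rw [Finset.sum_range_one, pow_zero, mul_one]

private theorem APb_PC_const (a : ℝ) : PC fun (_ : E n) (_ : ℝ) => a :=
  APb_PC_tpr (TPr.const (le_refl 0) a)

private theorem APb_PC_add {p q : E n → ℝ → ℝ} (hp : PC p) (hq : PC q) :
    PC fun x c => p x c + q x c := by
  obtain ⟨K, r, pk, hK, h1, h2⟩ := hp
  obtain ⟨K', r', qk, hK', h1', h2'⟩ := hq
  have hext : ∀ (R s : ℕ) (a : ℕ → E n → ℝ) (x : E n) (c : ℝ), s ≤ R →
      ∑ k ∈ Finset.range R, (if k < s then a k x else 0) * c ^ k =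
        ∑ k ∈ Finset.range s, a k x * c ^ k := by
    intro R s a x c hs
    have h3 : Finset.range s ⊆ Finset.range R := by
      intro k hk
      rw [Finset.mem_range] at hk ⊢
      exact lt_of_lt_of_le hk hs
    rw [← Finset.sum_subset h3]
    · apply Finset.sum_congr rfl
      intro k hk
      rw [if_pos (Finset.mem_range.1 hk)]
    · intro k _ hk
      rw [if_neg (fun h => hk (Finset.mem_range.2 h)), zero_mul]
  refine ⟨max K K', max r r', fun k x => (if k < r then pk k x else 0) +
    (if k < r' then qk k x else 0), le_trans hK (le_max_left _ _), fun k => ?_, fun x c => ?_⟩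
  · refine TPr.add ?_ ?_
    · by_cases hk : k < r
      · simp only [hk, if_true]
        exact (h1 k).mono (le_max_left _ _)
      · simp only [hk, if_false]
        exact TPr.const (le_trans hK (le_max_left _ _)) 0
    · by_cases hk : k < r'
      · simp only [hk, if_true]
        exact (h1' k).mono (le_max_right _ _)
      · simp only [hk, if_false]
        exact TPr.const (le_trans hK (le_max_left _ _)) 0
  · beta_reduce
    rw [h2, h2']
    unfold polyC
    simp only [add_mul]
    rw [Finset.sum_add_distrib, hext _ _ _ _ _ (le_max_left _ _),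
      hext _ _ _ _ _ (le_max_right _ _)]

private theorem APb_PC_tmul {K : ℝ} {a : E n → ℝ} (ha : TPr K a) {p : E n → ℝ → ℝ} (hp : PC p) :
    PC fun x c => a x * p x c := by
  obtain ⟨K', r, pk, hK, h1, h2⟩ := hp
  refine ⟨max K 0 + K', r, fun k x => a x * pk k x, add_nonneg (le_max_right _ _) hK,
    fun k => (ha.mono (le_max_left _ _)).mul (h1 k), fun x c => ?_⟩
  beta_reduce
  rw [h2]
  unfold polyC
  rw [Finset.mul_sum]
  apply Finset.sum_congr rfl
  intro k _
  ring

private theorem APb_PC_cmul {p : E n → ℝ → ℝ} (hp : PC p) :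
    PC fun x c => c * p x c := by
  obtain ⟨K', r, pk, hK, h1, h2⟩ := hp
  refine ⟨K', r + 1, fun k x => if k = 0 then 0 else pk (k - 1) x, hK,
    fun k => ?_, fun x c => ?_⟩
  · by_cases hk : k = 0
    · simp only [hk, if_true]
      exact TPr.const hK 0
    · simp only [hk, if_false]
      exact h1 _
  · beta_reduce
    rw [h2]
    unfold polyC
    rw [Finset.sum_range_succ', Finset.mul_sum]
    simp only [Nat.add_eq_zero_iff, one_ne_zero, and_false, if_false, if_true, zero_mul, add_zero,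
      Nat.add_sub_cancel]
    apply Finset.sum_congr rfl
    intro k _
    ring

private theorem APb_PC_pmul {p : E n → ℝ → ℝ} (hp : PC p) (k : ℕ) :
    PC fun x c => c ^ k * p x c := by
  induction k with
  | zero =>
    simp only [pow_zero, one_mul]
    exact hp
  | succ k ih =>
    have h1 := APb_PC_cmul ih
    have h2 : (fun (x : E n) (c : ℝ) => c ^ (k + 1) * p x c) = fun x c => c * (c ^ k * p x c) := by
      funext x c
      ring
    rw [h2]
    exact h1

private theorem APb_PC_mul {p q : E n → ℝ → ℝ} (hp : PC p) (hq : PC q) :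
    PC fun x c => p x c * q x c := by
  obtain ⟨K, r, pk, hK, h1, h2⟩ := hp
  have h3 : ∀ s : ℕ, PC fun x c => polyC pk s x c * q x c := by
    intro s
    induction s with
    | zero =>
      simp only [APb_polyC_zero, zero_mul]
      exact APb_PC_const 0
    | succ s ih =>
      have h4 := APb_PC_add ih (APb_PC_tmul (h1 s) (APb_PC_pmul hq s))
      have h5 : (fun (x : E n) (c : ℝ) => polyC pk (s + 1) x c * q x c) =
          fun x c => polyC pk s x c * q x c + pk s x * (c ^ s * q x c) := by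
        funext x c
        rw [APb_polyC_succ]
        ring
      rw [h5]
      exact h4
  have h4 : (fun (x : E n) (c : ℝ) => p x c * q x c) = fun x c => polyC pk r x c * q x c := by
    funext x c
    rw [h2]
  rw [h4]
  exact h3 r

private theorem APb_PC_bdd {p : E n → ℝ → ℝ} (hp : PC p) :
    ∃ C : ℝ, ∀ x, ∀ c ∈ Set.Icc (-1 : ℝ) 1, |p x c| ≤ C := by
  obtain ⟨K, r, pk, hK, h1, h2⟩ := hp
  have h3 : ∀ s : ℕ, ∃ C : ℝ, ∀ x, ∀ c ∈ Set.Icc (-1 : ℝ) 1, |polyC pk s x c| ≤ C := by
    intro s
    induction s with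
    | zero =>
      refine ⟨0, fun x c _ => ?_⟩
      rw [APb_polyC_zero, abs_zero]
    | succ s ih =>
      obtain ⟨C, hC⟩ := ih
      obtain ⟨-, D, hD⟩ := (h1 s).bmr
      refine ⟨C + D, fun x c hc => ?_⟩
      rw [APb_polyC_succ]
      refine (abs_add_le _ _).trans (add_le_add (hC x c hc) ?_)
      have hc1 : |c| ≤ 1 := abs_le.2 ⟨hc.1, hc.2⟩
      have hc2 : |c ^ s| ≤ 1 := by
        rw [abs_pow]
        exact pow_le_one₀ (abs_nonneg _) hc1
      rw [abs_mul]
      have hD0 := hD x
      have := abs_nonneg (pk s x)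
      nlinarith [abs_nonneg (c ^ s)]
  obtain ⟨C, hC⟩ := h3 r
  refine ⟨C, fun x c hc => ?_⟩
  rw [h2]
  exact hC x c hc

private theorem APb_pow_tpr {d : E n} (hd : ‖d‖ = 1) (lam : ℝ) (k : ℕ) :
    ∃ K' : ℝ, TPr K' fun x => RT.cs d lam x ^ k := by
  induction k with
  | zero =>
    refine ⟨0, ?_⟩
    simp only [pow_zero]
    exact TPr.const (le_refl 0) 1
  | succ k ih =>
    obtain ⟨K', h⟩ := ih
    refine ⟨K' + |lam|, ?_⟩
    simp only [pow_succ]
    exact h.mul (cs_tpr hd lam)

theorem AP2.of_ap {f : E n → ℝ} (h : AP f) : AP2 fun x (_ : ℝ) => f x := by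
  intro ε hε
  obtain ⟨K, q, h1, h2⟩ := h ε hε
  refine ⟨K, 1, fun _ => q, fun _ => h1, fun x c _ => ?_⟩
  unfold polyC
  rw [Finset.sum_range_one, pow_zero, mul_one]
  exact h2 x

theorem AP2.var : AP2 fun (_ : E n) (c : ℝ) => c := by
  rw [APb_AP2_iff]
  intro ε hε
  refine ⟨fun _ c => c * 1, APb_PC_cmul (APb_PC_const 1), fun x c _ => ?_⟩
  beta_reduce
  rw [mul_one, sub_self, abs_zero]
  exact hε.le

theorem AP2.bdd {f : E n → ℝ → ℝ} (h : AP2 f) :
    ∃ C : ℝ, ∀ x, ∀ c ∈ Set.Icc (-1 : ℝ) 1, |f x c| ≤ C := by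
  rw [APb_AP2_iff] at h
  obtain ⟨p, h1, h2⟩ := h 1 one_pos
  obtain ⟨C, hC⟩ := APb_PC_bdd h1
  refine ⟨C + 1, fun x c hc => ?_⟩
  have h3 : f x c = p x c + (f x c - p x c) := by ring
  rw [h3]
  exact (abs_add_le _ _).trans (add_le_add (hC x c hc) (h2 x c hc))

theorem AP2.contOn {f : E n → ℝ → ℝ} (h : AP2 f) (x : E n) :
    ContinuousOn (f x) (Set.Icc (-1) 1) := by
  refine continuousOn_of_uniform_approx_of_continuousOn fun u hu => ?_
  obtain ⟨ε, hε, h1⟩ := Metric.mem_uniformity_dist.1 hu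
  obtain ⟨K, r, pk, _, h2⟩ := h (ε / 2) (half_pos hε)
  refine ⟨polyC pk r x, ?_, fun y hy => h1 ?_⟩
  · apply Continuous.continuousOn
    unfold polyC
    fun_prop
  · rw [Real.dist_eq]
    exact lt_of_le_of_lt (h2 x y hy) (half_lt_self hε)

theorem AP2.add {f g : E n → ℝ → ℝ} (hf : AP2 f) (hg : AP2 g) : AP2 fun x c => f x c + g x c := by
  rw [APb_AP2_iff] at *
  intro ε hε
  obtain ⟨p, hp, h1⟩ := hf (ε / 2) (half_pos hε)
  obtain ⟨q, hq, h2⟩ := hg (ε / 2) (half_pos hε)
  refine ⟨fun x c => p x c + q x c, APb_PC_add hp hq, fun x c hc => ?_⟩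
  have h3 : f x c + g x c - (p x c + q x c) = (f x c - p x c) + (g x c - q x c) := by ring
  rw [h3]
  exact (abs_add_le _ _).trans ((add_le_add (h1 x c hc) (h2 x c hc)).trans (by linarith))

theorem AP2.mul {f g : E n → ℝ → ℝ} (hf : AP2 f) (hg : AP2 g) : AP2 fun x c => f x c * g x c := by
  obtain ⟨C, hC⟩ := hf.bdd
  obtain ⟨D, hD⟩ := hg.bdd
  rw [APb_AP2_iff] at *
  intro ε hε
  have hpos : 0 < |C| + |D| + 1 := by positivity
  set δ : ℝ := min 1 (ε / (|C| + |D| + 1)) with hδ
  have hδ0 : 0 < δ := lt_min one_pos (div_pos hε hpos)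
  have hδ1 : δ ≤ 1 := min_le_left _ _
  have hδ2 : (|C| + |D| + 1) * δ ≤ ε := by
    have h0 : δ ≤ ε / (|C| + |D| + 1) := min_le_right _ _
    rw [le_div_iff₀ hpos] at h0
    linarith
  obtain ⟨p, hp, h1⟩ := hf δ hδ0
  obtain ⟨q, hq, h2⟩ := hg δ hδ0
  refine ⟨fun x c => p x c * q x c, APb_PC_mul hp hq, fun x c hc => ?_⟩
  have h3 : f x c * g x c - p x c * q x c = f x c * (g x c - q x c) + q x c * (f x c - p x c) := by
    ring
  have h4 : |f x c| ≤ |C| := (hC x c hc).trans (le_abs_self C)
  have h5 : |q x c| ≤ |D| + 1 := by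
    have h6 : q x c = g x c - (g x c - q x c) := by ring
    rw [h6]
    have h7 := abs_sub (g x c) (g x c - q x c)
    have h8 := (hD x c hc).trans (le_abs_self D)
    have h9 := h2 x c hc
    linarith
  rw [h3]
  have h10 : |f x c * (g x c - q x c)| ≤ |C| * δ := by
    rw [abs_mul]
    exact mul_le_mul h4 (h2 x c hc) (abs_nonneg _) (abs_nonneg _)
  have h11 : |q x c * (f x c - p x c)| ≤ (|D| + 1) * δ := by
    rw [abs_mul]
    exact mul_le_mul h5 (h1 x c hc) (abs_nonneg _) (by positivity)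
  have h12 := abs_add_le (f x c * (g x c - q x c)) (q x c * (f x c - p x c))
  linarith

theorem AP2.comp {f : E n → ℝ → ℝ} (hf : AP2 f) {A B : ℝ}
    (h : ∀ x, ∀ c ∈ Set.Icc (-1 : ℝ) 1, f x c ∈ Set.Icc A B) {g : ℝ → ℝ}
    (hg : ContinuousOn g (Set.Icc A B)) : AP2 fun x c => g (f x c) := by
  have hconst : ∀ a : ℝ, AP2 fun (_ : E n) (_ : ℝ) => a := fun a => AP2.of_ap (AP.const a)
  have hpow : ∀ k : ℕ, AP2 fun x c => f x c ^ k := by
    intro k
    induction k with
    | zero =>
      simp only [pow_zero]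
      exact hconst 1
    | succ k ih =>
      simp only [pow_succ]
      exact ih.mul hf
  have hpoly : ∀ P : Polynomial ℝ, AP2 fun x c => P.eval (f x c) := by
    intro P
    induction P using Polynomial.induction_on' with
    | add p q hp hq =>
      simp only [Polynomial.eval_add]
      exact hp.add hq
    | monomial k a =>
      simp only [Polynomial.eval_monomial]
      exact (hconst a).mul (hpow k)
  intro ε hε
  obtain ⟨P, hP⟩ := exists_polynomial_near_of_continuousOn A B g hg (ε / 2) (half_pos hε)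
  obtain ⟨K, r, pk, hq, h1⟩ := hpoly P (ε / 2) (half_pos hε)
  refine ⟨K, r, pk, hq, fun x c hc => ?_⟩
  have h2 := hP (f x c) (h x c hc)
  have h3 := h1 x c hc
  have h4 : g (f x c) - polyC pk r x c =
      -(P.eval (f x c) - g (f x c)) + (P.eval (f x c) - polyC pk r x c) := by ring
  rw [h4]
  refine (abs_add_le _ _).trans ?_
  rw [abs_neg]
  linarith

theorem AP2.cs {f : E n → ℝ → ℝ} (hf : AP2 f) {d : E n} (hd : ‖d‖ = 1) (lam : ℝ) :
    AP fun x => f x (cs d lam x) := by
  intro ε hε
  obtain ⟨K, r, pk, h1, h2⟩ := hf ε hε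
  have h3 : ∀ s : ℕ, ∃ K' : ℝ, TPr K' fun x => polyC pk s x (RT.cs d lam x) := by
    intro s
    induction s with
    | zero =>
      refine ⟨0, ?_⟩
      simp only [APb_polyC_zero]
      exact TPr.const (le_refl 0) 0
    | succ s ih =>
      obtain ⟨K', h⟩ := ih
      obtain ⟨K'', h'⟩ := APb_pow_tpr hd lam s
      refine ⟨max K' (K + K''), ?_⟩
      simp only [APb_polyC_succ]
      exact (h.mono (le_max_left _ _)).add (((h1 s).mul h').mono (le_max_right _ _))
  obtain ⟨K', h4⟩ := h3 r
  refine ⟨K', _, h4, fun x => ?_⟩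
  refine h2 x _ ?_
  rw [Set.mem_Icc, ← abs_le]
  exact cs_abs d lam x

/-- the polynomials themselves -/
theorem polyC_tpr {K : ℝ} {pk : ℕ → E n → ℝ} (h : ∀ k, TPr K (pk k)) (r : ℕ) {d : E n}
    (hd : ‖d‖ = 1) (lam : ℝ) : ∃ K' : ℝ, TPr K' fun x => polyC pk r x (RT.cs d lam x) := by
  induction r with
  | zero =>
    refine ⟨0, ?_⟩
    simp only [APb_polyC_zero]
    exact TPr.const (le_refl 0) 0
  | succ s ih =>
    obtain ⟨K', h'⟩ := ih
    obtain ⟨K'', h''⟩ := APb_pow_tpr hd lam s
    refine ⟨max K' (K + K''), ?_⟩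
    simp only [APb_polyC_succ]
    exact (h'.mono (le_max_left _ _)).add (((h s).mul h'').mono (le_max_right _ _))

theorem av_polyC (pk : ℕ → E n → ℝ) (r : ℕ) (x : E n) :
    av (polyC pk r x) = ∑ k ∈ Finset.range r, pk k x * av (fun c => c ^ k) := by
  induction r with
  | zero =>
    have h1 : (polyC pk 0 x) = fun _ => (0 : ℝ) := by
      funext c
      exact APb_polyC_zero pk x c
    rw [h1, av_const, Finset.sum_range_zero]
  | succ s ih =>
    have h1 : (polyC pk (s + 1) x) = fun c => polyC pk s x c + pk s x * c ^ s := by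
      funext c
      exact APb_polyC_succ pk s x c
    have h2 : Continuous (polyC pk s x) := by
      unfold polyC
      fun_prop
    rw [h1, Finset.sum_range_succ, ← ih, ← av_mul]
    exact av_add h2.continuousOn (by fun_prop)

theorem av_polyC_tpr {K : ℝ} {pk : ℕ → E n → ℝ} (h : ∀ k, TPr K (pk k)) (hK : 0 ≤ K) (r : ℕ) :
    TPr K fun x => av (polyC pk r x) := by
  simp only [av_polyC]
  induction r with
  | zero =>
    simp only [Finset.sum_range_zero]
    exact TPr.const hK 0
  | succ s ih =>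
    simp only [Finset.sum_range_succ]
    refine ih.add ?_
    have h1 := (h s).mul (TPr.const (n := n) (le_refl 0) (av fun c => c ^ s))
    rw [add_zero] at h1
    exact h1

end Pool.Agent.helper12.BR
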