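import Pool.Agent.helper12.BR.Defs

/-!
# BR-Seg: the exact segments of one block

`pt t s w x₁ x₂ y` with scale `Q = t²`: `pot (t²) (t s) (w / t) = (w + √(s w)) / t`.  PROOFS.  `seg_pt`: the segment of a scaled point is a curve of scaled points (`simp [seg, pt]`, `ring`, `t ≠ 0`).  `good_pt`: `pot (t²) (t s) (w / t) = (w + √(s w)) / t` (`√(s w / t²) = √(s w) / t`).
In `segA` ... `segE` use these; `√(s w) ≤ (s + w)/2` and, for `C, D, E`, `w = s / 4`, so `√(s w) = s / 2`.  `A`: `s = 1 + z/2 ∈ (1/2, 3/2)`, `w = 1 - 5 z/8 ∈ (3/8, 13/8)`, `s + w ≤ 17/8`, so `w + √ ≤ 27/10`; `gg = |μ s - X|² = 1` and `√(s w) ≥ 3/4` (`s w ≥ 9/16`).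
`B`: `s = (1 + z)/2 ∈ (0, 1)`, `w = (13 - 11 z)/8 ∈ (1/4, 3)`, `s + w < 3`, `w + √ < 9/2`, `|X| = s`, `gg = 0`, and `s w > 0`.  `C`: `s = (3 + z)/2 < 2`, `w = s/4`, `w + √ = 3 s/4`, `|X| = (1 - z)/2 < 1`.  `D`, `E`: `s = 1 + z < 2`, `w = s/4`, `|X| = 1 - z < 2`.
Here `j : Bool` chooses the block: types `k = kp j` (symbol `μ`) and `kq j` (symbol `-μ`), `μ = (m1 j, m2 j)`.  `w < 4`: `t ≥ 1`.
-/

set_option autoImplicit false

open MeasureTheory FourierTransform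
open scoped ENNReal InnerProductSpace ComplexConjugate

namespace Pool.Agent.helper12.BR

open Pool.Agent.helper12.RT
open Pool.Agent.helper12.AI (beurlingSymbol)

variable {n : ℕ}

/-- the type with symbol `μ` -/
def kp (j : Bool) : Fin 4 := if j then 2 else 0

/-- the type with symbol `-μ` -/
def kq (j : Bool) : Fin 4 := if j then 3 else 1

def m1 (j : Bool) : ℝ := if j then 0 else 1

def m2 (j : Bool) : ℝ := if j then 1 else 0

private theorem Seg_kp1 (j : Bool) : mu₁ (kp j) = m1 j := by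
  cases j <;> simp [mu₁, kp, m1]

private theorem Seg_kp2 (j : Bool) : mu₂ (kp j) = m2 j := by
  cases j <;> simp [mu₂, kp, m2]

private theorem Seg_kq1 (j : Bool) : mu₁ (kq j) = -m1 j := by
  cases j <;> simp [mu₁, kq, m1]

private theorem Seg_kq2 (j : Bool) : mu₂ (kq j) = -m2 j := by
  cases j <;> simp [mu₂, kq, m2]

private theorem Seg_m (j : Bool) : m1 j ^ 2 + m2 j ^ 2 = 1 := by
  cases j <;> simp [m1, m2]

private theorem Seg_pot {t : ℝ} (ht : 0 < t) (s w : ℝ) :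
    pot (t ^ 2) (t * s) (w / t) = (w + √(s * w)) / t := by
  unfold pot
  have h1 : t * s * (w / t) / t ^ 2 = s * w / t ^ 2 := by
    field_simp
  rw [h1, Real.sqrt_div' _ (by positivity), Real.sqrt_sq ht.le]
  ring

private theorem Seg_sq (t : ℝ) (s w x₁ x₂ y : ℝ) :
    pt t s w x₁ x₂ y 0 = t * s ∧ pt t s w x₁ x₂ y 1 = w / t ∧ pt t s w x₁ x₂ y 2 = t * x₁ ∧
      pt t s w x₁ x₂ y 3 = t * x₂ :=
  ⟨rfl, rfl, rfl, rfl⟩

private theorem Seg_am {s w : ℝ} (hs : 0 ≤ s) (hw : 0 ≤ w) : √(s * w) ≤ (s + w) / 2 := by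
  rw [Real.sqrt_le_left (by linarith)]
  nlinarith [sq_nonneg (s - w)]

private theorem Seg_quarter {s w : ℝ} (hs : 0 ≤ s) (hw : w = s / 4) : √(s * w) = s / 2 := by
  have h1 : s * w = (s / 2) ^ 2 := by
    rw [hw]
    ring
  rw [h1, Real.sqrt_sq (by linarith)]

theorem seg_pt {t : ℝ} (ht : 0 < t) (k : Fin 4) (a b s w x₁ x₂ y z : ℝ) :
    seg k a b (pt t s w x₁ x₂ y) z = pt t (s * (1 + a * z)) (w * (1 + b * z))
      (x₁ + mu₁ k * (s * (a * z))) (x₂ + mu₂ k * (s * (a * z))) (y + ye k * (t * s * (a * z))) := by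
  funext i
  fin_cases i
  · show t * s * (1 + a * z) = t * (s * (1 + a * z))
    ring
  · show w / t * (1 + b * z) = w * (1 + b * z) / t
    ring
  · show t * x₁ + mu₁ k * (t * s * (a * z)) = t * (x₁ + mu₁ k * (s * (a * z)))
    ring
  · show t * x₂ + mu₂ k * (t * s * (a * z)) = t * (x₂ + mu₂ k * (s * (a * z)))
    ring
  · rfl

theorem good_pt {t : ℝ} (ht : 1 ≤ t) {s w x₁ x₂ y : ℝ} (hs : 0 < s) (hw : 0 < w) (hw4 : w < 4)
    (h1 : (w + √(s * w)) * s < 5) (h2 : (w + √(s * w)) * (x₁ ^ 2 + x₂ ^ 2) < 5 * s) :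
    Good (t ^ 2) (pt t s w x₁ x₂ y) := by
  have ht0 : 0 < t := by linarith
  obtain ⟨e0, e1, e2, e3⟩ := Seg_sq t s w x₁ x₂ y
  refine ⟨?_, ?_, ?_, ?_, ?_⟩
  · rw [e0]
    positivity
  · rw [e1]
    positivity
  · rw [e1, div_lt_iff₀ ht0]
    nlinarith
  · rw [e0, e1, Seg_pot ht0]
    have h3 : (w + √(s * w)) / t * (t * s) = (w + √(s * w)) * s := by
      field_simp
    rw [h3]
    exact h1
  · rw [e0, e1, e2, e3, Seg_pot ht0]
    have h3 : (w + √(s * w)) / t * ((t * x₁) ^ 2 + (t * x₂) ^ 2) =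
        t * ((w + √(s * w)) * (x₁ ^ 2 + x₂ ^ 2)) := by
      field_simp
    rw [h3]
    have h4 := mul_lt_mul_of_pos_left h2 ht0
    linarith

theorem cross_pt {t : ℝ} (ht : 0 < t) {k : Fin 4} {s w x₁ x₂ y : ℝ} (hs : 0 < s) (hw : 0 < w)
    (h : (w + √(s * w)) ^ 2 * ((mu₁ k * s - x₁) ^ 2 + (mu₂ k * s - x₂) ^ 2) < 40 * (√(s * w) * s)) :
    Cross (t ^ 2) k (pt t s w x₁ x₂ y) := by
  obtain ⟨e0, e1, e2, e3⟩ := Seg_sq t s w x₁ x₂ y
  unfold Cross gg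
  rw [e0, e1, e2, e3, Seg_pot ht]
  have h1 : t * s * (w / t) / t ^ 2 = s * w / t ^ 2 := by
    field_simp
  rw [h1, Real.sqrt_div' _ (by positivity), Real.sqrt_sq ht.le]
  have h3 : ((w + √(s * w)) / t) ^ 2 *
      ((mu₁ k * (t * s) - t * x₁) ^ 2 + (mu₂ k * (t * s) - t * x₂) ^ 2) =
      (w + √(s * w)) ^ 2 * ((mu₁ k * s - x₁) ^ 2 + (mu₂ k * s - x₂) ^ 2) := by
    field_simp
  have h4 : √(s * w) / t * (t * s) = √(s * w) * s := by
    field_simp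
  rw [h3, h4]
  exact h

theorem segA {t : ℝ} (ht : 1 ≤ t) (j : Bool) (y : ℝ) :
    SegOK (t ^ 2) (pt t 1 1 0 0 y) (kp j) (1 / 2) (-(5 / 8)) := by
  have ht0 : 0 < t := by linarith
  have hr : ∀ z : ℝ, -1 < z → z < 1 →
      √(1 * (1 + 1 / 2 * z) * (1 * (1 + -(5 / 8) * z))) ≤ (2 - z / 8) / 2 ∧
      3 / 4 ≤ √(1 * (1 + 1 / 2 * z) * (1 * (1 + -(5 / 8) * z))) := by
    intro z h1 h2
    constructor
    · have h3 := Seg_am (s := 1 * (1 + 1 / 2 * z)) (w := 1 * (1 + -(5 / 8) * z)) (by linarith)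
        (by linarith)
      refine h3.trans (le_of_eq ?_)
      ring
    · refine Real.le_sqrt_of_sq_le ?_
      nlinarith [mul_nonneg (by linarith : (0 : ℝ) ≤ 1 + z) (by linarith : (0 : ℝ) ≤ 1 - z)]
  refine ⟨by norm_num [abs_le], by norm_num [abs_le], ?_, Or.inr ?_⟩
  · intro z h1 h2
    obtain ⟨h3, h4⟩ := hr z h1 h2
    rw [seg_pt ht0, Seg_kp1, Seg_kp2]
    have hm : (0 + m1 j * (1 * (1 / 2 * z))) ^ 2 + (0 + m2 j * (1 * (1 / 2 * z))) ^ 2 =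
        z ^ 2 / 4 := by
      have h5 := Seg_m j
      calc _ = (m1 j ^ 2 + m2 j ^ 2) * (z ^ 2 / 4) := by ring
        _ = _ := by rw [h5, one_mul]
    refine good_pt ht (by linarith) (by linarith) (by linarith) ?_ ?_
    · nlinarith
    · rw [hm]
      nlinarith [mul_nonneg (by linarith : (0 : ℝ) ≤ 1 + z) (by linarith : (0 : ℝ) ≤ 1 - z)]
  · intro z h1 h2
    obtain ⟨h3, h4⟩ := hr z h1 h2
    rw [seg_pt ht0]
    refine cross_pt ht0 (by linarith) (by linarith) ?_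
    rw [Seg_kp1, Seg_kp2]
    have hm : (m1 j * (1 * (1 + 1 / 2 * z)) - (0 + m1 j * (1 * (1 / 2 * z)))) ^ 2 +
        (m2 j * (1 * (1 + 1 / 2 * z)) - (0 + m2 j * (1 * (1 / 2 * z)))) ^ 2 = 1 := by
      have h5 := Seg_m j
      calc _ = m1 j ^ 2 + m2 j ^ 2 := by ring
        _ = 1 := h5
    rw [hm, mul_one]
    have h6 : (1 * (1 + -(5 / 8) * z) + √(1 * (1 + 1 / 2 * z) * (1 * (1 + -(5 / 8) * z)))) ^ 2 ≤
        (43 / 16) ^ 2 := by
      refine pow_le_pow_left₀ (by linarith) ?_ 2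
      linarith
    have h7 : 3 / 4 * (1 / 2) ≤ √(1 * (1 + 1 / 2 * z) * (1 * (1 + -(5 / 8) * z))) *
        (1 * (1 + 1 / 2 * z)) :=
      mul_le_mul h4 (by linarith) (by norm_num) (by linarith)
    have h8 : ((43 : ℝ) / 16) ^ 2 < 40 * (3 / 4 * (1 / 2)) := by norm_num
    linarith

theorem segB {t : ℝ} (ht : 1 ≤ t) (j : Bool) (y : ℝ) :
    SegOK (t ^ 2) (pt t (1 / 2) (13 / 8) (-(m1 j / 2)) (-(m2 j / 2)) y) (kq j) 1 (-(11 / 13)) := by
  have ht0 : 0 < t := by linarith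
  have hr : ∀ z : ℝ, -1 < z → z < 1 →
      √(1 / 2 * (1 + 1 * z) * (13 / 8 * (1 + -(11 / 13) * z))) ≤ (17 / 8 - 7 * z / 8) / 2 ∧
      0 < √(1 / 2 * (1 + 1 * z) * (13 / 8 * (1 + -(11 / 13) * z))) := by
    intro z h1 h2
    constructor
    · have h3 := Seg_am (s := 1 / 2 * (1 + 1 * z)) (w := 13 / 8 * (1 + -(11 / 13) * z))
        (by linarith) (by linarith)
      refine h3.trans (le_of_eq ?_)
      ring
    · exact Real.sqrt_pos.2 (mul_pos (by linarith) (by linarith))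
  refine ⟨by norm_num, by norm_num [abs_le], ?_, Or.inr ?_⟩
  · intro z h1 h2
    obtain ⟨h3, h4⟩ := hr z h1 h2
    rw [seg_pt ht0, Seg_kq1, Seg_kq2]
    have hm : (-(m1 j / 2) + -m1 j * (1 / 2 * (1 * z))) ^ 2 +
        (-(m2 j / 2) + -m2 j * (1 / 2 * (1 * z))) ^ 2 = (1 / 2 * (1 + 1 * z)) ^ 2 := by
      have h5 := Seg_m j
      calc _ = (m1 j ^ 2 + m2 j ^ 2) * (1 / 2 * (1 + 1 * z)) ^ 2 := by ring
        _ = _ := by rw [h5, one_mul]
    have h6 : (13 / 8 * (1 + -(11 / 13) * z) +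
        √(1 / 2 * (1 + 1 * z) * (13 / 8 * (1 + -(11 / 13) * z)))) * (1 / 2 * (1 + 1 * z)) < 5 := by
      have h7 : 13 / 8 * (1 + -(11 / 13) * z) +
        √(1 / 2 * (1 + 1 * z) * (13 / 8 * (1 + -(11 / 13) * z))) ≤ 9 / 2 := by linarith
      have h8 : 1 / 2 * (1 + 1 * z) ≤ 1 := by linarith
      have h9 := mul_le_mul h7 h8 (by linarith) (by norm_num)
      linarith
    refine good_pt ht (by linarith) (by linarith) (by linarith) h6 ?_
    rw [hm]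
    have h10 := mul_lt_mul_of_pos_right h6 (by linarith : (0 : ℝ) < 1 / 2 * (1 + 1 * z))
    calc _ = (13 / 8 * (1 + -(11 / 13) * z) +
        √(1 / 2 * (1 + 1 * z) * (13 / 8 * (1 + -(11 / 13) * z)))) * (1 / 2 * (1 + 1 * z)) *
          (1 / 2 * (1 + 1 * z)) := by ring
      _ < _ := h10
  · intro z h1 h2
    obtain ⟨h3, h4⟩ := hr z h1 h2
    rw [seg_pt ht0]
    refine cross_pt ht0 (by linarith) (by linarith) ?_
    rw [Seg_kq1, Seg_kq2]
    have hm : (-m1 j * (1 / 2 * (1 + 1 * z)) - (-(m1 j / 2) + -m1 j * (1 / 2 * (1 * z)))) ^ 2 +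
        (-m2 j * (1 / 2 * (1 + 1 * z)) - (-(m2 j / 2) + -m2 j * (1 / 2 * (1 * z)))) ^ 2 = 0 := by
      ring
    rw [hm, mul_zero]
    exact mul_pos (by norm_num) (mul_pos h4 (by linarith))

theorem segC {t : ℝ} (ht : 1 ≤ t) (j : Bool) (y : ℝ) :
    SegOK (t ^ 2) (pt t (3 / 2) (3 / 8) (m1 j / 2) (m2 j / 2) y) (kq j) (1 / 3) (1 / 3) := by
  have ht0 : 0 < t := by linarith
  refine ⟨by norm_num [abs_le], by norm_num [abs_le], ?_, Or.inl rfl⟩
  intro z h1 h2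
  rw [seg_pt ht0, Seg_kq1, Seg_kq2]
  have hr := Seg_quarter (s := 3 / 2 * (1 + 1 / 3 * z)) (w := 3 / 8 * (1 + 1 / 3 * z))
    (by linarith) (by ring)
  have hm : (m1 j / 2 + -m1 j * (3 / 2 * (1 / 3 * z))) ^ 2 +
      (m2 j / 2 + -m2 j * (3 / 2 * (1 / 3 * z))) ^ 2 = ((1 - z) / 2) ^ 2 := by
    have h5 := Seg_m j
    calc _ = (m1 j ^ 2 + m2 j ^ 2) * ((1 - z) / 2) ^ 2 := by ring
      _ = _ := by rw [h5, one_mul]
  refine good_pt ht (by linarith) (by linarith) (by linarith) ?_ ?_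
  · rw [hr]
    nlinarith
  · rw [hr, hm]
    have h6 : ((1 - z) / 2) ^ 2 ≤ 1 := by nlinarith
    have h7 : 0 < 3 / 8 * (1 + 1 / 3 * z) + 3 / 2 * (1 + 1 / 3 * z) / 2 := by linarith
    have h8 := mul_le_mul_of_nonneg_left h6 h7.le
    linarith

theorem segD {t : ℝ} (ht : 1 ≤ t) (j : Bool) (y : ℝ) :
    SegOK (t ^ 2) (pt t 1 (1 / 4) (-(m1 j)) (-(m2 j)) y) (kp j) 1 1 := by
  have ht0 : 0 < t := by linarith
  refine ⟨by norm_num, by norm_num, ?_, Or.inl rfl⟩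
  intro z h1 h2
  rw [seg_pt ht0, Seg_kp1, Seg_kp2]
  have hr := Seg_quarter (s := 1 * (1 + 1 * z)) (w := 1 / 4 * (1 + 1 * z))
    (by linarith) (by ring)
  have hm : (-m1 j + m1 j * (1 * (1 * z))) ^ 2 + (-m2 j + m2 j * (1 * (1 * z))) ^ 2 =
      (1 - z) ^ 2 := by
    have h5 := Seg_m j
    calc _ = (m1 j ^ 2 + m2 j ^ 2) * (1 - z) ^ 2 := by ring
      _ = _ := by rw [h5, one_mul]
  refine good_pt ht (by linarith) (by linarith) (by linarith) ?_ ?_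
  · rw [hr]
    nlinarith
  · rw [hr, hm]
    have h6 : (1 - z) ^ 2 ≤ 4 := by nlinarith
    have h7 : 0 < 1 / 4 * (1 + 1 * z) + 1 * (1 + 1 * z) / 2 := by linarith
    have h8 := mul_le_mul_of_nonneg_left h6 h7.le
    linarith

theorem segE {t : ℝ} (ht : 1 ≤ t) (j : Bool) (y : ℝ) :
    SegOK (t ^ 2) (pt t 1 (1 / 4) (m1 j) (m2 j) y) (kq j) 1 1 := by
  have ht0 : 0 < t := by linarith
  refine ⟨by norm_num, by norm_num, ?_, Or.inl rfl⟩
  intro z h1 h2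
  rw [seg_pt ht0, Seg_kq1, Seg_kq2]
  have hr := Seg_quarter (s := 1 * (1 + 1 * z)) (w := 1 / 4 * (1 + 1 * z))
    (by linarith) (by ring)
  have hm : (m1 j + -m1 j * (1 * (1 * z))) ^ 2 + (m2 j + -m2 j * (1 * (1 * z))) ^ 2 =
      (1 - z) ^ 2 := by
    have h5 := Seg_m j
    calc _ = (m1 j ^ 2 + m2 j ^ 2) * (1 - z) ^ 2 := by ring
      _ = _ := by rw [h5, one_mul]
  refine good_pt ht (by linarith) (by linarith) (by linarith) ?_ ?_
  · rw [hr]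
    nlinarith
  · rw [hr, hm]
    have h6 : (1 - z) ^ 2 ≤ 4 := by nlinarith
    have h7 : 0 < 1 / 4 * (1 + 1 * z) + 1 * (1 + 1 * z) / 2 := by linarith
    have h8 := mul_le_mul_of_nonneg_left h6 h7.le
    linarith

end Pool.Agent.helper12.BR
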