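import Pool.Agent.helper12.BR.Split
import Pool.Agent.helper12.BR.Seg

/-!
# BR-Block: one block (proofs: helper59)

PROOFS.  `Rlz.congr`: immediate.  `Rlz.mono`: the same fields; `Good.mono`, and `Bp` for the smaller potential (`pot_anti`, `Q_mono`).
`block`: five splits.  `e = ye (kp j) = ye (kq j)` (0 or 1).  From `L = pt t 1 1 0 0 y` (probability `p`) by `segA`, `seg_pt`: `a₊ = pt t (3/2) (3/8) (m1/2) (m2/2) (y + e t/2)`, `a₋ = pt t (1/2) (13/8) (-m1/2) (-m2/2) (y - e t/2)`.  From `a₋` by `segB`: `z = 1`: `pt t 1 (1/4) (-m1) (-m2) y`,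
`z = -1`: `pt t 0 3 0 0 (y - e t)`.  From `a₊` by `segC`: `pt t 2 (1/2) 0 0 (y + e t)`, `pt t 1 (1/4) m1 m2 y`.  From `pt t 1 (1/4) (∓m1) (∓m2) y` by `segD`, `segE`: `pt t 2 (1/2) 0 0 (y + e t)` and `pt t 0 0 (∓2 m1) (∓2 m2) (y - e t)`.
(`mu₁ (kp j) = m1 j`, `mu₁ (kq j) = -m1 j`, etc.)  Between the splits reorder the list with `Rlz.congr` (`ev` of a list is a sum; `simp [ev]`, `ring`) and check that all other states differ from the one which is split: the states in `l` have `s = 0` (coordinate 0), the others by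
coordinate 0 (`t/2, t, 3t/2, 2t, 0`), and `D` against `E` by coordinates 2, 3.  `pt t 2 (1/2) 0 0 y' = pt (2 t) 1 1 0 0 y'`.  Merge the three atoms with this state: `p/4 + p/8 + p/8 = p/2`.  Finally `Rlz.mono` from `t²` to `(2 t)²`.
-/

set_option autoImplicit false

open MeasureTheory FourierTransform
open scoped ENNReal InnerProductSpace ComplexConjugate

namespace Pool.Agent.helper12.BR

open Pool.Agent.helper12.RT
open Pool.Agent.helper12.AI (beurlingSymbol)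

variable {n : ℕ}

private theorem Block_bmr {φ : H 2} {N D δ Q Q' : ℝ} {F : E 2 → W} (hF : Fld φ N D δ Q F)
    (hQ : 0 < Q) (hQ' : Q ≤ Q') : BMr fun x => pot Q' (F x 0) (F x 1) := by
  obtain ⟨c, hc, hc'⟩ := hF.pos
  have h0 : Continuous fun x => F x 0 := (hF.ap 0).cont
  have h1 : Continuous fun x => F x 1 := (hF.ap 1).cont
  refine ⟨?_, 5 / c, ?_⟩
  · have : Continuous fun x => pot Q' (F x 0) (F x 1) := by
      unfold pot
      fun_prop
    exact this.measurable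
  · intro x
    have hg := (hF.good x).mono hQ hQ'
    have h2 : 0 ≤ pot Q' (F x 0) (F x 1) := by
      unfold pot
      have := hg.w_pos
      positivity
    rw [abs_of_nonneg h2, le_div_iff₀ hc]
    exact (mul_le_mul_of_nonneg_left (hc' x).1 h2).trans hg.ps.le

private theorem Block_evc (q : ℝ × W) (l : List (ℝ × W)) (G : W → ℝ) :
    ev (q :: l) G = q.1 * G q.2 + ev l G := by
  simp [ev]

private theorem Block_c0 (t s w x₁ x₂ y : ℝ) : pt t s w x₁ x₂ y 0 = t * s := rfl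

private theorem Block_c2 (t s w x₁ x₂ y : ℝ) : pt t s w x₁ x₂ y 2 = t * x₁ := rfl

private theorem Block_c3 (t s w x₁ x₂ y : ℝ) : pt t s w x₁ x₂ y 3 = t * x₂ := rfl

private theorem Block_ne {t : ℝ} (ht : 0 < t) {s s' w w' x₁ x₁' x₂ x₂' y y' : ℝ} (h : s ≠ s') :
    pt t s w x₁ x₂ y ≠ pt t s' w' x₁' x₂' y' := by
  intro he
  have h0 := congrFun he 0
  rw [Block_c0, Block_c0] at h0
  exact h (mul_left_cancel₀ ht.ne' h0)

private theorem Block_neL {t : ℝ} (ht : 0 < t) {l : List (ℝ × W)} (hl : ∀ q ∈ l, q.2 0 = 0)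
    {s w x₁ x₂ y : ℝ} (hs : s ≠ 0) : ∀ q ∈ l, q.2 ≠ pt t s w x₁ x₂ y := by
  intro q hq he
  have h0 := hl q hq
  rw [he, Block_c0] at h0
  exact (mul_ne_zero ht.ne' hs) h0

private theorem Block_neX {t : ℝ} (ht : 0 < t) (j : Bool) {s w y s' w' y' : ℝ} :
    pt t s w (m1 j) (m2 j) y ≠ pt t s' w' (-(m1 j)) (-(m2 j)) y' := by
  intro he
  have h2 := congrFun he 2
  have h3 := congrFun he 3
  rw [Block_c2, Block_c2] at h2
  rw [Block_c3, Block_c3] at h3
  have h2' := mul_left_cancel₀ ht.ne' h2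
  have h3' := mul_left_cancel₀ ht.ne' h3
  cases j
  · norm_num [m1] at h2'
  · norm_num [m2] at h3'

private theorem Block_kp1 (j : Bool) : mu₁ (kp j) = m1 j := by
  cases j <;> simp [mu₁, kp, m1]

private theorem Block_kp2 (j : Bool) : mu₂ (kp j) = m2 j := by
  cases j <;> simp [mu₂, kp, m2]

private theorem Block_kq1 (j : Bool) : mu₁ (kq j) = -m1 j := by
  cases j <;> simp [mu₁, kq, m1]

private theorem Block_kq2 (j : Bool) : mu₂ (kq j) = -m2 j := by
  cases j <;> simp [mu₂, kq, m2]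

private theorem Block_ye (j : Bool) : ye (kq j) = ye (kp j) := by
  cases j <;> simp [ye, kp, kq]

private theorem Block_pt {t s w x₁ x₂ y s' w' x₁' x₂' y' : ℝ} (h0 : s = s') (h1 : w = w')
    (h2 : x₁ = x₁') (h3 : x₂ = x₂') (h4 : y = y') :
    pt t s w x₁ x₂ y = pt t s' w' x₁' x₂' y' := by
  rw [h0, h1, h2, h3, h4]

theorem Rlz.congr {φ : H 2} {δ Q : ℝ} {l l' : List (ℝ × W)} (h : Rlz φ δ Q l)
    (hl : ∀ G : W → ℝ, ev l G = ev l' G) : Rlz φ δ Q l' := by
  intro G hG ε hε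
  obtain ⟨F, hF, h1⟩ := h G hG ε hε
  refine ⟨F, hF, ?_⟩
  rw [← hl G]
  exact h1

theorem Rlz.mono {φ : H 2} {δ Q Q' : ℝ} {l : List (ℝ × W)} (h : Rlz φ δ Q l) (hQ : 0 < Q)
    (hQ' : Q ≤ Q') : Rlz φ δ Q' l := by
  intro G hG ε hε
  obtain ⟨F, hF, h1⟩ := h G hG ε hε
  refine ⟨F, ?_, h1⟩
  exact
    { ap := hF.ap
      pos := hF.pos
      good := fun x => (hF.good x).mono hQ hQ'
      bp := by
        intro u
        refine le_trans ?_ (hF.bp u)
        apply Q_mono (Block_bmr hF hQ hQ') (Block_bmr hF hQ le_rfl)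
        intro x
        exact pot_anti hQ hQ' (hF.good x).s_pos.le (hF.good x).w_pos.le
      ds := hF.ds
      dw := hF.dw
      lo := hF.lo }

theorem block {φ : H 2} {r : ℝ} (hr : 0 ≤ r) (hφ : Supp (Metric.closedBall (dir 0) r) φ) {δ : ℝ}
    (j : Bool) {t : ℝ} (ht : 1 ≤ t) {p y : ℝ} {l : List (ℝ × W)} (hl : ∀ q ∈ l, q.2 0 = 0)
    (h : Rlz φ δ (t ^ 2) ((p, pt t 1 1 0 0 y) :: l)) :
    Rlz φ δ ((2 * t) ^ 2) ((p / 2, pt (2 * t) 1 1 0 0 (y + ye (kp j) * t)) ::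
      (p / 4, pt t 0 3 0 0 (y - ye (kp j) * t)) ::
      (p / 8, pt t 0 0 (-2 * m1 j) (-2 * m2 j) (y - ye (kp j) * t)) ::
      (p / 8, pt t 0 0 (2 * m1 j) (2 * m2 j) (y - ye (kp j) * t)) :: l) := by
  have ht0 : 0 < t := by linarith
  have hQ : 0 < t ^ 2 := by positivity
  obtain ⟨e, he⟩ : ∃ e, e = ye (kp j) := ⟨_, rfl⟩
  have he' : ye (kq j) = e := by rw [Block_ye, he]
  rw [← he]
  -- step A
  have hA := split hr hφ hQ h (Block_neL ht0 hl one_ne_zero) (segA ht j y)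
  have a1 : seg (kp j) (1 / 2) (-(5 / 8)) (pt t 1 1 0 0 y) 1 =
      pt t (3 / 2) (3 / 8) (m1 j / 2) (m2 j / 2) (y + e * t / 2) := by
    rw [seg_pt ht0, Block_kp1, Block_kp2, ← he]
    apply Block_pt <;> ring
  have a2 : seg (kp j) (1 / 2) (-(5 / 8)) (pt t 1 1 0 0 y) (-1) =
      pt t (1 / 2) (13 / 8) (-(m1 j / 2)) (-(m2 j / 2)) (y - e * t / 2) := by
    rw [seg_pt ht0, Block_kp1, Block_kp2, ← he]
    apply Block_pt <;> ring
  rw [a1, a2] at hA
  have hA' := hA.congr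
    (l' := (p / 2, pt t (1 / 2) (13 / 8) (-(m1 j / 2)) (-(m2 j / 2)) (y - e * t / 2)) ::
      (p / 2, pt t (3 / 2) (3 / 8) (m1 j / 2) (m2 j / 2) (y + e * t / 2)) :: l)
    (fun G => by
      simp only [Block_evc]
      ring)
  -- step B
  have hB := split hr hφ hQ hA' (by
    intro q hq
    rcases List.mem_cons.1 hq with rfl | hq
    · exact Block_ne ht0 (by norm_num)
    · exact Block_neL ht0 hl (by norm_num) q hq) (segB ht j (y - e * t / 2))
  have b1 : seg (kq j) 1 (-(11 / 13)) (pt t (1 / 2) (13 / 8) (-(m1 j / 2)) (-(m2 j / 2))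
      (y - e * t / 2)) 1 = pt t 1 (1 / 4) (-(m1 j)) (-(m2 j)) y := by
    rw [seg_pt ht0, Block_kq1, Block_kq2, he']
    apply Block_pt <;> ring
  have b2 : seg (kq j) 1 (-(11 / 13)) (pt t (1 / 2) (13 / 8) (-(m1 j / 2)) (-(m2 j / 2))
      (y - e * t / 2)) (-1) = pt t 0 3 0 0 (y - e * t) := by
    rw [seg_pt ht0, Block_kq1, Block_kq2, he']
    apply Block_pt <;> ring
  rw [b1, b2] at hB
  have hB' := hB.congr
    (l' := (p / 2, pt t (3 / 2) (3 / 8) (m1 j / 2) (m2 j / 2) (y + e * t / 2)) ::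
      (p / 2 / 2, pt t 1 (1 / 4) (-(m1 j)) (-(m2 j)) y) ::
      (p / 2 / 2, pt t 0 3 0 0 (y - e * t)) :: l)
    (fun G => by
      simp only [Block_evc]
      ring)
  -- step C
  have hC := split hr hφ hQ hB' (by
    intro q hq
    rcases List.mem_cons.1 hq with rfl | hq
    · exact Block_ne ht0 (by norm_num)
    rcases List.mem_cons.1 hq with rfl | hq
    · exact Block_ne ht0 (by norm_num)
    · exact Block_neL ht0 hl (by norm_num) q hq) (segC ht j (y + e * t / 2))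
  have c1 : seg (kq j) (1 / 3) (1 / 3) (pt t (3 / 2) (3 / 8) (m1 j / 2) (m2 j / 2)
      (y + e * t / 2)) 1 = pt t 2 (1 / 2) 0 0 (y + e * t) := by
    rw [seg_pt ht0, Block_kq1, Block_kq2, he']
    apply Block_pt <;> ring
  have c2 : seg (kq j) (1 / 3) (1 / 3) (pt t (3 / 2) (3 / 8) (m1 j / 2) (m2 j / 2)
      (y + e * t / 2)) (-1) = pt t 1 (1 / 4) (m1 j) (m2 j) y := by
    rw [seg_pt ht0, Block_kq1, Block_kq2, he']
    apply Block_pt <;> ring
  rw [c1, c2] at hC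
  have hC' := hC.congr
    (l' := (p / 2 / 2, pt t 1 (1 / 4) (-(m1 j)) (-(m2 j)) y) ::
      (p / 2 / 2, pt t 2 (1 / 2) 0 0 (y + e * t)) ::
      (p / 2 / 2, pt t 1 (1 / 4) (m1 j) (m2 j) y) ::
      (p / 2 / 2, pt t 0 3 0 0 (y - e * t)) :: l)
    (fun G => by
      simp only [Block_evc]
      ring)
  -- step D
  have hD := split hr hφ hQ hC' (by
    intro q hq
    rcases List.mem_cons.1 hq with rfl | hq
    · exact Block_ne ht0 (by norm_num)
    rcases List.mem_cons.1 hq with rfl | hq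
    · exact Block_neX ht0 j
    rcases List.mem_cons.1 hq with rfl | hq
    · exact Block_ne ht0 (by norm_num)
    · exact Block_neL ht0 hl (by norm_num) q hq) (segD ht j y)
  have d1 : seg (kp j) 1 1 (pt t 1 (1 / 4) (-(m1 j)) (-(m2 j)) y) 1 =
      pt t 2 (1 / 2) 0 0 (y + e * t) := by
    rw [seg_pt ht0, Block_kp1, Block_kp2, ← he]
    apply Block_pt <;> ring
  have d2 : seg (kp j) 1 1 (pt t 1 (1 / 4) (-(m1 j)) (-(m2 j)) y) (-1) =
      pt t 0 0 (-2 * m1 j) (-2 * m2 j) (y - e * t) := by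
    rw [seg_pt ht0, Block_kp1, Block_kp2, ← he]
    apply Block_pt <;> ring
  rw [d1, d2] at hD
  have hD' := hD.congr
    (l' := (p / 2 / 2, pt t 1 (1 / 4) (m1 j) (m2 j) y) ::
      (p / 2 / 2 + p / 2 / 2 / 2, pt t 2 (1 / 2) 0 0 (y + e * t)) ::
      (p / 2 / 2 / 2, pt t 0 0 (-2 * m1 j) (-2 * m2 j) (y - e * t)) ::
      (p / 2 / 2, pt t 0 3 0 0 (y - e * t)) :: l)
    (fun G => by
      simp only [Block_evc]
      ring)
  -- step E
  have hE := split hr hφ hQ hD' (by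
    intro q hq
    rcases List.mem_cons.1 hq with rfl | hq
    · exact Block_ne ht0 (by norm_num)
    rcases List.mem_cons.1 hq with rfl | hq
    · exact Block_ne ht0 (by norm_num)
    rcases List.mem_cons.1 hq with rfl | hq
    · exact Block_ne ht0 (by norm_num)
    · exact Block_neL ht0 hl (by norm_num) q hq) (segE ht j y)
  have e1 : seg (kq j) 1 1 (pt t 1 (1 / 4) (m1 j) (m2 j) y) 1 =
      pt t 2 (1 / 2) 0 0 (y + e * t) := by
    rw [seg_pt ht0, Block_kq1, Block_kq2, he']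
    apply Block_pt <;> ring
  have e2 : seg (kq j) 1 1 (pt t 1 (1 / 4) (m1 j) (m2 j) y) (-1) =
      pt t 0 0 (2 * m1 j) (2 * m2 j) (y - e * t) := by
    rw [seg_pt ht0, Block_kq1, Block_kq2, he']
    apply Block_pt <;> ring
  rw [e1, e2] at hE
  have hlast : pt (2 * t) 1 1 0 0 (y + e * t) = pt t 2 (1 / 2) 0 0 (y + e * t) := by
    funext i
    fin_cases i
    · show 2 * t * 1 = t * 2
      ring
    · show 1 / (2 * t) = 1 / 2 / t
      rw [div_div]
    · show 2 * t * 0 = t * 0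
      ring
    · show 2 * t * 0 = t * 0
      ring
    · rfl
  have hF := hE.congr
    (l' := (p / 2, pt (2 * t) 1 1 0 0 (y + e * t)) ::
      (p / 4, pt t 0 3 0 0 (y - e * t)) ::
      (p / 8, pt t 0 0 (-2 * m1 j) (-2 * m2 j) (y - e * t)) ::
      (p / 8, pt t 0 0 (2 * m1 j) (2 * m2 j) (y - e * t)) :: l)
    (fun G => by
      rw [hlast]
      simp only [Block_evc]
      ring)
  refine hF.mono hQ ?_
  nlinarith

end Pool.Agent.helper12.BR
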