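import Pool.Agent.helper12.BR.Qc

/-!
# BR-BpPert: small perturbations of the fields in the operator inequality

PROOF.  `D' u = Dx m s' x₁' x₂' u = D u + e` with `e = T m (Mr (s' - s) u) - (Mr (x₁' - x₁) u + i Mr (x₂' - x₂) u)`, `‖e‖ ≤ 4 η ‖u‖` (`T_norm2`, `Mr_norm_le`), `‖D u‖ ≤ 4 B ‖u‖` (`Dx_norm`).  `Q p' (D' u) ≤ Q p (D' u) + η ‖D' u‖²`,
`Q p (D' u) ≤ Q p (D u) + B ‖e‖ (‖D u‖ + ‖D' u‖)` (`Q_sub_abs`), so `Q p' (D' u) ≤ N Q s u + C η ‖u‖²`, `Q s u ≤ Q s' u + η ‖u‖²`, and `‖u‖² ≤ (2 / c) Q s' u` for `η ≤ c / 2` (`Q_ge`).  Choose `η`.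
-/

set_option autoImplicit false

open MeasureTheory FourierTransform
open scoped ENNReal InnerProductSpace ComplexConjugate

namespace Pool.Agent.helper12.BR

open Pool.Agent.helper12.RT
open Pool.Agent.helper12.AI (beurlingSymbol)

variable {n : ℕ}

theorem bp_pert {L : ℝ} {B c N : ℝ} (hB : 0 ≤ B) (hc : 0 < c) (hN : 0 ≤ N) :
    ∀ ε > 0, ∃ η : ℝ, 0 < η ∧ ∀ m : E n → ℂ, SymC L m → ∀ s s' x₁ x₁' x₂ x₂' p p' : E n → ℝ,
      BMr s → BMr s' → BMr x₁ → BMr x₁' → BMr x₂ → BMr x₂' → BMr p → BMr p' →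
      (∀ x, |s x| ≤ B ∧ |x₁ x| ≤ B ∧ |x₂ x| ≤ B ∧ |p x| ≤ B) → (∀ x, c ≤ s x) →
      (∀ x, 0 ≤ p x) → (∀ x, 0 ≤ p' x) →
      (∀ x, |s x - s' x| ≤ η ∧ |x₁ x - x₁' x| ≤ η ∧ |x₂ x - x₂' x| ≤ η ∧ |p x - p' x| ≤ η) →
      Bp m s x₁ x₂ p N → Bp m s' x₁' x₂' p' (N + ε) := by
  intro ε hε
  set K₁ : ℝ := 4 * B * (8 * B + 4) + (4 * B + 4) ^ 2 with hK₁
  have hK₁0 : 0 < K₁ := by positivity
  set η : ℝ := min 1 (min (c / 2) (ε * c / (2 * (K₁ + N)))) with hη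
  have hKN : 0 < K₁ + N := by linarith
  have hη0 : 0 < η := by positivity
  have hη1 : η ≤ 1 := min_le_left _ _
  have hη2 : η ≤ c / 2 := (min_le_right _ _).trans (min_le_left _ _)
  have hη3 : η ≤ ε * c / (2 * (K₁ + N)) := (min_le_right _ _).trans (min_le_right _ _)
  refine ⟨η, hη0, ?_⟩
  intro m hm s s' x₁ x₁' x₂ x₂' p p' bs bs' b₁ b₁' b₂ b₂' bp bp' hBd hsc hp0 hp0' hd hB' u
  have hdiff : ∀ q q' : E n → ℝ, BMr q → BMr q' → (∀ x, |q x - q' x| ≤ η) →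
      ‖Mr q' u - Mr q u‖ ≤ η * ‖u‖ := by
    intro q q' bq bq' hq
    have e1 : Mr q' u - Mr q u = Mr (fun x => q' x - q x) u := by
      have h1 := Mr_add (bq'.sub bq) bq u
      have h2 : (fun x => q' x - q x + q x) = q' := by
        funext x
        ring
      rw [h2] at h1
      rw [h1]
      abel
    rw [e1]
    refine Mr_norm_le (bq'.sub bq) (fun x => ?_) u
    rw [abs_sub_comm]
    exact hq x
  set D : H n := Dx m s x₁ x₂ u with hD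
  set D' : H n := Dx m s' x₁' x₂' u with hD'
  have e1 : D' - D = T m (Mr s' u - Mr s u) - ((Mr x₁' u - Mr x₁ u) +
      Complex.I • (Mr x₂' u - Mr x₂ u)) := by
    rw [hD, hD', Dx, Dx, map_sub, smul_sub]
    abel
  have n1 : ‖T m (Mr s' u - Mr s u)‖ ≤ 2 * (η * ‖u‖) :=
    (T_norm2 hm _).trans (mul_le_mul_of_nonneg_left (hdiff s s' bs bs' fun x => (hd x).1)
      (by norm_num))
  have n2 : ‖(Mr x₁' u - Mr x₁ u) + Complex.I • (Mr x₂' u - Mr x₂ u)‖ ≤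
      η * ‖u‖ + η * ‖u‖ := by
    refine (norm_add_le _ _).trans (add_le_add (hdiff x₁ x₁' b₁ b₁' fun x => (hd x).2.1) ?_)
    rw [norm_smul, Complex.norm_I, one_mul]
    exact hdiff x₂ x₂' b₂ b₂' fun x => (hd x).2.2.1
  have n3 : ‖D' - D‖ ≤ 4 * η * ‖u‖ := by
    rw [e1]
    calc _ ≤ _ := norm_sub_le _ _
      _ ≤ 2 * (η * ‖u‖) + (η * ‖u‖ + η * ‖u‖) := add_le_add n1 n2
      _ = _ := by ring
  have nu : 0 ≤ ‖u‖ := norm_nonneg _
  have n4 : ‖D‖ ≤ 4 * B * ‖u‖ :=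
    Dx_norm hm bs b₁ b₂ (fun x => ⟨(hBd x).1, (hBd x).2.1, (hBd x).2.2.1⟩) u
  have n5 : ‖D'‖ ≤ (4 * B + 4) * ‖u‖ := by
    have h1 : D' = D + (D' - D) := by abel
    rw [h1]
    refine (norm_add_le _ _).trans ?_
    have h2 : 4 * η * ‖u‖ ≤ 4 * ‖u‖ := by nlinarith
    linarith
  have q1 : Q p' D' ≤ Q p D' + η * ‖D'‖ ^ 2 := by
    have h1 : Q p' D' ≤ Q (fun x => p x + η * 1) D' := by
      refine Q_mono bp' (bp.add ((BMr.const η).mul (BMr.const 1))) (fun x => ?_) D'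
      have := (abs_le.1 (hd x).2.2.2).1
      linarith
    have h2 : Q (fun x => p x + η * 1) D' = Q p D' + η * ‖D'‖ ^ 2 := by
      rw [Q_add_fun bp ((BMr.const η).mul (BMr.const 1)), Q_smul_fun η (fun _ => (1 : ℝ)), Q_one]
    linarith
  have q2 : Q p D' ≤ Q p D + B * ‖D' - D‖ * (‖D'‖ + ‖D‖) := by
    have := (abs_le.1 (Q_sub_abs bp (fun x => (hBd x).2.2.2) D' D)).2
    linarith
  have q3 : B * ‖D' - D‖ * (‖D'‖ + ‖D‖) ≤ B * (4 * η * ‖u‖) * ((8 * B + 4) * ‖u‖) := by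
    have h1 : ‖D'‖ + ‖D‖ ≤ (8 * B + 4) * ‖u‖ := by
      have : (8 * B + 4) * ‖u‖ = (4 * B + 4) * ‖u‖ + 4 * B * ‖u‖ := by ring
      rw [this]
      exact add_le_add n5 n4
    exact mul_le_mul (mul_le_mul_of_nonneg_left n3 hB) h1 (by positivity) (by positivity)
  have q4 : η * ‖D'‖ ^ 2 ≤ η * ((4 * B + 4) * ‖u‖) ^ 2 := by gcongr
  have q5 : Q p D ≤ N * Q s u := hB' u
  have q6 : Q s u ≤ Q s' u + η * ‖u‖ ^ 2 := by
    have h1 : Q s u ≤ Q (fun x => s' x + η * 1) u := by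
      refine Q_mono bs (bs'.add ((BMr.const η).mul (BMr.const 1))) (fun x => ?_) u
      have := (abs_le.1 (hd x).1).2
      linarith
    have h2 : Q (fun x => s' x + η * 1) u = Q s' u + η * ‖u‖ ^ 2 := by
      rw [Q_add_fun bs' ((BMr.const η).mul (BMr.const 1)), Q_smul_fun η (fun _ => (1 : ℝ)), Q_one]
    linarith
  have hsum : Q p' D' ≤ N * Q s' u + η * (K₁ + N) * ‖u‖ ^ 2 := by
    have h1 : N * Q s u ≤ N * (Q s' u + η * ‖u‖ ^ 2) := mul_le_mul_of_nonneg_left q6 hN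
    have h2 : η * (K₁ + N) * ‖u‖ ^ 2 = N * (η * ‖u‖ ^ 2) + B * (4 * η * ‖u‖) *
        ((8 * B + 4) * ‖u‖) + η * ((4 * B + 4) * ‖u‖) ^ 2 := by
      rw [hK₁]
      ring
    rw [h2]
    linarith
  have hu : ‖u‖ ^ 2 ≤ 2 / c * Q s' u := by
    have h1 : ∀ x, c / 2 ≤ s' x := fun x => by
      have h2 := (abs_le.1 (hd x).1).2
      have h3 := hsc x
      linarith
    have := Q_ge bs' h1 u
    rw [div_mul_eq_mul_div, le_div_iff₀ hc]
    linarith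
  have hQ : 0 ≤ ‖u‖ ^ 2 := by positivity
  have hcoef : η * (K₁ + N) ≤ ε * c / 2 := by
    calc η * (K₁ + N) ≤ ε * c / (2 * (K₁ + N)) * (K₁ + N) :=
          mul_le_mul_of_nonneg_right hη3 hKN.le
      _ = ε * c / 2 := by
          field_simp
  calc Q p' D' ≤ N * Q s' u + η * (K₁ + N) * ‖u‖ ^ 2 := hsum
    _ ≤ N * Q s' u + ε * c / 2 * ‖u‖ ^ 2 := by gcongr
    _ ≤ N * Q s' u + ε * c / 2 * (2 / c * Q s' u) := by gcongr
    _ = (N + ε) * Q s' u := by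
        field_simp

end Pool.Agent.helper12.BR
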