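import Pool.Agent.helper12.BR.Block

/-!
# BR-Chain: many blocks

PROOF.  Induction on `J`, with two blocks (`j = false`, then `j = true`) in each step.  `J = 0`: `l = []`.  Step: `t = 4^J ≥ 1`, `p = (1/4)^J`, `y = 2 (4^J - 1)/3`.  Block `false`: `ye = 0`, live state `pt (2 t) 1 1 0 0 y`, probability `p/2`; block `true` (`ye = 1`, scale `2 t`): live state `pt (4 t) 1 1 0 0 (y + 2 t)`, probability `p/4`,
`y + 2 t = 2 (4^(J+1) - 1)/3`.  New dead states: block `false`: `(p/4, pt t 0 3 0 0 y)` (contributes `≥ 0` to `w y²` and `(p/4)(3/t) = (3/4) 16^(-J)` to `w`), two with `w = 0`; block `true`: `(p/8, pt (2 t) 0 3 0 0 (y - 2 t))`: `w y² = (p/8) (3/(2 t)) (y - 2 t)²`, where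
`y - 2 t = -(4 · 4^J + 2)/3`, so its square is at least `16 · 16^J / 9` and the product is at least `3 · 16 /(16 · 9) = 1/3`; it contributes `(p/8)(3/(2t)) = (3/16) 16^(-J)` to `w`.  `1 - 16^(-J) + (3/4 + 3/16) 16^(-J) = 1 - 16^(-(J+1))`.  All dead states have `s = 0` (coordinate 0).
-/

set_option autoImplicit false

open MeasureTheory FourierTransform
open scoped ENNReal InnerProductSpace ComplexConjugate

namespace Pool.Agent.helper12.BR

open Pool.Agent.helper12.RT
open Pool.Agent.helper12.AI (beurlingSymbol)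

variable {n : ℕ}

private theorem Chain_ev_cons (q : ℝ × W) (l : List (ℝ × W)) (G : W → ℝ) :
    ev (q :: l) G = q.1 * G q.2 + ev l G := by
  simp [ev]

theorem chain {φ : H 2} {r : ℝ} (hr : 0 ≤ r) (hφ : Supp (Metric.closedBall (dir 0) r) φ) {δ : ℝ}
    (h0 : Rlz φ δ 1 [(1, pt 1 1 1 0 0 0)]) (J : ℕ) :
    ∃ l : List (ℝ × W), (∀ q ∈ l, q.2 0 = 0) ∧
      Rlz φ δ (((4 : ℝ) ^ J) ^ 2) (((1 / 4) ^ J, pt (4 ^ J) 1 1 0 0 (2 * (4 ^ J - 1) / 3)) :: l) ∧
      (J : ℝ) / 3 ≤ ev l (fun v => v 1 * v 4 ^ 2) ∧ ev l (fun v => v 0) = 0 ∧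
      ev l (fun v => v 1) ≤ 1 - (1 / 16) ^ J := by
  induction J with
  | zero =>
    refine ⟨[], by simp, ?_, by simp [ev], by simp [ev], by simp [ev]⟩
    simpa using h0
  | succ J ih =>
    obtain ⟨l, hl, hR, h1, h2, h3⟩ := ih
    obtain ⟨t, ht⟩ : ∃ t : ℝ, t = 4 ^ J := ⟨_, rfl⟩
    obtain ⟨p, hp⟩ : ∃ p : ℝ, p = (1 / 4) ^ J := ⟨_, rfl⟩
    have ht1 : 1 ≤ t := by
      rw [ht]
      exact one_le_pow₀ (by norm_num)
    have hp0 : 0 < p := by
      rw [hp]
      positivity
    have hpt : p * t = 1 := by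
      rw [hp, ht, ← mul_pow]
      norm_num
    rw [← ht, ← hp] at hR
    have hye0 : ye (kp false) = 0 := by simp [ye, kp]
    have hye1 : ye (kp true) = 1 := by simp [ye, kp]
    have hb1 := block hr hφ false ht1 hl hR
    rw [hye0] at hb1
    simp only [zero_mul, add_zero, sub_zero] at hb1
    obtain ⟨l1, hl1⟩ : ∃ l1 : List (ℝ × W), l1 = (p / 4, pt t 0 3 0 0 (2 * (t - 1) / 3)) ::
      (p / 8, pt t 0 0 (-2 * m1 false) (-2 * m2 false) (2 * (t - 1) / 3)) ::
      (p / 8, pt t 0 0 (2 * m1 false) (2 * m2 false) (2 * (t - 1) / 3)) :: l := ⟨_, rfl⟩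
    rw [← hl1] at hb1
    have hl1' : ∀ q ∈ l1, q.2 0 = 0 := by
      intro q hq
      rw [hl1] at hq
      simp only [List.mem_cons] at hq
      rcases hq with hq | hq | hq | hq
      · rw [hq]; simp [pt]
      · rw [hq]; simp [pt]
      · rw [hq]; simp [pt]
      · exact hl q hq
    have ht2 : 1 ≤ 2 * t := by linarith
    have hb2 := block hr hφ true ht2 hl1' hb1
    rw [hye1] at hb2
    refine ⟨(p / 2 / 4, pt (2 * t) 0 3 0 0 (2 * (t - 1) / 3 - 1 * (2 * t))) ::
      (p / 2 / 8, pt (2 * t) 0 0 (-2 * m1 true) (-2 * m2 true)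
        (2 * (t - 1) / 3 - 1 * (2 * t))) ::
      (p / 2 / 8, pt (2 * t) 0 0 (2 * m1 true) (2 * m2 true)
        (2 * (t - 1) / 3 - 1 * (2 * t))) :: l1, ?_, ?_, ?_, ?_, ?_⟩
    rotate_left
    · have e1 : (2 * (2 * t)) ^ 2 = ((4 : ℝ) ^ (J + 1)) ^ 2 := by
        rw [ht]; ring
      have e2 : p / 2 / 2 = (1 / 4) ^ (J + 1) := by
        rw [hp]; ring
      have e3 : 2 * (2 * t) = 4 ^ (J + 1) := by
        rw [ht]; ring
      have e4 : 2 * (t - 1) / 3 + 1 * (2 * t) = 2 * (4 ^ (J + 1) - 1) / 3 := by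
        rw [ht]; ring
      rw [e1, e2, e3, e4] at hb2
      exact hb2
    · -- the mass of w y^2
      rw [Chain_ev_cons, Chain_ev_cons, Chain_ev_cons, hl1, Chain_ev_cons, Chain_ev_cons,
        Chain_ev_cons]
      simp only [pt, Matrix.cons_val_one, Matrix.cons_val_zero, Matrix.cons_val]
      have e1 : (1 : ℝ) / 3 ≤ p / 2 / 4 * (3 / (2 * t) * (2 * (t - 1) / 3 - 1 * (2 * t)) ^ 2) := by
        have ht0 : 0 < t := by linarith
        have e2 : p / 2 / 4 * (3 / (2 * t) * (2 * (t - 1) / 3 - 1 * (2 * t)) ^ 2) =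
            (p * t) * ((4 * t + 2) ^ 2 / (48 * t ^ 2)) := by
          field_simp
          ring
        rw [e2, hpt, one_mul, div_le_div_iff₀ (by norm_num) (by positivity)]
        nlinarith
      have e3 : 0 ≤ p / 4 * (3 / t * (2 * (t - 1) / 3) ^ 2) := by
        have ht0 : 0 < t := by linarith
        positivity
      push_cast
      simp only [zero_div, zero_mul, mul_zero, zero_add]
      linarith
    · rw [Chain_ev_cons, Chain_ev_cons, Chain_ev_cons, hl1, Chain_ev_cons, Chain_ev_cons,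
        Chain_ev_cons, h2]
      simp [pt]
    · rw [Chain_ev_cons, Chain_ev_cons, Chain_ev_cons, hl1, Chain_ev_cons, Chain_ev_cons,
        Chain_ev_cons]
      simp only [pt, Matrix.cons_val_one, Matrix.cons_val_zero, Matrix.cons_val]
      have e5 : p / 2 / 4 * (3 / (2 * t)) + p / 4 * (3 / t) = 15 / 16 * (1 / 16) ^ J := by
        have ht0 : 0 < t := by linarith
        have e6 : ((1 : ℝ) / 16) ^ J = p * p := by
          rw [hp, ← mul_pow]
          norm_num
        have e7 : 1 / t = p := by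
          rw [div_eq_iff ht0.ne', hpt]
        have e8 : p / 2 / 4 * (3 / (2 * t)) + p / 4 * (3 / t) = 15 / 16 * (p * (1 / t)) := by
          field_simp
          ring
        rw [e8, e7, e6]
      rw [pow_succ]
      simp only [zero_div, mul_zero, zero_add]
      linarith
    · intro q hq
      simp only [List.mem_cons] at hq
      rcases hq with hq | hq | hq | hq
      · rw [hq]; simp [pt]
      · rw [hq]; simp [pt]
      · rw [hq]; simp [pt]
      · exact hl1' q hq

end Pool.Agent.helper12.BR
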