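import Pool.Agent.helper12.BR.APb
import Pool.Agent.helper12.RT.Comm

/-!
# BR-CommP: commutators of periodic cut-offs with polynomials in the cosine

PROOF.  If `χ` is `lam • d`-periodic, then `Tr χ` commutes exactly with multiplication by `cs d lam` (`cs_eq`, `weyl`; see `Comm_per` in `RT/Comm.lean`), hence with multiplication by `cs^k`
(induction, `Mr_mul`).  So `Tr χ (Mr (p cs^k) u) - Mr (p cs^k) (Tr χ u) = (Tr χ (Mr p v) - Mr p (Tr χ v))` with `v = Mr (cs^k) u`, `‖v‖ ≤ ‖u‖`, and `comm_TPr` gives `C l ‖u‖` with `C` independent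
of `d, lam, χ`.  Sum over `k < r` (induction on `r`, `Mr_add`).
-/

set_option autoImplicit false

open MeasureTheory FourierTransform
open scoped ENNReal InnerProductSpace ComplexConjugate

namespace Pool.Agent.helper12.BR

open Pool.Agent.helper12.RT
open Pool.Agent.helper12.AI (beurlingSymbol)

variable {n : ℕ}

private theorem CommP_pow_abs (d : E n) (lam : ℝ) (k : ℕ) (x : E n) : |cs d lam x ^ k| ≤ 1 := by
  rw [abs_pow]
  exact pow_le_one₀ (abs_nonneg _) (cs_abs d lam x)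

private theorem CommP_pow_bmr (d : E n) (lam : ℝ) (k : ℕ) : BMr fun x => cs d lam x ^ k :=
  ⟨(Comm_cs_bmr d lam).1.pow_const k, 1, CommP_pow_abs d lam k⟩

private theorem CommP_cs {d : E n} {lam : ℝ} {χ : E n → ℝ} (hχ : BMr χ)
    (hper : ∀ ξ, χ (ξ + lam • d) = χ ξ) (u : H n) :
    Tr χ (Mr (cs d lam) u) = Mr (cs d lam) (Tr χ u) := by
  have hper' : ∀ ξ, χ (ξ + -(lam • d)) = χ ξ := by
    intro ξ
    have := hper (ξ + -(lam • d))
    rw [neg_add_cancel_right] at this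
    exact this.symm
  rw [Comm_Mr_cs, Comm_Mr_cs]
  simp only [map_add, map_smul]
  rw [← Comm_per hχ hper, ← Comm_per hχ hper']

private theorem CommP_pow {d : E n} {lam : ℝ} {χ : E n → ℝ} (hχ : BMr χ)
    (hper : ∀ ξ, χ (ξ + lam • d) = χ ξ) (k : ℕ) (u : H n) :
    Tr χ (Mr (fun x => cs d lam x ^ k) u) = Mr (fun x => cs d lam x ^ k) (Tr χ u) := by
  induction k with
  | zero =>
    simp only [pow_zero]
    rw [Mr_const, Mr_const, map_smul]
  | succ k ih =>
    have h : (fun x => cs d lam x ^ (k + 1)) = fun x => cs d lam x * cs d lam x ^ k := by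
      funext x
      rw [pow_succ']
    rw [h, Mr_mul (Comm_cs_bmr d lam) (CommP_pow_bmr d lam k),
      Mr_mul (Comm_cs_bmr d lam) (CommP_pow_bmr d lam k), CommP_cs hχ hper, ih]

private theorem CommP_poly_bmr {K : ℝ} {pk : ℕ → E n → ℝ} (h : ∀ k, TPr K (pk k)) (d : E n)
    (lam : ℝ) (r : ℕ) : BMr fun x => polyC pk r x (cs d lam x) := by
  induction r with
  | zero =>
    simp only [polyC, Finset.range_zero, Finset.sum_empty]
    exact BMr.const 0
  | succ r ih =>
    have h1 : (fun x => polyC pk (r + 1) x (cs d lam x)) =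
        fun x => polyC pk r x (cs d lam x) + pk r x * cs d lam x ^ r := by
      funext x
      simp only [polyC, Finset.sum_range_succ]
    rw [h1]
    exact ih.add ((h r).bmr.mul (CommP_pow_bmr d lam r))

theorem comm_poly {K : ℝ} {pk : ℕ → E n → ℝ} (h : ∀ k, TPr K (pk k)) (r : ℕ) :
    ∃ C : ℝ, 0 ≤ C ∧ ∀ (d : E n) (lam : ℝ) (χ : E n → ℝ) (l : ℝ), ‖d‖ = 1 → BMr χ → 0 ≤ l →
      (∀ ξ ζ, |χ ξ - χ ζ| ≤ l * ‖ξ - ζ‖) → (∀ ξ, χ (ξ + lam • d) = χ ξ) →
      ∀ u : H n, ‖Tr χ (Mr (fun x => polyC pk r x (cs d lam x)) u) -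
        Mr (fun x => polyC pk r x (cs d lam x)) (Tr χ u)‖ ≤ C * l * ‖u‖ := by
  induction r with
  | zero =>
    refine ⟨0, le_rfl, fun d lam χ l _ _ _ _ _ u => ?_⟩
    simp only [polyC, Finset.range_zero, Finset.sum_empty]
    rw [Mr_const, Mr_const, map_smul, sub_self, norm_zero]
    simp
  | succ r ih =>
    obtain ⟨C₁, hC₁, h₁⟩ := ih
    obtain ⟨C₂, hC₂, h₂⟩ := comm_TPr (h r)
    refine ⟨C₁ + C₂, add_nonneg hC₁ hC₂, fun d lam χ l hd hχ hl hlip hper u => ?_⟩
    have e1 : (fun x => polyC pk (r + 1) x (cs d lam x)) =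
        fun x => polyC pk r x (cs d lam x) + pk r x * cs d lam x ^ r := by
      funext x
      simp only [polyC, Finset.sum_range_succ]
    have hb := CommP_poly_bmr h d lam r
    have hp := (h r).bmr
    have hc := CommP_pow_bmr d lam r
    rw [e1, Mr_add hb (hp.mul hc), Mr_add hb (hp.mul hc), Mr_mul hp hc, Mr_mul hp hc, map_add,
      ← CommP_pow hχ hper r u, add_sub_add_comm]
    have i1 := h₁ d lam χ l hd hχ hl hlip hper u
    have i2 := h₂ χ l hχ hl hlip (Mr (fun x => cs d lam x ^ r) u)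
    have i3 : ‖Mr (fun x => cs d lam x ^ r) u‖ ≤ 1 * ‖u‖ :=
      Mr_norm_le hc (CommP_pow_abs d lam r) u
    rw [one_mul] at i3
    refine (norm_add_le _ _).trans ?_
    have i4 : C₂ * l * ‖Mr (fun x => cs d lam x ^ r) u‖ ≤ C₂ * l * ‖u‖ :=
      mul_le_mul_of_nonneg_left i3 (mul_nonneg hC₂ hl)
    calc _ ≤ C₁ * l * ‖u‖ + C₂ * l * ‖u‖ := add_le_add i1 (i2.trans i4)
      _ = (C₁ + C₂) * l * ‖u‖ := by ring

end Pool.Agent.helper12.BR
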