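import Pool.Agent.helper12.BR.APa
import Pool.Agent.helper12.RT.DoubB

/-!
# BR-DoubA: doubling for uniform limits of trigonometric polynomials

PROOFS.  `doub_pert`: `(1 - η) s ≤ s' ≤ (1 + η) s`, so `dens s' (cube x (2 r)) ≤ (1 + η) dens s (cube x (2 r)) ≤ (1 + η) D dens s (cube x r) ≤ (1 + η) D / (1 - η) dens s' (cube x r)` (`dens`: `withDensity_apply`, `cube_meas`, `lintegral_mono`,
`ENNReal.ofReal_mul`).  `doub_ap`: approximate `s`, `a` by trigonometric polynomials `s'`, `a'` (`|a'| ≤ 1/2`: take `q / (1 + 2 η)`), `doub_pert`, `doub_step` of `RT/DoubB.lean` for `s'`, `a'` and a constant slightly larger than `D`, and `doub_pert` again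
(the relative error of `s (1 + a cs)` is uniform in `lam`, because `s (1 + a cs) ≥ c / 2`).
-/

set_option autoImplicit false

open MeasureTheory FourierTransform
open scoped ENNReal InnerProductSpace ComplexConjugate

namespace Pool.Agent.helper12.BR

open Pool.Agent.helper12.RT
open Pool.Agent.helper12.AI (beurlingSymbol)

variable {n : ℕ}

private theorem DoubA_dens {s : E n → ℝ} (x : E n) (r : ℝ) :
    dens s (cube x r) = ∫⁻ y in cube x r, ENNReal.ofReal (s y) := by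
  rw [dens, withDensity_apply _ (cube_meas x r)]

private theorem DoubA_le {s t : E n → ℝ} {c : ℝ} (hc : 0 ≤ c) (h : ∀ x, t x ≤ c * s x)
    (x : E n) (r : ℝ) : dens t (cube x r) ≤ ENNReal.ofReal c * dens s (cube x r) := by
  rw [DoubA_dens, DoubA_dens, ← lintegral_const_mul' _ _ ENNReal.ofReal_ne_top]
  refine lintegral_mono fun y => ?_
  rw [← ENNReal.ofReal_mul hc]
  exact ENNReal.ofReal_le_ofReal (h y)

private theorem DoubA_mono {σ : Measure (E n)} {C C' : ℝ} (h : DoublingLe σ C) (hC : C ≤ C') :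
    DoublingLe σ C' := by
  intro x r hr
  refine (h x r hr).trans ?_
  gcongr

theorem doub_pert {s s' : E n → ℝ} {η D : ℝ} (hη : 0 ≤ η) (hη1 : η < 1) (hD : 0 ≤ D)
    (h : ∀ x, 0 ≤ s x ∧ |s' x - s x| ≤ η * s x) (hd : DoublingLe (dens s) D) :
    DoublingLe (dens s') (D * ((1 + η) / (1 - η))) := by
  have h1 : 0 < 1 - η := by linarith
  have hu : ∀ x, s' x ≤ (1 + η) * s x := by
    intro x
    have h2 := (abs_le.1 (h x).2).2
    linarith
  have hl : ∀ x, s x ≤ (1 - η)⁻¹ * s' x := by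
    intro x
    have h2 := (abs_le.1 (h x).2).1
    rw [inv_mul_eq_div, le_div_iff₀ h1]
    linarith
  intro x r hr
  calc dens s' (cube x (2 * r)) ≤ ENNReal.ofReal (1 + η) * dens s (cube x (2 * r)) :=
        DoubA_le (by linarith) hu x (2 * r)
    _ ≤ ENNReal.ofReal (1 + η) * (ENNReal.ofReal D * dens s (cube x r)) := by
        gcongr
        exact hd x r hr
    _ ≤ ENNReal.ofReal (1 + η) * (ENNReal.ofReal D *
          (ENNReal.ofReal ((1 - η)⁻¹) * dens s' (cube x r))) := by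
        gcongr
        exact DoubA_le (inv_nonneg.2 h1.le) hl x r
    _ = ENNReal.ofReal (D * ((1 + η) / (1 - η))) * dens s' (cube x r) := by
        rw [← mul_assoc, ← mul_assoc, ← ENNReal.ofReal_mul (by linarith),
          ← ENNReal.ofReal_mul (mul_nonneg (by linarith) hD)]
        congr 2
        rw [div_eq_mul_inv]
        ring

theorem doub_ap {s a : E n → ℝ} (hs : AP s) (ha : AP a) {c : ℝ} (hc : 0 < c)
    (hs0 : ∀ x, c ≤ s x) (ha1 : ∀ x, |a x| ≤ 1 / 2) {D : ℝ} (hD : 2 ^ (n + 3) ≤ D)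
    (h : DoublingLe (dens s) D) {d : E n} (hd : ‖d‖ = 1) :
    ∀ ε > 0, ∃ lam₀ : ℝ, ∀ lam ≥ lam₀,
      DoublingLe (dens fun x => s x * (1 + a x * cs d lam x)) (D + ε) := by
  intro ε hε
  have hD0 : 0 ≤ D := le_trans (by positivity) hD
  -- the choice of η
  obtain ⟨η, hη0, hη1, hηD⟩ : ∃ η : ℝ, 0 < η ∧ η < 1 / 100 ∧
      (D * ((1 + η) / (1 - η)) + ε / 2) * ((1 + 10 * η) / (1 - 10 * η)) ≤ D + ε := by
    have hc1 : ContinuousAt (fun η : ℝ => (D * ((1 + η) / (1 - η)) + ε / 2) *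
        ((1 + 10 * η) / (1 - 10 * η))) 0 := by
      have e1 : (1 : ℝ) - 0 ≠ 0 := by norm_num
      have e2 : (1 : ℝ) - 10 * 0 ≠ 0 := by norm_num
      fun_prop (disch := assumption)
    have h2 : (D * ((1 + (0 : ℝ)) / (1 - 0)) + ε / 2) * ((1 + 10 * 0) / (1 - 10 * 0)) <
        D + ε := by
      have e3 : (D * ((1 + (0 : ℝ)) / (1 - 0)) + ε / 2) * ((1 + 10 * 0) / (1 - 10 * 0)) =
          D + ε / 2 := by norm_num
      rw [e3]
      linarith
    have h3 := hc1.eventually_lt continuousAt_const h2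
    have h4 := (h3.filter_mono nhdsWithin_le_nhds).and
      (Ioo_mem_nhdsGT (show (0 : ℝ) < 1 / 100 by norm_num))
    obtain ⟨η, h5, h6⟩ := h4.exists
    exact ⟨η, h6.1, h6.2, h5.le⟩
  obtain ⟨K₁, s', hs', hss⟩ := hs (η * c) (mul_pos hη0 hc)
  obtain ⟨K₂, q, hq, haq⟩ := ha η hη0
  have hsη : ∀ x, |s x - s' x| ≤ η * s x := fun x =>
    (hss x).trans (mul_le_mul_of_nonneg_left (hs0 x) hη0.le)
  have hsnn : ∀ x, 0 ≤ s x := fun x => hc.le.trans (hs0 x)
  have hs'c : ∀ x, c / 2 ≤ s' x := by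
    intro x
    have h1 := (abs_le.1 (hsη x)).2
    have h2 := hs0 x
    nlinarith
  -- the amplitude
  have h2η : (0 : ℝ) < 1 + 2 * η := by linarith
  have hq1 : ∀ x, |q x| ≤ 1 / 2 + η := by
    intro x
    have h1 : |q x| ≤ |a x| + |a x - q x| := by
      have h2 := abs_sub_abs_le_abs_sub (q x) (a x)
      rw [abs_sub_comm] at h2
      linarith
    linarith [ha1 x, haq x]
  have ha' : TPr (0 + K₂) fun x => (1 + 2 * η)⁻¹ * q x :=
    TPr.mul (TPr.const le_rfl _) hq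
  have ha'1 : ∀ x, |(1 + 2 * η)⁻¹ * q x| ≤ 1 / 2 := by
    intro x
    rw [abs_mul, abs_of_pos (inv_pos.2 h2η), inv_mul_eq_div, div_le_iff₀ h2η]
    linarith [hq1 x]
  have haa : ∀ x, |a x - (1 + 2 * η)⁻¹ * q x| ≤ 2 * η := by
    intro x
    have e1 : a x - (1 + 2 * η)⁻¹ * q x = (a x - q x) + (2 * η) * ((1 + 2 * η)⁻¹ * q x) := by
      field_simp
      ring
    rw [e1]
    refine (abs_add_le _ _).trans ?_
    rw [abs_mul (2 * η), abs_of_pos (by linarith : (0 : ℝ) < 2 * η)]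
    have h3 := mul_le_mul_of_nonneg_left (ha'1 x) (by linarith : (0 : ℝ) ≤ 2 * η)
    linarith [haq x]
  have hd1 : DoublingLe (dens s') (D * ((1 + η) / (1 - η))) := by
    refine doub_pert hη0.le (by linarith) hD0 (fun x => ⟨hsnn x, ?_⟩) h
    rw [abs_sub_comm]
    exact hsη x
  have hD1 : D ≤ D * ((1 + η) / (1 - η)) := by
    have h3 : 1 ≤ (1 + η) / (1 - η) := by
      rw [le_div_iff₀ (by linarith)]
      linarith
    nlinarith
  obtain ⟨lam₀, hlam⟩ := doub_step (K := max K₁ (0 + K₂)) (hs'.mono (le_max_left _ _))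
    (ha'.mono (le_max_right _ _)) (by linarith : 0 < c / 2) hs'c ha'1 (hD.trans hD1) hd1 hd
    (ε / 2) (by linarith)
  refine ⟨lam₀, fun lam hl => ?_⟩
  have h5 := hlam lam hl
  refine DoubA_mono (doub_pert (s' := fun x => s x * (1 + a x * cs d lam x)) (η := 10 * η)
    (by linarith) (by linarith) (by linarith) (fun x => ?_) h5) hηD
  have hcs : |cs d lam x| ≤ 1 := Real.abs_cos_le_one _
  have hs'0 : 0 ≤ s' x := by linarith [hs'c x]
  have h6 : |(1 + 2 * η)⁻¹ * q x * cs d lam x| ≤ 1 / 2 := by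
    rw [abs_mul]
    calc |(1 + 2 * η)⁻¹ * q x| * |cs d lam x| ≤ 1 / 2 * 1 :=
          mul_le_mul (ha'1 x) hcs (abs_nonneg _) (by norm_num)
      _ = 1 / 2 := by norm_num
  have h7 : 1 / 2 ≤ 1 + (1 + 2 * η)⁻¹ * q x * cs d lam x := by
    linarith [(abs_le.1 h6).1]
  have h8 : s' x / 2 ≤ s' x * (1 + (1 + 2 * η)⁻¹ * q x * cs d lam x) := by
    have := mul_le_mul_of_nonneg_left h7 hs'0
    linarith
  refine ⟨by linarith, ?_⟩
  have h9 : s x ≤ 2 * s' x := by
    have h10 := (abs_le.1 (hsη x)).2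
    have h11 := hs'0
    nlinarith [hsnn x]
  have e2 : s x * (1 + a x * cs d lam x) -
      s' x * (1 + (1 + 2 * η)⁻¹ * q x * cs d lam x) =
      (s x - s' x) * (1 + a x * cs d lam x) +
        s' x * ((a x - (1 + 2 * η)⁻¹ * q x) * cs d lam x) := by ring
  rw [e2]
  have h12 : |1 + a x * cs d lam x| ≤ 3 / 2 := by
    refine (abs_add_le _ _).trans ?_
    rw [abs_one, abs_mul]
    have h13 := mul_le_mul (ha1 x) hcs (abs_nonneg _) (by norm_num : (0 : ℝ) ≤ 1 / 2)
    linarith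
  have h14 : |(s x - s' x) * (1 + a x * cs d lam x)| ≤ 3 * η * s' x := by
    rw [abs_mul]
    calc |s x - s' x| * |1 + a x * cs d lam x| ≤ (η * s x) * (3 / 2) :=
          mul_le_mul (hsη x) h12 (abs_nonneg _) (mul_nonneg hη0.le (hsnn x))
      _ ≤ 3 * η * s' x := by nlinarith [mul_le_mul_of_nonneg_left h9 hη0.le]
  have h15 : |s' x * ((a x - (1 + 2 * η)⁻¹ * q x) * cs d lam x)| ≤ 2 * η * s' x := by
    rw [abs_mul, abs_of_nonneg hs'0, abs_mul]
    calc s' x * (|a x - (1 + 2 * η)⁻¹ * q x| * |cs d lam x|) ≤ s' x * (2 * η * 1) :=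
          mul_le_mul_of_nonneg_left (mul_le_mul (haa x) hcs (abs_nonneg _) (by linarith)) hs'0
      _ = 2 * η * s' x := by ring
  calc |(s x - s' x) * (1 + a x * cs d lam x) +
        s' x * ((a x - (1 + 2 * η)⁻¹ * q x) * cs d lam x)| ≤ 3 * η * s' x + 2 * η * s' x :=
        (abs_add_le _ _).trans (add_le_add h14 h15)
    _ = 10 * η * (s' x / 2) := by ring
    _ ≤ 10 * η * (s' x * (1 + (1 + 2 * η)⁻¹ * q x * cs d lam x)) :=
        mul_le_mul_of_nonneg_left h8 (by linarith)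

end Pool.Agent.helper12.BR
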