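import Pool.Agent.helper12.BR.Qc

/-!
# BR-SymB: the symbols (proofs: helper59)

PROOFS.  `m(ξ) = (ξ₀ - i ξ₁)²/|ξ|²`, `m(0) = 0`; `|m| ≤ 1` since `|ξ₀ - i ξ₁| = |ξ|`.  With `ζ = (ξ₀ - i ξ₁)/|ξ|` (unit vectors), `|m(ξ) - m(ξ')| ≤ 2 |ξ/|ξ| - ξ'/|ξ'|| ≤ 4 |ξ - ξ'| / |ξ|` for `ξ, ξ' ≠ 0`; for `ξ' = 0` it is at most 1.  Real and imaginary parts inherit
everything (`|re z| ≤ |z|`).  Homogeneity: also for `t < 0`.  `mA = m ∘ A` with `A = diag(2, 1)`, `‖ξ‖ ≤ ‖A ξ‖ ≤ 2 ‖ξ‖`: constant `8`.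
Values: `m(dir k)` by `simp`, `√2 ² = 2`.
-/

set_option autoImplicit false

open MeasureTheory FourierTransform
open scoped ENNReal InnerProductSpace ComplexConjugate

namespace Pool.Agent.helper12.BR

open Pool.Agent.helper12.RT
open Pool.Agent.helper12.AI (beurlingSymbol)

variable {n : ℕ}

theorem symC_of {L : ℝ} {m : E n → ℂ} (hm : Measurable m) (hb : ∀ ξ, ‖m ξ‖ ≤ 1)
    (hh : ∀ (t : ℝ) (ξ : E n), t ≠ 0 → m (t • ξ) = m ξ)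
    (hl : ∀ ξ ζ : E n, ξ ≠ 0 → ‖m ξ - m ζ‖ ≤ L * (‖ξ - ζ‖ / ‖ξ‖)) : SymC L m where
  re :=
    { meas := Complex.measurable_re.comp hm
      bdd := fun ξ => (Complex.abs_re_le_norm _).trans (hb ξ)
      homog := fun t ξ ht => by rw [hh t ξ ht]
      lip := fun ξ ζ hξ => by
        rw [← Complex.sub_re]
        exact (Complex.abs_re_le_norm _).trans (hl ξ ζ hξ) }
  im :=
    { meas := Complex.measurable_im.comp hm
      bdd := fun ξ => (Complex.abs_im_le_norm _).trans (hb ξ)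
      homog := fun t ξ ht => by rw [hh t ξ ht]
      lip := fun ξ ζ hξ => by
        rw [← Complex.sub_im]
        exact (Complex.abs_im_le_norm _).trans (hl ξ ζ hξ) }

theorem nsq (ξ : E 2) : ‖ξ‖ ^ 2 = ξ 0 ^ 2 + ξ 1 ^ 2 := by
  rw [EuclideanSpace.norm_sq_eq, Fin.sum_univ_two, Real.norm_eq_abs, Real.norm_eq_abs, sq_abs,
    sq_abs]

/-- the complex number `ξ₀ - i ξ₁` -/
noncomputable def zc (ξ : E 2) : ℂ := (ξ 0 : ℂ) - Complex.I * (ξ 1 : ℂ)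

theorem zc_norm (ξ : E 2) : ‖zc ξ‖ = ‖ξ‖ := by
  have h : ‖zc ξ‖ ^ 2 = ‖ξ‖ ^ 2 := by
    rw [nsq, ← Complex.normSq_eq_norm_sq, Complex.normSq_apply]
    unfold zc
    simp
    ring
  exact (pow_left_inj₀ (norm_nonneg _) (norm_nonneg _) two_ne_zero).1 h

theorem zc_sub (ξ ζ : E 2) : zc (ξ - ζ) = zc ξ - zc ζ := by
  unfold zc
  rw [PiLp.sub_apply, PiLp.sub_apply]
  push_cast
  ring

theorem zc_smul (t : ℝ) (ξ : E 2) : zc (t • ξ) = (t : ℂ) * zc ξ := by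
  unfold zc
  rw [PiLp.smul_apply, PiLp.smul_apply, smul_eq_mul, smul_eq_mul]
  push_cast
  ring

theorem bs_eq (ξ : E 2) : beurlingSymbol ξ = (zc ξ / (‖ξ‖ : ℂ)) ^ 2 := by
  unfold beurlingSymbol zc
  rw [div_pow]

theorem zdiv_norm (ξ : E 2) : ‖zc ξ / (‖ξ‖ : ℂ)‖ ≤ 1 := by
  rw [norm_div, zc_norm, Complex.norm_real, norm_norm]
  exact div_self_le_one _

theorem bs_norm (ξ : E 2) : ‖beurlingSymbol ξ‖ ≤ 1 := by
  rw [bs_eq, norm_pow]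
  exact pow_le_one₀ (norm_nonneg _) (zdiv_norm ξ)

theorem bs_homog (t : ℝ) (ξ : E 2) (ht : t ≠ 0) : beurlingSymbol (t • ξ) = beurlingSymbol ξ := by
  rw [bs_eq, bs_eq, zc_smul, norm_smul, div_pow, div_pow, mul_pow, Complex.ofReal_mul, mul_pow]
  have h1 : ((‖t‖ : ℝ) : ℂ) ^ 2 = (t : ℂ) ^ 2 := by
    rw [← Complex.ofReal_pow, ← Complex.ofReal_pow, Real.norm_eq_abs, sq_abs]
  rw [h1]
  exact mul_div_mul_left _ _ (pow_ne_zero 2 (Complex.ofReal_ne_zero.2 ht))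

theorem bs_lip (ξ ζ : E 2) (hξ : ξ ≠ 0) :
    ‖beurlingSymbol ξ - beurlingSymbol ζ‖ ≤ 4 * (‖ξ - ζ‖ / ‖ξ‖) := by
  obtain ⟨a, ha⟩ : ∃ a, a = zc ξ / (‖ξ‖ : ℂ) := ⟨_, rfl⟩
  obtain ⟨b, hb⟩ : ∃ b, b = zc ζ / (‖ζ‖ : ℂ) := ⟨_, rfl⟩
  have hx : 0 < ‖ξ‖ := norm_pos_iff.2 hξ
  have hxc : (‖ξ‖ : ℂ) ≠ 0 := Complex.ofReal_ne_zero.2 hx.ne'
  have hbz : b * (‖ζ‖ : ℂ) = zc ζ := by
    by_cases h0 : ζ = 0
    · rw [h0]
      unfold zc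
      simp
    · rw [hb, div_mul_cancel₀]
      exact Complex.ofReal_ne_zero.2 (norm_ne_zero_iff.2 h0)
  have hab : a - b = zc (ξ - ζ) / (‖ξ‖ : ℂ) + b * ((((‖ζ‖ - ‖ξ‖) / ‖ξ‖ : ℝ)) : ℂ) := by
    rw [ha, zc_sub, ← hbz]
    push_cast
    field_simp
    ring
  have hb1 : ‖b‖ ≤ 1 := by
    rw [hb]
    exact zdiv_norm ζ
  have ha1 : ‖a‖ ≤ 1 := by
    rw [ha]
    exact zdiv_norm ξ
  have h1 : ‖zc (ξ - ζ) / (‖ξ‖ : ℂ)‖ = ‖ξ - ζ‖ / ‖ξ‖ := by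
    rw [norm_div, zc_norm, Complex.norm_real, norm_norm]
  have h2 : ‖b * ((((‖ζ‖ - ‖ξ‖) / ‖ξ‖ : ℝ)) : ℂ)‖ ≤ ‖ξ - ζ‖ / ‖ξ‖ := by
    rw [norm_mul, Complex.norm_real, norm_div, norm_norm]
    have h3 : ‖‖ζ‖ - ‖ξ‖‖ ≤ ‖ξ - ζ‖ := by
      have := abs_norm_sub_norm_le ζ ξ
      rwa [norm_sub_rev] at this
    calc ‖b‖ * (‖‖ζ‖ - ‖ξ‖‖ / ‖ξ‖) ≤ 1 * (‖ξ - ζ‖ / ‖ξ‖) := by
          apply mul_le_mul hb1 _ (by positivity) zero_le_one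
          exact div_le_div_of_nonneg_right h3 hx.le
      _ = _ := one_mul _
  have h3 : ‖a - b‖ ≤ 2 * (‖ξ - ζ‖ / ‖ξ‖) := by
    rw [hab]
    refine (norm_add_le _ _).trans ?_
    rw [h1]
    linarith
  have h4 : beurlingSymbol ξ - beurlingSymbol ζ = (a - b) * (a + b) := by
    rw [bs_eq, bs_eq, ← ha, ← hb]
    ring
  have h5 : ‖a + b‖ ≤ 2 := by
    refine (norm_add_le _ _).trans ?_
    linarith
  rw [h4, norm_mul]
  have h6 : 0 ≤ ‖ξ - ζ‖ / ‖ξ‖ := by positivity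
  calc ‖a - b‖ * ‖a + b‖ ≤ (2 * (‖ξ - ζ‖ / ‖ξ‖)) * 2 :=
        mul_le_mul h3 h5 (norm_nonneg _) (by positivity)
    _ = _ := by ring

theorem bs_meas : Measurable beurlingSymbol := by
  unfold beurlingSymbol
  have h0 : Measurable fun ξ : E 2 => ξ 0 := by fun_prop
  have h1 : Measurable fun ξ : E 2 => ξ 1 := by fun_prop
  fun_prop

/-- the linear map `diag(2, 1)` -/
noncomputable def dg (ξ : E 2) : E 2 := WithLp.toLp 2 ![2 * ξ 0, ξ 1]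

theorem mA_eq (ξ : E 2) : mA ξ = beurlingSymbol (dg ξ) := rfl

theorem dg_zero (ξ : E 2) : dg ξ 0 = 2 * ξ 0 := rfl

theorem dg_one (ξ : E 2) : dg ξ 1 = ξ 1 := rfl

theorem dg_sub (ξ ζ : E 2) : dg ξ - dg ζ = dg (ξ - ζ) := by
  ext i
  fin_cases i
  · show dg ξ 0 - dg ζ 0 = dg (ξ - ζ) 0
    rw [dg_zero, dg_zero, dg_zero, PiLp.sub_apply]
    ring
  · show dg ξ 1 - dg ζ 1 = dg (ξ - ζ) 1
    rw [dg_one, dg_one, dg_one, PiLp.sub_apply]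

theorem dg_smul (t : ℝ) (ξ : E 2) : dg (t • ξ) = t • dg ξ := by
  ext i
  fin_cases i
  · show dg (t • ξ) 0 = t * dg ξ 0
    rw [dg_zero, dg_zero, PiLp.smul_apply, smul_eq_mul]
    ring
  · show dg (t • ξ) 1 = t * dg ξ 1
    rw [dg_one, dg_one, PiLp.smul_apply, smul_eq_mul]

theorem dg_le (ξ : E 2) : ‖dg ξ‖ ≤ 2 * ‖ξ‖ := by
  apply le_of_sq_le_sq _ (by positivity)
  rw [mul_pow, nsq, nsq, dg_zero, dg_one]
  nlinarith [sq_nonneg (ξ 0), sq_nonneg (ξ 1)]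

theorem le_dg (ξ : E 2) : ‖ξ‖ ≤ ‖dg ξ‖ := by
  apply le_of_sq_le_sq _ (by positivity)
  rw [nsq, nsq, dg_zero, dg_one]
  nlinarith [sq_nonneg (ξ 0), sq_nonneg (ξ 1)]

theorem dg_meas : Measurable dg := by
  unfold dg
  have h0 : Continuous fun ξ : E 2 => ξ 0 := by fun_prop
  have h1 : Continuous fun ξ : E 2 => ξ 1 := by fun_prop
  have h2 : Continuous fun ξ : E 2 => ![2 * ξ 0, ξ 1] := by
    apply continuous_pi
    intro i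
    fin_cases i
    · exact continuous_const.mul h0
    · exact h1
  have h3 := (PiLp.continuous_toLp 2 (fun _ : Fin 2 => ℝ)).comp h2
  exact h3.measurable

theorem bs_re (ξ : E 2) : (beurlingSymbol ξ).re = (ξ 0 ^ 2 - ξ 1 ^ 2) / (ξ 0 ^ 2 + ξ 1 ^ 2) := by
  unfold beurlingSymbol
  rw [← Complex.ofReal_pow, Complex.div_ofReal_re, nsq]
  congr 1
  simp [pow_two]

theorem bs_im (ξ : E 2) : (beurlingSymbol ξ).im = -(2 * ξ 0 * ξ 1) / (ξ 0 ^ 2 + ξ 1 ^ 2) := by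
  unfold beurlingSymbol
  rw [← Complex.ofReal_pow, Complex.div_ofReal_im, nsq]
  congr 1
  simp [pow_two]
  ring

theorem dir_sq (k : Fin 4) : dir k 0 ^ 2 = ![1, 0, 1 / 2, 1 / 2] k ∧
    dir k 1 ^ 2 = ![0, 1, 1 / 2, 1 / 2] k ∧ dir k 0 * dir k 1 = ![0, 0, -(1 / 2), 1 / 2] k := by
  have h2 : √2 ^ 2 = (2 : ℝ) := Real.sq_sqrt (by norm_num)
  fin_cases k
  · refine ⟨?_, ?_, ?_⟩
    · show (1 : ℝ) ^ 2 = 1
      norm_num
    · show (0 : ℝ) ^ 2 = 0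
      norm_num
    · show (1 : ℝ) * 0 = 0
      norm_num
  · refine ⟨?_, ?_, ?_⟩
    · show (0 : ℝ) ^ 2 = 0
      norm_num
    · show (1 : ℝ) ^ 2 = 1
      norm_num
    · show (0 : ℝ) * 1 = 0
      norm_num
  · refine ⟨?_, ?_, ?_⟩
    · show (√2 / 2) ^ 2 = 1 / 2
      nlinarith
    · show (-(√2 / 2)) ^ 2 = 1 / 2
      nlinarith
    · show (√2 / 2) * -(√2 / 2) = -(1 / 2)
      nlinarith
  · refine ⟨?_, ?_, ?_⟩
    · show (√2 / 2) ^ 2 = 1 / 2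
      nlinarith
    · show (√2 / 2) ^ 2 = 1 / 2
      nlinarith
    · show (√2 / 2) * (√2 / 2) = 1 / 2
      nlinarith

theorem symC_b : SymC 8 beurlingSymbol := by
  apply symC_of bs_meas bs_norm bs_homog
  intro ξ ζ hξ
  refine (bs_lip ξ ζ hξ).trans ?_
  have h6 : 0 ≤ ‖ξ - ζ‖ / ‖ξ‖ := by positivity
  linarith

theorem symC_A : SymC 8 mA := by
  have e : mA = fun ξ => beurlingSymbol (dg ξ) := rfl
  rw [e]
  apply symC_of (bs_meas.comp dg_meas) (fun ξ => bs_norm _)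
  · intro t ξ ht
    show beurlingSymbol (dg (t • ξ)) = beurlingSymbol (dg ξ)
    rw [dg_smul, bs_homog t _ ht]
  · intro ξ ζ hξ
    have hx : 0 < ‖ξ‖ := norm_pos_iff.2 hξ
    have h0 : dg ξ ≠ 0 := norm_pos_iff.1 (lt_of_lt_of_le hx (le_dg ξ))
    refine (bs_lip (dg ξ) (dg ζ) h0).trans ?_
    have h1 : ‖dg ξ - dg ζ‖ / ‖dg ξ‖ ≤ 2 * (‖ξ - ζ‖ / ‖ξ‖) := by
      rw [dg_sub, ← mul_div_assoc]
      exact div_le_div₀ (by positivity) (dg_le _) hx (le_dg ξ)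
    linarith

theorem dir_norm (k : Fin 4) : ‖dir k‖ = 1 := by
  have h : ‖dir k‖ ^ 2 = 1 ^ 2 := by
    rw [nsq, (dir_sq k).1, (dir_sq k).2.1]
    fin_cases k <;> norm_num
  exact (pow_left_inj₀ (norm_nonneg _) zero_le_one two_ne_zero).1 h

theorem b_dir (k : Fin 4) : (beurlingSymbol (dir k)).re = mu₁ k ∧ (beurlingSymbol (dir k)).im = mu₂ k := by
  obtain ⟨h1, h2, h3⟩ := dir_sq k
  rw [bs_re, bs_im, mul_assoc, h1, h2, h3]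
  unfold mu₁ mu₂
  fin_cases k <;> norm_num

theorem mA_dir (k : Fin 4) : (mA (dir k)).re = mu₁ k + 3 / 5 * ye k ∧ (mA (dir k)).im = 4 / 5 * mu₂ k := by
  obtain ⟨h1, h2, h3⟩ := dir_sq k
  rw [mA_eq, bs_re, bs_im, dg_zero, dg_one]
  have e1 : (2 * dir k 0) ^ 2 = 4 * dir k 0 ^ 2 := by ring
  have e2 : 2 * (2 * dir k 0) * dir k 1 = 4 * (dir k 0 * dir k 1) := by ring
  rw [e1, e2, h1, h2, h3]
  unfold mu₁ mu₂ ye
  fin_cases k <;> norm_num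

end Pool.Agent.helper12.BR
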