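import Pool.Agent.helper12.BR.CoreA
import Pool.Agent.helper12.BR.BpPert
import Pool.Agent.helper12.BR.SymB
import Pool.Agent.helper12.BR.DoubA

/-!
# BR-Core: trigonometric polynomials

PROOF.  Take `s, w` from `coreA` and approximate them uniformly within `η` by trigonometric polynomials `s', w'` (`AP`).  `c / 2 ≤ s', w'`; `doub_pert`: doubling constants at most `33 (1 + η/c)/(1 - η/c) ≤ 64`.  Upper bound: `bp_pert` with `x₁ = x₂ = 0` (`Dx m s 0 0 u = T m (Mr s u)`), `p = w`, `N = 32100`, `ε = 1`.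
Lower bound: `Q w (T mA (Mr s φ))` and `Q s φ` change by at most `C η` (`‖φ‖ = 1`, `T_norm2`, `Q_sub_abs`), so `K Q s' φ < Q w' (T mA (Mr s' φ))` for small `η`.
-/

set_option autoImplicit false

open MeasureTheory FourierTransform
open scoped ENNReal InnerProductSpace ComplexConjugate

namespace Pool.Agent.helper12.BR

open Pool.Agent.helper12.RT
open Pool.Agent.helper12.AI (beurlingSymbol)

variable {n : ℕ}

private theorem Core_Dx {m : E n → ℂ} {s : E n → ℝ} (u : H n) :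
    Dx m s (fun _ => 0) (fun _ => 0) u = T m (Mr s u) := by
  unfold Dx
  rw [Mr_const, Complex.ofReal_zero, zero_smul, smul_zero, add_zero, sub_zero]

theorem core : ∃ N : ℝ, 0 ≤ N ∧ ∀ K : ℝ, ∃ s w : E 2 → ℝ, (∃ K' : ℝ, TPr K' s ∧ TPr K' w) ∧
    (∃ c : ℝ, 0 < c ∧ ∀ x, c ≤ s x ∧ c ≤ w x) ∧ DoublingLe (dens s) 64 ∧
    DoublingLe (dens w) 64 ∧ (∀ u : H 2, Q w (T beurlingSymbol (Mr s u)) ≤ N * Q s u) ∧
    ¬ ∀ u : H 2, Q w (T mA (Mr s u)) ≤ K * Q s u := by
  refine ⟨32101, by norm_num, fun K => ?_⟩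
  obtain ⟨s, w, hs, hw, ⟨c, hc, hcb⟩, hds, hdw, hup, φ, hφ, hφ1⟩ := coreA K
  obtain ⟨Bs, hBs⟩ := hs.bdd
  obtain ⟨Bw, hBw⟩ := hw.bdd
  have hBs0 : 0 ≤ Bs := (abs_nonneg _).trans (hBs 0)
  have hBw0 : 0 ≤ Bw := (abs_nonneg _).trans (hBw 0)
  obtain ⟨B, hB⟩ : ∃ B : ℝ, B = Bs + Bw := ⟨_, rfl⟩
  have hB0 : 0 ≤ B := by rw [hB]; linarith
  have hsB : ∀ x, |s x| ≤ B := fun x => (hBs x).trans (by rw [hB]; linarith)
  have hwB : ∀ x, |w x| ≤ B := fun x => (hBw x).trans (by rw [hB]; linarith)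
  obtain ⟨η₁, hη₁, hpert⟩ := bp_pert (n := 2) (L := 8) (N := 32100) hB0 hc (by norm_num) 1
    one_pos
  obtain ⟨D, hD⟩ : ∃ D : ℝ, D = 4 * (B + 1) ^ 2 + 2 * B * (4 * B + 2) + |K| + 1 := ⟨_, rfl⟩
  have hD1 : 1 ≤ D := by
    rw [hD]
    have : 0 ≤ |K| := abs_nonneg K
    have : 0 ≤ 4 * (B + 1) ^ 2 + 2 * B * (4 * B + 2) := by positivity
    linarith
  obtain ⟨η, hη0, hη1, hη2, hη3, hη4⟩ : ∃ η : ℝ, 0 < η ∧ η ≤ η₁ ∧ η ≤ c / 4 ∧ η * D ≤ 1 / 10 ∧
      η ≤ 1 := by
    refine ⟨min η₁ (min (c / 4) (1 / (10 * D))), ?_, min_le_left _ _, ?_, ?_, ?_⟩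
    · refine lt_min hη₁ (lt_min (by linarith) (by positivity))
    · exact (min_le_right _ _).trans (min_le_left _ _)
    · have h1 : min η₁ (min (c / 4) (1 / (10 * D))) ≤ 1 / (10 * D) :=
        (min_le_right _ _).trans (min_le_right _ _)
      calc min η₁ (min (c / 4) (1 / (10 * D))) * D ≤ 1 / (10 * D) * D :=
            mul_le_mul_of_nonneg_right h1 (by linarith)
        _ = 1 / 10 := by
            have : D ≠ 0 := by linarith
            field_simp
    · have h1 : min η₁ (min (c / 4) (1 / (10 * D))) ≤ 1 / (10 * D) :=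
        (min_le_right _ _).trans (min_le_right _ _)
      refine h1.trans ?_
      rw [div_le_one (by positivity)]
      linarith
  obtain ⟨K₁, s', hs', hss⟩ := hs η hη0
  obtain ⟨K₂, w', hw', hww⟩ := hw η hη0
  have hs'c : ∀ x, c / 2 ≤ s' x := by
    intro x
    have h1 := (abs_le.1 (hss x)).2
    linarith [(hcb x).1]
  have hw'c : ∀ x, c / 2 ≤ w' x := by
    intro x
    have h1 := (abs_le.1 (hww x)).2
    linarith [(hcb x).2]
  have hdoub : ∀ (a b : E 2 → ℝ), (∀ x, c ≤ a x) → (∀ x, |a x - b x| ≤ η) →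
      DoublingLe (dens a) 33 → DoublingLe (dens b) 64 := by
    intro a b ha hab hd
    have h1 : DoublingLe (dens b) (33 * ((1 + 1 / 4) / (1 - 1 / 4))) := by
      refine doub_pert (by norm_num) (by norm_num) (by norm_num) (fun x => ⟨by linarith [ha x], ?_⟩) hd
      rw [abs_sub_comm]
      refine (hab x).trans ?_
      linarith [ha x]
    intro x r hr
    refine (h1 x r hr).trans ?_
    gcongr
    norm_num
  have hsb : BMr s := hs.bmr
  have hwb : BMr w := hw.bmr
  have hs'b : BMr s' := hs'.bmr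
  have hw'b : BMr w' := hw'.bmr
  refine ⟨s', w', ⟨max K₁ K₂, hs'.mono (le_max_left _ _), hw'.mono (le_max_right _ _)⟩,
    ⟨c / 2, by linarith, fun x => ⟨hs'c x, hw'c x⟩⟩, hdoub s s' (fun x => (hcb x).1) hss hds,
    hdoub w w' (fun x => (hcb x).2) hww hdw, ?_, ?_⟩
  · -- the upper bound
    intro u
    have h1 : Bp beurlingSymbol s (fun _ => 0) (fun _ => 0) w 32100 := by
      intro v
      rw [Core_Dx]
      exact hup v
    have h2 := hpert beurlingSymbol symC_b s s' (fun _ => 0) (fun _ => 0) (fun _ => 0)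
      (fun _ => 0) w w' hsb hs'b (BMr.const 0) (BMr.const 0) (BMr.const 0) (BMr.const 0) hwb hw'b
      (fun x => ⟨hsB x, by simpa using hB0, by simpa using hB0, hwB x⟩) (fun x => (hcb x).1)
      (fun x => by linarith [(hcb x).2]) (fun x => by linarith [hw'c x])
      (fun x => ⟨(hss x).trans hη1, by simpa using hη₁.le, by simpa using hη₁.le,
        (hww x).trans hη1⟩) h1 u
    rw [Core_Dx] at h2
    norm_num at h2
    exact h2
  · -- the lower bound
    intro hall
    have h0 := hall φ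
    obtain ⟨v, hv⟩ : ∃ v : H 2, v = T mA (Mr s φ) := ⟨_, rfl⟩
    obtain ⟨v', hv'⟩ : ∃ v' : H 2, v' = T mA (Mr s' φ) := ⟨_, rfl⟩
    rw [← hv] at hφ
    rw [← hv'] at h0
    have hd : Mr s' φ - Mr s φ = Mr (fun x => s' x - s x) φ := by
      have h1 := Mr_add (hs'b.sub hsb) hsb φ
      have h2 : (fun x => s' x - s x + s x) = s' := by
        funext x
        ring
      rw [h2] at h1
      rw [h1]
      abel
    have hdn : ‖Mr s' φ - Mr s φ‖ ≤ η := by
      rw [hd]
      have h1 := Mr_norm_le (hs'b.sub hsb) (C := η) (fun x => by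
        rw [abs_sub_comm]
        exact hss x) φ
      rwa [hφ1, mul_one] at h1
    have hvv : ‖v' - v‖ ≤ 2 * η := by
      rw [hv, hv', ← map_sub]
      exact (T_norm2 symC_A _).trans (by linarith)
    have hsn : ‖Mr s φ‖ ≤ B := by
      have h1 := Mr_norm_le hsb hsB φ
      rwa [hφ1, mul_one] at h1
    have hvn : ‖v‖ ≤ 2 * B := by
      rw [hv]
      exact (T_norm2 symC_A _).trans (by linarith)
    have hv'n : ‖v'‖ ≤ 2 * (B + 1) := by
      have h1 : ‖v'‖ ≤ ‖v‖ + ‖v' - v‖ := by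
        have := norm_add_le v (v' - v)
        rwa [add_sub_cancel] at this
      linarith
    have h1 : |Q w v' - Q w v| ≤ B * (2 * η) * (2 * (B + 1) + 2 * B) := by
      refine (Q_sub_abs hwb hwB v' v).trans ?_
      have e1 : B * ‖v' - v‖ ≤ B * (2 * η) := mul_le_mul_of_nonneg_left hvv hB0
      refine mul_le_mul e1 (add_le_add hv'n hvn) (by positivity) (by positivity)
    have h2 : Q w v' ≤ Q w' v' + η * (2 * (B + 1)) ^ 2 := by
      have e1 : Q (fun x => w' x + (w x - w' x)) v' = Q w' v' + Q (fun x => w x - w' x) v' :=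
        Q_add_fun hw'b (hwb.sub hw'b) v'
      have e2 : (fun x => w' x + (w x - w' x)) = w := by
        funext x
        ring
      rw [e2] at e1
      have e3 : Q (fun x => w x - w' x) v' ≤ η * ‖v'‖ ^ 2 :=
        Q_le (hwb.sub hw'b) (fun x => (abs_le.1 (hww x)).2) v'
      have e4 : ‖v'‖ ^ 2 ≤ (2 * (B + 1)) ^ 2 := pow_le_pow_left₀ (norm_nonneg _) hv'n 2
      have e5 := mul_le_mul_of_nonneg_left e4 hη0.le
      linarith
    have h3 : |Q s' φ - Q s φ| ≤ η := by
      have e1 : Q (fun x => s x + (s' x - s x)) φ = Q s φ + Q (fun x => s' x - s x) φ :=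
        Q_add_fun hsb (hs'b.sub hsb) φ
      have e2 : (fun x => s x + (s' x - s x)) = s' := by
        funext x
        ring
      rw [e2] at e1
      have e3 : Q (fun x => s' x - s x) φ ≤ η * ‖φ‖ ^ 2 :=
        Q_le (hs'b.sub hsb) (fun x => by linarith [(abs_le.1 (hss x)).1]) φ
      have e4 : -η * ‖φ‖ ^ 2 ≤ Q (fun x => s' x - s x) φ :=
        Q_ge (hs'b.sub hsb) (fun x => by linarith [(abs_le.1 (hss x)).2]) φ
      rw [hφ1] at e3 e4
      rw [abs_le]
      constructor <;> linarith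
    have h4 : K * Q s' φ ≤ K * Q s φ + |K| * η := by
      have e1 : K * (Q s' φ - Q s φ) ≤ |K| * η := by
        refine (le_abs_self _).trans ?_
        rw [abs_mul]
        exact mul_le_mul_of_nonneg_left h3 (abs_nonneg _)
      linarith
    have h5 := (abs_le.1 h1).1
    have h6 : η * D = η * (2 * (B + 1)) ^ 2 + B * (2 * η) * (2 * (B + 1) + 2 * B) + |K| * η + η := by
      rw [hD]
      ring
    linarith

end Pool.Agent.helper12.BR
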