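import Pool.Agent.helper12.BR.Defs

/-!
# BR-Qc: pointwise inequalities for the quadratic forms

PROOFS.  `Q_cplx`: a.e. `|z₁ h + i z₂ h|² = (z₁² + z₂²) |h|²` (`M_apply`, `Lp.coeFn_add`, `Lp.coeFn_smul`).  `young`: `2 re ⟪A, Mr q Z⟫` with `Z = Mr z₁ h + i Mr z₂ h` is `2 re ∫ q conj(A) Z` (`L2.inner_def`), and
a.e. `2 |q| |A| |Z| ≤ θ |A|² + t |h|²` because `|Z|² = (z₁² + z₂²) |h|²` and `q² (z₁² + z₂²) ≤ θ t` (`(2 |q| |A| |Z|)² ≤ 4 θ |A|² t |h|²`, AM-GM).  `Q_expand`: bilinearity (`Q_eq_inner`, `Mr_inner`).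
`T_split`: `T_add`, `T_mul`, `T_const` (`m = re m + i im m`).  `Dx_norm`: `‖T m v‖ ≤ 2 ‖v‖`.
-/

set_option autoImplicit false

open MeasureTheory FourierTransform
open scoped ENNReal InnerProductSpace ComplexConjugate

namespace Pool.Agent.helper12.BR

open Pool.Agent.helper12.RT
open Pool.Agent.helper12.AI (beurlingSymbol)

variable {n : ℕ}

theorem SymC.bm {L : ℝ} {m : E n → ℂ} (hm : SymC L m) : BM m := by
  refine ⟨?_, 2, fun ξ => ?_⟩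
  · have e : m = fun ξ => ((m ξ).re : ℂ) + ((m ξ).im : ℂ) * Complex.I := by
      funext ξ
      exact (Complex.re_add_im (m ξ)).symm
    rw [e]
    exact (Complex.measurable_ofReal.comp hm.re.meas).add
      ((Complex.measurable_ofReal.comp hm.im.meas).mul measurable_const)
  · have h1 := hm.re.bdd ξ
    have h2 := hm.im.bdd ξ
    have h3 := Complex.norm_le_abs_re_add_abs_im (m ξ)
    linarith

theorem SymC.norm_le {L : ℝ} {m : E n → ℂ} (hm : SymC L m) (ξ : E n) : ‖m ξ‖ ≤ 2 := by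
  have h1 := hm.re.bdd ξ
  have h2 := hm.im.bdd ξ
  have h3 := Complex.norm_le_abs_re_add_abs_im (m ξ)
  linarith

theorem T_split {L : ℝ} {m : E n → ℂ} (hm : SymC L m) (u : H n) :
    T m u = Tr (fun ξ => (m ξ).re) u + Complex.I • Tr (fun ξ => (m ξ).im) u := by
  have hre : BMr fun ξ => (m ξ).re := ⟨hm.re.meas, 1, hm.re.bdd⟩
  have him : BMr fun ξ => (m ξ).im := ⟨hm.im.meas, 1, hm.im.bdd⟩
  have e : m = fun ξ => ((m ξ).re : ℂ) + Complex.I * ((m ξ).im : ℂ) := by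
    funext ξ
    rw [mul_comm Complex.I]
    exact (Complex.re_add_im (m ξ)).symm
  have h1 := T_add hre.bm ((BM.const Complex.I).mul him.bm) u
  have h2 := T_mul (BM.const Complex.I) him.bm u
  rw [T_const] at h2
  rw [h2, ← e] at h1
  exact h1

theorem T_norm2 {L : ℝ} {m : E n → ℂ} (hm : SymC L m) (u : H n) : ‖T m u‖ ≤ 2 * ‖u‖ := by
  exact T_norm_le hm.bm hm.norm_le u

private theorem Qc_ae {z₁ z₂ : E n → ℝ} (h₁ : BMr z₁) (h₂ : BMr z₂) (h : H n) :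
    ∀ᵐ x, ‖(Mr z₁ h + Complex.I • Mr z₂ h : H n) x‖ ^ 2 = (z₁ x ^ 2 + z₂ x ^ 2) * ‖h x‖ ^ 2 := by
  filter_upwards [Lp.coeFn_add (Mr z₁ h) (Complex.I • Mr z₂ h),
    Lp.coeFn_smul Complex.I (Mr z₂ h), M_apply h₁.bm h, M_apply h₂.bm h] with x hx1 hx2 hx3 hx4
  have e1 : (Mr z₁ h) x = (z₁ x : ℂ) * h x := hx3
  have e2 : (Mr z₂ h) x = (z₂ x : ℂ) * h x := hx4
  rw [hx1, Pi.add_apply, hx2, Pi.smul_apply, e1, e2, smul_eq_mul]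
  have e3 : (z₁ x : ℂ) * h x + Complex.I * ((z₂ x : ℂ) * h x) =
      ((z₁ x : ℂ) + (z₂ x : ℂ) * Complex.I) * h x := by ring
  rw [e3, norm_mul, mul_pow, Complex.sq_norm ((z₁ x : ℂ) + (z₂ x : ℂ) * Complex.I),
    Complex.normSq_add_mul_I]

theorem Q_cplx {p z₁ z₂ : E n → ℝ} (hp : BMr p) (h₁ : BMr z₁) (h₂ : BMr z₂) (h : H n) :
    Q p (Mr z₁ h + Complex.I • Mr z₂ h) = Q (fun x => p x * (z₁ x ^ 2 + z₂ x ^ 2)) h := by
  unfold Q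
  refine integral_congr_ae ?_
  filter_upwards [Qc_ae h₁ h₂ h] with x hx
  rw [hx]
  ring

theorem Q_add2 {p : E n → ℝ} (hp : BMr p) (h : ∀ x, 0 ≤ p x) (u v : H n) :
    Q p (u + v) ≤ 2 * Q p u + 2 * Q p v := by
  have h1 := Q_add_le hp h u v
  have h2 := Q_nonneg h (u + v)
  have h3 := Q_nonneg h u
  have h4 := Q_nonneg h v
  have h5 := Real.sq_sqrt h2
  have h6 := Real.sq_sqrt h3
  have h7 := Real.sq_sqrt h4
  have h8 := Real.sqrt_nonneg (Q p (u + v))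
  nlinarith [sq_nonneg (√(Q p u) - √(Q p v)), Real.sqrt_nonneg (Q p u),
    Real.sqrt_nonneg (Q p v), mul_self_le_mul_self h8 h1]

theorem Q_expand {p : E n → ℝ} (hp : BMr p) (u v : H n) :
    Q p (u + v) = Q p u + 2 * (⟪u, Mr p v⟫_ℂ).re + Q p v := by
  rw [Q_eq_inner hp, Q_eq_inner hp, Q_eq_inner hp, map_add, inner_add_left, inner_add_right,
    inner_add_right]
  have h1 : (⟪v, Mr p u⟫_ℂ).re = (⟪u, Mr p v⟫_ℂ).re := by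
    rw [← Mr_inner hp, ← inner_conj_symm, Complex.conj_re]
  simp only [Complex.add_re]
  rw [h1]
  ring

theorem young {q θ t z₁ z₂ : E n → ℝ} (hq : BMr q) (hθ : BMr θ) (ht : BMr t) (h₁ : BMr z₁)
    (h₂ : BMr z₂) (hθ0 : ∀ x, 0 ≤ θ x) (ht0 : ∀ x, 0 ≤ t x)
    (h : ∀ x, q x ^ 2 * (z₁ x ^ 2 + z₂ x ^ 2) ≤ θ x * t x) (A h' : H n) :
    2 * (⟪A, Mr q (Mr z₁ h' + Complex.I • Mr z₂ h')⟫_ℂ).re ≤ Q θ A + Q t h' := by
  set Z : H n := Mr z₁ h' + Complex.I • Mr z₂ h' with hZ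
  have h1 : (⟪A, Mr q Z⟫_ℂ).re = ∫ x, (⟪A x, (Mr q Z) x⟫_ℂ).re := by
    rw [L2.inner_def]
    exact (integral_re (L2.integrable_inner (𝕜 := ℂ) A (Mr q Z))).symm
  have hi : Integrable fun x => (⟪A x, (Mr q Z) x⟫_ℂ).re :=
    (L2.integrable_inner (𝕜 := ℂ) A (Mr q Z)).re
  rw [h1]
  unfold Q
  rw [← integral_const_mul, ← integral_add (Q_integrable hθ A) (Q_integrable ht h')]
  refine integral_mono_ae (hi.const_mul 2)
    ((Q_integrable hθ A).add (Q_integrable ht h')) ?_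
  filter_upwards [Qc_ae h₁ h₂ h', M_apply hq.bm Z] with x hx1 hx2
  rw [← hZ] at hx1
  have e2 : (Mr q Z) x = (q x : ℂ) * Z x := hx2
  have h2 : (⟪A x, (Mr q Z) x⟫_ℂ).re ≤ ‖A x‖ * (|q x| * ‖Z x‖) := by
    calc (⟪A x, (Mr q Z) x⟫_ℂ).re ≤ ‖⟪A x, (Mr q Z) x⟫_ℂ‖ := Complex.re_le_norm _
      _ ≤ ‖A x‖ * ‖(Mr q Z) x‖ := norm_inner_le_norm _ _
      _ = ‖A x‖ * (|q x| * ‖Z x‖) := by
        rw [e2, norm_mul, Complex.norm_real, Real.norm_eq_abs]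
  have h3 : (|q x| * ‖Z x‖) ^ 2 ≤ θ x * t x * ‖h' x‖ ^ 2 := by
    rw [mul_pow, sq_abs, hx1, ← mul_assoc]
    exact mul_le_mul_of_nonneg_right (h x) (sq_nonneg _)
  have h4 : (2 * (‖A x‖ * (|q x| * ‖Z x‖))) ^ 2 ≤
      (θ x * ‖A x‖ ^ 2 + t x * ‖h' x‖ ^ 2) ^ 2 := by
    have h5 : (2 * (‖A x‖ * (|q x| * ‖Z x‖))) ^ 2 ≤
        4 * (‖A x‖ ^ 2 * (θ x * t x * ‖h' x‖ ^ 2)) := by
      have := mul_le_mul_of_nonneg_left h3 (sq_nonneg ‖A x‖)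
      nlinarith [this]
    nlinarith [sq_nonneg (θ x * ‖A x‖ ^ 2 - t x * ‖h' x‖ ^ 2), h5]
  have h6 : 0 ≤ θ x * ‖A x‖ ^ 2 + t x * ‖h' x‖ ^ 2 := by
    have := hθ0 x
    have := ht0 x
    positivity
  have h7 := (abs_le_of_sq_le_sq' h4 h6).2
  have h8 : 2 * (⟪A x, (Mr q Z) x⟫_ℂ).re ≤ θ x * ‖A x‖ ^ 2 + t x * ‖h' x‖ ^ 2 := by linarith
  exact h8

theorem Q_sub_abs {p : E n → ℝ} (hp : BMr p) {C : ℝ} (hC : ∀ x, |p x| ≤ C) (u v : H n) :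
    |Q p u - Q p v| ≤ C * ‖u - v‖ * (‖u‖ + ‖v‖) := by
  rcases isEmpty_or_nonempty (E n) with hE | ⟨⟨x₀⟩⟩
  · exact (hE.false 0).elim
  have hC0 : 0 ≤ C := (abs_nonneg _).trans (hC x₀)
  have e1 : Q p u - Q p v = (⟪u - v, Mr p u⟫_ℂ).re + (⟪v, Mr p (u - v)⟫_ℂ).re := by
    rw [Q_eq_inner hp, Q_eq_inner hp, map_sub, inner_sub_left, inner_sub_right, Complex.sub_re,
      Complex.sub_re]
    ring
  have h1 : |(⟪u - v, Mr p u⟫_ℂ).re| ≤ ‖u - v‖ * (C * ‖u‖) :=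
    (Complex.abs_re_le_norm _).trans ((norm_inner_le_norm _ _).trans
      (mul_le_mul_of_nonneg_left (Mr_norm_le hp hC u) (norm_nonneg _)))
  have h2 : |(⟪v, Mr p (u - v)⟫_ℂ).re| ≤ ‖v‖ * (C * ‖u - v‖) :=
    (Complex.abs_re_le_norm _).trans ((norm_inner_le_norm _ _).trans
      (mul_le_mul_of_nonneg_left (Mr_norm_le hp hC (u - v)) (norm_nonneg _)))
  rw [e1]
  refine (abs_add_le _ _).trans ((add_le_add h1 h2).trans (le_of_eq ?_))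
  ring

theorem Dx_add {m : E n → ℂ} {s x₁ x₂ : E n → ℝ} (u v : H n) :
    Dx m s x₁ x₂ (u + v) = Dx m s x₁ x₂ u + Dx m s x₁ x₂ v := by
  unfold Dx
  simp only [map_add, smul_add]
  abel

theorem Dx_norm {L : ℝ} {m : E n → ℂ} (hm : SymC L m) {s x₁ x₂ : E n → ℝ} (hs : BMr s)
    (h₁ : BMr x₁) (h₂ : BMr x₂) {C : ℝ} (hC : ∀ x, |s x| ≤ C ∧ |x₁ x| ≤ C ∧ |x₂ x| ≤ C) (u : H n) :
    ‖Dx m s x₁ x₂ u‖ ≤ 4 * C * ‖u‖ := by
  have h1 : ‖T m (Mr s u)‖ ≤ 2 * (C * ‖u‖) :=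
    (T_norm2 hm _).trans (mul_le_mul_of_nonneg_left (Mr_norm_le hs (fun x => (hC x).1) u)
      (by norm_num))
  have h2 : ‖Mr x₁ u‖ ≤ C * ‖u‖ := Mr_norm_le h₁ (fun x => (hC x).2.1) u
  have h3 : ‖Complex.I • Mr x₂ u‖ ≤ C * ‖u‖ := by
    rw [norm_smul, Complex.norm_I, one_mul]
    exact Mr_norm_le h₂ (fun x => (hC x).2.2) u
  unfold Dx
  calc ‖T m (Mr s u) - (Mr x₁ u + Complex.I • Mr x₂ u)‖
      ≤ ‖T m (Mr s u)‖ + ‖Mr x₁ u + Complex.I • Mr x₂ u‖ := norm_sub_le _ _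
    _ ≤ ‖T m (Mr s u)‖ + (‖Mr x₁ u‖ + ‖Complex.I • Mr x₂ u‖) := by
        gcongr
        exact norm_add_le _ _
    _ ≤ 2 * (C * ‖u‖) + (C * ‖u‖ + C * ‖u‖) := by gcongr
    _ = 4 * C * ‖u‖ := by ring

end Pool.Agent.helper12.BR
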