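import Pool.Agent.helper12.BR.APa
import Pool.Agent.helper12.BR.Qc
import Pool.Agent.helper12.RT.Lower

/-!
# BR-LowerC: the action on slowly varying functions

PROOFS.  `lower0` and `lower1` of `RT/Lower.lean` for `re m` and `im m` (`T_split`; `m d • v = (re m d : ℂ) • v + I • ((im m d : ℂ) • v)`).  For `q` an `AP` function approximate by a trigonometric polynomial `q'` with
`|q - q'| ≤ ε' `: `‖Mr (q cs) φ - Mr (q' cs) φ‖ ≤ ε' ‖φ‖`, and `‖T m v‖ ≤ 2 ‖v‖`, `‖m d • v‖ ≤ 2 ‖v‖`.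
-/

set_option autoImplicit false

open MeasureTheory FourierTransform
open scoped ENNReal InnerProductSpace ComplexConjugate

namespace Pool.Agent.helper12.BR

open Pool.Agent.helper12.RT
open Pool.Agent.helper12.AI (beurlingSymbol)

variable {n : ℕ}

private theorem LowerC_split {L : ℝ} {m : E n → ℂ} (hm : SymC L m) (d : E n) (v : H n) :
    T m v - m d • v = (Tr (fun ξ => (m ξ).re) v - (((m d).re : ℝ) : ℂ) • v) +
      Complex.I • (Tr (fun ξ => (m ξ).im) v - (((m d).im : ℝ) : ℂ) • v) := by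
  have h : m d • v = (((m d).re : ℝ) : ℂ) • v + Complex.I • ((((m d).im : ℝ) : ℂ) • v) := by
    rw [smul_smul, ← add_smul, mul_comm Complex.I, Complex.re_add_im]
  rw [T_split hm v, h, smul_sub]
  abel

private theorem LowerC_le {L : ℝ} {m : E n → ℂ} (hm : SymC L m) (d : E n) (v : H n) {A B : ℝ}
    (hA : ‖Tr (fun ξ => (m ξ).re) v - (((m d).re : ℝ) : ℂ) • v‖ ≤ A)
    (hB : ‖Tr (fun ξ => (m ξ).im) v - (((m d).im : ℝ) : ℂ) • v‖ ≤ B) :
    ‖T m v - m d • v‖ ≤ A + B := by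
  rw [LowerC_split hm d v]
  refine (norm_add_le _ _).trans (add_le_add hA ?_)
  rw [norm_smul, Complex.norm_I, one_mul]
  exact hB

theorem lower0C {L : ℝ} {m : E n → ℂ} (hm : SymC L m) (hL : 0 ≤ L) {d : E n} (hd : ‖d‖ = 1)
    {r : ℝ} (hr : 0 ≤ r) {φ : H n} (hφ : ‖φ‖ = 1) (h : Supp (Metric.closedBall d r) φ) :
    ‖T m φ - m d • φ‖ ≤ 2 * L * r := by
  have h1 := lower0 hm.re hd hr hL hφ h
  have h2 := lower0 hm.im hd hr hL hφ h
  have h3 := LowerC_le hm d φ h1 h2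
  linarith

theorem lower1C {L : ℝ} {m : E n → ℂ} (hm : SymC L m) (hL : 0 ≤ L) {d : E n} (hd : ‖d‖ = 1)
    {q : E n → ℝ} (hq : AP q) {d' : E n} (hd' : ‖d'‖ = 1) {r : ℝ} (hr : 0 ≤ r) {φ : H n}
    (h : Supp (Metric.closedBall d' r) φ) :
    ∀ ε > 0, ∃ lam₀ : ℝ, ∀ lam ≥ lam₀,
      ‖T m (Mr (fun x => q x * cs d lam x) φ) - m d • Mr (fun x => q x * cs d lam x) φ‖ ≤ ε := by
  intro ε hε
  have hN : 0 < 8 * (‖φ‖ + 1) := by positivity
  obtain ⟨K, q', hq', h1⟩ := hq (ε / (8 * (‖φ‖ + 1))) (div_pos hε hN)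
  obtain ⟨l₁, hl₁⟩ := lower1 hm.re hL hd hq' hd' hr h (ε / 4) (by positivity)
  obtain ⟨l₂, hl₂⟩ := lower1 hm.im hL hd hq' hd' hr h (ε / 4) (by positivity)
  refine ⟨max l₁ l₂, fun lam hlam => ?_⟩
  have a1 := hl₁ lam ((le_max_left _ _).trans hlam)
  have a2 := hl₂ lam ((le_max_right _ _).trans hlam)
  have a3 := LowerC_le hm d _ a1 a2
  have hcs : BMr fun x => cs d lam x := (cs_tpr hd lam).bmr
  have hb1 : BMr fun x => q' x * cs d lam x := hq'.bmr.mul hcs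
  have hb2 : BMr fun x => (q x - q' x) * cs d lam x := (hq.bmr.sub hq'.bmr).mul hcs
  have hsum : Mr (fun x => q x * cs d lam x) φ =
      Mr (fun x => q' x * cs d lam x) φ + Mr (fun x => (q x - q' x) * cs d lam x) φ := by
    rw [← Mr_add hb1 hb2]
    congr 2
    funext x
    ring
  have hε' : 0 ≤ ε / (8 * (‖φ‖ + 1)) := (div_pos hε hN).le
  have hw : ‖Mr (fun x => (q x - q' x) * cs d lam x) φ‖ ≤ ε / (8 * (‖φ‖ + 1)) * ‖φ‖ := by
    refine Mr_norm_le hb2 (fun x => ?_) φ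
    rw [abs_mul]
    calc |q x - q' x| * |cs d lam x| ≤ ε / (8 * (‖φ‖ + 1)) * 1 :=
          mul_le_mul (h1 x) (cs_abs d lam x) (abs_nonneg _) hε'
      _ = ε / (8 * (‖φ‖ + 1)) := mul_one _
  have hw2 : ε / (8 * (‖φ‖ + 1)) * ‖φ‖ ≤ ε / 8 := by
    rw [div_mul_eq_mul_div, div_le_div_iff₀ hN (by norm_num)]
    nlinarith [norm_nonneg φ]
  set v := Mr (fun x => q' x * cs d lam x) φ with hv
  set w := Mr (fun x => (q x - q' x) * cs d lam x) φ with hwd
  rw [hsum]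
  have e1 : T m (v + w) - m d • (v + w) = (T m v - m d • v) + (T m w - m d • w) := by
    rw [map_add, smul_add]
    abel
  rw [e1]
  have b1 : ‖T m w‖ ≤ 2 * ‖w‖ := T_norm2 hm w
  have b2 : ‖m d • w‖ ≤ 2 * ‖w‖ := by
    rw [norm_smul]
    exact mul_le_mul_of_nonneg_right (hm.norm_le d) (norm_nonneg _)
  have b3 : ‖T m w - m d • w‖ ≤ 4 * ‖w‖ := (norm_sub_le _ _).trans (by linarith)
  have b4 : ‖w‖ ≤ ε / 8 := hw.trans hw2
  refine (norm_add_le _ _).trans ?_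
  linarith

end Pool.Agent.helper12.BR
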