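import Pool.Agent.helper12.BR.Defs

/-!
# BR-Pot: the potential satisfies the conditions for one wave

`P c = pot Q (s (1 + α c)) (w (1 + β c)) = w (1 + β c) + √(s w / Q) √(1 + α c) √(1 + β c)`.
PROOF.  `A = √(1 + α c)`, `B = √(1 + β c)`, `A, B ∈ [√(1/2), √(3/2)]`.  `pos` clear.  `le`: `1 + β c ≤ 3/2`, `A B ≤ 3/2`.  `ps`: `hg` at `c = 0`.  `px`: `hg` at `c`.
`A B = (A² + B²)/2 - (A - B)²/2 = 1 + (α + β) c / 2 - (A - B)²/2` and `A - B = (α - β) c / (A + B)`, `(A + B)² ≤ 6`, so `A B ≤ 1 + (α + β) c / 2 - (α - β)² c² / 12`; `av c = 0`, `av c² = 1/2` (`av_odd`, `av_sq`, `av_mono`): `av P ≤ p - √(s w / Q) (α - β)² / 24`.  So `av`.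
`cross`: `P c - p (1 + α c) = w (β - α) c + √(s w / Q) A (B - A)`, `|A (B - A)| ≤ |α - β|` (`A ≤ A + B`), so `|P c - p (1 + α c)| ≤ |α - β| p`.  If `α = β` it vanishes and the right side is nonnegative.  Otherwise the left side is at most `(α - β)² p² gg
≤ (α - β)² 40 √(s w / Q) s` and the right side is at least `1920 √(s w / Q) (α - β)² / 24 · s / 2`.
`diag`: `gg ≤ 2 s² + 2 (x₁² + x₂²)` (`μ₁² + μ₂² = 1`), `P c ≤ 2 p`, so `P c gg ≤ 4 (p s · s + p |X|²) ≤ 40 s ≤ 80 s (1 + α c)`.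
`Good.mono`, `pot_anti`: `√(s w / Q)` is decreasing in `Q`.
-/

set_option autoImplicit false

open MeasureTheory FourierTransform
open scoped ENNReal InnerProductSpace ComplexConjugate

namespace Pool.Agent.helper12.BR

open Pool.Agent.helper12.RT
open Pool.Agent.helper12.AI (beurlingSymbol)

variable {n : ℕ}

theorem pot_anti {Q Q' s w : ℝ} (hQ : 0 < Q) (h : Q ≤ Q') (hs : 0 ≤ s) (hw : 0 ≤ w) :
    pot Q' s w ≤ pot Q s w := by
  unfold pot
  have h1 : s * w / Q' ≤ s * w / Q := div_le_div_of_nonneg_left (mul_nonneg hs hw) hQ h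
  linarith [Real.sqrt_le_sqrt h1]

theorem Good.mono {Q Q' : ℝ} {v : W} (hQ : 0 < Q) (h : Q ≤ Q') (hv : Good Q v) : Good Q' v := by
  have h1 := pot_anti hQ h hv.s_pos.le hv.w_pos.le
  refine ⟨hv.s_pos, hv.w_pos, hv.w_lt, ?_, ?_⟩
  · exact lt_of_le_of_lt (mul_le_mul_of_nonneg_right h1 hv.s_pos.le) hv.ps
  · exact lt_of_le_of_lt (mul_le_mul_of_nonneg_right h1 (by positivity)) hv.px

private theorem Pot_bd {α c : ℝ} (hα : |α| ≤ 1 / 2) (hc : c ∈ Set.Icc (-1 : ℝ) 1) :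
    1 / 2 ≤ 1 + α * c ∧ 1 + α * c ≤ 3 / 2 := by
  have h1 : |α * c| ≤ 1 / 2 := by
    rw [abs_mul]
    have h2 : |c| ≤ 1 := abs_le.2 ⟨hc.1, hc.2⟩
    calc |α| * |c| ≤ 1 / 2 * 1 := mul_le_mul hα h2 (abs_nonneg _) (by norm_num)
      _ = 1 / 2 := by norm_num
  have h3 := abs_le.1 h1
  constructor <;> linarith [h3.1, h3.2]

private theorem Pot_eq {Q s w α β c : ℝ} (hQ : 0 < Q) (hs : 0 < s) (hw : 0 < w)
    (hα : |α| ≤ 1 / 2) (hβ : |β| ≤ 1 / 2) (hc : c ∈ Set.Icc (-1 : ℝ) 1) :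
    pot Q (s * (1 + α * c)) (w * (1 + β * c)) =
      w * (1 + β * c) + √(s * w / Q) * (√(1 + α * c) * √(1 + β * c)) := by
  have h1 := (Pot_bd hα hc).1
  have h2 := (Pot_bd hβ hc).1
  unfold pot
  rw [← Real.sqrt_mul (by linarith) (1 + β * c), ← Real.sqrt_mul (by positivity)]
  congr 2
  ring

private theorem Pot_AB {α β c : ℝ} (hα : |α| ≤ 1 / 2) (hβ : |β| ≤ 1 / 2)
    (hc : c ∈ Set.Icc (-1 : ℝ) 1) :
    √(1 + α * c) * √(1 + β * c) ≤ 1 + (α + β) / 2 * c - (α - β) ^ 2 / 12 * c ^ 2 := by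
  obtain ⟨h1, h1'⟩ := Pot_bd hα hc
  obtain ⟨h2, h2'⟩ := Pot_bd hβ hc
  have hA := Real.sq_sqrt (show 0 ≤ 1 + α * c by linarith)
  have hB := Real.sq_sqrt (show 0 ≤ 1 + β * c by linarith)
  set A := √(1 + α * c)
  set B := √(1 + β * c)
  have hA0 : 0 ≤ A := Real.sqrt_nonneg _
  have hB0 : 0 ≤ B := Real.sqrt_nonneg _
  have h3 : (A + B) ^ 2 ≤ 6 := by nlinarith [sq_nonneg (A - B)]
  have h4 : (A - B) ^ 2 * (A + B) ^ 2 = (α - β) ^ 2 * c ^ 2 := by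
    have : (A - B) * (A + B) = (α - β) * c := by nlinarith
    rw [← mul_pow, this, mul_pow]
  have h5 : (α - β) ^ 2 * c ^ 2 ≤ 6 * (A - B) ^ 2 := by
    rw [← h4, mul_comm]
    exact mul_le_mul_of_nonneg_right h3 (sq_nonneg _)
  nlinarith

private theorem Pot_AB_le {α β c : ℝ} (hα : |α| ≤ 1 / 2) (hβ : |β| ≤ 1 / 2)
    (hc : c ∈ Set.Icc (-1 : ℝ) 1) : √(1 + α * c) * √(1 + β * c) ≤ 3 / 2 := by
  obtain ⟨h1, h1'⟩ := Pot_bd hα hc
  obtain ⟨h2, h2'⟩ := Pot_bd hβ hc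
  have hA := Real.sq_sqrt (show 0 ≤ 1 + α * c by linarith)
  have hB := Real.sq_sqrt (show 0 ≤ 1 + β * c by linarith)
  nlinarith [sq_nonneg (√(1 + α * c) - √(1 + β * c))]

/-- `|A (B - A)| ≤ |α - β|` -/
private theorem Pot_diff {α β c : ℝ} (hα : |α| ≤ 1 / 2) (hβ : |β| ≤ 1 / 2)
    (hc : c ∈ Set.Icc (-1 : ℝ) 1) :
    |√(1 + α * c) * √(1 + β * c) - (1 + α * c)| ≤ |α - β| := by
  obtain ⟨h1, h1'⟩ := Pot_bd hα hc
  obtain ⟨h2, h2'⟩ := Pot_bd hβ hc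
  have hA := Real.sq_sqrt (show 0 ≤ 1 + α * c by linarith)
  have hB := Real.sq_sqrt (show 0 ≤ 1 + β * c by linarith)
  have hA0 : 0 < √(1 + α * c) := Real.sqrt_pos.2 (by linarith)
  have hB0 : 0 < √(1 + β * c) := Real.sqrt_pos.2 (by linarith)
  set A := √(1 + α * c)
  set B := √(1 + β * c)
  have h3 : (A * B - (1 + α * c)) * (A + B) = A * ((β - α) * c) := by
    have : (B - A) * (A + B) = (β - α) * c := by nlinarith
    calc (A * B - (1 + α * c)) * (A + B) = (A * B - A ^ 2) * (A + B) := by rw [hA]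
      _ = A * ((B - A) * (A + B)) := by ring
      _ = _ := by rw [this]
  have h4 : |A * B - (1 + α * c)| * (A + B) ≤ |α - β| * (A + B) := by
    have h5 : |A * B - (1 + α * c)| * (A + B) = A * (|α - β| * |c|) := by
      rw [← abs_of_pos (show 0 < A + B by linarith), ← abs_mul, h3, abs_mul, abs_mul,
        abs_of_pos hA0, abs_sub_comm β α]
    have h6 : |c| ≤ 1 := abs_le.2 ⟨hc.1, hc.2⟩
    rw [h5]
    have h7 : |α - β| * |c| ≤ |α - β| := mul_le_of_le_one_right (abs_nonneg _) h6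
    calc A * (|α - β| * |c|) ≤ A * |α - β| := mul_le_mul_of_nonneg_left h7 hA0.le
      _ ≤ |α - β| * (A + B) := by nlinarith [abs_nonneg (α - β)]
  exact le_of_mul_le_mul_right h4 (by linarith)

private theorem Pot_mu (k : Fin 4) : mu₁ k ^ 2 + mu₂ k ^ 2 = 1 := by
  fin_cases k <;> norm_num [mu₁, mu₂]

theorem wc_of {Q : ℝ} (hQ : 0 < Q) {k : Fin 4} {v : W} {α β : ℝ} (hα : |α| ≤ 1 / 2)
    (hβ : |β| ≤ 1 / 2) (hv : Good Q v)
    (hg : ∀ c ∈ Set.Icc (-1 : ℝ) 1, Good Q (move k v α β c)) (hx : α = β ∨ Cross Q k v) :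
    WC 2 5 5 1920 80 (mu₁ k) (mu₂ k) (v 0) α (v 2) (v 3) (pot Q (v 0) (v 1))
      (fun c => pot Q (v 0 * (1 + α * c)) (v 1 * (1 + β * c))) := by
  have hs := hv.s_pos
  have hw := hv.w_pos
  have hr0 : 0 < √(v 0 * v 1 / Q) := Real.sqrt_pos.2 (by positivity)
  have hp : pot Q (v 0) (v 1) = v 1 + √(v 0 * v 1 / Q) := rfl
  have hp0 : 0 < pot Q (v 0) (v 1) := by rw [hp]; positivity
  have hle : ∀ c ∈ Set.Icc (-1 : ℝ) 1,
      pot Q (v 0 * (1 + α * c)) (v 1 * (1 + β * c)) ≤ 2 * pot Q (v 0) (v 1) := by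
    intro c hc
    rw [Pot_eq hQ hs hw hα hβ hc, hp]
    have h1 := (Pot_bd hβ hc).2
    have h2 := Pot_AB_le hα hβ hc
    nlinarith
  have hav : av (fun c => pot Q (v 0 * (1 + α * c)) (v 1 * (1 + β * c))) ≤
      pot Q (v 0) (v 1) - √(v 0 * v 1 / Q) * (α - β) ^ 2 / 24 := by
    have h1 : av (fun c => pot Q (v 0 * (1 + α * c)) (v 1 * (1 + β * c))) ≤
        av (fun c => (v 1 + √(v 0 * v 1 / Q)) +
          ((v 1 * β + √(v 0 * v 1 / Q) * ((α + β) / 2)) * c +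
            (-(√(v 0 * v 1 / Q) * ((α - β) ^ 2 / 12))) * c ^ 2)) := by
      apply av_mono
      · unfold pot
        fun_prop
      · fun_prop
      · intro c hc
        rw [Pot_eq hQ hs hw hα hβ hc]
        have h2 := mul_le_mul_of_nonneg_left (Pot_AB hα hβ hc) hr0.le
        linarith
    have h3 : av (fun c => (v 1 + √(v 0 * v 1 / Q)) +
          ((v 1 * β + √(v 0 * v 1 / Q) * ((α + β) / 2)) * c +
            (-(√(v 0 * v 1 / Q) * ((α - β) ^ 2 / 12))) * c ^ 2)) =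
        (v 1 + √(v 0 * v 1 / Q)) + (0 + (-(√(v 0 * v 1 / Q) * ((α - β) ^ 2 / 12))) * (1 / 2)) := by
      rw [av_add (by fun_prop) (by fun_prop), av_const, av_add (by fun_prop) (by fun_prop),
        av_odd (f := fun c => (v 1 * β + √(v 0 * v 1 / Q) * ((α + β) / 2)) * c)
          (fun c => by ring), av_mul, av_sq]
    rw [h3] at h1
    rw [hp]
    linarith
  have hav' : 0 ≤ √(v 0 * v 1 / Q) * (α - β) ^ 2 / 24 := by positivity
  refine ⟨?_, hle, hv.ps.le, ?_, ?_, ?_, ?_⟩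
  · intro c hc
    show 0 ≤ pot Q (v 0 * (1 + α * c)) (v 1 * (1 + β * c))
    have h2 := (Pot_bd hβ hc).1
    unfold pot
    have h3 : 0 ≤ 1 + β * c := by linarith
    positivity
  · intro c hc
    exact (hg c hc).px.le
  · linarith
  · intro c hc
    show (pot Q (v 0 * (1 + α * c)) (v 1 * (1 + β * c)) - pot Q (v 0) (v 1) * (1 + α * c)) ^ 2 *
      gg k v ≤ _
    obtain ⟨h1, h1'⟩ := Pot_bd hα hc
    have h2 : pot Q (v 0 * (1 + α * c)) (v 1 * (1 + β * c)) - pot Q (v 0) (v 1) * (1 + α * c) =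
        v 1 * ((β - α) * c) +
          √(v 0 * v 1 / Q) * (√(1 + α * c) * √(1 + β * c) - (1 + α * c)) := by
      rw [Pot_eq hQ hs hw hα hβ hc, hp]
      ring
    have h3 : |pot Q (v 0 * (1 + α * c)) (v 1 * (1 + β * c)) -
        pot Q (v 0) (v 1) * (1 + α * c)| ≤ |α - β| * pot Q (v 0) (v 1) := by
      rw [h2]
      refine (abs_add_le _ _).trans ?_
      rw [abs_mul, abs_mul, abs_mul, abs_of_pos hw, abs_of_pos hr0, hp, abs_sub_comm β α]
      have h6 : |c| ≤ 1 := abs_le.2 ⟨hc.1, hc.2⟩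
      have h7 : |α - β| * |c| ≤ |α - β| := mul_le_of_le_one_right (abs_nonneg _) h6
      have h8 := Pot_diff hα hβ hc
      have h9 := mul_le_mul_of_nonneg_left h7 hw.le
      have h10 := mul_le_mul_of_nonneg_left h8 hr0.le
      linarith
    have h4 : (pot Q (v 0 * (1 + α * c)) (v 1 * (1 + β * c)) -
        pot Q (v 0) (v 1) * (1 + α * c)) ^ 2 ≤ (α - β) ^ 2 * pot Q (v 0) (v 1) ^ 2 := by
      rw [← sq_abs, ← sq_abs (α - β), ← mul_pow]
      exact pow_le_pow_left₀ (abs_nonneg _) h3 2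
    have hgg : 0 ≤ gg k v := by unfold gg; positivity
    rcases hx with hx | hx
    · have h5 : (pot Q (v 0 * (1 + α * c)) (v 1 * (1 + β * c)) -
          pot Q (v 0) (v 1) * (1 + α * c)) ^ 2 ≤ 0 := by
        refine h4.trans (le_of_eq ?_)
        rw [hx]
        ring
      have h6 : (pot Q (v 0 * (1 + α * c)) (v 1 * (1 + β * c)) -
          pot Q (v 0) (v 1) * (1 + α * c)) ^ 2 * gg k v ≤ 0 :=
        mul_nonpos_of_nonpos_of_nonneg h5 hgg
      refine h6.trans ?_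
      have h7 : 0 ≤ pot Q (v 0) (v 1) -
          av (fun c => pot Q (v 0 * (1 + α * c)) (v 1 * (1 + β * c))) := by linarith
      have h8 : 0 ≤ v 0 * (1 + α * c) := mul_nonneg hs.le (by linarith)
      exact mul_nonneg (mul_nonneg (by norm_num) h7) h8
    · have h5 : (pot Q (v 0 * (1 + α * c)) (v 1 * (1 + β * c)) -
          pot Q (v 0) (v 1) * (1 + α * c)) ^ 2 * gg k v ≤
          (α - β) ^ 2 * (40 * (√(v 0 * v 1 / Q) * v 0)) := by
        calc _ ≤ (α - β) ^ 2 * pot Q (v 0) (v 1) ^ 2 * gg k v :=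
              mul_le_mul_of_nonneg_right h4 hgg
          _ = (α - β) ^ 2 * (pot Q (v 0) (v 1) ^ 2 * gg k v) := by ring
          _ ≤ _ := mul_le_mul_of_nonneg_left hx.le (sq_nonneg _)
      refine h5.trans ?_
      have h7 : √(v 0 * v 1 / Q) * (α - β) ^ 2 / 24 ≤ pot Q (v 0) (v 1) -
          av (fun c => pot Q (v 0 * (1 + α * c)) (v 1 * (1 + β * c))) := by linarith
      have h8 : v 0 * (1 / 2) ≤ v 0 * (1 + α * c) := mul_le_mul_of_nonneg_left h1 hs.le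
      calc (α - β) ^ 2 * (40 * (√(v 0 * v 1 / Q) * v 0)) =
            1920 * (√(v 0 * v 1 / Q) * (α - β) ^ 2 / 24) * (v 0 * (1 / 2)) := by ring
        _ ≤ 1920 * (pot Q (v 0) (v 1) -
            av (fun c => pot Q (v 0 * (1 + α * c)) (v 1 * (1 + β * c)))) *
              (v 0 * (1 / 2)) := by
            apply mul_le_mul_of_nonneg_right _ (by positivity)
            linarith
        _ ≤ _ := by
            apply mul_le_mul_of_nonneg_left h8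
            linarith
  · intro c hc
    obtain ⟨h1, h1'⟩ := Pot_bd hα hc
    have h2 := hle c hc
    have hmu := Pot_mu k
    show pot Q (v 0 * (1 + α * c)) (v 1 * (1 + β * c)) * ((mu₁ k * v 0 - v 2) ^ 2 +
      (mu₂ k * v 0 - v 3) ^ 2) ≤ 80 * (v 0 * (1 + α * c))
    have h3 : (mu₁ k * v 0 - v 2) ^ 2 + (mu₂ k * v 0 - v 3) ^ 2 ≤
        2 * (v 0 ^ 2 + (v 2 ^ 2 + v 3 ^ 2)) := by
      have h4 : (mu₁ k ^ 2 + mu₂ k ^ 2) * v 0 ^ 2 = v 0 ^ 2 := by rw [hmu, one_mul]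
      nlinarith [sq_nonneg (mu₁ k * v 0 + v 2), sq_nonneg (mu₂ k * v 0 + v 3)]
    have h4 : pot Q (v 0) (v 1) * v 0 ≤ 5 := hv.ps.le
    have h5 : pot Q (v 0) (v 1) * (v 2 ^ 2 + v 3 ^ 2) ≤ 5 * v 0 := hv.px.le
    have h6 : pot Q (v 0) (v 1) * v 0 * v 0 ≤ 5 * v 0 := mul_le_mul_of_nonneg_right h4 hs.le
    calc pot Q (v 0 * (1 + α * c)) (v 1 * (1 + β * c)) * ((mu₁ k * v 0 - v 2) ^ 2 +
          (mu₂ k * v 0 - v 3) ^ 2)
        ≤ (2 * pot Q (v 0) (v 1)) * ((mu₁ k * v 0 - v 2) ^ 2 + (mu₂ k * v 0 - v 3) ^ 2) :=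
          mul_le_mul_of_nonneg_right h2 (by positivity)
      _ ≤ (2 * pot Q (v 0) (v 1)) * (2 * (v 0 ^ 2 + (v 2 ^ 2 + v 3 ^ 2))) :=
          mul_le_mul_of_nonneg_left h3 (by positivity)
      _ = 4 * (pot Q (v 0) (v 1) * v 0 * v 0 + pot Q (v 0) (v 1) * (v 2 ^ 2 + v 3 ^ 2)) := by ring
      _ ≤ 4 * (5 * v 0 + 5 * v 0) := by linarith
      _ ≤ 80 * (v 0 * (1 + α * c)) := by nlinarith

end Pool.Agent.helper12.BR
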