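import Pool.Agent.helper12.BR.SymB
import Pool.Agent.helper12.BR.LowerC
import Pool.Agent.helper12.BR.Pot
import Pool.Agent.helper12.RT.Doub

/-!
# BR-Init: the initial state

PROOF.  The constant fields `F x = pt 1 1 1 0 0 0 = ![1, 1, 0, 0, 0]`.  `ap`: constants.  `good`: `pot 1 1 1 = 2`.  `bp`: `Dx m 1 0 0 u = T m u` (`Mr_const`), `Q 2 (T m u) ≤ 2 ‖T m u‖² ≤ 8 ‖u‖² = 8 Q 1 u` (`Q_one`, `T_norm2`, `Q_smul_fun`).  `ds`, `dw`: `doub_one` and `2 ^ 2 ≤ 32`
(monotonicity in the constant).  `lo`: `T mA φ - φ`, and `mA (dir 0) = 1` (`mA_dir`), `lower0C` with `L = 8`: `≤ 16 r`.  Expectation: `∫ G(v₀) ‖φ‖² = G(v₀)` because `‖φ‖ = 1`.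
-/

set_option autoImplicit false

open MeasureTheory FourierTransform
open scoped ENNReal InnerProductSpace ComplexConjugate

namespace Pool.Agent.helper12.BR

open Pool.Agent.helper12.RT
open Pool.Agent.helper12.AI (beurlingSymbol)

variable {n : ℕ}

private theorem Init_pot : pot 1 1 1 = 2 := by
  unfold pot
  norm_num

private theorem Init_mr (c : ℝ) (u : H n) : Mr (fun _ => c) u = (c : ℂ) • u := Mr_const c u

private theorem Init_doub {C : ℝ} (hC : 4 ≤ C) : DoublingLe (dens fun _ : E 2 => (1 : ℝ)) C := by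
  intro x r hr
  refine (doub_one x r hr).trans (mul_le_mul_left ?_ _)
  apply ENNReal.ofReal_le_ofReal
  norm_num
  exact hC

private theorem Init_mA : mA (dir 0) = 1 := by
  obtain ⟨h1, h2⟩ := mA_dir 0
  apply Complex.ext
  · rw [h1]
    simp [mu₁, ye]
  · rw [h2]
    simp [mu₂]

theorem init {φ : H 2} (hφ1 : ‖φ‖ = 1) {r : ℝ} (hr : 0 ≤ r)
    (hφ : Supp (Metric.closedBall (dir 0) r) φ) : Rlz φ (16 * r) 1 [(1, pt 1 1 1 0 0 0)] := by
  intro G hG ε hε
  have e0 : pt 1 1 1 0 0 0 0 = 1 := by simp [pt]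
  have e1 : pt 1 1 1 0 0 0 1 = 1 := by simp [pt]
  have e2 : pt 1 1 1 0 0 0 2 = 0 := by simp [pt]
  have e3 : pt 1 1 1 0 0 0 3 = 0 := by simp [pt]
  have e4 : pt 1 1 1 0 0 0 4 = 0 := by simp [pt]
  refine ⟨fun _ => pt 1 1 1 0 0 0, ⟨fun i => AP.const _, ⟨1, one_pos, fun x => ?_⟩, fun x => ?_,
    ?_, ?_, ?_, ?_⟩, ?_⟩
  · show 1 ≤ pt 1 1 1 0 0 0 0 ∧ 1 ≤ pt 1 1 1 0 0 0 1
    rw [e0, e1]
    exact ⟨le_rfl, le_rfl⟩
  · show Good 1 (pt 1 1 1 0 0 0)
    refine ⟨?_, ?_, ?_, ?_, ?_⟩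
    · rw [e0]
      exact one_pos
    · rw [e1]
      exact one_pos
    · rw [e1]
      norm_num
    · rw [e0, e1, Init_pot]
      norm_num
    · rw [e0, e1, e2, e3, Init_pot]
      norm_num
  · intro u
    simp only [e0, e1, e2, e3, Init_pot]
    have h1 : Dx beurlingSymbol (fun _ => (1 : ℝ)) (fun _ => 0) (fun _ => 0) u =
        T beurlingSymbol u := by
      unfold Dx
      rw [Init_mr, Init_mr]
      simp
    rw [h1]
    have h2 : Q (fun _ => (2 : ℝ)) (T beurlingSymbol u) ≤ 2 * ‖T beurlingSymbol u‖ ^ 2 :=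
      Q_le (BMr.const 2) (fun _ => le_rfl) _
    have h3 := T_norm2 symC_b u
    have h4 : ‖T beurlingSymbol u‖ ^ 2 ≤ (2 * ‖u‖) ^ 2 :=
      pow_le_pow_left₀ (norm_nonneg _) h3 2
    rw [Q_one]
    nlinarith [sq_nonneg ‖u‖, mul_nonneg hε.le (sq_nonneg ‖u‖)]
  · simp only [e0]
    exact Init_doub (by linarith)
  · simp only [e1]
    exact Init_doub (by linarith)
  · simp only [e0, e2, e3, e4]
    rw [Init_mr, Init_mr, Init_mr]
    have h1 := lower0C symC_A (by norm_num) (dir_norm 0) hr hφ1 hφ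
    rw [Init_mA] at h1
    norm_num at h1 ⊢
    linarith
  · have h1 := Q_one φ
    unfold Q at h1
    simp only [one_mul, hφ1] at h1
    rw [integral_const_mul, h1]
    simp [ev, hε.le]

end Pool.Agent.helper12.BR
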