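import Pool.Agent.helper12.BR.Chain
import Pool.Agent.helper12.BR.Init

/-!
# BR-CoreA: fields with a large norm for the second symbol

PROOF.  Upper bound: `w ≤ pot` and `pot |X|² ≤ 5 s`: `Q w (T m (Mr s u)) ≤ Q pot (D u + X u) ≤ 2 Q pot (D u) + 2 Q (pot |X|²) u ≤ (2 · 16001 + 10) Q s u` (`Q_add2`, `Q_cplx`, `Q_mono`).
Lower bound: given `K`, let `Λ = 42 + 20 (|K| + 1)`, `J` with `J / 3 ≥ Λ + 12`, `r = 1 / 1600`, `φ` from `exists_slow (dir 0)`, `δ = 16 r = 1 / 100`.  `chain`, `init` and `Rlz` for `G v = v 1 * v 4 ^ 2 - Λ * v 0 - 9 * v 1` with `ε = 1 / 100`; `ev` of `G` is at least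
`J / 3 - Λ - 9 ≥ 3` (the live atom: `(1/4)^J · 4^J = 1` for `s`, `(1/4)^J (1/4)^J = (1/16)^J` for `w`, and `≥ 0` for `w y²`; `ev` is linear in `G`).  So `∫ G (F x) ‖φ x‖² ≥ 2`.
`V := Mr (1 + C + (3/5) y) φ + i Mr ((4/5) S) φ`: `Q w V ≥ ∫ w (1 + C + (3/5) y)² |φ|²` (`Q_cplx`), and pointwise `w (1 + C + (3/5) y)² ≥ (3/25) w y² - w - w C²` (from `((3/5) y)² ≤ 3 (Y² + 1 + C²)`), `w C² ≤ pot |X|² ≤ 5 s`.  So
`Q w V ≥ (3/25) ∫ (w y² - (25/3) w - (125/3) s) |φ|² ≥ (3/25) (2 + (Λ - 42) Q s φ)`.  `Q w (T mA (Mr s φ)) ≥ Q w V / 2 - Q w (difference)`, `Q w (difference) ≤ 4 (2/100)²`.  So `Q w (T mA (Mr s φ)) ≥ (3/50) (Λ - 42) Q s φ + 3/25 - 16/10⁴ > K Q s φ`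
(`(3/50) · 20 (|K| + 1) ≥ |K|`).
-/

set_option autoImplicit false

open MeasureTheory FourierTransform
open scoped ENNReal InnerProductSpace ComplexConjugate

namespace Pool.Agent.helper12.BR

open Pool.Agent.helper12.RT
open Pool.Agent.helper12.AI (beurlingSymbol)

variable {n : ℕ}

private theorem CoreA_ev (l : List (ℝ × W)) (a b c : W → ℝ) (s t : ℝ) :
    ev l (fun v => a v - s * b v - t * c v) = ev l a - s * ev l b - t * ev l c := by
  induction l with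
  | nil => simp [ev]
  | cons q l ih =>
    have h : ∀ G : W → ℝ, ev (q :: l) G = q.1 * G q.2 + ev l G := fun G => by simp [ev]
    rw [h, h, h, h, ih]
    ring

private theorem CoreA_mono {σ : Measure (E 2)} {C C' : ℝ} (h : DoublingLe σ C) (hC : C ≤ C') :
    DoublingLe σ C' := by
  intro x r hr
  refine (h x r hr).trans ?_
  gcongr

private theorem CoreA_pot {s w : E 2 → ℝ} {q : ℝ} (hs : BMr s) (hw : BMr w) :
    BMr fun x => pot q (s x) (w x) := by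
  unfold pot
  refine hw.add ?_
  obtain ⟨h1, C, hC⟩ := hs.mul hw
  refine ⟨(h1.div_const q).sqrt, √(C / |q|), fun x => ?_⟩
  rw [abs_of_nonneg (Real.sqrt_nonneg _)]
  apply Real.sqrt_le_sqrt
  calc s x * w x / q ≤ |s x * w x / q| := le_abs_self _
    _ = |s x * w x| / |q| := abs_div _ _
    _ ≤ C / |q| := by
        have := hC x
        gcongr

private theorem CoreA_point {s w C S y q : ℝ} (hs : 0 < s) (hw : 0 < w)
    (hp : pot q s w * (C ^ 2 + S ^ 2) < 5 * s) :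
    3 / 25 * (w * (y * y) - 9 * w - 42 * s) ≤
      w * ((1 + C + 3 / 5 * y) ^ 2 + (4 / 5 * S) ^ 2) := by
  have h1 : w ≤ pot q s w := by
    unfold pot
    linarith [Real.sqrt_nonneg (s * w / q)]
  have h2 : w * (C ^ 2 + S ^ 2) ≤ pot q s w * (C ^ 2 + S ^ 2) :=
    mul_le_mul_of_nonneg_right h1 (by positivity)
  have h3 : 0 ≤ (1 + C + 3 / 5 * y) ^ 2 + (4 / 5 * S) ^ 2 -
      (3 / 25 * (y * y) - 1 - C ^ 2) := by
    nlinarith [sq_nonneg (1 + C + 3 / 5 * y + 1), sq_nonneg (1 + C + 3 / 5 * y + C),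
      sq_nonneg (1 - C), sq_nonneg S]
  have h4 := mul_nonneg hw.le h3
  have h5 : 0 ≤ w * S ^ 2 := by positivity
  nlinarith

theorem coreA : ∀ K : ℝ, ∃ s w : E 2 → ℝ, AP s ∧ AP w ∧
    (∃ c : ℝ, 0 < c ∧ ∀ x, c ≤ s x ∧ c ≤ w x) ∧ DoublingLe (dens s) 33 ∧ DoublingLe (dens w) 33 ∧
    (∀ u : H 2, Q w (T beurlingSymbol (Mr s u)) ≤ 32100 * Q s u) ∧
    ∃ φ : H 2, K * Q s φ + 1 / 10 < Q w (T mA (Mr s φ)) ∧ ‖φ‖ = 1 := by
  intro K
  obtain ⟨Λ, hΛ⟩ : ∃ Λ : ℝ, Λ = 42 + 20 * (|K| + 1) := ⟨_, rfl⟩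
  obtain ⟨J, hJ⟩ : ∃ J : ℕ, 3 * (Λ + 12) ≤ (J : ℝ) := exists_nat_ge _
  obtain ⟨φ, hφ1, hφ⟩ := exists_slow (dir 0) (r := 1 / 1600) (by norm_num)
  obtain ⟨l, hl, hR, h1, h2, h3⟩ := chain (by norm_num) hφ (init hφ1 (by norm_num) hφ) J
  have hG : Continuous fun v : W => v 1 * v 4 ^ 2 - Λ * v 0 - 9 * v 1 := by fun_prop
  obtain ⟨F, hF, hint⟩ := hR _ hG (1 / 100) (by norm_num)
  -- the value of the law
  have hev : 3 ≤ ev (((1 / 4) ^ J, pt (4 ^ J) 1 1 0 0 (2 * (4 ^ J - 1) / 3)) :: l)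
      (fun v : W => v 1 * v 4 ^ 2 - Λ * v 0 - 9 * v 1) := by
    have e1 : ev (((1 / 4) ^ J, pt (4 ^ J) 1 1 0 0 (2 * (4 ^ J - 1) / 3)) :: l)
        (fun v : W => v 1 * v 4 ^ 2 - Λ * v 0 - 9 * v 1) =
        (1 / 4) ^ J * (1 / 4 ^ J * (2 * (4 ^ J - 1) / 3) ^ 2 - Λ * (4 ^ J * 1) - 9 * (1 / 4 ^ J)) +
        ev l (fun v : W => v 1 * v 4 ^ 2 - Λ * v 0 - 9 * v 1) := by
      simp [ev, pt]
    rw [e1, CoreA_ev, h2]
    have e2 : ((1 : ℝ) / 4) ^ J * (4 ^ J * 1) = 1 := by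
      rw [mul_one, ← mul_pow]
      norm_num
    have e3 : ((1 : ℝ) / 4) ^ J * (1 / 4 ^ J) = (1 / 16) ^ J := by
      rw [← one_div_pow, ← mul_pow]
      norm_num
    have e4 : 0 ≤ ((1 : ℝ) / 4) ^ J * (1 / 4 ^ J * (2 * (4 ^ J - 1) / 3) ^ 2) := by positivity
    have e5 : ((1 : ℝ) / 4) ^ J *
        (1 / 4 ^ J * (2 * (4 ^ J - 1) / 3) ^ 2 - Λ * (4 ^ J * 1) - 9 * (1 / 4 ^ J)) =
        (1 / 4) ^ J * (1 / 4 ^ J * (2 * (4 ^ J - 1) / 3) ^ 2) -
        Λ * ((1 / 4) ^ J * (4 ^ J * 1)) - 9 * ((1 / 4) ^ J * (1 / 4 ^ J)) := by ring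
    rw [e5, e2, e3]
    linarith
  have hint2 : 2 ≤ ∫ x, (F x 1 * F x 4 ^ 2 - Λ * F x 0 - 9 * F x 1) * ‖φ x‖ ^ 2 := by
    have := (abs_le.1 hint).1
    linarith
  obtain ⟨c, hc, hcb⟩ := hF.pos
  have hb : ∀ i, BMr fun x => F x i := fun i => (hF.ap i).bmr
  have hs0 : ∀ x, 0 < F x 0 := fun x => (hF.good x).s_pos
  have hw0 : ∀ x, 0 < F x 1 := fun x => (hF.good x).w_pos
  have hpot : BMr fun x => pot ((4 ^ J) ^ 2) (F x 0) (F x 1) := CoreA_pot (hb 0) (hb 1)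
  have hwp : ∀ x, F x 1 ≤ pot ((4 ^ J) ^ 2) (F x 0) (F x 1) := by
    intro x
    unfold pot
    linarith [Real.sqrt_nonneg (F x 0 * F x 1 / (4 ^ J) ^ 2)]
  have hp0 : ∀ x, 0 ≤ pot ((4 ^ J) ^ 2) (F x 0) (F x 1) := fun x => (hw0 x).le.trans (hwp x)
  refine ⟨fun x => F x 0, fun x => F x 1, hF.ap 0, hF.ap 1, ⟨c, hc, hcb⟩,
    CoreA_mono hF.ds (by norm_num), CoreA_mono hF.dw (by norm_num), ?_, φ, ?_, hφ1⟩
  · -- the upper bound
    intro u
    have e1 : T beurlingSymbol (Mr (fun x => F x 0) u) =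
        Dx beurlingSymbol (fun x => F x 0) (fun x => F x 2) (fun x => F x 3) u +
        (Mr (fun x => F x 2) u + Complex.I • Mr (fun x => F x 3) u) := by
      unfold Dx
      rw [sub_add_cancel]
    have e2 : Q (fun x => F x 1) (T beurlingSymbol (Mr (fun x => F x 0) u)) ≤
        Q (fun x => pot ((4 ^ J) ^ 2) (F x 0) (F x 1))
          (T beurlingSymbol (Mr (fun x => F x 0) u)) :=
      Q_mono (hb 1) hpot hwp _
    have e3 := Q_add2 hpot hp0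
      (Dx beurlingSymbol (fun x => F x 0) (fun x => F x 2) (fun x => F x 3) u)
      (Mr (fun x => F x 2) u + Complex.I • Mr (fun x => F x 3) u)
    rw [← e1, Q_cplx hpot (hb 2) (hb 3)] at e3
    have e4 := hF.bp u
    have hsq : ∀ i, BMr fun x => F x i ^ 2 := by
      intro i
      have h : (fun x => F x i ^ 2) = fun x => F x i * F x i := by
        funext x
        ring
      rw [h]
      exact (hb i).mul (hb i)
    have e5 : Q (fun x => pot ((4 ^ J) ^ 2) (F x 0) (F x 1) * (F x 2 ^ 2 + F x 3 ^ 2)) u ≤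
        Q (fun x => 5 * F x 0) u :=
      Q_mono (hpot.mul ((hsq 2).add (hsq 3))) ((BMr.const 5).mul (hb 0))
        (fun x => (hF.good x).px.le) u
    rw [Q_smul_fun] at e5
    have e6 : 0 ≤ Q (fun x => F x 0) u := Q_nonneg (fun x => (hs0 x).le) u
    linarith
  · -- the lower bound
    obtain ⟨V, hV⟩ : ∃ V : H 2, V = Mr (fun x => 1 + F x 2 + 3 / 5 * F x 4) φ +
      Complex.I • Mr (fun x => 4 / 5 * F x 3) φ := ⟨_, rfl⟩
    obtain ⟨U, hU⟩ : ∃ U : H 2, U = T mA (Mr (fun x => F x 0) φ) := ⟨_, rfl⟩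
    have hlo : ‖U - V‖ ≤ 1 / 50 := by
      rw [hU, hV]
      have := hF.lo
      norm_num at this ⊢
      exact this
    rw [← hU]
    have hz1 : BMr fun x => 1 + F x 2 + 3 / 5 * F x 4 :=
      ((BMr.const 1).add (hb 2)).add ((BMr.const (3 / 5)).mul (hb 4))
    have hz2 : BMr fun x => 4 / 5 * F x 3 := (BMr.const (4 / 5)).mul (hb 3)
    have hz1s : BMr fun x => (1 + F x 2 + 3 / 5 * F x 4) ^ 2 := by
      have h : (fun x => (1 + F x 2 + 3 / 5 * F x 4) ^ 2) =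
          fun x => (1 + F x 2 + 3 / 5 * F x 4) * (1 + F x 2 + 3 / 5 * F x 4) := by
        funext x
        ring
      rw [h]
      exact hz1.mul hz1
    have hz2s : BMr fun x => (4 / 5 * F x 3) ^ 2 := by
      have h : (fun x => (4 / 5 * F x 3) ^ 2) = fun x => (4 / 5 * F x 3) * (4 / 5 * F x 3) := by
        funext x
        ring
      rw [h]
      exact hz2.mul hz2
    have hGb : BMr fun x => F x 1 * F x 4 ^ 2 - Λ * F x 0 - 9 * F x 1 := by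
      have h : (fun x => F x 1 * F x 4 ^ 2 - Λ * F x 0 - 9 * F x 1) =
          fun x => F x 1 * (F x 4 * F x 4) - Λ * F x 0 - 9 * F x 1 := by
        funext x
        ring
      rw [h]
      exact (((hb 1).mul ((hb 4).mul (hb 4))).sub ((BMr.const Λ).mul (hb 0))).sub
        ((BMr.const 9).mul (hb 1))
    have f1 : Q (fun x => F x 1) V = Q (fun x => F x 1 * ((1 + F x 2 + 3 / 5 * F x 4) ^ 2 +
        (4 / 5 * F x 3) ^ 2)) φ := by
      rw [hV]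
      exact Q_cplx (hb 1) hz1 hz2 φ
    have f2 : Q (fun x => 3 / 25 * (F x 1 * F x 4 ^ 2 - Λ * F x 0 - 9 * F x 1) +
        3 / 25 * (Λ - 42) * F x 0) φ ≤ Q (fun x => F x 1) V := by
      rw [f1]
      refine Q_mono (((BMr.const (3 / 25)).mul hGb).add ((BMr.const (3 / 25 * (Λ - 42))).mul (hb 0)))
        ((hb 1).mul (hz1s.add hz2s)) (fun x => ?_) φ
      have h := CoreA_point (y := F x 4) (hs0 x) (hw0 x) (hF.good x).px
      refine le_trans (le_of_eq ?_) h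
      ring
    rw [Q_add_fun ((BMr.const (3 / 25)).mul hGb) ((BMr.const (3 / 25 * (Λ - 42))).mul (hb 0)),
      Q_smul_fun, Q_smul_fun] at f2
    have f3 : 2 ≤ Q (fun x => F x 1 * F x 4 ^ 2 - Λ * F x 0 - 9 * F x 1) φ := hint2
    have f4 := Q_add2 (hb 1) (fun x => (hw0 x).le) U (V - U)
    rw [add_sub_cancel] at f4
    have f5 : Q (fun x => F x 1) (V - U) ≤ 4 * ‖V - U‖ ^ 2 :=
      Q_le (hb 1) (fun x => (hF.good x).w_lt.le) _
    have f6 : ‖V - U‖ ^ 2 ≤ (1 / 50) ^ 2 := by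
      rw [norm_sub_rev]
      exact pow_le_pow_left₀ (norm_nonneg _) hlo 2
    have f7 : 0 ≤ Q (fun x => F x 0) φ := Q_nonneg (fun x => (hs0 x).le) φ
    have f8 : K * Q (fun x => F x 0) φ ≤ |K| * Q (fun x => F x 0) φ :=
      mul_le_mul_of_nonneg_right (le_abs_self K) f7
    have f9 : 0 ≤ |K| * Q (fun x => F x 0) φ := mul_nonneg (abs_nonneg K) f7
    rw [hΛ] at f2 f3
    nlinarith

end Pool.Agent.helper12.BR
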