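import Pool.Agent.helper12.RT.OpsQ
import Pool.Agent.helper12.RT.OpsT
import Pool.Agent.helper12.RT.TPb
import Pool.Agent.helper12.RT.SuppB
import Pool.Agent.helper12.RT.TowerB
import Pool.Agent.helper12.AI.Spec

/-!
# BR: the Beurling transform is not biLipschitz stable on pairs of doubling measures (MP_34c9e6)

THEOREM.  There are `N` and a linear map (the matrix `diag(1/2, 1)`) such that for every `K` there are doubling measures `σ = s dx`, `ω = w dx` on `ℝ²`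
with doubling constants at most 64, `N_B(σ, ω) ≤ N` and `N_B(Φ_* σ, Φ_* ω) > K`, `B` = the Beurling transform with symbol `m(ξ) = (ξ₀ - i ξ₁)²/|ξ|²`.
IDEA (the tree is due to helper69).  `s`, `w` are built by many waves `1 + a cos(2 π λ ⟨d, x⟩)` in four directions `dir 0, ..., dir 3` with `m = 1, -1, i, -i`.
A state is `v = (s, w, C, S, y)`, where `X = C + i S` is the sum of the waves of `s` multiplied by `m` (so `T s ≈ X`) and `y` is the sum of
the waves of types 2, 3.  `T M_s - M_X` stays bounded from `L²(s)` to `L²(pot)` (`Bp`), `pot = w + √(s w / Q)`.  For `|X|² pot ≤ 5 s` this bounds `N_B`.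
For the symbol `mA(ξ) = m(2 ξ₀, ξ₁)` one has `mA = 1, -1, (3+4i)/5, (3-4i)/5` in the four directions, so
`T_mA (s φ) ≈ (1 + C + (3/5) y + (4/5) i S) φ` for a slowly varying `φ`, and `∫ w y² |φ|²` can be made arbitrarily large.
ONE BLOCK (normalised, `μ = 1` with types 0, 1 or `μ = i` with types 2, 3): from `(s, w, X) = (1, 1, 0)` split into `(1/2, 13/8, -μ/2)`, `(3/2, 3/8, μ/2)`
(type with `m = μ`); the first into `(0, 3, 0)` (dead), `(1, 1/4, -μ)` (type with `m = -μ`); the second into `(2, 1/2, 0)`, `(1, 1/4, μ)`; the points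
`(1, 1/4, ∓μ)` into `(2, 1/2, 0)` and `(0, 0, ∓ 2 μ)`.  So with probability 1/2 the state `(2, 1/2, 0)` is reached, which is the scaled initial state.
The split of an exact state is realised by many waves (walker `x -> x + (1 - x²)/4 cos`) with a cut-off around the exact state.
-/

set_option autoImplicit false

open MeasureTheory FourierTransform
open scoped ENNReal InnerProductSpace ComplexConjugate

namespace Pool.Agent.helper12.BR

open Pool.Agent.helper12.RT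
open Pool.Agent.helper12.AI (beurlingSymbol)

variable {n : ℕ}

/-- complex symbols -/
structure SymC (L : ℝ) (m : E n → ℂ) : Prop where
  re : Sym L fun ξ => (m ξ).re
  im : Sym L fun ξ => (m ξ).im

/-- uniform limits of real trigonometric polynomials -/
def AP (f : E n → ℝ) : Prop :=
  ∀ ε > 0, ∃ (K : ℝ) (q : E n → ℝ), TPr K q ∧ ∀ x, |f x - q x| ≤ ε

/-- the polynomial `∑_(k < r) pk k x c^k` in `c` -/
def polyC (pk : ℕ → E n → ℝ) (r : ℕ) (x : E n) (c : ℝ) : ℝ := ∑ k ∈ Finset.range r, pk k x * c ^ k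

/-- uniform limits on `ℝⁿ × [-1, 1]` of polynomials in `c` with trigonometric polynomials as coefficients -/
def AP2 (f : E n → ℝ → ℝ) : Prop :=
  ∀ ε > 0, ∃ (K : ℝ) (r : ℕ) (pk : ℕ → E n → ℝ), (∀ k, TPr K (pk k)) ∧
    ∀ x, ∀ c ∈ Set.Icc (-1 : ℝ) 1, |f x c - polyC pk r x c| ≤ ε

/-- `T (s u) - (x₁ + i x₂) u` -/
noncomputable def Dx (m : E n → ℂ) (s x₁ x₂ : E n → ℝ) (u : H n) : H n :=
  T m (Mr s u) - (Mr x₁ u + Complex.I • Mr x₂ u)

/-- `∫ p |T (s u) - (x₁ + i x₂) u|² ≤ N ∫ s |u|²` -/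
def Bp (m : E n → ℂ) (s x₁ x₂ p : E n → ℝ) (N : ℝ) : Prop :=
  ∀ u : H n, Q p (Dx m s x₁ x₂ u) ≤ N * Q s u

/-- the conditions for one wave `s -> s (1 + a c)`, `(x₁, x₂) -> (x₁ + μ₁ s a c, x₂ + μ₂ s a c)`, `p -> P c` at one point;
`c` is the value of the cosine -/
structure WC (C₀ C₁ C₂ M₂ M₃ μ₁ μ₂ s a x₁ x₂ p : ℝ) (P : ℝ → ℝ) : Prop where
  pos : ∀ c ∈ Set.Icc (-1 : ℝ) 1, 0 ≤ P c
  le : ∀ c ∈ Set.Icc (-1 : ℝ) 1, P c ≤ C₀ * p
  ps : p * s ≤ C₁
  px : ∀ c ∈ Set.Icc (-1 : ℝ) 1, P c * ((x₁ + μ₁ * (s * (a * c))) ^ 2 +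
    (x₂ + μ₂ * (s * (a * c))) ^ 2) ≤ C₂ * (s * (1 + a * c))
  av : av P ≤ p
  cross : ∀ c ∈ Set.Icc (-1 : ℝ) 1, (P c - p * (1 + a * c)) ^ 2 *
    ((μ₁ * s - x₁) ^ 2 + (μ₂ * s - x₂) ^ 2) ≤ M₂ * (p - RT.av P) * (s * (1 + a * c))
  diag : ∀ c ∈ Set.Icc (-1 : ℝ) 1, P c * ((μ₁ * s - x₁) ^ 2 + (μ₂ * s - x₂) ^ 2) ≤
    M₃ * (s * (1 + a * c))

/-- the decomposition of a function `u` with low quasi-frequencies: `s₁ u = s f + v'` with `s₁ = s (1 + a cs)` -/
structure Dec (s a : E n → ℝ) (d : E n) (lam R η C : ℝ) (u f f' v' : H n) : Prop where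
  eq : Mr (fun x => s x * (1 + a x * cs d lam x)) u = Mr s f + v'
  lo : Supp {ξ | ‖ξ‖ ≤ R} (Mr s f)
  hi : Supp {ξ | ∃ k : ℤ, k ≠ 0 ∧ ‖ξ - ((k : ℝ) * lam) • d‖ ≤ R} v'
  lo' : Supp {ξ | ‖ξ‖ ≤ R} f'
  near : ‖f - f'‖ ≤ η * ‖u‖
  nf : ‖f‖ ≤ C * ‖u‖
  nv : ‖v'‖ ≤ C * ‖u‖

/-! ### The potential and the states -/

/-- states `(s, w, C, S, y)` -/
abbrev W := Fin 5 → ℝ

/-- the potential -/
noncomputable def pot (Q s w : ℝ) : ℝ := w + √(s * w / Q)

/-- the admissible states for the scale `Q` -/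
structure Good (Q : ℝ) (v : W) : Prop where
  s_pos : 0 < v 0
  w_pos : 0 < v 1
  w_lt : v 1 < 4
  ps : pot Q (v 0) (v 1) * v 0 < 5
  px : pot Q (v 0) (v 1) * (v 2 ^ 2 + v 3 ^ 2) < 5 * v 0

/-- the four directions -/
noncomputable def dir (k : Fin 4) : E 2 :=
  ![WithLp.toLp 2 ![1, 0], WithLp.toLp 2 ![0, 1], WithLp.toLp 2 ![√2 / 2, -(√2 / 2)],
    WithLp.toLp 2 ![√2 / 2, √2 / 2]] k

/-- real and imaginary part of the symbol `beurlingSymbol` in the four directions -/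
def mu₁ (k : Fin 4) : ℝ := ![1, -1, 0, 0] k

def mu₂ (k : Fin 4) : ℝ := ![0, 0, 1, -1] k

/-- `1` for the directions 2 and 3 -/
def ye (k : Fin 4) : ℝ := ![0, 0, 1, 1] k

/-- the symbol after the change of variables with the matrix `diag(2, 1)` -/
noncomputable def mA (ξ : E 2) : ℂ := beurlingSymbol (WithLp.toLp 2 ![2 * ξ 0, ξ 1])

/-- one wave of type `k`: `s -> s (1 + α c)`, `w -> w (1 + β c)` -/
def move (k : Fin 4) (v : W) (α β c : ℝ) : W :=
  ![v 0 * (1 + α * c), v 1 * (1 + β * c), v 2 + mu₁ k * (v 0 * (α * c)),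
    v 3 + mu₂ k * (v 0 * (α * c)), v 4 + ye k * (v 0 * (α * c))]

/-- `|m(dir k) s - X|²` at the state `v` -/
def gg (k : Fin 4) (v : W) : ℝ := (mu₁ k * v 0 - v 2) ^ 2 + (mu₂ k * v 0 - v 3) ^ 2

/-- the condition for the cross term -/
def Cross (Q : ℝ) (k : Fin 4) (v : W) : Prop :=
  pot Q (v 0) (v 1) ^ 2 * gg k v < 40 * (√(v 0 * v 1 / Q) * v 0)

/-- the fields `F = (s, w, C, S, y)` with all their properties; `φ` is the slowly varying function of the lower bound -/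
structure Fld (φ : H 2) (N D δ Q : ℝ) (F : E 2 → W) : Prop where
  ap : ∀ i, AP fun x => F x i
  pos : ∃ c : ℝ, 0 < c ∧ ∀ x, c ≤ F x 0 ∧ c ≤ F x 1
  good : ∀ x, Good Q (F x)
  bp : Bp beurlingSymbol (fun x => F x 0) (fun x => F x 2) (fun x => F x 3)
    (fun x => pot Q (F x 0) (F x 1)) N
  ds : DoublingLe (dens fun x => F x 0) D
  dw : DoublingLe (dens fun x => F x 1) D
  lo : ‖T mA (Mr (fun x => F x 0) φ) - (Mr (fun x => 1 + F x 2 + 3 / 5 * F x 4) φ +
    Complex.I • Mr (fun x => 4 / 5 * F x 3) φ)‖ ≤ δ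

/-! ### The walker -/

/-- the amplitude of the walker -/
noncomputable def cw (t : ℝ) : ℝ := (1 - t ^ 2) / 4

/-- the expectation of `g` after `n` steps `t -> t + cw t * cos` of the walker -/
noncomputable def walk : ℕ → (ℝ → ℝ) → ℝ → ℝ
  | 0 => fun g t => g t
  | (n + 1) => fun g t => walk n (fun t => av fun c => g (t + cw t * c)) t

/-! ### Splits -/

/-- the segment of a split of type `k` with slopes `a`, `b` through `v` -/
def seg (k : Fin 4) (a b : ℝ) (v : W) (z : ℝ) : W :=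
  ![v 0 * (1 + a * z), v 1 * (1 + b * z), v 2 + mu₁ k * (v 0 * (a * z)),
    v 3 + mu₂ k * (v 0 * (a * z)), v 4 + ye k * (v 0 * (a * z))]

/-- the cut-off around `L` -/
noncomputable def tau (L : W) (η : ℝ) (v : W) : ℝ := max 0 (1 - (∑ i, |v i - L i|) / η)

/-- the finite law given by a list of (probability, state) -/
def ev (l : List (ℝ × W)) (G : W → ℝ) : ℝ := (l.map fun q => q.1 * G q.2).sum

/-- the law `l` is realised by fields up to `ε`, with constants 16000 and 32 -/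
def Rlz (φ : H 2) (δ Q : ℝ) (l : List (ℝ × W)) : Prop :=
  ∀ G : W → ℝ, Continuous G → ∀ ε : ℝ, 0 < ε → ∃ F : E 2 → W,
    Fld φ (16000 + ε) (32 + ε) (δ + ε) Q F ∧ |(∫ x, G (F x) * ‖φ x‖ ^ 2) - ev l G| ≤ ε

/-- the conditions on the exact segment of a split -/
structure SegOK (Q : ℝ) (L : W) (k : Fin 4) (a b : ℝ) : Prop where
  ha : |a| ≤ 1
  hb : |b| ≤ 1
  good : ∀ z : ℝ, -1 < z → z < 1 → Good Q (seg k a b L z)
  cross : a = b ∨ ∀ z : ℝ, -1 < z → z < 1 → Cross Q k (seg k a b L z)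

/-- the scaled states -/
noncomputable def pt (t s w x₁ x₂ y : ℝ) : W := ![t * s, w / t, t * x₁, t * x₂, y]

end Pool.Agent.helper12.BR
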