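import Pool.Agent.helper12.BR.LinC
import Pool.Agent.helper12.RT.BridgeA
import Pool.Agent.helper12.RT.TPa
import Pool.Agent.helper12.AI.Spec

/-!
# BR-LinD: from the operator statement to the statement on measures (Beurling transform, the matrix `diag (1/2, 1)`)
-/

set_option autoImplicit false

open MeasureTheory FourierTransform
open scoped ENNReal InnerProductSpace SchwartzMap ComplexConjugate

namespace Pool.Agent.helper12.BR

open Pool.Agent.helper12.RT Pool.Agent.helper12.AI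

variable {n : ℕ}

theorem beurling_norm_le (ξ : E 2) : ‖beurlingSymbol ξ‖ ≤ 1 := by
  unfold beurlingSymbol
  have h1 : ‖(ξ 0 : ℂ) - Complex.I * (ξ 1 : ℂ)‖ ^ 2 = ‖ξ‖ ^ 2 := by
    rw [← Complex.normSq_eq_norm_sq, EuclideanSpace.norm_sq_eq, Fin.sum_univ_two]
    simp [Complex.normSq_apply]
    ring
  rw [norm_div, norm_pow, norm_pow, h1, Complex.norm_real, norm_norm]
  exact div_self_le_one _

theorem beurling_bm : BM beurlingSymbol := by
  refine ⟨?_, 1, beurling_norm_le⟩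
  unfold beurlingSymbol
  have h0 : ∀ i : Fin 2, Measurable fun ξ : E 2 => (ξ i : ℂ) := fun i =>
    Complex.measurable_ofReal.comp (by fun_prop)
  have h1 : Measurable fun ξ : E 2 => ((‖ξ‖ : ℝ) : ℂ) := Complex.measurable_ofReal.comp measurable_norm
  exact (((h0 0).sub (measurable_const.mul (h0 1))).pow_const 2).div (h1.pow_const 2)

theorem lin_measurable (A : Matrix (Fin n) (Fin n) ℝ) : Measurable (lin A : E n → E n) := by
  have h1 : (lin A : E n → E n) = (A.toLpLin 2 2 : E n →ₗ[ℝ] E n) := rfl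
  rw [h1]
  exact (LinearMap.continuous_of_finiteDimensional _).measurable

theorem BM_comp_lin {m : E n → ℂ} (hm : BM m) (A : Matrix (Fin n) (Fin n) ℝ) :
    BM fun ξ => m (lin A ξ) := by
  obtain ⟨h1, C, hC⟩ := hm
  exact ⟨h1.comp (lin_measurable A), C, fun ξ => hC _⟩

theorem LinD_ac (w : E n → ℝ) : dens w ≪ volume := withDensity_absolutelyContinuous _ _

/-- the operator inequality gives the measure inequality -/
theorem norm_of_Q {m : E n → ℂ} (hm : BM m) {s w : E n → ℝ} (hs : Weight s) (hw : Weight w) {N : ℝ}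
    (hN : 0 ≤ N) (h : ∀ u : H n, Q w (T m (Mr s u)) ≤ N ^ 2 * Q s u) :
    NormAtMost m (dens s) (dens w) N := by
  rw [normAtMost_iff hm (LinD_ac w)]
  intro f hf u hu
  obtain ⟨f', _, h2, h3⟩ := dens_repr hs hf u hu
  rw [h3, dens_eLpNorm hw, ← ENNReal.ofReal_mul hN]
  apply ENNReal.ofReal_le_ofReal
  rw [h2]
  calc √(Q w (T m (Mr s f'))) ≤ √(N ^ 2 * Q s f') := Real.sqrt_le_sqrt (h f')
    _ = N * √(Q s f') := by rw [Real.sqrt_mul (by positivity), Real.sqrt_sq hN]

/-- the measure inequality gives the operator inequality -/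
theorem Q_of_norm {m : E n → ℂ} (hm : BM m) {s w : E n → ℝ} (hs : Weight s) (hw : Weight w) {N : ℝ}
    (hN : 0 ≤ N) (h : NormAtMost m (dens s) (dens w) N) (u : H n) :
    Q w (T m (Mr s u)) ≤ N ^ 2 * Q s u := by
  rw [normAtMost_iff hm (LinD_ac w)] at h
  obtain ⟨cs, Cs, hcs, hsb⟩ := hs.bdd
  obtain ⟨cw, Cw, hcw, hwb⟩ := hw.bdd
  have hs0 : ∀ x, 0 ≤ s x := fun x => hcs.le.trans (hsb x).1
  have hw0 : ∀ x, 0 ≤ w x := fun x => hcw.le.trans (hwb x).1
  have hf : MemLp (u : E n → ℂ) 2 (dens s) := by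
    refine ⟨(Lp.aestronglyMeasurable u).mono_ac (LinD_ac s), ?_⟩
    rw [dens_eLpNorm hs]
    exact ENNReal.ofReal_lt_top
  have hint : ∀ B : Set (E n), MeasurableSet B → Bornology.IsBounded B →
      ∫ x in B, u x ∂(dens s) = ∫ x in B, (Mr s u : H n) x := by
    intro B hB _
    unfold dens
    rw [setIntegral_withDensity_eq_setIntegral_toReal_smul
      (hs.bmr.1.ennreal_ofReal) (Filter.Eventually.of_forall fun x => ENNReal.ofReal_lt_top)
      _ hB]
    apply setIntegral_congr_ae hB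
    have h1 : (Mr s u : E n → ℂ) =ᵐ[volume] fun x => ((s x : ℝ) : ℂ) * u x := M_apply hs.bmr.bm u
    filter_upwards [h1] with x k1 _
    rw [k1, ENNReal.toReal_ofReal (hs0 x), Complex.real_smul]
  have hmain := h u hf (Mr s u) hint
  rw [dens_eLpNorm hw, dens_eLpNorm hs, ← ENNReal.ofReal_mul hN,
    ENNReal.ofReal_le_ofReal_iff (by positivity)] at hmain
  have h1 : 0 ≤ Q w (T m (Mr s u)) := Q_nonneg hw0 _
  have h2 : 0 ≤ Q s u := Q_nonneg hs0 _
  calc Q w (T m (Mr s u)) = √(Q w (T m (Mr s u))) ^ 2 := (Real.sq_sqrt h1).symm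
    _ ≤ (N * √(Q s u)) ^ 2 := pow_le_pow_left₀ (Real.sqrt_nonneg _) hmain 2
    _ = N ^ 2 * Q s u := by rw [mul_pow, Real.sq_sqrt h2]

theorem Weight_of_TPr {K : ℝ} {s : E n → ℝ} (hs : TPr K s) {c : ℝ} (hc : 0 < c)
    (h : ∀ x, c ≤ s x) : Weight s := by
  obtain ⟨_, C, hC⟩ := hs.bmr
  exact ⟨hs.contDiff, c, C, hc, fun x => ⟨h x, (le_abs_self _).trans (hC x)⟩⟩

/-- the matrix of the biLipschitz map -/
noncomputable def matA : Matrix (Fin 2) (Fin 2) ℝ := !![1/2, 0; 0, 1]

/-- the inverse of the transpose -/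
noncomputable def matB : Matrix (Fin 2) (Fin 2) ℝ := !![2, 0; 0, 1]

theorem matA_det : matA.det = 1 / 2 := by
  simp [matA, Matrix.det_fin_two]

theorem matAB : matA.transpose * matB = 1 := by
  ext i j
  fin_cases i <;> fin_cases j <;> simp [matA, matB, Matrix.mul_apply, Fin.sum_univ_two]

theorem beurling_lin
    (core : ∃ N : ℝ, 0 ≤ N ∧ ∀ K : ℝ, ∃ s w : E 2 → ℝ, (∃ K' : ℝ, TPr K' s ∧ TPr K' w) ∧
      (∃ c : ℝ, 0 < c ∧ ∀ x, c ≤ s x ∧ c ≤ w x) ∧ DoublingLe (dens s) 64 ∧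
      DoublingLe (dens w) 64 ∧ (∀ u : H 2, Q w (T beurlingSymbol (Mr s u)) ≤ N * Q s u) ∧
      ¬ (∀ u : H 2, Q w (T (fun ξ => beurlingSymbol (lin matB ξ)) (Mr s u)) ≤ K * Q s u)) :
    ∃ C : ℝ, ∀ K : ℝ, ∃ s w : E 2 → ℝ, Weight s ∧ Weight w ∧
      DoublingLe (dens s) C ∧ DoublingLe (dens w) C ∧
      NormAtMost beurlingSymbol (dens s) (dens w) C ∧
      ¬ NormAtMost beurlingSymbol ((dens s).map (lin matA)) ((dens w).map (lin matA)) K := by
  obtain ⟨N, hN, h⟩ := core
  have hmono : ∀ {σ : Measure (E 2)}, DoublingLe σ 64 → DoublingLe σ (max 64 (√N)) := by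
    intro σ h x r hr
    refine (h x r hr).trans ?_
    gcongr
    exact le_max_left _ _
  refine ⟨max 64 (√N), fun K => ?_⟩
  obtain ⟨s, w, ⟨K', hs, hw⟩, ⟨c, hc, hsw⟩, hds, hdw, hup, hlow⟩ := h ((1 / 2 * max K 0) ^ 2)
  have hWs : Weight s := Weight_of_TPr hs hc fun x => (hsw x).1
  have hWw : Weight w := Weight_of_TPr hw hc fun x => (hsw x).2
  refine ⟨s, w, hWs, hWw, hmono hds, hmono hdw, ?_, fun hcon => hlow ?_⟩
  · have h1 : NormAtMost beurlingSymbol (dens s) (dens w) (√N) := by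
      apply norm_of_Q beurling_bm hWs hWw (Real.sqrt_nonneg _)
      intro u
      rw [Real.sq_sqrt hN]
      exact hup u
    intro f u v U hf hset hu hv
    refine (h1 f u v U hf hset hu hv).trans ?_
    gcongr
    exact le_max_right _ _
  · have h1 : NormAtMost beurlingSymbol ((dens s).map (lin matA)) ((dens w).map (lin matA))
        (max K 0) := by
      intro f u v U hf hset hu hv
      refine (hcon f u v U hf hset hu hv).trans ?_
      gcongr
      exact le_max_left _ _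
    have hdet : matA.det ≠ 0 := by
      rw [matA_det]
      norm_num
    have h2 := norm_lin matA matB hdet matAB h1
    rw [matA_det, abs_of_pos (by norm_num : (0 : ℝ) < 1 / 2)] at h2
    intro u
    exact Q_of_norm (BM_comp_lin beurling_bm matB) hWs hWw (by positivity) h2 u

end Pool.Agent.helper12.BR
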