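import Pool.Agent.helper12.BR.LinC
import Pool.Agent.helper12.AI.Spec

/-!
# BR-RotA: rotations do not change the norm of the Beurling transform
-/

set_option autoImplicit false

open MeasureTheory FourierTransform
open scoped ENNReal InnerProductSpace SchwartzMap

namespace Pool.Agent.helper12.BR

open Pool.Agent.helper12.RT Pool.Agent.helper12.AI

theorem rot_entries {A : Matrix (Fin 2) (Fin 2) ℝ} (hA : A * A.transpose = 1) (hd : A.det = 1) :
    A 1 1 = A 0 0 ∧ A 0 1 = - A 1 0 ∧ A 0 0 ^ 2 + A 1 0 ^ 2 = 1 := by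
  have h00 : A 0 0 * A 0 0 + A 0 1 * A 0 1 = 1 := by
    have := congrFun (congrFun hA 0) 0
    simpa [Matrix.mul_apply, Fin.sum_univ_two] using this
  have h01 : A 0 0 * A 1 0 + A 0 1 * A 1 1 = 0 := by
    have := congrFun (congrFun hA 0) 1
    simpa [Matrix.mul_apply, Fin.sum_univ_two] using this
  have h11 : A 1 0 * A 1 0 + A 1 1 * A 1 1 = 1 := by
    have := congrFun (congrFun hA 1) 1
    simpa [Matrix.mul_apply, Fin.sum_univ_two] using this
  have hd' : A 0 0 * A 1 1 - A 0 1 * A 1 0 = 1 := by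
    rw [Matrix.det_fin_two] at hd
    exact hd
  have e1 : (A 1 1 - A 0 0) ^ 2 + (A 0 1 + A 1 0) ^ 2 = 0 := by nlinarith
  have e2 : A 1 1 - A 0 0 = 0 := by nlinarith [sq_nonneg (A 1 1 - A 0 0), sq_nonneg (A 0 1 + A 1 0)]
  have e3 : A 0 1 + A 1 0 = 0 := by nlinarith [sq_nonneg (A 1 1 - A 0 0), sq_nonneg (A 0 1 + A 1 0)]
  refine ⟨by linarith, by linarith, ?_⟩
  have e4 : A 0 1 = - A 1 0 := by linarith
  rw [e4] at h00
  nlinarith

theorem rot_symbol {A : Matrix (Fin 2) (Fin 2) ℝ} (hA : A * A.transpose = 1) (hd : A.det = 1) :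
    ∃ c : ℂ, ‖c‖ = 1 ∧ ∀ ξ : E 2, beurlingSymbol (lin A ξ) = c * beurlingSymbol ξ := by
  obtain ⟨h1, h2, h3⟩ := rot_entries hA hd
  set a := A 0 0 with ha
  set b := A 1 0 with hb
  have h0 : ∀ ξ : E 2, (lin A ξ) 0 = a * ξ 0 - b * ξ 1 := by
    intro ξ
    simp [lin, h2]
    ring
  have h1' : ∀ ξ : E 2, (lin A ξ) 1 = b * ξ 0 + a * ξ 1 := by
    intro ξ
    simp [lin, h1, hb]
  have hn : ∀ ξ : E 2, ‖lin A ξ‖ = ‖ξ‖ := by
    intro ξ
    have : ‖lin A ξ‖ ^ 2 = ‖ξ‖ ^ 2 := by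
      rw [EuclideanSpace.norm_sq_eq, EuclideanSpace.norm_sq_eq, Fin.sum_univ_two, Fin.sum_univ_two,
        h0, h1']
      simp only [Real.norm_eq_abs, sq_abs]
      linear_combination (ξ 0 ^ 2 + ξ 1 ^ 2) * h3
    exact (pow_left_inj₀ (norm_nonneg _) (norm_nonneg _) two_ne_zero).1 this
  refine ⟨((a : ℂ) - Complex.I * (b : ℂ)) ^ 2, ?_, fun ξ => ?_⟩
  · have h4 : ‖(a : ℂ) - Complex.I * (b : ℂ)‖ ^ 2 = 1 := by
      rw [← Complex.normSq_eq_norm_sq]
      simp [Complex.normSq_apply]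
      linarith
    rw [norm_pow]
    exact h4
  · unfold beurlingSymbol
    rw [h0, h1', hn]
    push_cast
    have h5 : ((a : ℂ) * (ξ 0 : ℂ) - (b : ℂ) * (ξ 1 : ℂ)) - Complex.I * ((b : ℂ) * (ξ 0 : ℂ) +
        (a : ℂ) * (ξ 1 : ℂ)) = ((a : ℂ) - Complex.I * (b : ℂ)) * ((ξ 0 : ℂ) - Complex.I * (ξ 1 : ℂ)) := by
      linear_combination (-((b : ℂ) * (ξ 1 : ℂ))) * Complex.I_sq
    rw [h5, mul_pow]
    ring

/-- the norm of the Beurling transform does not change under rotations -/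
theorem beurling_rot {A : Matrix (Fin 2) (Fin 2) ℝ} (hA : A * A.transpose = 1) (hd : A.det = 1)
    {σ ω : Measure (E 2)} {N : ℝ} (h : NormAtMost beurlingSymbol σ ω N) :
    NormAtMost beurlingSymbol (σ.map (lin A)) (ω.map (lin A)) N := by
  have hAt : A.transpose * A = 1 := mul_eq_one_comm.1 hA
  have hdt : A.transpose.det = 1 := by rw [Matrix.det_transpose, hd]
  have hcomp : ∀ μ : Measure (E 2), (μ.map (lin A)).map (lin A.transpose) = μ := by
    intro μ
    have hm : ∀ B : Matrix (Fin 2) (Fin 2) ℝ, Measurable (lin B : E 2 → E 2) := by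
      intro B
      have h1 : (lin B : E 2 → E 2) = (B.toLpLin 2 2 : E 2 →ₗ[ℝ] E 2) := rfl
      rw [h1]
      exact (LinearMap.continuous_of_finiteDimensional _).measurable
    rw [Measure.map_map (hm _) (hm _)]
    have : (lin A.transpose : E 2 → E 2) ∘ lin A = id := by
      funext x
      simp only [Function.comp_apply, lin, Matrix.mulVec_mulVec, hAt, Matrix.one_mulVec, id]
    rw [this, Measure.map_id]
  obtain ⟨c, hc, hsym⟩ := rot_symbol (A := A.transpose) (by rw [Matrix.transpose_transpose]; exact hAt) hdt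
  have h1 : NormAtMost beurlingSymbol ((σ.map (lin A)).map (lin A.transpose))
      ((ω.map (lin A)).map (lin A.transpose)) N := by
    rw [hcomp, hcomp]
    exact h
  have hdet : A.transpose.det ≠ 0 := by
    rw [hdt]
    exact one_ne_zero
  have h2 := norm_lin A.transpose A.transpose hdet (by rw [Matrix.transpose_transpose]; exact hA) h1
  rw [hdt, abs_one, one_mul] at h2
  apply norm_unimod hc
  have h3 : (fun ξ => beurlingSymbol (lin A.transpose ξ)) = fun ξ => c * beurlingSymbol ξ :=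
    funext hsym
  rwa [h3] at h2

end Pool.Agent.helper12.BR
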