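import Pool.Agent.helper12.AI.Lip
import Pool.Agent.helper12.RT.SpecA
import Pool.Agent.helper12.BR.LinD

/-!
# BR-Zero: order zero (the identity), and the matrix of `LinD` is biLipschitz
-/

set_option autoImplicit false

open MeasureTheory FourierTransform
open scoped ENNReal InnerProductSpace SchwartzMap

namespace Pool.Agent.helper12.BR

open Pool.Agent.helper12.RT Pool.Agent.helper12.AI

variable {n : ℕ}

theorem isFourier_one_ae {u v U : E n → ℂ} (hu : IsFourier u U) (hv : IsFourier v fun ξ => 1 * U ξ) :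
    v =ᵐ[volume] u := by
  obtain ⟨g, hg, hG⟩ := isFourier_iff.1 hu
  obtain ⟨k, hk, hK⟩ := isFourier_iff.1 hv
  have h1 : (𝓕 k : H n) = 𝓕 g := by
    apply Lp.ext
    filter_upwards [hK, hG] with ξ h1 h2
    rw [h1, h2, one_mul]
  have h2 : k = g := by
    have h3 := congrArg (fun z : H n => (𝓕⁻ z : H n)) h1
    simpa only [FourierTransform.fourierInv_fourier_eq] using h3
  rw [h2] at hk
  exact hk.symm.trans hg

theorem isFourier_exists {u : E n → ℂ} (hu : MemLp u 2 volume) : ∃ U : E n → ℂ, IsFourier u U :=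
  ⟨(𝓕 (hu.toLp u) : H n), isFourier_iff.2 ⟨hu.toLp u, hu.coeFn_toLp, Filter.EventuallyEq.rfl⟩⟩

/-- the identity operator is biLipschitz stable -/
theorem one_bilip (n : ℕ) (L : ℝ) : ∃ C : ℝ, 1 ≤ C ∧ ∀ Φ : E n → E n, BiLip Φ L →
    ∀ (σ ω : Measure (E n)) (N : ℝ), NormAtMost (fun _ => 1) σ ω N →
      NormAtMost (fun _ => 1) (σ.map Φ) (ω.map Φ) (C * N) := by
  obtain ⟨C, hC1, hC⟩ := lip_density n L
  refine ⟨C, hC1, fun Φ hΦ σ ω N h => ?_⟩
  have hC0 : 0 < C := lt_of_lt_of_le one_pos hC1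
  obtain ⟨Ψ, hΨ, h1, h2⟩ := lip_inverse hΦ
  obtain ⟨J, hJm, hJ, hJv⟩ := hC Ψ hΨ
  obtain ⟨Cm, hCm, hmeas⟩ := lip_meas n L
  have hΦm : Measurable Φ := (hmeas Φ hΦ).1
  have hΨm : Measurable Ψ := (hmeas Ψ hΨ).1
  let e : E n ≃ᵐ E n :=
    { toFun := Φ, invFun := Ψ, left_inv := h1, right_inv := h2, measurable_toFun := hΦm,
      measurable_invFun := hΨm }
  have hme : MeasurableEmbedding Φ := e.measurableEmbedding
  have hmeΨ : MeasurableEmbedding Ψ := e.symm.measurableEmbedding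
  intro f₁ u₁ v₁ U₁ hf₁ hset hu₁ hv₁
  have hae : v₁ =ᵐ[volume] u₁ := isFourier_one_ae hu₁ hv₁
  have hJ0 : ∀ x, 0 < J x := fun x => lt_of_lt_of_le (inv_pos.2 hC0) (hJ x).1
  -- `v₁ ∘ Φ ∈ L²`
  have hcompv : (dens J).map Φ = volume := by
    rw [← hJv, Measure.map_map hΦm hΨm]
    have : Φ ∘ Ψ = id := funext h2
    rw [this, Measure.map_id]
  have hw1 : MemLp (v₁ ∘ Φ) 2 (dens J) := by
    rw [← hme.memLp_map_measure_iff, hcompv]
    exact hv₁.1
  have hle : (volume : Measure (E n)) ≤ ENNReal.ofReal C • dens J := by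
    rw [Measure.le_iff]
    intro B hB
    rw [Measure.smul_apply, smul_eq_mul, dens, withDensity_apply _ hB]
    have h3 : ENNReal.ofReal C⁻¹ * volume B ≤ ∫⁻ x in B, ENNReal.ofReal (J x) := by
      rw [← setLIntegral_const]
      exact lintegral_mono fun x => ENNReal.ofReal_le_ofReal (hJ x).1
    calc volume B = ENNReal.ofReal C * (ENNReal.ofReal C⁻¹ * volume B) := by
          rw [← mul_assoc, ← ENNReal.ofReal_mul hC0.le, mul_inv_cancel₀ hC0.ne',
            ENNReal.ofReal_one, one_mul]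
      _ ≤ _ := mul_le_mul_right h3 _
  have hw2 : MemLp (v₁ ∘ Φ) 2 volume := hw1.of_measure_le_smul ENNReal.ofReal_ne_top hle
  have hJc : AEStronglyMeasurable (fun x => (J x : ℂ)) (volume : Measure (E n)) :=
    (Complex.measurable_ofReal.comp hJm).aestronglyMeasurable
  have hu : MemLp (fun x => (J x : ℂ) * v₁ (Φ x)) 2 volume := by
    refine MemLp.of_le_mul (c := C) hw2 (hJc.mul hw2.1) (Filter.Eventually.of_forall fun x => ?_)
    rw [norm_mul, Complex.norm_real, Real.norm_eq_abs, abs_of_pos (hJ0 x)]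
    exact mul_le_mul_of_nonneg_right (hJ x).2 (norm_nonneg _)
  obtain ⟨U, hU⟩ := isFourier_exists hu
  have hf : MemLp (f₁ ∘ Φ) 2 σ := (hme.memLp_map_measure_iff).1 hf₁
  have hset' : ∀ B : Set (E n), MeasurableSet B → Bornology.IsBounded B →
      ∫ x in B, (f₁ ∘ Φ) x ∂σ = ∫ x in B, (J x : ℂ) * v₁ (Φ x) := by
    intro B hB hBb
    have hB' : MeasurableSet (Ψ ⁻¹' B) := hΨm hB
    have hpre : Φ ⁻¹' (Ψ ⁻¹' B) = B := by
      ext x
      simp only [Set.mem_preimage, h1]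
    have hBb' : Bornology.IsBounded (Ψ ⁻¹' B) := by
      have e1 : Ψ ⁻¹' B = Φ '' B := by
        ext x
        constructor
        · intro hx
          exact ⟨Ψ x, hx, h2 x⟩
        · rintro ⟨y, hy, rfl⟩
          simpa only [Set.mem_preimage, h1] using hy
      rw [e1]
      obtain ⟨R, hR⟩ := Metric.isBounded_iff.1 hBb
      refine Metric.isBounded_iff.2 ⟨|L| * |R|, ?_⟩
      rintro _ ⟨x, hx, rfl⟩ _ ⟨y, hy, rfl⟩
      have h4 := (hΦ.2 x y).1
      have h5 := hR hx hy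
      have h6 : dist x y ≤ |R| := h5.trans (le_abs_self _)
      calc dist (Φ x) (Φ y) ≤ L * dist x y := h4
        _ ≤ |L| * dist x y := mul_le_mul_of_nonneg_right (le_abs_self _) dist_nonneg
        _ ≤ |L| * |R| := mul_le_mul_of_nonneg_left h6 (abs_nonneg _)
    have e2 : ∫ y in Ψ ⁻¹' B, f₁ y ∂(σ.map Φ) = ∫ x in B, (f₁ ∘ Φ) x ∂σ := by
      rw [hme.setIntegral_map, hpre]
      rfl
    have e3 : ∫ y in Ψ ⁻¹' B, u₁ y = ∫ y in Ψ ⁻¹' B, v₁ y := by
      apply integral_congr_ae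
      exact ae_restrict_of_ae hae.symm
    have e4 : ∫ x in B, v₁ (Φ x) ∂((volume : Measure (E n)).map Ψ) = ∫ y in Ψ ⁻¹' B, v₁ y := by
      rw [hmeΨ.setIntegral_map]
      simp only [h2]
    have e5 : ∫ x in B, v₁ (Φ x) ∂((volume : Measure (E n)).map Ψ) =
        ∫ x in B, (J x : ℂ) * v₁ (Φ x) := by
      rw [hJv, dens, setIntegral_withDensity_eq_setIntegral_toReal_smul
        (hJm.ennreal_ofReal) (Filter.Eventually.of_forall fun x => ENNReal.ofReal_lt_top) _ hB]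
      apply integral_congr_ae
      refine Filter.Eventually.of_forall fun x => ?_
      show (ENNReal.ofReal (J x)).toReal • v₁ (Φ x) = (J x : ℂ) * v₁ (Φ x)
      rw [ENNReal.toReal_ofReal (hJ0 x).le, Complex.real_smul]
    rw [← e2, hset _ hB' hBb', e3, ← e4, e5]
  have hU' : IsFourier (fun x => (J x : ℂ) * v₁ (Φ x)) fun ξ => 1 * U ξ := by
    simpa only [one_mul] using hU
  have h7 := h _ _ _ _ hf hset' hU hU'
  rw [hme.eLpNorm_map_measure, hme.eLpNorm_map_measure]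
  have h8 : eLpNorm (v₁ ∘ Φ) 2 ω ≤
      ENNReal.ofReal C * eLpNorm (fun x => (J x : ℂ) * v₁ (Φ x)) 2 ω := by
    apply eLpNorm_le_mul_eLpNorm_of_ae_le_mul
    refine Filter.Eventually.of_forall fun x => ?_
    rw [norm_mul, Complex.norm_real, Real.norm_eq_abs, abs_of_pos (hJ0 x)]
    show ‖v₁ (Φ x)‖ ≤ _
    have h9 : 1 ≤ C * J x := by
      have := mul_le_mul_of_nonneg_left (hJ x).1 hC0.le
      rwa [mul_inv_cancel₀ hC0.ne'] at this
    calc ‖v₁ (Φ x)‖ = 1 * ‖v₁ (Φ x)‖ := (one_mul _).symm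
      _ ≤ (C * J x) * ‖v₁ (Φ x)‖ := mul_le_mul_of_nonneg_right h9 (norm_nonneg _)
      _ = C * (J x * ‖v₁ (Φ x)‖) := by ring
  calc eLpNorm (v₁ ∘ Φ) 2 ω ≤ ENNReal.ofReal C * eLpNorm (fun x => (J x : ℂ) * v₁ (Φ x)) 2 ω := h8
    _ ≤ ENNReal.ofReal C * (ENNReal.ofReal N * eLpNorm (f₁ ∘ Φ) 2 σ) := by gcongr
    _ = ENNReal.ofReal (C * N) * eLpNorm (f₁ ∘ Φ) 2 σ := by
        rw [← mul_assoc, ← ENNReal.ofReal_mul hC0.le]

/-- order zero -/
theorem riesz_zero_bilip (n : ℕ) (L : ℝ) : ∃ C : ℝ, 1 ≤ C ∧ ∀ Φ : E n → E n, BiLip Φ L →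
    ∀ (σ ω : Measure (E n)) (N : ℝ), NormAtMost (rieszSymbol fun _ => 0) σ ω N →
      NormAtMost (rieszSymbol fun _ => 0) (σ.map Φ) (ω.map Φ) (C * N) := by
  have h1 : (rieszSymbol (fun _ => 0) : E n → ℂ) = fun _ => 1 := by
    funext ξ
    simp [rieszSymbol]
  rw [h1]
  exact one_bilip n L

/-- the matrix `diag (1/2, 1)` is biLipschitz with constant 2 -/
theorem matA_bilip : BiLip (lin matA) 2 := by
  have hsub : ∀ x y : E 2, lin matA x - lin matA y = lin matA (x - y) := by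
    intro x y
    have h1 : (lin matA : E 2 → E 2) = (matA.toLpLin 2 2 : E 2 →ₗ[ℝ] E 2) := rfl
    rw [h1, map_sub]
  have h0 : ∀ x : E 2, (lin matA x) 0 = 1 / 2 * x 0 := by
    intro x
    simp [lin, matA]
    rfl
  have h1 : ∀ x : E 2, (lin matA x) 1 = x 1 := by
    intro x
    simp [lin, matA]
    rfl
  have hn : ∀ x : E 2, ‖lin matA x‖ ^ 2 = (1 / 2 * x 0) ^ 2 + x 1 ^ 2 ∧ ‖x‖ ^ 2 = x 0 ^ 2 + x 1 ^ 2 := by
    intro x
    rw [EuclideanSpace.norm_sq_eq, EuclideanSpace.norm_sq_eq, Fin.sum_univ_two, Fin.sum_univ_two,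
      h0, h1]
    simp only [Real.norm_eq_abs, sq_abs, and_self]
  constructor
  · intro y
    refine ⟨lin matB.transpose y, ?_⟩
    have h2 : matA * matB.transpose = 1 := by
      ext i j
      fin_cases i <;> fin_cases j <;> simp [matA, matB, Matrix.mul_apply, Fin.sum_univ_two]
    simp only [lin, Matrix.mulVec_mulVec, h2, Matrix.one_mulVec]
  · intro x y
    rw [dist_eq_norm, dist_eq_norm, hsub]
    obtain ⟨e1, e2⟩ := hn (x - y)
    have p1 := norm_nonneg (lin matA (x - y))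
    have p2 := norm_nonneg (x - y)
    constructor
    · apply le_of_sq_le_sq _ (by positivity)
      nlinarith [sq_nonneg ((x - y) 0), sq_nonneg ((x - y) 1)]
    · apply le_of_sq_le_sq _ (by positivity)
      nlinarith [sq_nonneg ((x - y) 0), sq_nonneg ((x - y) 1)]

end Pool.Agent.helper12.BR
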