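import Pool.Agent.helper12.BR.SpecF
import Pool.Agent.helper12.BR.Core
import Pool.Agent.helper12.BR.LinD
import Pool.Agent.helper12.BR.RotA
import Pool.Agent.helper12.BR.Zero
import Pool.Agent.helper12.AI.Main
import Pool.Agent.helper12.RT.Final

/-!
# BR-Final: the answer for all operators, groups and classes
-/

set_option autoImplicit false

open MeasureTheory

namespace Pool.Agent.helper12.BR

open Pool.Agent.helper12.RT Pool.Agent.helper12.AI

variable {n : ℕ}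

theorem Final_mA : mA = fun ξ => beurlingSymbol (lin matB ξ) := by
  funext ξ
  unfold mA
  congr 1
  ext i
  fin_cases i <;> simp [lin, matB, dotProduct, Fin.sum_univ_two]

theorem Final_locFin {s : E n → ℝ} (hs : Weight s) : IsLocallyFiniteMeasure (dens s) := by
  exact IsLocallyFiniteMeasure.withDensity_ofReal hs.smooth.continuous

theorem Final_ne {s : E n → ℝ} (hs : Weight s) : dens s ≠ 0 := by
  intro h0
  obtain ⟨c, C, hc, h⟩ := hs.bdd
  unfold dens at h0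
  rw [withDensity_eq_zero_iff (by
    exact (ENNReal.measurable_ofReal.comp hs.smooth.continuous.measurable).aemeasurable)] at h0
  have h1 : ∀ᵐ x ∂(volume : Measure (E n)), False := by
    filter_upwards [h0] with x hx
    have h2 : ENNReal.ofReal (s x) = 0 := hx
    rw [ENNReal.ofReal_eq_zero] at h2
    linarith [(h x).1]
  rw [Filter.eventually_false_iff_eq_bot] at h1
  exact (NeZero.ne (volume : Measure (E n))) (ae_eq_bot.1 h1)

theorem Final_doub {s : E n → ℝ} (hs : Weight s) {C : ℝ} (h : DoublingLe (dens s) C) :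
    Doub (dens s) C := ⟨Final_locFin hs, Final_ne hs, h⟩

theorem Final_mono {m : E n → ℂ} {σ ω : Measure (E n)} {N N' : ℝ} (hN : N ≤ N')
    (h : NormAtMost m σ ω N) : NormAtMost m σ ω N' := by
  intro f u v U h1 h2 h3 h4
  exact (h f u v U h1 h2 h3 h4).trans (mul_le_mul_left (ENNReal.ofReal_le_ofReal hN) _)

/-- `A_∞`, iterated Riesz transforms -/
theorem ainfR (β : Fin n → ℕ) (hβ : Even (∑ j, β j)) (hβ0 : 0 < ∑ j, β j) :
    Stable (rieszSymbol β) Ainf BiLip := by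
  intro C L N
  obtain ⟨N', h⟩ := ainf_riesz β hβ hβ0 C L N
  refine ⟨N', ?_⟩
  rintro σ ω ⟨s, hs, rfl⟩ ⟨w, hw, rfl⟩ Φ hΦ h1
  exact h s w hs hw Φ hΦ h1

/-- `A_∞`, Beurling transform -/
theorem ainfB : Stable beurlingSymbol Ainf BiLip := by
  intro C L N
  obtain ⟨N', h⟩ := ainf_beurling C L N
  refine ⟨N', ?_⟩
  rintro σ ω ⟨s, hs, rfl⟩ ⟨w, hw, rfl⟩ Φ hΦ h1
  exact h s w hs hw Φ hΦ h1

theorem DoubSmooth.doub {σ : Measure (E n)} {C : ℝ} (h : DoubSmooth σ C) : Doub σ C := by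
  obtain ⟨s, hs, h1, rfl⟩ := h
  exact Final_doub hs h1

/-- stability on doubling measures gives stability on smooth doubling measures -/
theorem Stable.smooth {m : E n → ℂ} {X : (E n → E n) → ℝ → Prop} (h : Stable m Doub X) :
    Stable m DoubSmooth X := by
  intro C L N
  obtain ⟨N', hN'⟩ := h C L N
  exact ⟨N', fun σ ω hσ hω Φ hΦ h1 => hN' σ ω hσ.doub hω.doub Φ hΦ h1⟩

/-- doubling measures, iterated Riesz transforms, rotations -/
theorem doubR (hn : 2 ≤ n) (β : Fin n → ℕ) (hβ : Even (∑ j, β j)) (hβ0 : 0 < ∑ j, β j) :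
    ¬ Stable (rieszSymbol β) DoubSmooth fun Φ _ => Rotn Φ := by
  intro hst
  obtain ⟨A, C, hA, hd, h⟩ := final n hn β hβ hβ0
  obtain ⟨N', hN'⟩ := hst C 1 C
  obtain ⟨s, w, hs, hw, h1, h2, h3, h4⟩ := h N'
  exact h4 (hN' _ _ ⟨s, hs, h1, rfl⟩ ⟨w, hw, h2, rfl⟩ (lin A) ⟨A, hA, hd, rfl⟩ h3)

/-- doubling measures, Beurling transform, rotations -/
theorem doubB : Stable beurlingSymbol Doub fun Φ _ => Rotn Φ := by
  intro C L N
  refine ⟨N, ?_⟩
  rintro σ ω - - Φ ⟨A, hA, hd, rfl⟩ h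
  exact beurling_rot hA hd h

/-- doubling measures, Beurling transform, biLipschitz maps -/
theorem doubBL : ¬ Stable beurlingSymbol DoubSmooth BiLip := by
  intro hst
  obtain ⟨C, h⟩ := beurling_lin (by
    obtain ⟨N, hN, h⟩ := core
    refine ⟨N, hN, fun K => ?_⟩
    obtain ⟨s, w, h1, h2, h3, h4, h5, h6⟩ := h K
    rw [Final_mA] at h6
    exact ⟨s, w, h1, h2, h3, h4, h5, h6⟩)
  obtain ⟨N', hN'⟩ := hst C 2 C
  obtain ⟨s, w, hs, hw, h1, h2, h3, h4⟩ := h N'
  exact h4 (hN' _ _ ⟨s, hs, h1, rfl⟩ ⟨w, hw, h2, rfl⟩ (lin matA) matA_bilip h3)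

/-- rotations are biLipschitz with constant 1 -/
theorem rot_bilip {Φ : E n → E n} (h : Rotn Φ) : BiLip Φ 1 := by
  obtain ⟨A, hA, -, rfl⟩ := h
  have hA' : A.transpose * A = 1 := mul_eq_one_comm.1 hA
  have hcomp : ∀ (B C : Matrix (Fin n) (Fin n) ℝ) (x : E n), lin B (lin C x) = lin (B * C) x := by
    intro B C x
    simp only [lin, Matrix.mulVec_mulVec]
  have hone : ∀ x : E n, lin (1 : Matrix (Fin n) (Fin n) ℝ) x = x := by
    intro x
    simp only [lin, Matrix.one_mulVec]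
  have hn : ∀ x : E n, ‖lin A x‖ = ‖x‖ := by
    intro x
    have h1 := lin_adj A x (lin A x)
    rw [hcomp, hA', hone, real_inner_self_eq_norm_sq, real_inner_self_eq_norm_sq] at h1
    exact (sq_eq_sq₀ (norm_nonneg _) (norm_nonneg _)).1 h1
  have hd : ∀ x y : E n, dist (lin A x) (lin A y) = dist x y := by
    intro x y
    have h1 : (lin A : E n → E n) = (A.toLpLin 2 2 : E n →ₗ[ℝ] E n) := rfl
    rw [dist_eq_norm, dist_eq_norm, ← hn (x - y), h1, map_sub]
  refine ⟨fun y => ⟨lin A.transpose y, ?_⟩, fun x y => ?_⟩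
  · rw [hcomp, hA, hone]
  · rw [hd, one_mul]
    exact ⟨le_rfl, le_rfl⟩

theorem Stable.rot {m : E n → ℂ} {S : Measure (E n) → ℝ → Prop} (h : Stable m S BiLip) :
    Stable m S fun Φ _ => Rotn Φ := by
  intro C L N
  obtain ⟨N', hN'⟩ := h C 1 N
  exact ⟨N', fun σ ω hσ hω Φ hΦ h1 => hN' σ ω hσ hω Φ (rot_bilip hΦ) h1⟩

/-- order zero -/
theorem zeroR (n : ℕ) (S : Measure (E n) → ℝ → Prop) :
    Stable (rieszSymbol fun _ => 0) S BiLip := by
  intro C L N
  obtain ⟨C', -, h⟩ := riesz_zero_bilip n L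
  exact ⟨C' * N, fun σ ω _ _ Φ hΦ h1 => h Φ hΦ σ ω N h1⟩

theorem even_zero {β : Fin n → ℕ} (h : ∑ j, β j = 0) : β = fun _ => 0 := by
  funext j
  exact (Finset.sum_eq_zero_iff.1 h) j (Finset.mem_univ j)

/-- the complete answer -/
theorem complete :
    (∀ (n : ℕ) (β : Fin n → ℕ), 2 ≤ n → Even (∑ j, β j) →
      Stable (rieszSymbol β) Ainf (fun Φ _ => Rotn Φ) ∧ Stable (rieszSymbol β) Ainf BiLip ∧
      (0 < ∑ j, β j →
        ¬ Stable (rieszSymbol β) Doub (fun Φ _ => Rotn Φ) ∧ ¬ Stable (rieszSymbol β) Doub BiLip ∧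
        ¬ Stable (rieszSymbol β) DoubSmooth (fun Φ _ => Rotn Φ) ∧
        ¬ Stable (rieszSymbol β) DoubSmooth BiLip) ∧
      (∑ j, β j = 0 → Stable (rieszSymbol β) Doub (fun Φ _ => Rotn Φ) ∧
        Stable (rieszSymbol β) Doub BiLip)) ∧
    Stable beurlingSymbol Ainf (fun Φ _ => Rotn Φ) ∧ Stable beurlingSymbol Ainf BiLip ∧
    Stable beurlingSymbol Doub (fun Φ _ => Rotn Φ) ∧ ¬ Stable beurlingSymbol Doub BiLip ∧
    ¬ Stable beurlingSymbol DoubSmooth BiLip := by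
  refine ⟨fun n β hn hβ => ?_, ainfB.rot, ainfB, doubB, fun h => doubBL h.smooth, doubBL⟩
  have hA : Stable (rieszSymbol β) Ainf BiLip := by
    rcases Nat.eq_zero_or_pos (∑ j, β j) with h0 | h0
    · rw [even_zero h0]
      exact zeroR n Ainf
    · exact ainfR β hβ h0
  refine ⟨hA.rot, hA, fun h0 => ⟨fun h => doubR hn β hβ h0 h.smooth, fun h => doubR hn β hβ h0 h.smooth.rot,
    doubR hn β hβ h0, fun h => doubR hn β hβ h0 h.rot⟩, fun h0 => ?_⟩
  rw [even_zero h0]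
  exact ⟨(zeroR n Doub).rot, zeroR n Doub⟩

end Pool.Agent.helper12.BR
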