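import Pool.Agent.helper12.BR.Qc
import Pool.Agent.helper12.BR.APb
import Pool.Agent.helper12.RT.High

/-!
# BR-HighP: one wave, functions with high quasi-frequencies

PROOF.  `D' u = T m (Mr s₁ u) - (Mr x₁' u + i Mr x₂' u)`, `P₁ = polyC pk r x (cs d lam x)`.  `Q P₁ (D' u) ≤ 2 Q P₁ (T m (Mr s₁ u)) + 2 Q P₁ (Mr x₁' u + i Mr x₂' u)` (`Q_add2`, write the difference as a sum).
Second: `Q_cplx` and `px`: `≤ 2 C₂ Q s₁ u`.  First: `P₁ ≤ C₀ p`, `0 ≤ p`; `T m = Tr m₁ + i Tr m₂` (`T_split`), `Q_add2`, `Q_smul`: `Q p (T m (Mr s₁ u)) ≤ 2 Q p (Tr m₁ (Mr s₁ u)) + 2 Q p (Tr m₂ (Mr s₁ u))`, and by `high` of `RT/High.lean`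
with `w = p / C₁`, `b = 0` (`s w ≤ 1` by `ps`): `Q (p / C₁) (Tr m_i (Mr s₁ u)) ≤ 5 Q s₁ u + (C / ρ) ‖u‖²`.  Total: `2 C₀ · 2 · 2 · 5 C₁ + 2 C₂ = 40 C₀ C₁ + 2 C₂`.
-/

set_option autoImplicit false

open MeasureTheory FourierTransform
open scoped ENNReal InnerProductSpace ComplexConjugate

namespace Pool.Agent.helper12.BR

open Pool.Agent.helper12.RT
open Pool.Agent.helper12.AI (beurlingSymbol)

variable {n : ℕ}

theorem high_p {L : ℝ} (hL : 0 ≤ L) {m : E n → ℂ} (hm : SymC L m) {K : ℝ}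
    {s a x₁ x₂ p : E n → ℝ} {pk : ℕ → E n → ℝ} (r : ℕ) (hK : 0 ≤ K) (hs : TPr K s) (ha : TPr K a)
    (hx₁ : TPr K x₁) (hx₂ : TPr K x₂) (hp : TPr K p) (hpk : ∀ k, TPr K (pk k))
    (hs0 : ∀ x, 0 ≤ s x) (ha1 : ∀ x, |a x| ≤ 1 / 2) {d : E n} (hd : ‖d‖ = 1)
    {C₀ C₁ C₂ M₂ M₃ N : ℝ} (hC₀ : 0 < C₀) (hC₁ : 0 < C₁) (hN : 40 * C₀ * C₁ + 2 * C₂ ≤ N)
    (hwc : ∀ x, WC C₀ C₁ C₂ M₂ M₃ (m d).re (m d).im (s x) (a x) (x₁ x) (x₂ x) (p x)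
      (polyC pk r x)) :
    ∃ C ρ₀ : ℝ, 0 ≤ C ∧ 1 ≤ ρ₀ ∧ ∀ ρ ≥ ρ₀, ∀ lam ≥ ρ, ∀ u : H n,
      Supp (Zn d lam (ρ / 2))ᶜ u →
      Q (fun x => polyC pk r x (cs d lam x))
        (Dx m (fun x => s x * (1 + a x * cs d lam x))
          (fun x => x₁ x + (m d).re * (s x * (a x * cs d lam x)))
          (fun x => x₂ x + (m d).im * (s x * (a x * cs d lam x))) u) ≤
        N * Q (fun x => s x * (1 + a x * cs d lam x)) u + C / ρ * ‖u‖ ^ 2 := by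
  have hp0 : ∀ x, 0 ≤ p x := by
    intro x
    have h1 := (hwc x).pos 0 (by norm_num)
    have h2 := (hwc x).le 0 (by norm_num)
    have h3 : 0 ≤ C₀ * p x := h1.trans h2
    exact (mul_nonneg_iff_of_pos_left hC₀).1 h3
  set w : E n → ℝ := fun x => C₁⁻¹ * p x with hw
  have hwT : TPr K w := ((TPr.const (n := n) (le_refl (0 : ℝ)) C₁⁻¹).mul hp).mono (by simp)
  have hw0 : ∀ x, 0 ≤ w x := fun x => mul_nonneg (by positivity) (hp0 x)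
  have hsw : ∀ x, s x * w x ≤ 1 := by
    intro x
    have h1 := (hwc x).ps
    have h2 : s x * w x = C₁⁻¹ * (p x * s x) := by
      rw [hw]
      ring
    rw [h2]
    calc C₁⁻¹ * (p x * s x) ≤ C₁⁻¹ * C₁ := mul_le_mul_of_nonneg_left h1 (by positivity)
      _ = 1 := inv_mul_cancel₀ hC₁.ne'
  have hb0 : TPr K (fun _ : E n => (0 : ℝ)) := TPr.const hK 0
  obtain ⟨Cr, ρr, hCr, hρr, hr⟩ := high hL hm.re hs hwT ha hb0 hs0 hw0 hsw ha1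
    (fun _ => by norm_num) hd
  obtain ⟨Ci, ρi, hCi, hρi, hi⟩ := high hL hm.im hs hwT ha hb0 hs0 hw0 hsw ha1
    (fun _ => by norm_num) hd
  refine ⟨4 * C₀ * C₁ * (Cr + Ci), max ρr ρi, by positivity, hρr.trans (le_max_left _ _), ?_⟩
  intro ρ hρ lam hlam u hu
  have hρ1 : ρr ≤ ρ := (le_max_left _ _).trans hρ
  have hρ2 : ρi ≤ ρ := (le_max_right _ _).trans hρ
  have hρ0 : 0 < ρ := by linarith
  have h1 := hr ρ hρ1 lam hlam u hu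
  have h2 := hi ρ hρ2 lam hlam u hu
  have hw1 : (fun x => w x * (1 + (0 : ℝ) * cs d lam x)) = w := by
    funext x
    ring
  rw [hw1] at h1 h2
  set s₁ : E n → ℝ := fun x => s x * (1 + a x * cs d lam x) with hs₁
  set y₁ : E n → ℝ := fun x => x₁ x + (m d).re * (s x * (a x * cs d lam x)) with hy₁
  set y₂ : E n → ℝ := fun x => x₂ x + (m d).im * (s x * (a x * cs d lam x)) with hy₂
  set P : E n → ℝ := fun x => polyC pk r x (cs d lam x) with hP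
  have hcs : BMr (cs d lam : E n → ℝ) := (cs_tpr hd lam).bmr
  have bs₁ : BMr s₁ := hs.bmr.mul ((BMr.const 1).add (ha.bmr.mul hcs))
  have by₁ : BMr y₁ := hx₁.bmr.add ((BMr.const _).mul (hs.bmr.mul (ha.bmr.mul hcs)))
  have by₂ : BMr y₂ := hx₂.bmr.add ((BMr.const _).mul (hs.bmr.mul (ha.bmr.mul hcs)))
  obtain ⟨K', hK'⟩ := polyC_tpr hpk r hd lam
  have bP : BMr P := hK'.bmr
  have hcI : ∀ x : E n, cs d lam x ∈ Set.Icc (-1 : ℝ) 1 := fun x => abs_le.1 (cs_abs d lam x)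
  have hP0 : ∀ x, 0 ≤ P x := fun x => (hwc x).pos _ (hcI x)
  have hac : ∀ x, |a x * cs d lam x| ≤ 1 / 2 := fun x => by
    rw [abs_mul]
    calc |a x| * |cs d lam x| ≤ (1 / 2) * 1 :=
          mul_le_mul (ha1 x) (cs_abs d lam x) (abs_nonneg _) (by norm_num)
      _ = 1 / 2 := by norm_num
  have hs₁0 : ∀ x, 0 ≤ s₁ x := fun x =>
    mul_nonneg (hs0 x) (by linarith [(abs_le.1 (hac x)).1])
  have hQs : 0 ≤ Q s₁ u := Q_nonneg hs₁0 u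
  -- the form `Q P` in terms of `Q w`
  have hPw : ∀ v : H n, Q P v ≤ C₀ * C₁ * Q w v := by
    intro v
    rw [← Q_smul_fun]
    refine Q_mono bP ((BMr.const _).mul hwT.bmr) ?_ v
    intro x
    have h3 := (hwc x).le _ (hcI x)
    have h4 : C₀ * C₁ * w x = C₀ * p x := by
      rw [hw]
      field_simp
    rw [h4]
    exact h3
  have hTm : Q w (T m (Mr s₁ u)) ≤ 2 * Q w (Tr (fun ξ => (m ξ).re) (Mr s₁ u)) +
      2 * Q w (Tr (fun ξ => (m ξ).im) (Mr s₁ u)) := by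
    rw [T_split hm]
    refine (Q_add2 hwT.bmr hw0 _ _).trans ?_
    rw [Q_smul]
    simp
  have hA : Q P (T m (Mr s₁ u)) ≤ 20 * C₀ * C₁ * Q s₁ u +
      2 * C₀ * C₁ * (Cr + Ci) / ρ * ‖u‖ ^ 2 := by
    have h5 : Q w (T m (Mr s₁ u)) ≤ 20 * Q s₁ u + 2 * (Cr + Ci) / ρ * ‖u‖ ^ 2 := by
      refine hTm.trans ?_
      have : 2 * (Cr + Ci) / ρ * ‖u‖ ^ 2 = 2 * (Cr / ρ * ‖u‖ ^ 2) + 2 * (Ci / ρ * ‖u‖ ^ 2) := by
        ring
      rw [this]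
      linarith
    refine (hPw _).trans ?_
    calc C₀ * C₁ * Q w (T m (Mr s₁ u)) ≤
        C₀ * C₁ * (20 * Q s₁ u + 2 * (Cr + Ci) / ρ * ‖u‖ ^ 2) :=
          mul_le_mul_of_nonneg_left h5 (by positivity)
      _ = _ := by ring
  have hB : Q P (Mr y₁ u + Complex.I • Mr y₂ u) ≤ C₂ * Q s₁ u := by
    rw [Q_cplx bP by₁ by₂, ← Q_smul_fun]
    refine Q_mono ?_ ((BMr.const _).mul bs₁) (fun x => (hwc x).px _ (hcI x)) u
    have : (fun x => P x * (y₁ x ^ 2 + y₂ x ^ 2)) =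
        fun x => P x * (y₁ x * y₁ x + y₂ x * y₂ x) := by
      funext x
      ring
    rw [this]
    exact bP.mul ((by₁.mul by₁).add (by₂.mul by₂))
  have hD : Dx m s₁ y₁ y₂ u = T m (Mr s₁ u) + (-1 : ℂ) • (Mr y₁ u + Complex.I • Mr y₂ u) := by
    rw [Dx, neg_one_smul, sub_eq_add_neg]
  rw [hD]
  refine (Q_add2 bP hP0 _ _).trans ?_
  rw [Q_smul]
  have h6 : ‖(-1 : ℂ)‖ ^ 2 = 1 := by simp
  rw [h6, one_mul]
  have h7 : (40 * C₀ * C₁ + 2 * C₂) * Q s₁ u ≤ N * Q s₁ u := mul_le_mul_of_nonneg_right hN hQs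
  have h8 : 4 * C₀ * C₁ * (Cr + Ci) / ρ * ‖u‖ ^ 2 =
      2 * (2 * C₀ * C₁ * (Cr + Ci) / ρ * ‖u‖ ^ 2) := by ring
  rw [h8]
  linarith

end Pool.Agent.helper12.BR
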