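import Pool.Agent.helper12.RT.SpecA

/-!
# BR-LinA: the Fourier transform and invertible linear maps
-/

set_option autoImplicit false

open MeasureTheory FourierTransform
open scoped ENNReal InnerProductSpace SchwartzMap

namespace Pool.Agent.helper12.BR

open Pool.Agent.helper12.RT

variable {n : ℕ}

/-- change of variables for integrals -/
theorem LinA_integral (Φ : E n ≃L[ℝ] E n) {D : ℝ} (hD : 0 < D)
    (hv : (volume : Measure (E n)).map Φ = ENNReal.ofReal D⁻¹ • volume) (f : E n → ℂ) :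
    ∫ x, f (Φ x) = ((D⁻¹ : ℝ) : ℂ) * ∫ y, f y := by
  have h1 : ∫ y, f y ∂((volume : Measure (E n)).map Φ) = ∫ x, f (Φ x) :=
    Φ.toHomeomorph.measurableEmbedding.integral_map f
  rw [← h1, hv, integral_smul_measure, ENNReal.toReal_ofReal (by positivity), Complex.real_smul]

theorem LinA_symm (Φ : E n ≃L[ℝ] E n) {D : ℝ} (hD : 0 < D)
    (hv : (volume : Measure (E n)).map Φ = ENNReal.ofReal D⁻¹ • volume) :
    (volume : Measure (E n)).map Φ.symm = ENNReal.ofReal D • volume := by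
  have h1 : ((volume : Measure (E n)).map Φ).map Φ.symm = volume := by
    rw [Measure.map_map Φ.symm.continuous.measurable Φ.continuous.measurable]
    have : (Φ.symm : E n → E n) ∘ Φ = id := by
      funext x
      simp
    rw [this, Measure.map_id]
  rw [hv, Measure.map_smul] at h1
  have h2 := congrArg (fun μ => ENNReal.ofReal D • μ) h1
  simp only [smul_smul] at h2
  rw [← ENNReal.ofReal_mul hD.le, mul_inv_cancel₀ hD.ne', ENNReal.ofReal_one, one_smul] at h2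
  exact h2

theorem LinA_memLp (Φ : E n ≃L[ℝ] E n) {D : ℝ}
    (hv : (volume : Measure (E n)).map Φ = ENNReal.ofReal D⁻¹ • volume) {u : E n → ℂ}
    (hu : MemLp u 2 volume) : MemLp (fun x => u (Φ x)) 2 volume := by
  have h1 : MemLp u 2 ((volume : Measure (E n)).map Φ) := by
    rw [hv]
    exact hu.smul_measure ENNReal.ofReal_ne_top
  exact (Φ.toHomeomorph.measurableEmbedding.memLp_map_measure_iff).1 h1

theorem LinA_ft (Φ Ψ : E n ≃L[ℝ] E n) (hadj : ∀ x y, ⟪Φ x, y⟫_ℝ = ⟪x, Ψ y⟫_ℝ) {D : ℝ} (hD : 0 < D)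
    (hv : (volume : Measure (E n)).map Ψ = ENNReal.ofReal D⁻¹ • volume) (φ : E n → ℂ) (x : E n) :
    ft (fun ξ => φ (Ψ.symm ξ)) x = (D : ℂ) * ft φ (Φ x) := by
  unfold ft
  rw [Real.fourier_eq, Real.fourier_eq]
  have h1 := LinA_integral Ψ hD hv (fun ξ => Real.fourierChar (-⟪ξ, x⟫_ℝ) • φ (Ψ.symm ξ))
  have h2 : ∫ ξ, Real.fourierChar (-⟪ξ, x⟫_ℝ) • φ (Ψ.symm ξ) =
      (D : ℂ) * ∫ η, Real.fourierChar (-⟪Ψ η, x⟫_ℝ) • φ (Ψ.symm (Ψ η)) := by
    rw [h1, ← mul_assoc, ← Complex.ofReal_mul, mul_inv_cancel₀ hD.ne', Complex.ofReal_one,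
      one_mul]
  rw [h2]
  congr 1
  apply integral_congr_ae
  refine Filter.Eventually.of_forall fun η => ?_
  have h3 : ⟪Ψ η, x⟫_ℝ = ⟪η, Φ x⟫_ℝ := by
    rw [real_inner_comm, ← hadj, real_inner_comm]
  simp only [ContinuousLinearEquiv.symm_apply_apply, h3]

/-- the Fourier transform of `D⁻¹ u ∘ Φ⁻¹` is `U ∘ Φᵀ` -/
theorem isFourier_comp (Φ Ψ : E n ≃L[ℝ] E n) (hadj : ∀ x y, ⟪Φ x, y⟫_ℝ = ⟪x, Ψ y⟫_ℝ) {D : ℝ}
    (hD : 0 < D) (hvΦ : (volume : Measure (E n)).map Φ = ENNReal.ofReal D⁻¹ • volume)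
    (hvΨ : (volume : Measure (E n)).map Ψ = ENNReal.ofReal D⁻¹ • volume) {u U : E n → ℂ}
    (h : IsFourier u U) :
    IsFourier (fun y => ((D⁻¹ : ℝ) : ℂ) * u (Φ.symm y)) (fun η => U (Ψ η)) := by
  obtain ⟨hu, hU, hF⟩ := h
  have hvΦ' := LinA_symm Φ hD hvΦ
  refine ⟨?_, LinA_memLp Ψ hvΨ hU, fun φ => ?_⟩
  · have h1 : (volume : Measure (E n)).map Φ.symm = ENNReal.ofReal (D⁻¹)⁻¹ • volume := by
      rw [inv_inv]
      exact hvΦ'
    exact (LinA_memLp Φ.symm h1 hu).const_mul _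
  · let ψ : 𝓢(E n, ℂ) := SchwartzMap.compCLMOfContinuousLinearEquiv ℂ Ψ.symm φ
    have hψ : ∀ ξ, ψ ξ = φ (Ψ.symm ξ) := fun ξ => rfl
    have e1 : ∫ η, φ η * U (Ψ η) = ((D⁻¹ : ℝ) : ℂ) * ∫ ξ, ψ ξ * U ξ := by
      have h1 := LinA_integral Ψ hD hvΨ (fun ξ => ψ ξ * U ξ)
      rw [← h1]
      apply integral_congr_ae
      refine Filter.Eventually.of_forall fun η => ?_
      simp only [hψ, ContinuousLinearEquiv.symm_apply_apply]
    have e2 : ∀ x, ft ψ x = (D : ℂ) * ft φ (Φ x) := by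
      intro x
      have h1 : (ψ : E n → ℂ) = fun ξ => φ (Ψ.symm ξ) := funext hψ
      rw [h1]
      exact LinA_ft Φ Ψ hadj hD hvΨ φ x
    have e3 : ∫ ξ, ψ ξ * U ξ = (D : ℂ) * ∫ x, ft φ (Φ x) * u x := by
      rw [hF ψ, ← integral_const_mul]
      apply integral_congr_ae
      refine Filter.Eventually.of_forall fun x => ?_
      simp only [e2]
      ring
    have e4 : ∫ x, ft φ (Φ x) * u x = ((D⁻¹ : ℝ) : ℂ) * ∫ y, ft φ y * u (Φ.symm y) := by
      have h1 := LinA_integral Φ hD hvΦ (fun y => ft φ y * u (Φ.symm y))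
      rw [← h1]
      simp only [ContinuousLinearEquiv.symm_apply_apply]
    have hDc : (D : ℂ) ≠ 0 := by exact_mod_cast hD.ne'
    have e5 : ∫ y, ft φ y * (((D⁻¹ : ℝ) : ℂ) * u (Φ.symm y)) =
        ((D⁻¹ : ℝ) : ℂ) * ∫ y, ft φ y * u (Φ.symm y) := by
      rw [← integral_const_mul]
      apply integral_congr_ae
      refine Filter.Eventually.of_forall fun y => ?_
      ring
    rw [e1, e3, e4, e5]
    push_cast
    field_simp

end Pool.Agent.helper12.BR
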