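import Pool.Agent.helper12.BR.LinA

/-!
# BR-LinB: the norm inequality and invertible linear maps
-/

set_option autoImplicit false

open MeasureTheory FourierTransform
open scoped ENNReal InnerProductSpace SchwartzMap

namespace Pool.Agent.helper12.BR

open Pool.Agent.helper12.RT

variable {n : ℕ}

/-- the push-forward formula: `N_m(Φ_* σ, Φ_* ω) ≤ N` implies `N_(m ∘ Φ^(-T))(σ, ω) ≤ N |det Φ|` -/
theorem norm_push (Φ Ψ : E n ≃L[ℝ] E n) (hadj : ∀ x y, ⟪Φ x, y⟫_ℝ = ⟪x, Ψ y⟫_ℝ) {D : ℝ}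
    (hD : 0 < D) (hvΦ : (volume : Measure (E n)).map Φ = ENNReal.ofReal D⁻¹ • volume)
    (hvΨ : (volume : Measure (E n)).map Ψ = ENNReal.ofReal D⁻¹ • volume) {m : E n → ℂ}
    {σ ω : Measure (E n)} {N : ℝ} (h : NormAtMost m (σ.map Φ) (ω.map Φ) N) :
    NormAtMost (fun ξ => m (Ψ.symm ξ)) σ ω (D * N) := by
  intro f u v U hf hset hu hv
  have hme : MeasurableEmbedding Φ := Φ.toHomeomorph.measurableEmbedding
  have hf1 : MemLp (fun y => f (Φ.symm y)) 2 (σ.map Φ) := by
    rw [hme.memLp_map_measure_iff]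
    refine (memLp_congr_ae (Filter.Eventually.of_forall fun x => ?_)).2 hf
    simp
  have hset1 : ∀ B : Set (E n), MeasurableSet B → Bornology.IsBounded B →
      ∫ y in B, f (Φ.symm y) ∂(σ.map Φ) = ∫ y in B, ((D⁻¹ : ℝ) : ℂ) * u (Φ.symm y) := by
    intro B hB hBb
    have hB' : MeasurableSet (Φ ⁻¹' B) := Φ.continuous.measurable hB
    have hBb' : Bornology.IsBounded (Φ ⁻¹' B) := by
      have h1 : Φ ⁻¹' B = Φ.symm '' B := by
        ext x
        constructor
        · intro hx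
          exact ⟨Φ x, hx, by simp⟩
        · rintro ⟨y, hy, rfl⟩
          simpa using hy
      rw [h1]
      exact Φ.symm.lipschitz.isBounded_image hBb
    rw [hme.setIntegral_map]
    have h2 := hset _ hB' hBb'
    have h3 : ∫ x in Φ ⁻¹' B, f (Φ.symm (Φ x)) ∂σ = ∫ x in Φ ⁻¹' B, f x ∂σ := by
      simp only [ContinuousLinearEquiv.symm_apply_apply]
    rw [h3, h2]
    have h4 : ∫ y in B, ((D⁻¹ : ℝ) : ℂ) * u (Φ.symm y) =
        ((D⁻¹ : ℝ) : ℂ) * ∫ y in B, u (Φ.symm y) := integral_const_mul _ _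
    rw [h4]
    have h5 : ∫ y in B, u (Φ.symm y) ∂((volume : Measure (E n)).map Φ) =
        ∫ x in Φ ⁻¹' B, u (Φ.symm (Φ x)) := hme.setIntegral_map _ _
    rw [hvΦ, Measure.restrict_smul, integral_smul_measure,
      ENNReal.toReal_ofReal (by positivity), Complex.real_smul] at h5
    rw [h5]
    simp only [ContinuousLinearEquiv.symm_apply_apply]
  have hu1 := isFourier_comp Φ Ψ hadj hD hvΦ hvΨ hu
  have hv1 : IsFourier (fun y => ((D⁻¹ : ℝ) : ℂ) * v (Φ.symm y)) (fun η => m η * U (Ψ η)) := by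
    have h1 := isFourier_comp Φ Ψ hadj hD hvΦ hvΨ hv
    simpa only [ContinuousLinearEquiv.symm_apply_apply] using h1
  have h6 := h _ _ _ _ hf1 hset1 hu1 hv1
  rw [hme.eLpNorm_map_measure, hme.eLpNorm_map_measure] at h6
  have e1 : ((fun y => ((D⁻¹ : ℝ) : ℂ) * v (Φ.symm y)) ∘ Φ) = ((D⁻¹ : ℝ) : ℂ) • v := by
    funext x
    simp
  have e2 : ((fun y => f (Φ.symm y)) ∘ Φ) = f := by
    funext x
    simp
  rw [e1, e2, eLpNorm_const_smul] at h6
  have e3 : ‖((D⁻¹ : ℝ) : ℂ)‖ₑ = ENNReal.ofReal D⁻¹ := by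
    rw [← ofReal_norm, Complex.norm_real, Real.norm_eq_abs, abs_of_pos (by positivity)]
  rw [e3] at h6
  have h7 : ENNReal.ofReal D * (ENNReal.ofReal D⁻¹ * eLpNorm v 2 ω) ≤
      ENNReal.ofReal D * (ENNReal.ofReal N * eLpNorm f 2 σ) := mul_le_mul_right h6 _
  rw [← mul_assoc, ← ENNReal.ofReal_mul hD.le, mul_inv_cancel₀ hD.ne', ENNReal.ofReal_one,
    one_mul, ← mul_assoc, ← ENNReal.ofReal_mul hD.le] at h7
  exact h7

/-- a unimodular factor of the symbol does not matter -/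
theorem norm_unimod {m : E n → ℂ} {c : ℂ} (hc : ‖c‖ = 1) {σ ω : Measure (E n)} {N : ℝ}
    (h : NormAtMost (fun ξ => c * m ξ) σ ω N) : NormAtMost m σ ω N := by
  intro f u v U hf hset hu hv
  have hv1 : IsFourier (fun x => c * v x) (fun ξ => c * m ξ * U ξ) := by
    obtain ⟨h1, h2, h3⟩ := hv
    refine ⟨h1.const_mul c, ?_, fun φ => ?_⟩
    · have := h2.const_mul c
      simpa only [mul_assoc] using this
    · have e1 : ∫ ξ, φ ξ * (c * m ξ * U ξ) = c * ∫ ξ, φ ξ * (m ξ * U ξ) := by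
        rw [← integral_const_mul]
        apply integral_congr_ae
        refine Filter.Eventually.of_forall fun ξ => ?_
        ring
      have e2 : ∫ x, ft φ x * (c * v x) = c * ∫ x, ft φ x * v x := by
        rw [← integral_const_mul]
        apply integral_congr_ae
        refine Filter.Eventually.of_forall fun x => ?_
        ring
      rw [e1, e2, h3 φ]
  have h4 := h f u _ U hf hset hu hv1
  have e3 : (fun x => c * v x) = c • v := rfl
  rw [e3, eLpNorm_const_smul, ← ofReal_norm, hc, ENNReal.ofReal_one, one_mul] at h4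
  exact h4

end Pool.Agent.helper12.BR
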