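import Pool.Agent.helper12.BR.LinB

/-!
# BR-LinC: the norm inequality and invertible matrices
-/

set_option autoImplicit false

open MeasureTheory FourierTransform
open scoped ENNReal InnerProductSpace SchwartzMap

namespace Pool.Agent.helper12.BR

open Pool.Agent.helper12.RT

variable {n : ℕ}

/-- the linear automorphism with the invertible matrix `A` -/
noncomputable def linE (A : Matrix (Fin n) (Fin n) ℝ) (hA : A.det ≠ 0) : E n ≃L[ℝ] E n :=
  ((A.toLpLin 2 2).equivOfDetNeZero (by rw [LinearMap.det_toLpLin]; exact hA)).toContinuousLinearEquiv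

theorem linE_coe (A : Matrix (Fin n) (Fin n) ℝ) (hA : A.det ≠ 0) : (linE A hA : E n → E n) = lin A := by
  funext x
  rfl

theorem linE_symm (A : Matrix (Fin n) (Fin n) ℝ) (hA : A.det ≠ 0) (B : Matrix (Fin n) (Fin n) ℝ)
    (hAB : A * B = 1) (x : E n) : (linE A hA).symm x = lin B x := by
  rw [ContinuousLinearEquiv.symm_apply_eq]
  have h1 : (linE A hA) (lin B x) = lin A (lin B x) := congrFun (linE_coe A hA) _
  rw [h1]
  unfold lin
  rw [Matrix.mulVec_mulVec, hAB, Matrix.one_mulVec]

theorem linE_map (A : Matrix (Fin n) (Fin n) ℝ) (hA : A.det ≠ 0) :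
    (volume : Measure (E n)).map (linE A hA) = ENNReal.ofReal |A.det|⁻¹ • volume := by
  have h1 : (linE A hA : E n → E n) = (A.toLpLin 2 2 : E n →ₗ[ℝ] E n) := by
    funext x
    rfl
  have h2 : LinearMap.det (A.toLpLin 2 2 : E n →ₗ[ℝ] E n) ≠ 0 := by
    rw [LinearMap.det_toLpLin]
    exact hA
  rw [h1, Measure.map_linearMap_addHaar_eq_smul_addHaar _ h2, LinearMap.det_toLpLin, abs_inv]

theorem lin_adj (A : Matrix (Fin n) (Fin n) ℝ) (x y : E n) :
    ⟪lin A x, y⟫_ℝ = ⟪x, lin A.transpose y⟫_ℝ := by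
  simp only [lin, EuclideanSpace.inner_eq_star_dotProduct, star_trivial]
  rw [Matrix.mulVec_transpose, ← Matrix.dotProduct_mulVec, dotProduct_comm]

/-- the push-forward formula for an invertible matrix -/
theorem norm_lin (A B : Matrix (Fin n) (Fin n) ℝ) (hA : A.det ≠ 0) (hAB : A.transpose * B = 1)
    {m : E n → ℂ} {σ ω : Measure (E n)} {N : ℝ}
    (h : NormAtMost m (σ.map (lin A)) (ω.map (lin A)) N) :
    NormAtMost (fun ξ => m (lin B ξ)) σ ω (|A.det| * N) := by
  have hA' : A.transpose.det ≠ 0 := by rwa [Matrix.det_transpose]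
  have hadj : ∀ x y : E n, ⟪(linE A hA) x, y⟫_ℝ = ⟪x, (linE A.transpose hA') y⟫_ℝ := by
    intro x y
    have e1 : (linE A hA) x = lin A x := congrFun (linE_coe A hA) _
    have e2 : (linE A.transpose hA') y = lin A.transpose y := congrFun (linE_coe _ hA') _
    rw [e1, e2]
    exact lin_adj A x y
  have hvΨ : (volume : Measure (E n)).map (linE A.transpose hA') =
      ENNReal.ofReal |A.det|⁻¹ • volume := by
    rw [linE_map, Matrix.det_transpose]
  have h1 := norm_push (linE A hA) (linE A.transpose hA') hadj (abs_pos.2 hA) (linE_map A hA) hvΨ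
    (m := m) (σ := σ) (ω := ω) (N := N) (by rwa [linE_coe])
  have h2 : (fun ξ => m ((linE A.transpose hA').symm ξ)) = fun ξ => m (lin B ξ) := by
    funext ξ
    rw [linE_symm A.transpose hA' B hAB]
  rwa [h2] at h1

end Pool.Agent.helper12.BR
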