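import Pool.Agent.helper12.BR.Defs
import Pool.Agent.helper12.RT.LowA

/-!
# BR-LowDec: the decomposition of a function with low quasi-frequencies

PROOF (compare the proof of `low` in `RT/Low.lean`, which has all the steps).  Let `K ≥ 1`.  `v = Mr s₁ u` has frequencies in `Zn d lam R₁`, `R₁ = ρ + 2 K`.  Let `P ξ = 1` for `‖ξ‖ ≤ R₁` and 0 otherwise, `g = Tr P v`,
`v' = v - g`, `f = Mr s⁻¹ g`; so `Mr s f = g` (`Mr_mul`), `‖f‖ ≤ c⁻¹ ‖g‖ ≤ C ‖u‖`, `v'` has frequencies in the `R₁`-balls around `(k lam) d`, `k ≠ 0` (see `hv'S` in `low`).  `q` a trigonometric polynomial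
with frequencies at most `K'` and `|s⁻¹ - q| ≤ η / (1 + ‖Mr s₁‖)` (`TPr.exists_inv`, it depends on `η` only), `f' = Mr q g` has frequencies of norm at most `R₁ + K'` (`Supp.TPr`), `‖f - f'‖ ≤ η ‖u‖`.
`R = R₁ + K'`.  `C` depends on the bounds of `s` and on `c` only (not on `ρ`, `η`).
-/

set_option autoImplicit false

open MeasureTheory FourierTransform
open scoped ENNReal InnerProductSpace ComplexConjugate

namespace Pool.Agent.helper12.BR

open Pool.Agent.helper12.RT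
open Pool.Agent.helper12.AI (beurlingSymbol)

variable {n : ℕ}

private theorem LowDec_supp {K : ℝ} {s a : E n → ℝ} (hs : TPr K s) (ha : TPr K a) {d : E n}
    (hK : 0 ≤ K) (hd : ‖d‖ = 1) (lam ρ : ℝ) {u : H n} (hu : Supp (Zn d lam ρ) u) :
    Supp (Zn d lam (ρ + 2 * K)) (Mr (fun x => s x * (1 + a x * cs d lam x)) u) := by
  have e1 : (fun x => s x * (1 + a x * cs d lam x)) =
      fun x => s x + (fun x => (s x * a x) * cs d lam x) x := by
    funext x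
    ring
  have hsa : TPr (K + K) (fun x => s x * a x) := hs.mul ha
  rw [e1, Mr_add hs.bmr (hsa.bmr.mul (cs_tpr hd lam).bmr)]
  apply Supp.add
  · apply Supp.TPr hu hs
    rintro ζ ⟨k, hk⟩ ξ hξ
    refine ⟨k, ?_⟩
    have h1 : ‖ξ - ((k : ℝ) * lam) • d‖ ≤ ‖ξ - ζ‖ + ‖ζ - ((k : ℝ) * lam) • d‖ :=
      norm_sub_le_norm_sub_add_norm_sub _ _ _
    linarith
  · apply Supp.cs hu hsa d lam
    rintro ζ ⟨k, hk⟩ ξ (hξ | hξ)
    · refine ⟨k + 1, ?_⟩
      have h0 : ξ - (((k + 1 : ℤ) : ℝ) * lam) • d =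
          (ξ - (ζ + lam • d)) + (ζ - ((k : ℝ) * lam) • d) := by
        push_cast
        rw [add_mul, one_mul, add_smul]
        abel
      rw [h0]
      refine (norm_add_le _ _).trans ?_
      linarith
    · refine ⟨k - 1, ?_⟩
      have h0 : ξ - (((k - 1 : ℤ) : ℝ) * lam) • d =
          (ξ - (ζ - lam • d)) + (ζ - ((k : ℝ) * lam) • d) := by
        push_cast
        rw [sub_mul, one_mul, sub_smul]
        abel
      rw [h0]
      refine (norm_add_le _ _).trans ?_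
      linarith

private theorem LowDec_bound {a : E n → ℝ} (ha1 : ∀ x, |a x| ≤ 1 / 2) (d : E n) (lam : ℝ)
    (x : E n) : |1 + a x * cs d lam x| ≤ 3 / 2 := by
  have h1 : |a x * cs d lam x| ≤ 1 / 2 := by
    rw [abs_mul]
    have h2 := ha1 x
    have h3 := cs_abs d lam x
    have h4 := abs_nonneg (a x)
    have h5 := abs_nonneg (cs d lam x)
    nlinarith
  rw [abs_le] at h1 ⊢
  constructor
  · linarith [h1.1]
  · linarith [h1.2]

private theorem LowDec_symP (R : ℝ) : BMr (fun ξ : E n => if ‖ξ‖ ≤ R then (1 : ℝ) else 0) := by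
  refine ⟨Measurable.ite (measurableSet_le measurable_norm measurable_const) measurable_const
    measurable_const, 1, fun ξ => ?_⟩
  show |(if ‖ξ‖ ≤ R then (1 : ℝ) else 0)| ≤ 1
  split_ifs <;> simp

theorem low_dec {K : ℝ} {s a : E n → ℝ} (hs : TPr K s) (ha : TPr K a) {c : ℝ} (hc : 0 < c)
    (hs0 : ∀ x, c ≤ s x) (ha1 : ∀ x, |a x| ≤ 1 / 2) {d : E n} (hd : ‖d‖ = 1) :
    ∃ C : ℝ, 0 ≤ C ∧ ∀ ρ > 0, ∀ η > 0, ∃ R : ℝ, 0 < R ∧ ∃ lam₀ : ℝ, ∀ lam ≥ lam₀, ∀ u : H n,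
      Supp (Zn d lam ρ) u → ∃ f f' v' : H n, Dec s a d lam R η C u f f' v' := by
  set K1 : ℝ := max K 1 with hK1
  have hK10 : 1 ≤ K1 := le_max_right _ _
  have hs := hs.mono (le_max_left K 1)
  have ha := ha.mono (le_max_left K 1)
  rw [← hK1] at hs ha
  obtain ⟨-, Cs, hCs⟩ := hs.bmr
  have hCs0 : 0 ≤ Cs := (abs_nonneg _).trans (hCs 0)
  have hspos : ∀ x, 0 < s x := fun x => lt_of_lt_of_le hc (hs0 x)
  set C1 : ℝ := 3 / 2 * Cs with hC1
  have hC10 : 0 ≤ C1 := by positivity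
  have hinvB : BMr fun x => (s x)⁻¹ := hs.bmr.inv hc hs0
  refine ⟨C1 + c⁻¹ * C1, by positivity, ?_⟩
  intro ρ hρ η hη
  obtain ⟨K2, q, hq1, hqs⟩ := hs.exists_inv hc hs0 (ε := η / (1 + C1)) (by positivity)
  set K' : ℝ := max K2 0 with hK'def
  have hq : TPr K' q := hq1.mono (le_max_left _ _)
  have hK' : 0 ≤ K' := le_max_right _ _
  set R₁ : ℝ := ρ + 2 * K1 with hR₁
  have hR₁0 : 0 < R₁ := by linarith
  refine ⟨R₁ + K', by linarith, 0, fun lam _ u hu => ?_⟩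
  set s₁ : E n → ℝ := fun x => s x * (1 + a x * cs d lam x) with hs₁
  have hcsB : BMr (cs d lam) := (cs_tpr hd lam).bmr
  have hs₁B : BMr s₁ := hs.bmr.mul ((BMr.const 1).add (ha.bmr.mul hcsB))
  have hs₁le : ∀ x, |s₁ x| ≤ C1 := by
    intro x
    have h1 := LowDec_bound ha1 d lam x
    have h2 := hCs x
    have h3 : |s₁ x| = |s x| * |1 + a x * cs d lam x| := by rw [hs₁, abs_mul]
    rw [h3, hC1]
    have h4 := abs_nonneg (s x)
    have h5 := abs_nonneg (1 + a x * cs d lam x)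
    nlinarith
  set v : H n := Mr s₁ u with hv
  have hvn : ‖v‖ ≤ C1 * ‖u‖ := Mr_norm_le hs₁B hs₁le u
  have hvS : Supp (Zn d lam R₁) v := LowDec_supp hs ha (by linarith) hd lam ρ hu
  set P : E n → ℝ := fun ξ => if ‖ξ‖ ≤ R₁ then (1 : ℝ) else 0 with hP
  have hPB : BMr P := LowDec_symP R₁
  have hP1 : ∀ ξ, |P ξ| ≤ 1 := by
    intro ξ
    simp only [hP]
    split_ifs <;> simp
  set P' : E n → ℝ := fun ξ => 1 - P ξ with hP'
  have hP'B : BMr P' := (BMr.const 1).sub hPB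
  have hP'1 : ∀ ξ, |P' ξ| ≤ 1 := by
    intro ξ
    simp only [hP', hP]
    split_ifs <;> simp
  set g : H n := Tr P v with hg
  set v' : H n := Tr P' v with hv'
  have hsum : v = g + v' := by
    rw [hg, hv', ← Tr_add hPB hP'B]
    have e1 : (fun ξ => P ξ + P' ξ) = fun _ : E n => (1 : ℝ) := by
      funext ξ
      simp only [hP']
      ring
    rw [e1, Tr_const]
    simp
  have hgn : ‖g‖ ≤ ‖v‖ := by
    have := Tr_norm_le hPB hP1 v
    rwa [one_mul] at this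
  have hv'n : ‖v'‖ ≤ ‖v‖ := by
    have := Tr_norm_le hP'B hP'1 v
    rwa [one_mul] at this
  have hgS : Supp {ξ | ‖ξ‖ ≤ R₁} g := by
    apply supp_of_symbol hPB
    intro ξ hξ
    simp only [hP]
    exact if_neg hξ
  have hv'S : Supp {ξ | ∃ k : ℤ, k ≠ 0 ∧ ‖ξ - ((k : ℝ) * lam) • d‖ ≤ R₁} v' := by
    have h1 : Supp (Zn d lam R₁) v' := hvS.Tr hP'B
    have h2 : Supp {ξ | ¬ ‖ξ‖ ≤ R₁} v' := by
      apply supp_of_symbol hP'B
      intro ξ hξ
      have h3 : ‖ξ‖ ≤ R₁ := not_not.1 hξ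
      simp only [hP', hP]
      rw [if_pos h3]
      norm_num
    refine (h1.inter h2).mono ?_
    rintro ξ ⟨⟨k, hk⟩, h3⟩
    refine ⟨k, ?_, hk⟩
    rintro rfl
    apply h3
    simpa using hk
  have hMsf : Mr s (Mr (fun x => (s x)⁻¹) g) = g := by
    rw [← Mr_mul hs.bmr hinvB]
    have e1 : (fun x => s x * (s x)⁻¹) = fun _ : E n => (1 : ℝ) := by
      funext x
      exact mul_inv_cancel₀ (hspos x).ne'
    rw [e1, Mr_const]
    simp
  have hu0 := norm_nonneg u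
  refine ⟨Mr (fun x => (s x)⁻¹) g, Mr q g, v', ?_, ?_, ?_, ?_, ?_, ?_, ?_⟩
  · rw [hMsf]
    exact hsum
  · rw [hMsf]
    exact hgS.mono fun ξ (hξ : ‖ξ‖ ≤ R₁) => show ‖ξ‖ ≤ R₁ + K' by linarith
  · refine hv'S.mono ?_
    rintro ξ ⟨k, hk, hk2⟩
    exact ⟨k, hk, by linarith⟩
  · apply hgS.TPr hq
    intro ζ hζ ξ hξ
    have h1 : ‖ξ‖ ≤ ‖ξ - ζ‖ + ‖ζ‖ := norm_le_norm_sub_add ξ ζ
    have h2 : ‖ζ‖ ≤ R₁ := hζ
    show ‖ξ‖ ≤ R₁ + K'
    linarith
  · have e1 : Mr (fun x => (s x)⁻¹) g - Mr q g = Mr (fun x => (s x)⁻¹ - q x) g := by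
      have e2 : (fun x => (s x)⁻¹) = fun x => q x + ((s x)⁻¹ - q x) := by
        funext x
        ring
      conv_lhs => rw [e2]
      rw [Mr_add hq.bmr (hinvB.sub hq.bmr)]
      abel
    rw [e1]
    have h1 : ‖Mr (fun x => (s x)⁻¹ - q x) g‖ ≤ η / (1 + C1) * ‖g‖ :=
      Mr_norm_le (hinvB.sub hq.bmr) hqs g
    have h2 : ‖g‖ ≤ (1 + C1) * ‖u‖ := by
      have := hgn.trans hvn
      nlinarith
    calc ‖Mr (fun x => (s x)⁻¹ - q x) g‖ ≤ η / (1 + C1) * ‖g‖ := h1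
      _ ≤ η / (1 + C1) * ((1 + C1) * ‖u‖) := mul_le_mul_of_nonneg_left h2 (by positivity)
      _ = η * ‖u‖ := by
        have : (1 + C1) ≠ 0 := by positivity
        field_simp
  · have h1 : ‖Mr (fun x => (s x)⁻¹) g‖ ≤ c⁻¹ * ‖g‖ := by
      apply Mr_norm_le hinvB
      intro x
      rw [abs_of_pos (inv_pos.mpr (hspos x))]
      exact inv_anti₀ hc (hs0 x)
    have h2 : c⁻¹ * ‖g‖ ≤ c⁻¹ * (C1 * ‖u‖) :=
      mul_le_mul_of_nonneg_left (hgn.trans hvn) (inv_pos.mpr hc).le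
    have h3 : 0 ≤ C1 * ‖u‖ := by positivity
    calc ‖Mr (fun x => (s x)⁻¹) g‖ ≤ c⁻¹ * (C1 * ‖u‖) := h1.trans h2
      _ ≤ C1 * ‖u‖ + c⁻¹ * (C1 * ‖u‖) := by linarith
      _ = (C1 + c⁻¹ * C1) * ‖u‖ := by ring
  · have h3 : 0 ≤ c⁻¹ * (C1 * ‖u‖) := by positivity
    calc ‖v'‖ ≤ C1 * ‖u‖ := hv'n.trans hvn
      _ ≤ C1 * ‖u‖ + c⁻¹ * (C1 * ‖u‖) := by linarith
      _ = (C1 + c⁻¹ * C1) * ‖u‖ := by ring

end Pool.Agent.helper12.BR
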