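import Pool.Agent.helper12.BR.Osc
import Pool.Agent.helper12.BR.Qc

/-!
# BR-LowEn: conservation of energy in the decomposition

PROOF.  `s₁ = s + s a cs`.  `Q s₁ u = Q s₁ (f + (u - f)) = Q s₁ f + 2 re ⟪f, Mr s₁ (u - f)⟫ + Q s₁ (u - f)` (`Q_expand`).  `Q s₁ f = Q s f + re ⟪f, Mr (s a cs) f⟫`.
`Mr s₁ (u - f) = Mr s f + v' - Mr s₁ f = v' - Mr (s a cs) f`.  `⟪f, v'⟫ = ⟪f - f', v'⟫ + ⟪f', v'⟫`, and `⟪f', v'⟫ = 0` for `lam > 2 R` (disjoint supports, `inner_eq_zero_of_supp`).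
`⟪f, Mr (s a cs) f⟫` is `⟪f', Mr (s a cs) f'⟫` up to `C η ‖u‖²`, and this is 0 for large `lam` (`osc_poly` with `r = 2`, `pk 1 = s a`, `pk k = 0` otherwise, `av c = 0`; or directly).
So `Q s f + Q s₁ (u - f) ≤ Q s₁ u + C' η ‖u‖²`.
-/

set_option autoImplicit false

open MeasureTheory FourierTransform
open scoped ENNReal InnerProductSpace ComplexConjugate

namespace Pool.Agent.helper12.BR

open Pool.Agent.helper12.RT
open Pool.Agent.helper12.AI (beurlingSymbol)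

variable {n : ℕ}

private theorem LowEn_disj {d : E n} (hd : ‖d‖ = 1) {R lam : ℝ} (hlam : 2 * R < lam) (hR : 0 < R) :
    Disjoint {ξ : E n | ‖ξ‖ ≤ R} {ξ | ∃ k : ℤ, k ≠ 0 ∧ ‖ξ - ((k : ℝ) * lam) • d‖ ≤ R} := by
  rw [Set.disjoint_left]
  rintro ξ h1 ⟨k, hk, h2⟩
  have h1' : ‖ξ‖ ≤ R := h1
  have hlam0 : 0 < lam := by linarith
  have h3 : (1 : ℝ) ≤ |(k : ℝ)| := by
    rw [← Int.cast_abs]
    exact_mod_cast Int.one_le_abs hk
  have h4 : ‖((k : ℝ) * lam) • d‖ = |(k : ℝ)| * lam := by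
    rw [norm_smul, hd, mul_one, Real.norm_eq_abs, abs_mul, abs_of_pos hlam0]
  have h5 : lam ≤ ‖((k : ℝ) * lam) • d‖ := by
    rw [h4]
    nlinarith
  have h6 : ‖((k : ℝ) * lam) • d‖ ≤ ‖ξ‖ + ‖ξ - ((k : ℝ) * lam) • d‖ := by
    have h7 := norm_sub_le ξ (ξ - ((k : ℝ) * lam) • d)
    rwa [sub_sub_cancel] at h7
  linarith

private theorem LowEn_zero {K : ℝ} {s a : E n → ℝ} (hs : TPr K s) (ha : TPr K a)
    {d : E n} (hd : ‖d‖ = 1) {R lam : ℝ} (hlam : 2 * R + 2 * |K| < lam) {f' : H n}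
    (hf : Supp {ξ | ‖ξ‖ ≤ R} f') :
    Q (fun x => s x * a x * RT.cs d lam x) f' = 0 := by
  have hb : BMr fun x => s x * a x * RT.cs d lam x :=
    (hs.bmr.mul ha.bmr).mul (cs_tpr hd lam).bmr
  rw [Q_eq_inner hb]
  have hdis : Disjoint {ξ : E n | ‖ξ‖ ≤ R} {ξ : E n | R < ‖ξ‖} := by
    rw [Set.disjoint_left]
    intro ξ h1 h2
    have h1' : ‖ξ‖ ≤ R := h1
    have h2' : R < ‖ξ‖ := h2
    linarith
  rw [inner_eq_zero_of_supp hdis hf, Complex.zero_re]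
  refine Supp.cs hf (hs.mul ha) d lam ?_
  intro ζ hζ ξ hξ
  have hζ' : ‖ζ‖ ≤ R := hζ
  change R < ‖ξ‖
  have hK := le_abs_self K
  have h1 : lam ≤ ‖lam • d‖ := by
    rw [norm_smul, hd, mul_one, Real.norm_eq_abs]
    exact le_abs_self lam
  rcases hξ with hξ | hξ
  · have h2 : lam • d = ξ - ζ - (ξ - (ζ + lam • d)) := by abel
    have h3 : ‖lam • d‖ ≤ ‖ξ‖ + ‖ζ‖ + ‖ξ - (ζ + lam • d)‖ := by
      calc ‖lam • d‖ = ‖ξ - ζ - (ξ - (ζ + lam • d))‖ := congrArg _ h2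
        _ ≤ ‖ξ - ζ‖ + ‖ξ - (ζ + lam • d)‖ := norm_sub_le _ _
        _ ≤ ‖ξ‖ + ‖ζ‖ + ‖ξ - (ζ + lam • d)‖ := by
          gcongr
          exact norm_sub_le _ _
    linarith
  · have h2 : lam • d = ζ - ξ + (ξ - (ζ - lam • d)) := by abel
    have h3 : ‖lam • d‖ ≤ ‖ζ‖ + ‖ξ‖ + ‖ξ - (ζ - lam • d)‖ := by
      calc ‖lam • d‖ = ‖ζ - ξ + (ξ - (ζ - lam • d))‖ := congrArg _ h2
        _ ≤ ‖ζ - ξ‖ + ‖ξ - (ζ - lam • d)‖ := norm_add_le _ _
        _ ≤ ‖ζ‖ + ‖ξ‖ + ‖ξ - (ζ - lam • d)‖ := by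
          gcongr
          exact norm_sub_le _ _
    linarith

theorem low_energy {K : ℝ} {s a : E n → ℝ} (hs : TPr K s) (ha : TPr K a)
    (ha1 : ∀ x, |a x| ≤ 1 / 2) {d : E n} (hd : ‖d‖ = 1) (C : ℝ) (hC : 0 ≤ C) :
    ∃ C' : ℝ, 0 ≤ C' ∧ ∀ η : ℝ, 0 < η → η ≤ 1 → ∀ R : ℝ, 0 < R → ∃ lam₀ : ℝ, ∀ lam ≥ lam₀,
      ∀ u f f' v' : H n, Dec s a d lam R η C u f f' v' →
        Q s f + Q (fun x => s x * (1 + a x * cs d lam x)) (u - f) ≤
          Q (fun x => s x * (1 + a x * cs d lam x)) u + C' * η * ‖u‖ ^ 2 := by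
  obtain ⟨_, Cs, hCs⟩ := hs.bmr
  have hCs0 : 0 ≤ Cs := (abs_nonneg _).trans (hCs 0)
  refine ⟨Cs * (2 * C + 1) + 2 * C, by positivity, ?_⟩
  intro η hη hη1 R hR
  refine ⟨2 * R + 2 * |K| + 1, ?_⟩
  intro lam hlam u f f' v' hD
  have hK0 := abs_nonneg K
  have hcs : BMr (RT.cs d lam) := (cs_tpr hd lam).bmr
  have hsac : BMr fun x => s x * a x * RT.cs d lam x := (hs.bmr.mul ha.bmr).mul hcs
  have hs1e : (fun x => s x * (1 + a x * RT.cs d lam x)) =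
      fun x => s x + s x * a x * RT.cs d lam x := by
    funext x
    ring
  have hs1 : BMr fun x => s x * (1 + a x * RT.cs d lam x) := by
    rw [hs1e]
    exact hs.bmr.add hsac
  have hu0 := norm_nonneg u
  -- the expansion
  have e1 := Q_expand hs1 f (u - f)
  rw [add_sub_cancel] at e1
  rw [map_sub, hD.eq, inner_sub_right, inner_add_right, Complex.sub_re, Complex.add_re,
    ← Q_eq_inner hs.bmr, ← Q_eq_inner hs1] at e1
  have e2 : Q (fun x => s x * (1 + a x * RT.cs d lam x)) f =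
      Q s f + Q (fun x => s x * a x * RT.cs d lam x) f := by
    rw [hs1e]
    exact Q_add_fun hs.bmr hsac f
  -- the error terms
  have e3 : |Q (fun x => s x * a x * RT.cs d lam x) f -
      Q (fun x => s x * a x * RT.cs d lam x) f'| ≤ Cs * ‖f - f'‖ * (‖f‖ + ‖f'‖) := by
    refine Q_sub_abs hsac ?_ f f'
    intro x
    rw [abs_mul, abs_mul]
    have h1 := hCs x
    have h2 := ha1 x
    have h3 := cs_abs d lam x
    calc |s x| * |a x| * |RT.cs d lam x| ≤ Cs * 1 * 1 := by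
          gcongr
          linarith
      _ = Cs := by ring
  rw [LowEn_zero hs ha hd (by linarith) hD.lo', sub_zero] at e3
  have e4 : ‖f'‖ ≤ (C + 1) * ‖u‖ := by
    have h1 : ‖f'‖ ≤ ‖f‖ + ‖f - f'‖ := by
      have h2 := norm_sub_le f (f - f')
      rwa [sub_sub_cancel] at h2
    have h3 := hD.near
    have h4 := hD.nf
    have h5 : η * ‖u‖ ≤ 1 * ‖u‖ := by gcongr
    linarith
  have e5 : Cs * ‖f - f'‖ * (‖f‖ + ‖f'‖) ≤ Cs * (2 * C + 1) * η * ‖u‖ ^ 2 := by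
    calc Cs * ‖f - f'‖ * (‖f‖ + ‖f'‖) ≤ Cs * (η * ‖u‖) * (C * ‖u‖ + (C + 1) * ‖u‖) := by
          have h3 := hD.near
          have h4 := hD.nf
          gcongr
      _ = Cs * (2 * C + 1) * η * ‖u‖ ^ 2 := by ring
  have e6 : ⟪f, v'⟫_ℂ = ⟪f - f', v'⟫_ℂ := by
    rw [inner_sub_left, inner_eq_zero_of_supp (LowEn_disj hd (by linarith) hR) hD.lo' hD.hi, sub_zero]
  have e7 : |(⟪f, v'⟫_ℂ).re| ≤ C * η * ‖u‖ ^ 2 := by
    rw [e6]
    calc |(⟪f - f', v'⟫_ℂ).re| ≤ ‖⟪f - f', v'⟫_ℂ‖ := Complex.abs_re_le_norm _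
      _ ≤ ‖f - f'‖ * ‖v'‖ := norm_inner_le_norm _ _
      _ ≤ (η * ‖u‖) * (C * ‖u‖) := by
          have h3 := hD.near
          have h4 := hD.nv
          gcongr
      _ = C * η * ‖u‖ ^ 2 := by ring
  have e8 := (abs_le.1 e7).1
  have e9 := (abs_le.1 e3).2
  have e10 : (Cs * (2 * C + 1) + 2 * C) * η * ‖u‖ ^ 2 =
      Cs * (2 * C + 1) * η * ‖u‖ ^ 2 + 2 * (C * η * ‖u‖ ^ 2) := by ring
  rw [e10]
  linarith

end Pool.Agent.helper12.BR
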