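import Pool.Agent.helper12.BR.Qc

/-!
# BR-LowId: the identity for one wave

PROOF.  `s₁ = s (1 + a cs)`, `x_i' = x_i + μ_i s a cs`, `μ = μ₁ + i μ₂ = m d`.  `Dx m s₁ x₁' x₂' u = T m (Mr s₁ u) - (Mr x₁' u + i Mr x₂' u)`, `T m (Mr s₁ u) = T m (Mr s f) + T m v'`, and `T m v' = μ v' + e` with
`‖e‖ ≤ 4 (L R / lam) ‖v'‖` (on the frequencies of `v'`: `|m ξ - m d| ≤ 2 L R / lam` by `Sym.homog` with `(k lam) d` and `Sym.lip`, see step (1) of `low` in `RT/Low.lean`; `T_split`, `Tr_norm_le_of_supp` for the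
symbols `re m - μ₁`, `im m - μ₂`; `lam ≥ 2 R`).  `v' = Mr s₁ u - Mr s f`.  So
`Dx' u = [T m (Mr s f) - (Mr x₁ f + i Mr x₂ f)] + (Mr x₁ f + i Mr x₂ f) + μ (Mr s₁ u - Mr s f) - (Mr x₁ u + i Mr x₂ u) - μ Mr (s₁ - s) u + e = Dx m s x₁ x₂ f + (Mr z₁ (u - f) + i Mr z₂ (u - f)) + e`
with `z_i = μ_i s - x_i`.
-/

set_option autoImplicit false

open MeasureTheory FourierTransform
open scoped ENNReal InnerProductSpace ComplexConjugate

namespace Pool.Agent.helper12.BR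

open Pool.Agent.helper12.RT
open Pool.Agent.helper12.AI (beurlingSymbol)

variable {n : ℕ}

private theorem LowId_Mr_sub {p q : E n → ℝ} (hp : BMr p) (hq : BMr q) (u : H n) :
    Mr (fun x => p x - q x) u = Mr p u - Mr q u := by
  have h1 : Mr p u = Mr (fun x => p x - q x) u + Mr q u := by
    rw [← Mr_add (hp.sub hq) hq]
    congr 2
    funext x
    ring
  rw [h1, add_sub_cancel_right]

private theorem LowId_Tr_sub {m : E n → ℝ} (hm : BMr m) (c : ℝ) (u : H n) :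
    Tr m u - (c : ℂ) • u = Tr (fun ξ => m ξ - c) u := by
  have h1 : Tr m u = Tr (fun ξ => m ξ - c) u + Tr (fun _ => c) u := by
    rw [← Tr_add (hm.sub (BMr.const c)) (BMr.const c)]
    congr 2
    funext x
    ring
  rw [h1, Tr_const, add_sub_cancel_right]

private theorem LowId_norm_kd {d : E n} (hd : ‖d‖ = 1) {lam : ℝ} (hlam : 0 ≤ lam) {k : ℤ}
    (hk : k ≠ 0) : lam ≤ ‖((k : ℝ) * lam) • d‖ := by
  rw [norm_smul, hd, mul_one, Real.norm_eq_abs, abs_mul, abs_of_nonneg hlam]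
  have h1 : (1 : ℝ) ≤ |(k : ℝ)| := by
    have h2 : (1 : ℤ) ≤ |k| := Int.one_le_abs hk
    have h3 : ((1 : ℤ) : ℝ) ≤ ((|k| : ℤ) : ℝ) := by exact_mod_cast h2
    rw [Int.cast_abs] at h3
    simpa using h3
  nlinarith

private theorem LowId_one {L : ℝ} (hL : 0 ≤ L) {m : E n → ℝ} (hm : Sym L m) {d : E n}
    (hd : ‖d‖ = 1) {lam R : ℝ} (hlam : 0 < lam) (hR : 0 < R) {v' : H n}
    (hv : Supp {ξ | ∃ k : ℤ, k ≠ 0 ∧ ‖ξ - ((k : ℝ) * lam) • d‖ ≤ R} v') :
    ‖Tr m v' - ((m d : ℝ) : ℂ) • v'‖ ≤ L * R / lam * ‖v'‖ := by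
  have hmB : BMr m := ⟨hm.meas, 1, hm.bdd⟩
  rw [LowId_Tr_sub hmB]
  apply Tr_norm_le_of_supp hv (hmB.sub (BMr.const _)) (by positivity)
  rintro ξ ⟨k, hk, hk2⟩
  have h1 := LowId_norm_kd hd hlam.le hk
  have hne : ((k : ℝ) * lam) • d ≠ 0 := by
    rw [← norm_pos_iff]
    linarith
  have hk0 : (k : ℝ) * lam ≠ 0 := by
    intro h0
    rw [h0, zero_smul] at hne
    exact hne rfl
  have h2 : m (((k : ℝ) * lam) • d) = m d := hm.homog _ _ hk0
  have h3 := hm.lip (((k : ℝ) * lam) • d) ξ hne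
  rw [h2, abs_sub_comm] at h3
  refine h3.trans ?_
  rw [mul_div_assoc]
  apply mul_le_mul_of_nonneg_left _ hL
  rw [norm_sub_rev]
  have hpos : 0 < ‖((k : ℝ) * lam) • d‖ := norm_pos_iff.2 hne
  rw [div_le_div_iff₀ hpos hlam]
  have h5 := norm_nonneg (ξ - ((k : ℝ) * lam) • d)
  nlinarith

theorem low_id {L : ℝ} (hL : 0 ≤ L) {m : E n → ℂ} (hm : SymC L m) {K : ℝ}
    {s a x₁ x₂ : E n → ℝ} (hs : TPr K s) (ha : TPr K a) (hx₁ : TPr K x₁) (hx₂ : TPr K x₂)
    {d : E n} (hd : ‖d‖ = 1) (C : ℝ) (hC : 0 ≤ C) :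
    ∀ ε > 0, ∀ R : ℝ, 0 < R → ∃ lam₀ : ℝ, ∀ lam ≥ lam₀, ∀ (η : ℝ) (u f f' v' : H n),
      Dec s a d lam R η C u f f' v' →
        ‖Dx m (fun x => s x * (1 + a x * cs d lam x))
            (fun x => x₁ x + (m d).re * (s x * (a x * cs d lam x)))
            (fun x => x₂ x + (m d).im * (s x * (a x * cs d lam x))) u -
          (Dx m s x₁ x₂ f + (Mr (fun x => (m d).re * s x - x₁ x) (u - f) +
            Complex.I • Mr (fun x => (m d).im * s x - x₂ x) (u - f)))‖ ≤ ε * ‖u‖ := by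
  intro ε hε R hR
  refine ⟨max 1 (2 * (L * R) * C / ε), fun lam hlam η u f f' v' hD => ?_⟩
  have g1 : 1 ≤ lam := (le_max_left _ _).trans hlam
  have g2 : 2 * (L * R) * C / ε ≤ lam := (le_max_right _ _).trans hlam
  have hlam0 : 0 < lam := by linarith
  have hcs : BMr (cs d lam) := (cs_tpr hd lam).bmr
  have hac : BMr (fun x => a x * cs d lam x) := ha.bmr.mul hcs
  have hsac : BMr (fun x => s x * (a x * cs d lam x)) := hs.bmr.mul hac
  set A : H n := Mr (fun x => s x * (a x * cs d lam x)) u with hA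
  -- the function `s₁`
  have e1 : Mr (fun x => s x * (1 + a x * cs d lam x)) u = Mr s u + A := by
    rw [hA, ← Mr_add hs.bmr hsac]
    congr 2
    funext x
    ring
  have e2 : Mr s u + A = Mr s f + v' := by rw [← e1, hD.eq]
  have hv : v' = Mr s u + A - Mr s f := by rw [e2, add_sub_cancel_left]
  have e3 : ∀ (x₀ : E n → ℝ) (c : ℝ), BMr x₀ →
      Mr (fun x => x₀ x + c * (s x * (a x * cs d lam x))) u = Mr x₀ u + (c : ℂ) • A := by
    intro x₀ c h0
    have h1 := Mr_add (p := x₀) (q := fun x => c * (s x * (a x * cs d lam x))) h0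
      ((BMr.const c).mul hsac) u
    rw [h1, Mr_mul (p := fun _ => c) (q := fun x => s x * (a x * cs d lam x)) (BMr.const c) hsac,
      Mr_const]
  have e4 : ∀ (x₀ : E n → ℝ) (c : ℝ), BMr x₀ → ∀ h : H n,
      Mr (fun x => c * s x - x₀ x) h = (c : ℂ) • Mr s h - Mr x₀ h := by
    intro x₀ c h0 h
    rw [LowId_Mr_sub (p := fun x => c * s x) (q := x₀) ((BMr.const c).mul hs.bmr) h0,
      Mr_mul (p := fun _ => c) (q := s) (BMr.const c) hs.bmr, Mr_const]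
  have hkey : Dx m (fun x => s x * (1 + a x * cs d lam x))
        (fun x => x₁ x + (m d).re * (s x * (a x * cs d lam x)))
        (fun x => x₂ x + (m d).im * (s x * (a x * cs d lam x))) u -
      (Dx m s x₁ x₂ f + (Mr (fun x => (m d).re * s x - x₁ x) (u - f) +
        Complex.I • Mr (fun x => (m d).im * s x - x₂ x) (u - f))) =
      (Tr (fun ξ => (m ξ).re) v' - (((m d).re : ℝ) : ℂ) • v') +
        Complex.I • (Tr (fun ξ => (m ξ).im) v' - (((m d).im : ℝ) : ℂ) • v') := by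
    unfold Dx
    rw [e1, e2, e3 x₁ _ hx₁.bmr, e3 x₂ _ hx₂.bmr, e4 x₁ _ hx₁.bmr, e4 x₂ _ hx₂.bmr, map_add,
      T_split hm v', map_sub (Mr s), map_sub (Mr x₁), map_sub (Mr x₂)]
    have h5 : ∀ c : ℂ, c • v' = c • (Mr s u + A - Mr s f) := fun c => by rw [← hv]
    rw [h5 _, h5 (((m d).im : ℝ) : ℂ)]
    module
  rw [hkey]
  have hre := LowId_one hL hm.re hd hlam0 hR hD.hi
  have him := LowId_one hL hm.im hd hlam0 hR hD.hi
  have hv0 := norm_nonneg v'
  have hu0 := norm_nonneg u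
  refine (norm_add_le _ _).trans ?_
  rw [norm_smul, Complex.norm_I, one_mul]
  have hθ : 0 ≤ L * R / lam := by positivity
  have h6 : L * R / lam * ‖v'‖ ≤ L * R / lam * (C * ‖u‖) :=
    mul_le_mul_of_nonneg_left hD.nv hθ
  have h7 : 2 * (L * R / lam) * C ≤ ε := by
    rw [div_le_iff₀ hε] at g2
    have e5 : 2 * (L * R / lam) * C = 2 * (L * R) * C / lam := by ring
    rw [e5, div_le_iff₀ hlam0]
    linarith
  calc _ ≤ L * R / lam * ‖v'‖ + L * R / lam * ‖v'‖ := add_le_add hre him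
    _ ≤ L * R / lam * (C * ‖u‖) + L * R / lam * (C * ‖u‖) := add_le_add h6 h6
    _ = (2 * (L * R / lam) * C) * ‖u‖ := by ring
    _ ≤ ε * ‖u‖ := mul_le_mul_of_nonneg_right h7 hu0

end Pool.Agent.helper12.BR
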