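import Pool.Agent.helper12.BR.Osc
import Pool.Agent.helper12.BR.Qc

/-!
# BR-LowQ: the main term

PROOF.  `D f = T m (Mr s f) - (Mr x₁ f + i Mr x₂ f)` is `G = T m (Mr s f) - (Mr x₁ f' + i Mr x₂ f')` up to `C η ‖u‖`, and `G` has frequencies of norm at most `R + K` (`Supp.T`, `Supp.TPr`, `Supp.sub`, `Supp.smul`).
For `lam > 2 (R + K) + K`: `Q P₁ G = Q (av P) G` (`Q_eq_inner`, `osc_poly`).  `|Q P₁ (D f) - Q P₁ G| ≤ C'' η ‖u‖²` (`Q_sub_abs`; the bound of `P₁ = polyC pk r x (cs d lam x)` is independent of `lam`), same for `av P`.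
-/

set_option autoImplicit false

open MeasureTheory FourierTransform
open scoped ENNReal InnerProductSpace ComplexConjugate

namespace Pool.Agent.helper12.BR

open Pool.Agent.helper12.RT
open Pool.Agent.helper12.AI (beurlingSymbol)

variable {n : ℕ}

private theorem LowQ_poly_abs {pk : ℕ → E n → ℝ} {Bk : ℕ → ℝ} (hB : ∀ k x, |pk k x| ≤ Bk k)
    (r : ℕ) (x : E n) {c : ℝ} (hc : |c| ≤ 1) :
    |polyC pk r x c| ≤ ∑ k ∈ Finset.range r, Bk k := by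
  unfold polyC
  refine (Finset.abs_sum_le_sum_abs _ _).trans (Finset.sum_le_sum fun k _ => ?_)
  rw [abs_mul, abs_pow]
  have h1 : |c| ^ k ≤ 1 := pow_le_one₀ (abs_nonneg c) hc
  have h2 := abs_nonneg (pk k x)
  calc |pk k x| * |c| ^ k ≤ |pk k x| * 1 := mul_le_mul_of_nonneg_left h1 h2
    _ ≤ Bk k := by rw [mul_one]; exact hB k x

private theorem LowQ_av_abs {pk : ℕ → E n → ℝ} {Bk : ℕ → ℝ} (hB : ∀ k x, |pk k x| ≤ Bk k)
    (r : ℕ) (x : E n) :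
    |av (polyC pk r x)| ≤ ∑ k ∈ Finset.range r, Bk k := by
  unfold av
  have h := intervalIntegral.norm_integral_le_of_norm_le_const (a := (0 : ℝ)) (b := 1)
    (f := fun θ => polyC pk r x (Real.cos (2 * Real.pi * θ)))
    (C := ∑ k ∈ Finset.range r, Bk k) (fun θ _ => by
      rw [Real.norm_eq_abs]
      exact LowQ_poly_abs hB r x (Real.abs_cos_le_one _))
  rw [Real.norm_eq_abs, sub_zero, abs_one, mul_one] at h
  exact h

theorem low_Q {L : ℝ} {m : E n → ℂ} (hm : SymC L m) {K : ℝ} {s a x₁ x₂ : E n → ℝ}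
    {pk : ℕ → E n → ℝ} (r : ℕ) (hs : TPr K s) (hx₁ : TPr K x₁) (hx₂ : TPr K x₂)
    (hpk : ∀ k, TPr K (pk k)) {d : E n} (hd : ‖d‖ = 1) (C : ℝ) (hC : 0 ≤ C) :
    ∃ C' : ℝ, 0 ≤ C' ∧ ∀ η : ℝ, 0 < η → η ≤ 1 → ∀ R : ℝ, 0 < R → ∃ lam₀ : ℝ, ∀ lam ≥ lam₀,
      ∀ u f f' v' : H n, Dec s a d lam R η C u f f' v' →
        Q (fun x => polyC pk r x (cs d lam x)) (Dx m s x₁ x₂ f) ≤
          Q (fun x => av (polyC pk r x)) (Dx m s x₁ x₂ f) + C' * η * ‖u‖ ^ 2 := by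
  classical
  have hmono := le_max_left K 0
  set K0 : ℝ := max K 0 with hK0def
  have hK0 : 0 ≤ K0 := le_max_right _ _
  have hs' := hs.mono hmono
  have hx₁' := hx₁.mono hmono
  have hx₂' := hx₂.mono hmono
  have hpk' : ∀ k, TPr K0 (pk k) := fun k => (hpk k).mono hmono
  obtain ⟨-, Cs, hCs⟩ := hs.bmr
  obtain ⟨-, C1, hC1⟩ := hx₁.bmr
  obtain ⟨-, C2, hC2⟩ := hx₂.bmr
  have hBk : ∀ k, ∃ B : ℝ, ∀ x, |pk k x| ≤ B := fun k => (hpk k).bmr.2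
  choose Bk hBk using hBk
  set B : ℝ := ∑ k ∈ Finset.range r, Bk k with hBdef
  have hB0 : 0 ≤ B := Finset.sum_nonneg fun k _ => (abs_nonneg _).trans (hBk k 0)
  set Cb : ℝ := max Cs (max C1 C2) with hCbdef
  have hb : ∀ x, |s x| ≤ Cb ∧ |x₁ x| ≤ Cb ∧ |x₂ x| ≤ Cb := fun x =>
    ⟨(hCs x).trans (le_max_left _ _),
      (hC1 x).trans ((le_max_left _ _).trans (le_max_right _ _)),
      (hC2 x).trans ((le_max_right _ _).trans (le_max_right _ _))⟩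
  have hCb0 : 0 ≤ Cb := (abs_nonneg _).trans (hb 0).1
  set C3 : ℝ := 2 * Cb * (8 * Cb * C + 2 * Cb) with hC3def
  have hC3 : 0 ≤ C3 := by positivity
  refine ⟨2 * (B * C3), by positivity, ?_⟩
  intro η hη hη1 R hR
  refine ⟨2 * (R + K0) + K0 + 1, ?_⟩
  intro lam hlam u f f' v' hD
  have hU : 0 ≤ ‖u‖ := norm_nonneg u
  -- the low part
  set G : H n := RT.T m (Mr s f) - (Mr x₁ f' + Complex.I • Mr x₂ f') with hGdef
  have hGs : Supp {ξ | ‖ξ‖ ≤ R + K0} G := by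
    have h1 : Supp {ξ | ‖ξ‖ ≤ R + K0} (RT.T m (Mr s f)) := by
      refine (hD.lo.T hm.bm).mono ?_
      intro ξ hξ
      have hξ' : ‖ξ‖ ≤ R := hξ
      show ‖ξ‖ ≤ R + K0
      linarith
    have hsub : ∀ ζ ∈ {ξ : E n | ‖ξ‖ ≤ R}, ∀ ξ : E n, ‖ξ - ζ‖ ≤ K0 →
        ξ ∈ {ξ : E n | ‖ξ‖ ≤ R + K0} := by
      intro ζ hζ ξ hξ
      have hζ' : ‖ζ‖ ≤ R := hζ
      show ‖ξ‖ ≤ R + K0
      have h2 : ‖ξ‖ ≤ ‖ξ - ζ‖ + ‖ζ‖ := by
        have h3 := norm_add_le (ξ - ζ) ζ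
        rwa [sub_add_cancel] at h3
      linarith
    exact h1.sub ((hD.lo'.TPr hx₁' hsub).add ((hD.lo'.TPr hx₂' hsub).smul Complex.I))
  have hdiff : Dx m s x₁ x₂ f - G = -(Mr x₁ (f - f') + Complex.I • Mr x₂ (f - f')) := by
    rw [hGdef, Dx, map_sub, map_sub, smul_sub]
    abel
  have hdn : ‖Dx m s x₁ x₂ f - G‖ ≤ 2 * Cb * η * ‖u‖ := by
    rw [hdiff, norm_neg]
    have h1 : ‖Mr x₁ (f - f')‖ ≤ Cb * ‖f - f'‖ := Mr_norm_le hx₁.bmr (fun x => (hb x).2.1) _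
    have h2 : ‖Complex.I • Mr x₂ (f - f')‖ ≤ Cb * ‖f - f'‖ := by
      rw [norm_smul, Complex.norm_I, one_mul]
      exact Mr_norm_le hx₂.bmr (fun x => (hb x).2.2) _
    have h3 := norm_add_le (Mr x₁ (f - f')) (Complex.I • Mr x₂ (f - f'))
    have h4 := mul_le_mul_of_nonneg_left hD.near hCb0
    linarith
  have hDn : ‖Dx m s x₁ x₂ f‖ ≤ 4 * Cb * C * ‖u‖ := by
    refine (Dx_norm hm hs.bmr hx₁.bmr hx₂.bmr hb f).trans ?_
    have h4 := mul_le_mul_of_nonneg_left hD.nf (by positivity : 0 ≤ 4 * Cb)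
    linarith
  have hGn : ‖G‖ ≤ (4 * Cb * C + 2 * Cb) * ‖u‖ := by
    have h1 : G = Dx m s x₁ x₂ f - (Dx m s x₁ x₂ f - G) := by abel
    have h2 : ‖G‖ ≤ ‖Dx m s x₁ x₂ f‖ + ‖Dx m s x₁ x₂ f - G‖ := by
      conv_lhs => rw [h1]
      exact norm_sub_le _ _
    have h3 : 2 * Cb * η * ‖u‖ ≤ 2 * Cb * ‖u‖ := by
      have h5 : 0 ≤ 2 * Cb * ‖u‖ := by positivity
      nlinarith
    linarith
  have hprod : ‖Dx m s x₁ x₂ f - G‖ * (‖Dx m s x₁ x₂ f‖ + ‖G‖) ≤ C3 * η * ‖u‖ ^ 2 := by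
    have h1 : ‖Dx m s x₁ x₂ f‖ + ‖G‖ ≤ (8 * Cb * C + 2 * Cb) * ‖u‖ := by linarith
    calc ‖Dx m s x₁ x₂ f - G‖ * (‖Dx m s x₁ x₂ f‖ + ‖G‖)
        ≤ (2 * Cb * η * ‖u‖) * ((8 * Cb * C + 2 * Cb) * ‖u‖) :=
          mul_le_mul hdn h1 (add_nonneg (norm_nonneg _) (norm_nonneg _)) (by positivity)
      _ = C3 * η * ‖u‖ ^ 2 := by rw [hC3def]; ring
  have hP1 : BMr fun x => polyC pk r x (cs d lam x) := by
    obtain ⟨K', h1⟩ := polyC_tpr hpk' r hd lam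
    exact h1.bmr
  have hP2 : BMr fun x => av (polyC pk r x) := (av_polyC_tpr hpk' hK0 r).bmr
  have hQ1 := Q_sub_abs hP1 (C := B) (fun x => LowQ_poly_abs hBk r x (cs_abs d lam x))
    (Dx m s x₁ x₂ f) G
  have hQ2 := Q_sub_abs hP2 (C := B) (fun x => LowQ_av_abs hBk r x)
    (Dx m s x₁ x₂ f) G
  have hQG : Q (fun x => polyC pk r x (cs d lam x)) G = Q (fun x => av (polyC pk r x)) G := by
    rw [Q_eq_inner hP1, Q_eq_inner hP2,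
      osc_poly hpk' hK0 r hd (R := R + K0) (by linarith) (by linarith) hGs hGs]
  have hBp : B * ‖Dx m s x₁ x₂ f - G‖ * (‖Dx m s x₁ x₂ f‖ + ‖G‖) ≤
      B * C3 * η * ‖u‖ ^ 2 := by
    have h1 := mul_le_mul_of_nonneg_left hprod hB0
    linarith
  have h1 := (abs_le.1 (hQ1.trans hBp)).2
  have h2 := (abs_le.1 (hQ2.trans hBp)).1
  linarith

end Pool.Agent.helper12.BR
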