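import Pool.Agent.helper12.BR.Osc
import Pool.Agent.helper12.BR.Qc

/-!
# BR-LowX: the cross term vanishes against `p (1 + a cs)`

`D f = Dx m s x₁ x₂ f`, `Z = Mr z₁ (u - f) + i Mr z₂ (u - f)`.
PROOF.  `Mr (p (1 + a cs)) (Mr z_i (u - f)) = Mr (p z_i s⁻¹) (Mr s₁ (u - f))` and `Mr s₁ (u - f) = v' - Mr (s a cs) f` (as in `LowEn`).  Up to `C η ‖u‖` replace `f` by `f'` here, and `s⁻¹` by a trigonometric polynomial `q`
(`TPr.exists_inv` with `η`), and `D f = T m (Mr s f) - (Mr x₁ f + i Mr x₂ f)` by `G = T m (Mr s f) - (Mr x₁ f' + i Mr x₂ f')`, which has frequencies of norm at most `R + K` (`Supp.T`, `Supp.TPr`).  Then the inner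
products `⟪G, Mr (p z_i q) v'⟫` and `⟪G, Mr (p z_i q) (Mr (s a cs) f')⟫` vanish for large `lam` (the supports of the second factors have norm at least `lam - const`, where const depends on
`R, K, K'(η)`; `Supp.cs`, `Supp.TPr`, `inner_eq_zero_of_supp`).  All errors are at most `C' η ‖u‖²`, `C'` depending on the bounds of the functions, on `c`, `C` only.
-/

set_option autoImplicit false

open MeasureTheory FourierTransform
open scoped ENNReal InnerProductSpace ComplexConjugate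

namespace Pool.Agent.helper12.BR

open Pool.Agent.helper12.RT
open Pool.Agent.helper12.AI (beurlingSymbol)

variable {n : ℕ}

/-- the term with one factor `z` -/
private theorem lowx_one {L : ℝ} {m : E n → ℂ} (hm : SymC L m) {K : ℝ}
    {s a x₁ x₂ p z : E n → ℝ}
    (hs : TPr K s) (ha : TPr K a) (hx₁ : TPr K x₁) (hx₂ : TPr K x₂) (hp : TPr K p)
    (hz : TPr K z) {c : ℝ} (hc : 0 < c) (hs0 : ∀ x, c ≤ s x)
    (ha1 : ∀ x, |a x| ≤ 1 / 2) {d : E n} (hd : ‖d‖ = 1) (C : ℝ) (hC : 0 ≤ C) :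
    ∃ C' : ℝ, 0 ≤ C' ∧ ∀ η : ℝ, 0 < η → η ≤ 1 → ∀ R : ℝ, 0 < R → ∃ lam₀ : ℝ, ∀ lam ≥ lam₀,
      ∀ u f f' v' : H n, Dec s a d lam R η C u f f' v' →
        ‖⟪Dx m s x₁ x₂ f, Mr (fun x => p x * (1 + a x * cs d lam x)) (Mr z (u - f))⟫_ℂ‖ ≤
          C' * η * ‖u‖ ^ 2 := by
  -- a common bound
  obtain ⟨B, hB1, hsB, hx1B, hx2B, hpB, hzB⟩ : ∃ B : ℝ, 1 ≤ B ∧ (∀ x, |s x| ≤ B) ∧
      (∀ x, |x₁ x| ≤ B) ∧ (∀ x, |x₂ x| ≤ B) ∧ (∀ x, |p x| ≤ B) ∧ (∀ x, |z x| ≤ B) := by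
    obtain ⟨B1, h1⟩ := hs.bmr.2
    obtain ⟨B2, h2⟩ := hx₁.bmr.2
    obtain ⟨B3, h3⟩ := hx₂.bmr.2
    obtain ⟨B4, h4⟩ := hp.bmr.2
    obtain ⟨B5, h5⟩ := hz.bmr.2
    refine ⟨1 + |B1| + |B2| + |B3| + |B4| + |B5|, ?_, ?_, ?_, ?_, ?_, ?_⟩
    · have := abs_nonneg B1
      have := abs_nonneg B2
      have := abs_nonneg B3
      have := abs_nonneg B4
      have := abs_nonneg B5
      linarith
    all_goals
      intro x
      have := h1 x
      have := h2 x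
      have := h3 x
      have := h4 x
      have := h5 x
      have := le_abs_self B1
      have := le_abs_self B2
      have := le_abs_self B3
      have := le_abs_self B4
      have := le_abs_self B5
      have := abs_nonneg B1
      have := abs_nonneg B2
      have := abs_nonneg B3
      have := abs_nonneg B4
      have := abs_nonneg B5
      linarith
  have hB0 : 0 < B := by linarith
  have hci : 0 < c⁻¹ := inv_pos.2 hc
  obtain ⟨CV, hCV⟩ : ∃ CV : ℝ, CV = C + B * C := ⟨_, rfl⟩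
  obtain ⟨CG, hCG⟩ : ∃ CG : ℝ, CG = 2 * (B * C) + 2 * (B * (C + 1)) := ⟨_, rfl⟩
  have hCV0 : 0 ≤ CV := by rw [hCV]; positivity
  have hCG0 : 0 ≤ CG := by rw [hCG]; positivity
  refine ⟨2 * B * (B * B * c⁻¹ * CV) + CG * (B * B * CV) + CG * (B * B * (c⁻¹ + 1) * B),
    by positivity, ?_⟩
  intro η hη hη1 R hR
  obtain ⟨K1, q, hq1, hqs⟩ := hs.exists_inv hc hs0 hη
  obtain ⟨K', hK'⟩ : ∃ K' : ℝ, K' = max K1 0 := ⟨_, rfl⟩
  obtain ⟨K0, hK0⟩ : ∃ K0 : ℝ, K0 = max K 0 := ⟨_, rfl⟩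
  have hK'0 : 0 ≤ K' := by rw [hK']; exact le_max_right _ _
  have hK00 : 0 ≤ K0 := by rw [hK0]; exact le_max_right _ _
  have hKK0 : K ≤ K0 := by rw [hK0]; exact le_max_left _ _
  have hq : TPr K' q := hq1.mono (by rw [hK']; exact le_max_left _ _)
  refine ⟨2 * R + 5 * K0 + K' + 1, ?_⟩
  intro lam hlam u f f' v' hD
  have hlam0 : 0 < lam := by linarith
  have hspos : ∀ x, 0 < s x := fun x => lt_of_lt_of_le hc (hs0 x)
  have hU : 0 ≤ ‖u‖ := norm_nonneg u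
  -- boundedness
  have hsb : BMr s := hs.bmr
  have hab : BMr a := ha.bmr
  have hpb : BMr p := hp.bmr
  have hzb : BMr z := hz.bmr
  have hcb : BMr (cs d lam) := (cs_tpr hd lam).bmr
  have hqb : BMr q := hq.bmr
  have hib : BMr fun x => (s x)⁻¹ := hsb.inv hc hs0
  have hPb : BMr fun x => (s x * a x) * cs d lam x := (hsb.mul hab).mul hcb
  have h1b : BMr fun x => 1 + a x * cs d lam x := (BMr.const 1).add (hab.mul hcb)
  have hs1b : BMr fun x => s x * (1 + a x * cs d lam x) := hsb.mul h1b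
  have hac : ∀ x, |a x * cs d lam x| ≤ 1 / 2 := by
    intro x
    rw [abs_mul]
    have h1 := ha1 x
    have h2 := cs_abs d lam x
    have h3 := abs_nonneg (a x)
    have h4 := abs_nonneg (cs d lam x)
    nlinarith
  have hPC : ∀ x, |(s x * a x) * cs d lam x| ≤ B := by
    intro x
    have h1 : |(s x * a x) * cs d lam x| = |s x| * |a x * cs d lam x| := by
      rw [← abs_mul]
      congr 1
      ring
    rw [h1]
    have h2 := hsB x
    have h3 := hac x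
    have h4 := abs_nonneg (s x)
    have h5 := abs_nonneg (a x * cs d lam x)
    nlinarith
  -- V and V'
  obtain ⟨V, hV⟩ : ∃ V : H n, V = v' - Mr (fun x => (s x * a x) * cs d lam x) f := ⟨_, rfl⟩
  obtain ⟨V', hV'⟩ : ∃ V' : H n, V' = v' - Mr (fun x => (s x * a x) * cs d lam x) f' := ⟨_, rfl⟩
  have hMV : Mr (fun x => s x * (1 + a x * cs d lam x)) (u - f) = V := by
    rw [map_sub, hD.eq, hV]
    have h1 : Mr (fun x => s x * (1 + a x * cs d lam x)) f =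
        Mr s f + Mr (fun x => (s x * a x) * cs d lam x) f := by
      rw [← Mr_add hsb hPb]
      congr 2
      funext x
      ring
    rw [h1]
    abel
  have hkey : Mr (fun x => p x * (1 + a x * cs d lam x)) (Mr z (u - f)) =
      Mr (fun x => p x * z x * (s x)⁻¹) V := by
    rw [← hMV, ← Mr_mul (hpb.mul h1b) hzb, ← Mr_mul ((hpb.mul hzb).mul hib) hs1b]
    congr 2
    funext x
    have := (hspos x).ne'
    field_simp
  have hVV : V - V' = -Mr (fun x => (s x * a x) * cs d lam x) (f - f') := by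
    rw [hV, hV', map_sub]
    abel
  have hVVn : ‖V - V'‖ ≤ B * (η * ‖u‖) := by
    rw [hVV, norm_neg]
    exact (Mr_norm_le hPb hPC _).trans (mul_le_mul_of_nonneg_left hD.near hB0.le)
  have hVn : ‖V‖ ≤ CV * ‖u‖ := by
    rw [hV, hCV]
    refine (norm_sub_le _ _).trans ?_
    have h1 := hD.nv
    have h2 := (Mr_norm_le hPb hPC f).trans (mul_le_mul_of_nonneg_left hD.nf hB0.le)
    nlinarith
  -- G
  obtain ⟨G, hG⟩ : ∃ G : H n, G = T m (Mr s f) - (Mr x₁ f' + Complex.I • Mr x₂ f') := ⟨_, rfl⟩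
  have hDG : Dx m s x₁ x₂ f - G = -(Mr x₁ (f - f') + Complex.I • Mr x₂ (f - f')) := by
    rw [hG]
    unfold Dx
    rw [map_sub, map_sub, smul_sub]
    abel
  have hDGn : ‖Dx m s x₁ x₂ f - G‖ ≤ 2 * B * (η * ‖u‖) := by
    rw [hDG, norm_neg]
    refine (norm_add_le _ _).trans ?_
    rw [norm_smul, Complex.norm_I, one_mul]
    have h1 := (Mr_norm_le hx₁.bmr hx1B (f - f')).trans
      (mul_le_mul_of_nonneg_left hD.near hB0.le)
    have h2 := (Mr_norm_le hx₂.bmr hx2B (f - f')).trans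
      (mul_le_mul_of_nonneg_left hD.near hB0.le)
    linarith
  have hf'n : ‖f'‖ ≤ (C + 1) * ‖u‖ := by
    have h1 : ‖f'‖ ≤ ‖f‖ + ‖f - f'‖ := by
      have h2 : f' = f - (f - f') := by abel
      conv_lhs => rw [h2]
      exact norm_sub_le _ _
    have h3 : η * ‖u‖ ≤ 1 * ‖u‖ := mul_le_mul_of_nonneg_right hη1 hU
    have := hD.nf
    have := hD.near
    linarith
  have hGn : ‖G‖ ≤ CG * ‖u‖ := by
    rw [hG, hCG]
    refine (norm_sub_le _ _).trans ?_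
    have h1 : ‖T m (Mr s f)‖ ≤ 2 * (B * (C * ‖u‖)) := by
      refine (T_norm2 hm _).trans ?_
      exact mul_le_mul_of_nonneg_left ((Mr_norm_le hsb hsB f).trans
        (mul_le_mul_of_nonneg_left hD.nf hB0.le)) (by norm_num)
    have h2 : ‖Mr x₁ f' + Complex.I • Mr x₂ f'‖ ≤ 2 * (B * ((C + 1) * ‖u‖)) := by
      refine (norm_add_le _ _).trans ?_
      rw [norm_smul, Complex.norm_I, one_mul]
      have h1 := (Mr_norm_le hx₁.bmr hx1B f').trans (mul_le_mul_of_nonneg_left hf'n hB0.le)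
      have h2 := (Mr_norm_le hx₂.bmr hx2B f').trans (mul_le_mul_of_nonneg_left hf'n hB0.le)
      linarith
    linarith
  -- supports
  have hlamd : ‖lam • d‖ = lam := by
    rw [norm_smul, hd, mul_one, Real.norm_eq_abs, abs_of_pos hlam0]
  have hGS : Supp {ξ : E n | ‖ξ‖ ≤ R + K0} G := by
    rw [hG]
    have hx : ∀ {y : E n → ℝ}, TPr K y → Supp {ξ : E n | ‖ξ‖ ≤ R + K0} (Mr y f') := by
      intro y hy
      apply hD.lo'.TPr hy
      intro ζ hζ ξ hξ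
      have h1 : ‖ξ‖ ≤ ‖ξ - ζ‖ + ‖ζ‖ := norm_le_norm_sub_add ξ ζ
      have h2 : ‖ζ‖ ≤ R := hζ
      show ‖ξ‖ ≤ R + K0
      linarith
    apply Supp.sub
    · apply Supp.T _ hm.bm
      apply hD.lo.mono
      intro ξ hξ
      have h2 : ‖ξ‖ ≤ R := hξ
      show ‖ξ‖ ≤ R + K0
      linarith
    · exact (hx hx₁).add ((hx hx₂).smul Complex.I)
  have hV'S : Supp {ξ : E n | lam - R - 2 * K0 ≤ ‖ξ‖} V' := by
    rw [hV']
    apply Supp.sub
    · apply hD.hi.mono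
      rintro ξ ⟨k, hk, hξ⟩
      have h1 : lam ≤ ‖((k : ℝ) * lam) • d‖ := by
        rw [norm_smul, hd, mul_one, Real.norm_eq_abs, abs_mul, abs_of_pos hlam0]
        have h2 : (1 : ℤ) ≤ |k| := Int.one_le_abs hk
        have h3 : ((1 : ℤ) : ℝ) ≤ ((|k| : ℤ) : ℝ) := by exact_mod_cast h2
        rw [Int.cast_abs] at h3
        simp only [Int.cast_one] at h3
        nlinarith
      have h4 : ‖((k : ℝ) * lam) • d‖ ≤ ‖ξ‖ + ‖ξ - ((k : ℝ) * lam) • d‖ := by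
        have h5 : ((k : ℝ) * lam) • d = ξ - (ξ - ((k : ℝ) * lam) • d) := by abel
        conv_lhs => rw [h5]
        exact norm_sub_le _ _
      show lam - R - 2 * K0 ≤ ‖ξ‖
      linarith
    · have hsK : TPr K0 s := hs.mono hKK0
      have haK : TPr K0 a := ha.mono hKK0
      apply hD.lo'.cs (hsK.mul haK) d lam
      intro ζ hζ ξ hξ
      have hζ' : ‖ζ‖ ≤ R := hζ
      show lam - R - 2 * K0 ≤ ‖ξ‖
      rcases hξ with h1 | h1
      · have h2 : lam • d = ξ - (ξ - (ζ + lam • d)) - ζ := by abel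
        have h3 : ‖lam • d‖ ≤ ‖ξ‖ + ‖ξ - (ζ + lam • d)‖ + ‖ζ‖ := by
          conv_lhs => rw [h2]
          refine (norm_sub_le _ _).trans ?_
          have h4 := norm_sub_le ξ (ξ - (ζ + lam • d))
          linarith
        rw [hlamd] at h3
        linarith
      · have h2 : lam • d = ζ - ξ + (ξ - (ζ - lam • d)) := by abel
        have h3 : ‖lam • d‖ ≤ ‖ζ‖ + ‖ξ‖ + ‖ξ - (ζ - lam • d)‖ := by
          conv_lhs => rw [h2]
          refine (norm_add_le _ _).trans ?_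
          have h4 := norm_sub_le ζ ξ
          linarith
        rw [hlamd] at h3
        linarith
  have hzero : ⟪G, Mr (fun x => p x * z x * q x) V'⟫_ℂ = 0 := by
    have hpzq : TPr (K0 + K0 + K') fun x => p x * z x * q x :=
      ((hp.mono hKK0).mul (hz.mono hKK0)).mul hq
    have hS : Supp {ξ : E n | lam - R - 4 * K0 - K' ≤ ‖ξ‖}
        (Mr (fun x => p x * z x * q x) V') := by
      apply hV'S.TPr hpzq
      intro ζ hζ ξ hξ
      have h2 : lam - R - 2 * K0 ≤ ‖ζ‖ := hζ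
      have h1 : ‖ζ‖ ≤ ‖ξ‖ + ‖ξ - ζ‖ := by
        have h5 : ζ = ξ - (ξ - ζ) := by abel
        conv_lhs => rw [h5]
        exact norm_sub_le _ _
      show lam - R - 4 * K0 - K' ≤ ‖ξ‖
      linarith
    apply inner_eq_zero_of_supp _ hGS hS
    rw [Set.disjoint_left]
    intro ξ h1 h2
    have h1' : ‖ξ‖ ≤ R + K0 := h1
    have h2' : lam - R - 4 * K0 - K' ≤ ‖ξ‖ := h2
    linarith
  -- the three errors
  have hpz : ∀ x, |p x * z x| ≤ B * B := by
    intro x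
    rw [abs_mul]
    exact mul_le_mul (hpB x) (hzB x) (abs_nonneg _) hB0.le
  have hE1 : ‖Mr (fun x => p x * z x * (s x)⁻¹) V‖ ≤ B * B * c⁻¹ * (CV * ‖u‖) := by
    refine (Mr_norm_le ((hpb.mul hzb).mul hib) (C := B * B * c⁻¹) ?_ V).trans
      (mul_le_mul_of_nonneg_left hVn (by positivity))
    intro x
    rw [abs_mul]
    apply mul_le_mul (hpz x) _ (abs_nonneg _) (by positivity)
    rw [abs_of_pos (inv_pos.mpr (hspos x))]
    exact inv_anti₀ hc (hs0 x)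
  have hE2 : ‖Mr (fun x => p x * z x * ((s x)⁻¹ - q x)) V‖ ≤ B * B * η * (CV * ‖u‖) := by
    refine (Mr_norm_le ((hpb.mul hzb).mul (hib.sub hqb)) (C := B * B * η) ?_ V).trans
      (mul_le_mul_of_nonneg_left hVn (by positivity))
    intro x
    rw [abs_mul]
    exact mul_le_mul (hpz x) (hqs x) (abs_nonneg _) (by positivity)
  have hE3 : ‖Mr (fun x => p x * z x * q x) (V - V')‖ ≤ B * B * (c⁻¹ + 1) * (B * (η * ‖u‖)) := by
    refine (Mr_norm_le ((hpb.mul hzb).mul hqb) (C := B * B * (c⁻¹ + 1)) ?_ (V - V')).trans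
      (mul_le_mul_of_nonneg_left hVVn (by positivity))
    intro x
    rw [abs_mul]
    apply mul_le_mul (hpz x) _ (abs_nonneg _) (by positivity)
    have h1 : |q x| ≤ |(s x)⁻¹| + |(s x)⁻¹ - q x| := by
      have h2 : q x = (s x)⁻¹ - ((s x)⁻¹ - q x) := by ring
      conv_lhs => rw [h2]
      exact abs_sub _ _
    have h3 : |(s x)⁻¹| ≤ c⁻¹ := by
      rw [abs_of_pos (inv_pos.mpr (hspos x))]
      exact inv_anti₀ hc (hs0 x)
    have h4 := hqs x
    linarith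
  have hsplit : ⟪Dx m s x₁ x₂ f, Mr (fun x => p x * z x * (s x)⁻¹) V⟫_ℂ =
      ⟪Dx m s x₁ x₂ f - G, Mr (fun x => p x * z x * (s x)⁻¹) V⟫_ℂ +
      ⟪G, Mr (fun x => p x * z x * ((s x)⁻¹ - q x)) V⟫_ℂ +
      ⟪G, Mr (fun x => p x * z x * q x) (V - V')⟫_ℂ := by
    have h1 : Mr (fun x => p x * z x * (s x)⁻¹) V =
        Mr (fun x => p x * z x * ((s x)⁻¹ - q x)) V + Mr (fun x => p x * z x * q x) V := by
      rw [← Mr_add ((hpb.mul hzb).mul (hib.sub hqb)) ((hpb.mul hzb).mul hqb)]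
      congr 2
      funext x
      ring
    have h2 : ⟪G, Mr (fun x => p x * z x * (s x)⁻¹) V⟫_ℂ =
        ⟪G, Mr (fun x => p x * z x * ((s x)⁻¹ - q x)) V⟫_ℂ +
        ⟪G, Mr (fun x => p x * z x * q x) V⟫_ℂ := by
      rw [h1, inner_add_right]
    have h3 : ⟪G, Mr (fun x => p x * z x * q x) (V - V')⟫_ℂ =
        ⟪G, Mr (fun x => p x * z x * q x) V⟫_ℂ := by
      rw [map_sub, inner_sub_right, hzero, sub_zero]
    rw [h3, inner_sub_left, h2]
    ring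
  rw [hkey, hsplit]
  have hA1 : ‖⟪Dx m s x₁ x₂ f - G, Mr (fun x => p x * z x * (s x)⁻¹) V⟫_ℂ‖ ≤
      (2 * B * (η * ‖u‖)) * (B * B * c⁻¹ * (CV * ‖u‖)) :=
    (norm_inner_le_norm _ _).trans (mul_le_mul hDGn hE1 (norm_nonneg _) (by positivity))
  have hA2 : ‖⟪G, Mr (fun x => p x * z x * ((s x)⁻¹ - q x)) V⟫_ℂ‖ ≤
      (CG * ‖u‖) * (B * B * η * (CV * ‖u‖)) :=
    (norm_inner_le_norm _ _).trans (mul_le_mul hGn hE2 (norm_nonneg _) (by positivity))
  have hA3 : ‖⟪G, Mr (fun x => p x * z x * q x) (V - V')⟫_ℂ‖ ≤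
      (CG * ‖u‖) * (B * B * (c⁻¹ + 1) * (B * (η * ‖u‖))) :=
    (norm_inner_le_norm _ _).trans (mul_le_mul hGn hE3 (norm_nonneg _) (by positivity))
  refine (norm_add_le _ _).trans ?_
  have hA4 := norm_add_le (⟪Dx m s x₁ x₂ f - G, Mr (fun x => p x * z x * (s x)⁻¹) V⟫_ℂ)
    (⟪G, Mr (fun x => p x * z x * ((s x)⁻¹ - q x)) V⟫_ℂ)
  calc _ ≤ (2 * B * (η * ‖u‖)) * (B * B * c⁻¹ * (CV * ‖u‖)) +
        (CG * ‖u‖) * (B * B * η * (CV * ‖u‖)) +
        (CG * ‖u‖) * (B * B * (c⁻¹ + 1) * (B * (η * ‖u‖))) := by linarith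
    _ = _ := by ring

theorem low_cross {L : ℝ} {m : E n → ℂ} (hm : SymC L m) {K : ℝ} {s a x₁ x₂ p z₁ z₂ : E n → ℝ}
    (hs : TPr K s) (ha : TPr K a) (hx₁ : TPr K x₁) (hx₂ : TPr K x₂) (hp : TPr K p)
    (hz₁ : TPr K z₁) (hz₂ : TPr K z₂) {c : ℝ} (hc : 0 < c) (hs0 : ∀ x, c ≤ s x)
    (ha1 : ∀ x, |a x| ≤ 1 / 2) {d : E n} (hd : ‖d‖ = 1) (C : ℝ) (hC : 0 ≤ C) :
    ∃ C' : ℝ, 0 ≤ C' ∧ ∀ η : ℝ, 0 < η → η ≤ 1 → ∀ R : ℝ, 0 < R → ∃ lam₀ : ℝ, ∀ lam ≥ lam₀,
      ∀ u f f' v' : H n, Dec s a d lam R η C u f f' v' →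
        |(⟪Dx m s x₁ x₂ f, Mr (fun x => p x * (1 + a x * cs d lam x))
          (Mr z₁ (u - f) + Complex.I • Mr z₂ (u - f))⟫_ℂ).re| ≤ C' * η * ‖u‖ ^ 2 := by
  obtain ⟨C₁, hC₁, H₁⟩ := lowx_one hm hs ha hx₁ hx₂ hp hz₁ hc hs0 ha1 hd C hC
  obtain ⟨C₂, hC₂, H₂⟩ := lowx_one hm hs ha hx₁ hx₂ hp hz₂ hc hs0 ha1 hd C hC
  refine ⟨C₁ + C₂, by positivity, ?_⟩
  intro η hη hη1 R hR
  obtain ⟨l₁, hl₁⟩ := H₁ η hη hη1 R hR
  obtain ⟨l₂, hl₂⟩ := H₂ η hη hη1 R hR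
  refine ⟨max l₁ l₂, ?_⟩
  intro lam hlam u f f' v' hD
  have h1 := hl₁ lam ((le_max_left _ _).trans hlam) u f f' v' hD
  have h2 := hl₂ lam ((le_max_right _ _).trans hlam) u f f' v' hD
  refine (Complex.abs_re_le_norm _).trans ?_
  rw [map_add, map_smul, inner_add_right, inner_smul_right]
  refine (norm_add_le _ _).trans ?_
  rw [norm_mul, Complex.norm_I, one_mul]
  calc _ ≤ C₁ * η * ‖u‖ ^ 2 + C₂ * η * ‖u‖ ^ 2 := add_le_add h1 h2
    _ = (C₁ + C₂) * η * ‖u‖ ^ 2 := by ring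

end Pool.Agent.helper12.BR
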