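import Pool.Agent.helper12.BR.LowDec
import Pool.Agent.helper12.BR.LowEn
import Pool.Agent.helper12.BR.LowX
import Pool.Agent.helper12.BR.LowQ
import Pool.Agent.helper12.BR.LowId

/-!
# BR-LowP: one wave, functions with low quasi-frequencies

`P₁ x = polyC pk r x (cs d lam x)`, `s₁ = s (1 + a cs)`, `D' = Dx m s₁ x₁' x₂'`, `D f = Dx m s x₁ x₂ f`, `z_i = μ_i s - x_i`, `Z = Mr z₁ (u - f) + i Mr z₂ (u - f)`, `θ = p - av P ≥ 0`.
PROOF.  `Dec` by `low_dec` (`C`), with `η` chosen at the end.  All `≤` are up to `C' η ‖u‖²` (`C'` independent of `η`), for `lam ≥ lam₀(η)`.  `D' u = D f + Z + e`, `‖e‖ ≤ η ‖u‖` (`low_id` with `ε = η`); `Q P₁ (D' u) ≤ Q P₁ (D f + Z)` (`Q_sub_abs`;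
`P₁` is bounded, `‖D f + Z‖ ≤ C ‖u‖` by `Dx_norm`, `Mr_norm_le`).  `Q P₁ (D f + Z) = Q P₁ (D f) + 2 re ⟪D f, Mr P₁ Z⟫ + Q P₁ Z` (`Q_expand`).
`Q P₁ (D f) ≤ Q (av P) (D f)` (`low_Q`).  `2 re ⟪D f, Mr P₁ Z⟫ = 2 re ⟪D f, Mr (P₁ - p (1 + a cs)) Z⟫ + 2 re ⟪D f, Mr (p (1 + a cs)) Z⟫`, the last term is small (`low_cross`), the other one is
`≤ Q θ (D f) + Q (M₂ s₁) (u - f)` (`young`, hypothesis `cross`).  `Q P₁ Z = Q (P₁ (z₁² + z₂²)) (u - f) ≤ M₃ Q s₁ (u - f)` (`Q_cplx`, `diag`, `Q_mono`).  Sum: `Q (av P + θ) (D f) = Q p (D f) ≤ N Q s f` by `Bp`.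
So `Q P₁ (D' u) ≤ N Q s f + (M₂ + M₃) Q s₁ (u - f) ≤ N (Q s f + Q s₁ (u - f)) ≤ N Q s₁ u` by `low_energy`.  Choose `η` with `C' η ≤ ε`.
-/

set_option autoImplicit false

open MeasureTheory FourierTransform
open scoped ENNReal InnerProductSpace ComplexConjugate

namespace Pool.Agent.helper12.BR

open Pool.Agent.helper12.RT
open Pool.Agent.helper12.AI (beurlingSymbol)

variable {n : ℕ}

private theorem LowP_poly_abs {pk : ℕ → E n → ℝ} {Bk : ℕ → ℝ} (hB : ∀ k x, |pk k x| ≤ Bk k)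
    (r : ℕ) (x : E n) {c : ℝ} (hc : |c| ≤ 1) :
    |polyC pk r x c| ≤ ∑ k ∈ Finset.range r, Bk k := by
  unfold polyC
  refine (Finset.abs_sum_le_sum_abs _ _).trans (Finset.sum_le_sum fun k _ => ?_)
  rw [abs_mul, abs_pow]
  have h1 : |c| ^ k ≤ 1 := pow_le_one₀ (abs_nonneg c) hc
  have h2 := abs_nonneg (pk k x)
  calc |pk k x| * |c| ^ k ≤ |pk k x| * 1 := mul_le_mul_of_nonneg_left h1 h2
    _ ≤ Bk k := by rw [mul_one]; exact hB k x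

theorem low_p {L : ℝ} (hL : 0 ≤ L) {m : E n → ℂ} (hm : SymC L m) {K : ℝ}
    {s a x₁ x₂ p : E n → ℝ} {pk : ℕ → E n → ℝ} (r : ℕ) (hK : 0 ≤ K) (hs : TPr K s) (ha : TPr K a)
    (hx₁ : TPr K x₁) (hx₂ : TPr K x₂) (hp : TPr K p) (hpk : ∀ k, TPr K (pk k)) {c : ℝ}
    (hc : 0 < c) (hs0 : ∀ x, c ≤ s x) (ha1 : ∀ x, |a x| ≤ 1 / 2) {d : E n} (hd : ‖d‖ = 1)
    {C₀ C₁ C₂ M₂ M₃ N : ℝ} (hM₂ : 0 ≤ M₂) (hM₃ : 0 ≤ M₃) (hN : M₂ + M₃ ≤ N)
    (hwc : ∀ x, WC C₀ C₁ C₂ M₂ M₃ (m d).re (m d).im (s x) (a x) (x₁ x) (x₂ x) (p x)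
      (polyC pk r x)) (hB : Bp m s x₁ x₂ p N) :
    ∀ ε > 0, ∀ ρ > 0, ∃ lam₀ : ℝ, ∀ lam ≥ lam₀, ∀ u : H n, Supp (Zn d lam ρ) u →
      Q (fun x => polyC pk r x (cs d lam x))
        (Dx m (fun x => s x * (1 + a x * cs d lam x))
          (fun x => x₁ x + (m d).re * (s x * (a x * cs d lam x)))
          (fun x => x₂ x + (m d).im * (s x * (a x * cs d lam x))) u) ≤
        N * Q (fun x => s x * (1 + a x * cs d lam x)) u + ε * ‖u‖ ^ 2 := by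
  classical
  intro ε hε ρ hρ
  have hN0 : 0 ≤ N := (add_nonneg hM₂ hM₃).trans hN
  obtain ⟨-, Cs, hCs⟩ := hs.bmr
  obtain ⟨-, C1, hC1⟩ := hx₁.bmr
  obtain ⟨-, C2, hC2⟩ := hx₂.bmr
  have hBk : ∀ k, ∃ B : ℝ, ∀ x, |pk k x| ≤ B := fun k => (hpk k).bmr.2
  choose Bk hBk using hBk
  set B : ℝ := ∑ k ∈ Finset.range r, Bk k with hBdef
  have hB0 : 0 ≤ B := Finset.sum_nonneg fun k _ => (abs_nonneg _).trans (hBk k 0)
  set Cb : ℝ := max Cs (max C1 C2) with hCbdef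
  have hb : ∀ x, |s x| ≤ Cb ∧ |x₁ x| ≤ Cb ∧ |x₂ x| ≤ Cb := fun x =>
    ⟨(hCs x).trans (le_max_left _ _),
      (hC1 x).trans ((le_max_left _ _).trans (le_max_right _ _)),
      (hC2 x).trans ((le_max_right _ _).trans (le_max_right _ _))⟩
  have hCb0 : 0 ≤ Cb := (abs_nonneg _).trans (hb 0).1
  have hz₁ : TPr K fun x => (m d).re * s x - x₁ x := by
    have h1 := (TPr.const (n := n) (le_refl (0 : ℝ)) (m d).re).mul hs
    rw [zero_add] at h1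
    exact h1.sub hx₁
  have hz₂ : TPr K fun x => (m d).im * s x - x₂ x := by
    have h1 := (TPr.const (n := n) (le_refl (0 : ℝ)) (m d).im).mul hs
    rw [zero_add] at h1
    exact h1.sub hx₂
  have hz₁b : ∀ x, |(m d).re * s x - x₁ x| ≤ 2 * Cb := by
    intro x
    have h1 := abs_sub ((m d).re * s x) (x₁ x)
    rw [abs_mul] at h1
    have h2 := hm.re.bdd d
    have h3 : |(m d).re| * |s x| ≤ 1 * Cb := mul_le_mul h2 (hb x).1 (abs_nonneg _) zero_le_one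
    have h4 := (hb x).2.1
    linarith
  have hz₂b : ∀ x, |(m d).im * s x - x₂ x| ≤ 2 * Cb := by
    intro x
    have h1 := abs_sub ((m d).im * s x) (x₂ x)
    rw [abs_mul] at h1
    have h2 := hm.im.bdd d
    have h3 : |(m d).im| * |s x| ≤ 1 * Cb := mul_le_mul h2 (hb x).1 (abs_nonneg _) zero_le_one
    have h4 := (hb x).2.2
    linarith
  obtain ⟨C, hC, hdec⟩ := low_dec hs ha hc hs0 ha1 hd
  obtain ⟨CQ, hCQ, hQ⟩ := low_Q (a := a) hm r hs hx₁ hx₂ hpk hd C hC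
  obtain ⟨CX, hCX, hX⟩ := low_cross hm hs ha hx₁ hx₂ hp hz₁ hz₂ hc hs0 ha1 hd C hC
  obtain ⟨CE, hCE, hE⟩ := low_energy hs ha ha1 hd C hC
  have hid := low_id hL hm hs ha hx₁ hx₂ hd C hC
  set C4 : ℝ := 4 * Cb * C + 4 * Cb * (1 + C) with hC4def
  have hC4 : 0 ≤ C4 := by positivity
  set Ct : ℝ := B * (2 * C4 + 1) + CQ + 2 * CX + N * CE with hCtdef
  have hCt : 0 ≤ Ct := by positivity
  set η : ℝ := min 1 (ε / (Ct + 1)) with hηdef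
  have hη : 0 < η := lt_min one_pos (by positivity)
  have hη1 : η ≤ 1 := min_le_left _ _
  have hηε : Ct * η ≤ ε := by
    have h1 : η ≤ ε / (Ct + 1) := min_le_right _ _
    rw [le_div_iff₀ (by positivity)] at h1
    have h2 : Ct * η ≤ η * (Ct + 1) := by nlinarith
    exact h2.trans h1
  obtain ⟨R, hR, lam1, hlam1⟩ := hdec ρ hρ η hη
  obtain ⟨lam2, hlam2⟩ := hQ η hη hη1 R hR
  obtain ⟨lam3, hlam3⟩ := hX η hη hη1 R hR
  obtain ⟨lam4, hlam4⟩ := hE η hη hη1 R hR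
  obtain ⟨lam5, hlam5⟩ := hid η hη R hR
  refine ⟨max lam1 (max lam2 (max lam3 (max lam4 lam5))), ?_⟩
  intro lam hlam u hu
  have hl1 : lam ≥ lam1 := (le_max_left _ _).trans hlam
  have hl' : lam ≥ max lam2 (max lam3 (max lam4 lam5)) := (le_max_right _ _).trans hlam
  have hl2 : lam ≥ lam2 := (le_max_left _ _).trans hl'
  have hl'' : lam ≥ max lam3 (max lam4 lam5) := (le_max_right _ _).trans hl'
  have hl3 : lam ≥ lam3 := (le_max_left _ _).trans hl''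
  have hl''' : lam ≥ max lam4 lam5 := (le_max_right _ _).trans hl''
  have hl4 : lam ≥ lam4 := (le_max_left _ _).trans hl'''
  have hl5 : lam ≥ lam5 := (le_max_right _ _).trans hl'''
  obtain ⟨f, f', v', hD⟩ := hlam1 lam hl1 u hu
  have hQf := hlam2 lam hl2 u f f' v' hD
  have hXf := hlam3 lam hl3 u f f' v' hD
  have hEf := hlam4 lam hl4 u f f' v' hD
  have hIf := hlam5 lam hl5 η u f f' v' hD
  -- notation
  have hU : 0 ≤ ‖u‖ := norm_nonneg u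
  have hcs : ∀ x, cs d lam x ∈ Set.Icc (-1 : ℝ) 1 := fun x => abs_le.1 (cs_abs d lam x)
  set Df : H n := Dx m s x₁ x₂ f with hDf
  set z₁ : E n → ℝ := fun x => (m d).re * s x - x₁ x with hz₁def
  set z₂ : E n → ℝ := fun x => (m d).im * s x - x₂ x with hz₂def
  set Z : H n := Mr z₁ (u - f) + Complex.I • Mr z₂ (u - f) with hZ
  set s₁ : E n → ℝ := fun x => s x * (1 + a x * cs d lam x) with hs₁
  set P₁ : E n → ℝ := fun x => polyC pk r x (cs d lam x) with hP₁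
  set g : E n → ℝ := fun x => p x * (1 + a x * cs d lam x) with hg
  set θ : E n → ℝ := fun x => p x - RT.av (polyC pk r x) with hθ
  set D' : H n := Dx m s₁ (fun x => x₁ x + (m d).re * (s x * (a x * cs d lam x)))
    (fun x => x₂ x + (m d).im * (s x * (a x * cs d lam x))) u with hD'
  have hcsb : BMr (cs d lam) := (cs_tpr hd lam).bmr
  have h1ab : BMr fun x => 1 + a x * cs d lam x := (BMr.const 1).add (ha.bmr.mul hcsb)
  have hs₁b : BMr s₁ := hs.bmr.mul h1ab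
  have hP₁b : BMr P₁ := by
    obtain ⟨K', h1⟩ := polyC_tpr hpk r hd lam
    exact h1.bmr
  have hgb : BMr g := hp.bmr.mul h1ab
  have havb : BMr fun x => RT.av (polyC pk r x) := (av_polyC_tpr hpk hK r).bmr
  have hθb : BMr θ := hp.bmr.sub havb
  have hs₁0 : ∀ x, 0 ≤ s₁ x := by
    intro x
    have h1 : 0 ≤ s x := hc.le.trans (hs0 x)
    have h2 : |a x * cs d lam x| ≤ 1 / 2 := by
      rw [abs_mul]
      have h3 := mul_le_mul (ha1 x) (cs_abs d lam x) (abs_nonneg _) (by norm_num)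
      rwa [mul_one] at h3
    have h3 := (abs_le.1 h2).1
    exact mul_nonneg h1 (by linarith)
  have hZn : ‖Z‖ ≤ 4 * Cb * ((1 + C) * ‖u‖) := by
    have h0 : ‖u - f‖ ≤ (1 + C) * ‖u‖ := by
      have h1 := norm_sub_le u f
      have h2 := hD.nf
      linarith
    have h1 : ‖Mr z₁ (u - f)‖ ≤ 2 * Cb * ‖u - f‖ := Mr_norm_le hz₁.bmr hz₁b _
    have h2 : ‖Complex.I • Mr z₂ (u - f)‖ ≤ 2 * Cb * ‖u - f‖ := by
      rw [norm_smul, Complex.norm_I, one_mul]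
      exact Mr_norm_le hz₂.bmr hz₂b _
    have h3 := norm_add_le (Mr z₁ (u - f)) (Complex.I • Mr z₂ (u - f))
    have h4 := mul_le_mul_of_nonneg_left h0 (by positivity : 0 ≤ 4 * Cb)
    calc ‖Z‖ ≤ ‖Mr z₁ (u - f)‖ + ‖Complex.I • Mr z₂ (u - f)‖ := h3
      _ ≤ 4 * Cb * ‖u - f‖ := by linarith
      _ ≤ _ := h4
  have hDn : ‖Df‖ ≤ 4 * Cb * (C * ‖u‖) := by
    refine (Dx_norm hm hs.bmr hx₁.bmr hx₂.bmr hb f).trans ?_
    exact mul_le_mul_of_nonneg_left hD.nf (by positivity : 0 ≤ 4 * Cb)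
  have hsum : ‖Df + Z‖ ≤ C4 * ‖u‖ := by
    have h1 := norm_add_le Df Z
    calc ‖Df + Z‖ ≤ ‖Df‖ + ‖Z‖ := h1
      _ ≤ 4 * Cb * (C * ‖u‖) + 4 * Cb * ((1 + C) * ‖u‖) := add_le_add hDn hZn
      _ = C4 * ‖u‖ := by rw [hC4def]; ring
  have hD'n : ‖D'‖ ≤ (C4 + 1) * ‖u‖ := by
    have h1 : D' = (D' - (Df + Z)) + (Df + Z) := by abel
    have h2 : ‖D'‖ ≤ ‖D' - (Df + Z)‖ + ‖Df + Z‖ := by
      conv_lhs => rw [h1]
      exact norm_add_le _ _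
    have h3 : η * ‖u‖ ≤ 1 * ‖u‖ := mul_le_mul_of_nonneg_right hη1 hU
    linarith
  have hstep1 : Q P₁ D' ≤ Q P₁ (Df + Z) + B * (2 * C4 + 1) * η * ‖u‖ ^ 2 := by
    have h1 := Q_sub_abs hP₁b (C := B) (fun x => LowP_poly_abs hBk r x (cs_abs d lam x)) D' (Df + Z)
    have h2 : ‖D' - (Df + Z)‖ * (‖D'‖ + ‖Df + Z‖) ≤ (η * ‖u‖) * ((2 * C4 + 1) * ‖u‖) :=
      mul_le_mul hIf (by linarith) (add_nonneg (norm_nonneg _) (norm_nonneg _)) (by positivity)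
    have h3 := mul_le_mul_of_nonneg_left h2 hB0
    have h4 := (abs_le.1 h1).2
    have h5 : B * ‖D' - (Df + Z)‖ * (‖D'‖ + ‖Df + Z‖) =
        B * (‖D' - (Df + Z)‖ * (‖D'‖ + ‖Df + Z‖)) := by ring
    have h6 : B * ((η * ‖u‖) * ((2 * C4 + 1) * ‖u‖)) = B * (2 * C4 + 1) * η * ‖u‖ ^ 2 := by ring
    linarith
  have hstep2 : Q P₁ (Df + Z) = Q P₁ Df + 2 * (⟪Df, Mr P₁ Z⟫_ℂ).re + Q P₁ Z :=
    Q_expand hP₁b Df Z
  have hsplit : Mr P₁ Z = Mr (fun x => P₁ x - g x) Z + Mr g Z := by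
    rw [← Mr_add (hP₁b.sub hgb) hgb]
    congr 2
    funext x
    ring
  have hcrossI : (⟪Df, Mr P₁ Z⟫_ℂ).re =
      (⟪Df, Mr (fun x => P₁ x - g x) Z⟫_ℂ).re + (⟪Df, Mr g Z⟫_ℂ).re := by
    rw [hsplit, inner_add_right, Complex.add_re]
  have hyoung : 2 * (⟪Df, Mr (fun x => P₁ x - g x) Z⟫_ℂ).re ≤
      Q θ Df + Q (fun x => M₂ * s₁ x) (u - f) := by
    refine young (hP₁b.sub hgb) hθb ((BMr.const M₂).mul hs₁b) hz₁.bmr hz₂.bmr ?_ ?_ ?_ Df (u - f)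
    · intro x
      exact sub_nonneg.2 (hwc x).av
    · intro x
      exact mul_nonneg hM₂ (hs₁0 x)
    · intro x
      have h1 := (hwc x).cross (cs d lam x) (hcs x)
      calc (P₁ x - g x) ^ 2 * (z₁ x ^ 2 + z₂ x ^ 2) ≤
          M₂ * (p x - RT.av (polyC pk r x)) * (s x * (1 + a x * cs d lam x)) := h1
        _ = θ x * (M₂ * s₁ x) := by simp only [hθ, hs₁]; ring
  have hdiag : Q P₁ Z ≤ Q (fun x => M₃ * s₁ x) (u - f) := by
    rw [hZ, Q_cplx hP₁b hz₁.bmr hz₂.bmr]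
    refine Q_mono ?_ ((BMr.const M₃).mul hs₁b) ?_ _
    · refine hP₁b.mul ?_
      simp only [pow_two]
      exact (hz₁.bmr.mul hz₁.bmr).add (hz₂.bmr.mul hz₂.bmr)
    · intro x
      exact (hwc x).diag (cs d lam x) (hcs x)
  have hav : Q (fun x => RT.av (polyC pk r x)) Df + Q θ Df = Q p Df := by
    rw [← Q_add_fun havb hθb]
    congr 1
    funext x
    simp only [hθ]
    ring
  have hBf : Q p Df ≤ N * Q s f := hB f
  have h2 : Q (fun x => M₂ * s₁ x) (u - f) = M₂ * Q s₁ (u - f) := Q_smul_fun _ _ _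
  have h3 : Q (fun x => M₃ * s₁ x) (u - f) = M₃ * Q s₁ (u - f) := Q_smul_fun _ _ _
  have h4 : 0 ≤ Q s₁ (u - f) := Q_nonneg hs₁0 _
  have h5 : (M₂ + M₃) * Q s₁ (u - f) ≤ N * Q s₁ (u - f) := mul_le_mul_of_nonneg_right hN h4
  have h6 := (abs_le.1 hXf).2
  have h7 := mul_le_mul_of_nonneg_left hEf hN0
  have h8 : Ct * η * ‖u‖ ^ 2 ≤ ε * ‖u‖ ^ 2 := mul_le_mul_of_nonneg_right hηε (by positivity)
  have h9 : Ct * η * ‖u‖ ^ 2 = B * (2 * C4 + 1) * η * ‖u‖ ^ 2 + CQ * η * ‖u‖ ^ 2 +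
      2 * (CX * η * ‖u‖ ^ 2) + N * (CE * η * ‖u‖ ^ 2) := by
    rw [hCtdef]
    ring
  have h10 : N * (Q s f + Q s₁ (u - f)) = N * Q s f + N * Q s₁ (u - f) := by ring
  have h11 : N * (Q s₁ u + CE * η * ‖u‖ ^ 2) = N * Q s₁ u + N * (CE * η * ‖u‖ ^ 2) := by ring
  have h12 : (M₂ + M₃) * Q s₁ (u - f) = M₂ * Q s₁ (u - f) + M₃ * Q s₁ (u - f) := by ring
  rw [h10, h11] at h7
  linarith

end Pool.Agent.helper12.BR
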