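import Pool.Agent.helper12.BR.APb

/-!
# BR-Osc: functions with low frequencies see only the average in the fast variable (proofs: helper41)

PROOF.  `cos θ ^ k = 2^(-k) ∑_j (k choose j) exp (i (2 j - k) θ)` (binomial theorem), and `av (c^k)` is the coefficient with `2 j = k` (integrate; `av` is `∫_0^1 f (cos 2 π θ) dθ`).  So
`cs^k = av (c^k) + ∑_(j : 2 j ≠ k) b_j e (((2 j - k) lam) • d)`.  For `l ≠ 0` an integer, `p e ((l lam) • d) g` has frequencies of norm at least `|l| lam - R - K > R` (`Supp.e`, `Supp.TPr`), so the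
inner product with `f` vanishes (`inner_eq_zero_of_supp`).  Sum over `k < r` with `av_polyC`.
-/

set_option autoImplicit false

open MeasureTheory FourierTransform
open scoped ENNReal InnerProductSpace ComplexConjugate

namespace Pool.Agent.helper12.BR

open Pool.Agent.helper12.RT
open Pool.Agent.helper12.AI (beurlingSymbol)

variable {n : ℕ}

private noncomputable def Osc_b (k m : ℕ) : ℂ := (1 / 2) ^ k * (k.choose m : ℂ)

private theorem Osc_e_pow (ν x : E n) (m : ℕ) : e ν x ^ m = e ((m : ℝ) • ν) x := by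
  induction m with
  | zero => rw [pow_zero, Nat.cast_zero, zero_smul, e_zero]
  | succ m ih =>
    rw [pow_succ, ih, e_mul]
    congr 1
    rw [Nat.cast_succ, add_smul, one_smul]

private theorem Osc_pow (d : E n) (lam : ℝ) (k : ℕ) (x : E n) :
    ((cs d lam x : ℝ) : ℂ) ^ k = ∑ m ∈ Finset.range (k + 1),
      Osc_b k m * e ((((2 * (m : ℤ) - k : ℤ) : ℝ) * lam) • d) x := by
  rw [cs_eq, add_pow]
  apply Finset.sum_congr rfl
  intro m hm
  have hmk : m ≤ k := by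
    have := Finset.mem_range.1 hm
    omega
  rw [mul_pow, mul_pow, Osc_e_pow, Osc_e_pow]
  have h1 : e ((m : ℝ) • lam • d) x * e (((k - m : ℕ) : ℝ) • -(lam • d)) x =
      e ((((2 * (m : ℤ) - k : ℤ) : ℝ) * lam) • d) x := by
    rw [e_mul]
    congr 1
    rw [Nat.cast_sub hmk]
    push_cast
    module
  have h2 : (1 / 2 : ℂ) ^ m * (1 / 2) ^ (k - m) = (1 / 2) ^ k := by
    rw [← pow_add]
    congr 1
    omega
  rw [← h1]
  unfold Osc_b
  rw [← h2]
  ring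

private theorem Osc_cos (k : ℕ) (θ : ℝ) :
    ((Real.cos (2 * Real.pi * θ) ^ k : ℝ) : ℂ) = ∑ m ∈ Finset.range (k + 1),
      Osc_b k m * Complex.exp ((((2 * (m : ℤ) - k : ℤ) : ℂ) * (2 * Real.pi * Complex.I)) * θ) := by
  have h0 : ((Real.cos (2 * Real.pi * θ) : ℝ) : ℂ) =
      (1 / 2) * Complex.exp (2 * Real.pi * Complex.I * θ) +
      (1 / 2) * Complex.exp (-(2 * Real.pi * Complex.I * θ)) := by
    rw [Complex.ofReal_cos, Complex.cos]
    push_cast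
    have e1 : 2 * (Real.pi : ℂ) * (θ : ℂ) * Complex.I = 2 * Real.pi * Complex.I * θ := by ring
    have e2 : -(2 * (Real.pi : ℂ) * (θ : ℂ)) * Complex.I = -(2 * Real.pi * Complex.I * θ) := by ring
    rw [e1, e2]
    ring
  rw [Complex.ofReal_pow, h0, add_pow]
  apply Finset.sum_congr rfl
  intro m hm
  have hmk : m ≤ k := by
    have := Finset.mem_range.1 hm
    omega
  rw [mul_pow, mul_pow, ← Complex.exp_nat_mul, ← Complex.exp_nat_mul]
  have h1 : Complex.exp ((m : ℂ) * (2 * Real.pi * Complex.I * θ)) *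
      Complex.exp (((k - m : ℕ) : ℂ) * -(2 * Real.pi * Complex.I * θ)) =
      Complex.exp ((((2 * (m : ℤ) - k : ℤ) : ℂ) * (2 * Real.pi * Complex.I)) * θ) := by
    rw [← Complex.exp_add]
    congr 1
    rw [Nat.cast_sub hmk]
    push_cast
    ring
  have h2 : (1 / 2 : ℂ) ^ m * (1 / 2) ^ (k - m) = (1 / 2) ^ k := by
    rw [← pow_add]
    congr 1
    omega
  rw [← h1]
  unfold Osc_b
  rw [← h2]
  ring

private theorem Osc_int (l : ℤ) :
    ∫ θ in (0 : ℝ)..1, Complex.exp (((l : ℂ) * (2 * Real.pi * Complex.I)) * θ) =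
      if l = 0 then 1 else 0 := by
  split_ifs with h
  · rw [h]
    simp
  · have h2 : ((l : ℂ) * (2 * Real.pi * Complex.I)) ≠ 0 :=
      mul_ne_zero (Int.cast_ne_zero.mpr h) Complex.two_pi_I_ne_zero
    rw [integral_exp_mul_complex h2]
    rw [Complex.ofReal_one, mul_one, Complex.ofReal_zero, mul_zero, Complex.exp_zero,
      Complex.exp_int_mul_two_pi_mul_I, sub_self, zero_div]

private theorem Osc_av (k : ℕ) :
    ((av fun c => c ^ k : ℝ) : ℂ) =
      ∑ m ∈ Finset.range (k + 1), if 2 * m = k then Osc_b k m else 0 := by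
  unfold av
  rw [← intervalIntegral.integral_ofReal]
  have h1 : (fun θ : ℝ => ((Real.cos (2 * Real.pi * θ) ^ k : ℝ) : ℂ)) = fun θ : ℝ =>
      ∑ m ∈ Finset.range (k + 1),
      Osc_b k m * Complex.exp ((((2 * (m : ℤ) - k : ℤ) : ℂ) * (2 * Real.pi * Complex.I)) * θ) :=
    funext (Osc_cos k)
  rw [h1, intervalIntegral.integral_finsetSum]
  · apply Finset.sum_congr rfl
    intro m _
    rw [intervalIntegral.integral_const_mul, Osc_int]
    by_cases h : 2 * m = k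
    · have h3 : (2 * (m : ℤ) - k : ℤ) = 0 := by omega
      rw [if_pos h, if_pos h3, mul_one]
    · have h3 : ¬ (2 * (m : ℤ) - k : ℤ) = 0 := by omega
      rw [if_neg h, if_neg h3, mul_zero]
  · intro m _
    apply Continuous.intervalIntegrable
    fun_prop

private theorem Osc_one {K : ℝ} {p : E n → ℝ} (hp : TPr K p) {d : E n}
    (hd : ‖d‖ = 1) {R lam : ℝ} (hR : 0 ≤ R) (hK : 0 ≤ K) (hlam : 2 * R + K < lam) {f g : H n}
    (hf : Supp {ξ | ‖ξ‖ ≤ R} f) (hg : Supp {ξ | ‖ξ‖ ≤ R} g) (c : ℂ) {l : ℤ} (hl : l ≠ 0) :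
    ⟪f, M (fun x => (p x : ℂ) * (c * e (((l : ℝ) * lam) • d) x)) g⟫_ℂ = 0 := by
  have hdis : Disjoint {ξ : E n | ‖ξ‖ ≤ R} {ξ : E n | R < ‖ξ‖} := by
    rw [Set.disjoint_left]
    intro ξ h1 h2
    have h1' : ‖ξ‖ ≤ R := h1
    have h2' : R < ‖ξ‖ := h2
    linarith
  refine inner_eq_zero_of_supp hdis hf ?_
  refine SuppB_one hg hp c _ ?_
  intro ζ hζ ξ hξ
  have hζ' : ‖ζ‖ ≤ R := hζ
  change R < ‖ξ‖
  have hlam0 : 0 < lam := by linarith
  have h1 : (1 : ℝ) ≤ |(l : ℝ)| := by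
    rw [← Int.cast_abs]
    exact_mod_cast Int.one_le_abs hl
  have h2 : ‖((l : ℝ) * lam) • d‖ = |(l : ℝ)| * lam := by
    rw [norm_smul, hd, mul_one, Real.norm_eq_abs, abs_mul, abs_of_pos hlam0]
  have h3 : lam ≤ ‖((l : ℝ) * lam) • d‖ := by
    rw [h2]
    nlinarith
  have h4 : ((l : ℝ) * lam) • d = ξ - ζ - (ξ - (ζ + ((l : ℝ) * lam) • d)) := by
    abel
  have h5 : ‖((l : ℝ) * lam) • d‖ ≤ ‖ξ‖ + ‖ζ‖ + ‖ξ - (ζ + ((l : ℝ) * lam) • d)‖ := by
    calc ‖((l : ℝ) * lam) • d‖ = ‖ξ - ζ - (ξ - (ζ + ((l : ℝ) * lam) • d))‖ := congrArg _ h4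
      _ ≤ ‖ξ - ζ‖ + ‖ξ - (ζ + ((l : ℝ) * lam) • d)‖ := norm_sub_le _ _
      _ ≤ ‖ξ‖ + ‖ζ‖ + ‖ξ - (ζ + ((l : ℝ) * lam) • d)‖ := by
        gcongr
        exact norm_sub_le _ _
  linarith

private theorem Osc_term {K : ℝ} {p : E n → ℝ} (hp : TPr K p) {d : E n}
    (hd : ‖d‖ = 1) {R lam : ℝ} (hR : 0 ≤ R) (hK : 0 ≤ K) (hlam : 2 * R + K < lam) {f g : H n}
    (hf : Supp {ξ | ‖ξ‖ ≤ R} f) (hg : Supp {ξ | ‖ξ‖ ≤ R} g) (k : ℕ) :
    ⟪f, M (fun x => ((p x * RT.cs d lam x ^ k : ℝ) : ℂ)) g⟫_ℂ =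
      ((av fun c => c ^ k : ℝ) : ℂ) * ⟪f, M (fun x => (p x : ℂ)) g⟫_ℂ := by
  have e1 : (fun x => ((p x * RT.cs d lam x ^ k : ℝ) : ℂ)) = fun x =>
      ∑ m ∈ Finset.range (k + 1),
        (p x : ℂ) * (Osc_b k m * e ((((2 * (m : ℤ) - k : ℤ) : ℝ) * lam) • d) x) := by
    funext x
    rw [Complex.ofReal_mul, Complex.ofReal_pow, Osc_pow, Finset.mul_sum]
  rw [e1, M_sum _ (fun m _ => hp.bmr.bm.mul ((BM.const _).mul (e_bm _))), inner_sum, Osc_av,
    Finset.sum_mul]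
  apply Finset.sum_congr rfl
  intro m _
  by_cases h : 2 * m = k
  · have h3 : (2 * (m : ℤ) - k : ℤ) = 0 := by omega
    rw [if_pos h, h3]
    have e2 : (fun x => (p x : ℂ) * (Osc_b k m * e ((((0 : ℤ) : ℝ) * lam) • d) x)) = fun x =>
        Osc_b k m * (p x : ℂ) := by
      funext x
      rw [Int.cast_zero, zero_mul, zero_smul, e_zero]
      ring
    rw [e2, M_mul (BM.const _) hp.bmr.bm, M_const, inner_smul_right]
  · have h3 : (2 * (m : ℤ) - k : ℤ) ≠ 0 := by omega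
    rw [if_neg h, zero_mul]
    exact Osc_one hp hd hR hK hlam hf hg _ h3

theorem osc_poly {K : ℝ} {pk : ℕ → E n → ℝ} (h : ∀ k, TPr K (pk k)) (hK : 0 ≤ K) (r : ℕ) {d : E n}
    (hd : ‖d‖ = 1) {R lam : ℝ} (hR : 0 ≤ R) (hlam : 2 * R + K < lam) {f g : H n}
    (hf : Supp {ξ | ‖ξ‖ ≤ R} f) (hg : Supp {ξ | ‖ξ‖ ≤ R} g) :
    ⟪f, Mr (fun x => polyC pk r x (cs d lam x)) g⟫_ℂ = ⟪f, Mr (fun x => av (polyC pk r x)) g⟫_ℂ := by
  have hb : ∀ k, BM fun x => ((pk k x * RT.cs d lam x ^ k : ℝ) : ℂ) := by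
    intro k
    have h1 : BMr fun x => RT.cs d lam x ^ k := by
      refine ⟨(cs_tpr hd lam).bmr.1.pow_const k, 1, fun x => ?_⟩
      rw [abs_pow]
      exact pow_le_one₀ (abs_nonneg _) (cs_abs d lam x)
    exact ((h k).bmr.mul h1).bm
  have e1 : (fun x => ((polyC pk r x (RT.cs d lam x) : ℝ) : ℂ)) = fun x =>
      ∑ k ∈ Finset.range r, ((pk k x * RT.cs d lam x ^ k : ℝ) : ℂ) := by
    funext x
    unfold polyC
    rw [Complex.ofReal_sum]
  have e2 : (fun x => ((av (polyC pk r x) : ℝ) : ℂ)) = fun x =>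
      ∑ k ∈ Finset.range r, ((av (fun c => c ^ k) : ℝ) : ℂ) * (pk k x : ℂ) := by
    funext x
    rw [av_polyC, Complex.ofReal_sum]
    apply Finset.sum_congr rfl
    intro k _
    rw [Complex.ofReal_mul, mul_comm]
  unfold Mr
  rw [e1, e2, M_sum _ (fun k _ => hb k),
    M_sum _ (fun k _ => (BM.const _).mul (h k).bmr.bm), inner_sum, inner_sum]
  apply Finset.sum_congr rfl
  intro k _
  rw [Osc_term (h k) hd hR hK hlam hf hg k, M_mul (BM.const _) (h k).bmr.bm, M_const,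
    inner_smul_right]

end Pool.Agent.helper12.BR
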