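import Pool.Agent.helper12.AI.Spec

/-!
# Stability of two-weight norms: the definitions of the final statement
-/

set_option autoImplicit false

open MeasureTheory

namespace Pool.Agent.helper12.BR

open Pool.Agent.helper12.RT Pool.Agent.helper12.AI

variable {n : ℕ}

/-- the class of `A_∞` measures, with size at most `C` -/
def Ainf (σ : Measure (E n)) (C : ℝ) : Prop := ∃ s : E n → ℝ, AinfLe s C ∧ σ = dens s

/-- the class of (positive, locally finite) doubling measures, with size at most `C` -/
structure Doub (σ : Measure (E n)) (C : ℝ) : Prop where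
  locFin : IsLocallyFiniteMeasure σ
  ne : σ ≠ 0
  le : DoublingLe σ C

/-- the smooth ones among them: `σ = s dx`, where `s` is smooth, bounded, and bounded below by a positive constant -/
def DoubSmooth (σ : Measure (E n)) (C : ℝ) : Prop := ∃ s : E n → ℝ, Weight s ∧ DoublingLe σ C ∧ σ = dens s

/-- rotations -/
def Rotn (Φ : E n → E n) : Prop :=
  ∃ A : Matrix (Fin n) (Fin n) ℝ, A * A.transpose = 1 ∧ A.det = 1 ∧ Φ = lin A

/-- `N_T` (for the Fourier multiplier `T` with symbol `m`) is stable on the class `S` of measures under the maps `Φ`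
with `X Φ L` (`L` is a bound for the size of `Φ`): bounds for the size of `σ`, `ω`, `Φ` and for `N_T(σ, ω)` give a bound for
`N_T(Φ_* σ, Φ_* ω)` -/
def Stable (m : E n → ℂ) (S : Measure (E n) → ℝ → Prop) (X : (E n → E n) → ℝ → Prop) : Prop :=
  ∀ C L N : ℝ, ∃ N' : ℝ, ∀ σ ω : Measure (E n), S σ C → S ω C → ∀ Φ : E n → E n, X Φ L →
    NormAtMost m σ ω N → NormAtMost m (σ.map Φ) (ω.map Φ) N'

end Pool.Agent.helper12.BR
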