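import Pool.Agent.helper12.BR.Defs

/-!
# BR-Tube: perturbation of the exact segment

PROOF.  The set `U = {(v, z) | Good Q (seg k a b v z)}` is open (`seg` is continuous (polynomial) in `(v, z)`, the conditions are strict inequalities between continuous functions; `√` is continuous) and contains `{L} × [-ζ, ζ]`; tube lemma (`generalized_tube_lemma`, `isCompact_Icc`) gives
an open neighbourhood of `L`.  Same for `Cross`.  Take a common `η`; `∑ i, |v i - L i| < η` implies `dist v L < η` (`dist_pi_lt_iff`).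
-/

set_option autoImplicit false

open MeasureTheory FourierTransform
open scoped ENNReal InnerProductSpace ComplexConjugate

namespace Pool.Agent.helper12.BR

open Pool.Agent.helper12.RT
open Pool.Agent.helper12.AI (beurlingSymbol)

variable {n : ℕ}

private theorem Tube_seg (k : Fin 4) (a b : ℝ) :
    Continuous fun p : W × ℝ => seg k a b p.1 p.2 := by
  refine continuous_pi fun i => ?_
  fin_cases i
  · show Continuous fun p : W × ℝ => p.1 0 * (1 + a * p.2)
    fun_prop
  · show Continuous fun p : W × ℝ => p.1 1 * (1 + b * p.2)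
    fun_prop
  · show Continuous fun p : W × ℝ => p.1 2 + mu₁ k * (p.1 0 * (a * p.2))
    fun_prop
  · show Continuous fun p : W × ℝ => p.1 3 + mu₂ k * (p.1 0 * (a * p.2))
    fun_prop
  · show Continuous fun p : W × ℝ => p.1 4 + ye k * (p.1 0 * (a * p.2))
    fun_prop

private theorem Tube_good (Q : ℝ) : IsOpen {v : W | Good Q v} := by
  have h : {v : W | Good Q v} = {v : W | 0 < v 0} ∩ {v : W | 0 < v 1} ∩ {v : W | v 1 < 4} ∩
      {v : W | pot Q (v 0) (v 1) * v 0 < 5} ∩
      {v : W | pot Q (v 0) (v 1) * (v 2 ^ 2 + v 3 ^ 2) < 5 * v 0} := by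
    ext v
    simp only [Set.mem_ofPred_eq, Set.mem_inter_iff]
    exact ⟨fun h => ⟨⟨⟨⟨h.s_pos, h.w_pos⟩, h.w_lt⟩, h.ps⟩, h.px⟩,
      fun h => ⟨h.1.1.1.1, h.1.1.1.2, h.1.1.2, h.1.2, h.2⟩⟩
  rw [h]
  unfold pot
  refine IsOpen.inter (IsOpen.inter (IsOpen.inter (IsOpen.inter ?_ ?_) ?_) ?_) ?_
  · exact isOpen_lt (by fun_prop) (by fun_prop)
  · exact isOpen_lt (by fun_prop) (by fun_prop)
  · exact isOpen_lt (by fun_prop) (by fun_prop)
  · exact isOpen_lt (by fun_prop) (by fun_prop)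
  · exact isOpen_lt (by fun_prop) (by fun_prop)

private theorem Tube_cross (Q : ℝ) (k : Fin 4) : IsOpen {v : W | Cross Q k v} := by
  unfold Cross pot gg
  exact isOpen_lt (by fun_prop) (by fun_prop)

theorem tube {Q : ℝ} {L : W} {k : Fin 4} {a b : ℝ} (h : SegOK Q L k a b) {ζ : ℝ}
    (hζ : ζ < 1) :
    ∃ η : ℝ, 0 < η ∧ ∀ v : W, ∑ i, |v i - L i| < η → ∀ z : ℝ, |z| ≤ ζ →
      Good Q (seg k a b v z) ∧ (a = b ∨ Cross Q k (seg k a b v z)) := by
  have hU : IsOpen {p : W × ℝ | Good Q (seg k a b p.1 p.2) ∧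
      (a = b ∨ Cross Q k (seg k a b p.1 p.2))} := by
    by_cases hab : a = b
    · have e : {p : W × ℝ | Good Q (seg k a b p.1 p.2) ∧
          (a = b ∨ Cross Q k (seg k a b p.1 p.2))} =
          (fun p : W × ℝ => seg k a b p.1 p.2) ⁻¹' {v : W | Good Q v} := by
        ext p
        exact ⟨fun h => h.1, fun h => ⟨h, Or.inl hab⟩⟩
      rw [e]
      exact (Tube_good Q).preimage (Tube_seg k a b)
    · have e : {p : W × ℝ | Good Q (seg k a b p.1 p.2) ∧
          (a = b ∨ Cross Q k (seg k a b p.1 p.2))} =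
          (fun p : W × ℝ => seg k a b p.1 p.2) ⁻¹' ({v : W | Good Q v} ∩
            {v : W | Cross Q k v}) := by
        ext p
        exact ⟨fun h => ⟨h.1, h.2.resolve_left hab⟩, fun h => ⟨h.1, Or.inr h.2⟩⟩
      rw [e]
      exact ((Tube_good Q).inter (Tube_cross Q k)).preimage (Tube_seg k a b)
  have hsub : ({L} : Set W) ×ˢ Set.Icc (-ζ) ζ ⊆ {p : W × ℝ | Good Q (seg k a b p.1 p.2) ∧
      (a = b ∨ Cross Q k (seg k a b p.1 p.2))} := by
    rintro ⟨v, z⟩ ⟨hv, hz⟩
    have hv' : v = L := hv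
    subst hv'
    have h1 : -1 < z := by linarith [hz.1]
    have h2 : z < 1 := by linarith [hz.2]
    exact ⟨h.good z h1 h2, h.cross.imp_right fun h3 => h3 z h1 h2⟩
  obtain ⟨u, w, hu, -, hLu, hzw, huw⟩ :=
    generalized_tube_lemma isCompact_singleton isCompact_Icc hU hsub
  obtain ⟨η, hη, hball⟩ := Metric.isOpen_iff.1 hu L (hLu rfl)
  refine ⟨η, hη, fun v hv z hz => ?_⟩
  have h1 : v ∈ u := by
    apply hball
    rw [Metric.mem_ball, dist_pi_lt_iff hη]
    intro i
    rw [Real.dist_eq]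
    exact lt_of_le_of_lt (Finset.single_le_sum (f := fun i => |v i - L i|)
      (fun j _ => abs_nonneg _) (Finset.mem_univ i)) hv
  have h2 : z ∈ w := hzw (abs_le.1 hz)
  exact huw (Set.mk_mem_prod h1 h2)

end Pool.Agent.helper12.BR
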