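import Pool.Agent.helper12.BR.Waves
import Pool.Agent.helper12.BR.Tube

/-!
# BR-Split: splitting one exact state

PROOF.  Given `G`, `ε`.  `g t = G (seg k a b L t)`; `walk_lim` gives `n` with `|walk n g 0 - (g 1 + g (-1))/2| ≤ ε / (4 (1 + |p|))`.  `tube` with `ζ = 1 - 2^(-n)` gives `η`; decrease `η` such that also `η ≤ ∑ i, |q.2 i - L i|` for all `q ∈ l` (finitely many, all `≠ L`).
`T v = tau L η v` is continuous with values in `[0, 1]`, `T L = 1`, `T q.2 = 0` for `q ∈ l`.  `Ĝ v = walk n (fun t => G (seg k a b v (T v * t))) 0` is continuous (`walk_cont`).  `Ĝ L = walk n g 0`, `Ĝ q.2 = G q.2` for `q ∈ l` (`seg k a b v 0 = v`, `walk_const`), so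
`|ev ((p, L) :: l) Ĝ - ev ((p/2, seg k a b L 1) :: (p/2, seg k a b L (-1)) :: l) G| ≤ ε / 4`.  Take `F₀` from the hypothesis for `Ĝ` and `ε / 4`, `τ x = T (F₀ x)` (`AP`: `AP.comp` with `|·|` and `max 0`), and apply `waves` with `H' v t' t = G (seg k a b v (t' * t))` and `ε / 4`.
Its hypotheses: if `τ x = 0` then `seg k a b (F₀ x) 0 = F₀ x` is good; otherwise `∑ |F₀ x i - L i| < η` and `|τ x * t| ≤ |t| ≤ ζ`, use `tube`.
-/

set_option autoImplicit false

open MeasureTheory FourierTransform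
open scoped ENNReal InnerProductSpace ComplexConjugate

namespace Pool.Agent.helper12.BR

open Pool.Agent.helper12.RT
open Pool.Agent.helper12.AI (beurlingSymbol)

variable {n : ℕ}

private theorem Split_seg (k : Fin 4) (a b : ℝ) :
    Continuous fun p : W × ℝ => seg k a b p.1 p.2 := by
  refine continuous_pi fun i => ?_
  fin_cases i
  · show Continuous fun p : W × ℝ => p.1 0 * (1 + a * p.2)
    fun_prop
  · show Continuous fun p : W × ℝ => p.1 1 * (1 + b * p.2)
    fun_prop
  · show Continuous fun p : W × ℝ => p.1 2 + mu₁ k * (p.1 0 * (a * p.2))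
    fun_prop
  · show Continuous fun p : W × ℝ => p.1 3 + mu₂ k * (p.1 0 * (a * p.2))
    fun_prop
  · show Continuous fun p : W × ℝ => p.1 4 + ye k * (p.1 0 * (a * p.2))
    fun_prop

private theorem Split_seg0 (k : Fin 4) (a b : ℝ) (v : W) : seg k a b v 0 = v := by
  funext i
  fin_cases i <;> simp [seg]

private theorem Split_eta (l : List (ℝ × W)) (L : W) (hl : ∀ q ∈ l, q.2 ≠ L) {η₀ : ℝ}
    (hη₀ : 0 < η₀) : ∃ η : ℝ, 0 < η ∧ η ≤ η₀ ∧ ∀ q ∈ l, η ≤ ∑ i, |q.2 i - L i| := by
  induction l with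
  | nil => exact ⟨η₀, hη₀, le_rfl, fun q hq => absurd hq (by simp)⟩
  | cons q₀ l ih =>
    obtain ⟨η, h1, h2, h3⟩ := ih fun q hq => hl q (List.mem_cons_of_mem _ hq)
    have h4 : 0 < ∑ i, |q₀.2 i - L i| := by
      by_contra hcon
      apply hl q₀ (by simp)
      funext i
      have h5 : |q₀.2 i - L i| ≤ ∑ i, |q₀.2 i - L i| :=
        Finset.single_le_sum (f := fun i => |q₀.2 i - L i|) (fun j _ => abs_nonneg _)
          (Finset.mem_univ i)
      have h6 : |q₀.2 i - L i| = 0 := le_antisymm (by linarith) (abs_nonneg _)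
      linarith [abs_eq_zero.1 h6]
    refine ⟨min η (∑ i, |q₀.2 i - L i|), lt_min h1 h4, (min_le_left _ _).trans h2, ?_⟩
    intro q hq
    rcases List.mem_cons.1 hq with rfl | hq
    · exact min_le_right _ _
    · exact (min_le_left _ _).trans (h3 q hq)

private theorem Split_tau_cont (L : W) (η : ℝ) : Continuous (tau L η) := by
  unfold tau
  fun_prop

private theorem Split_tau_mem {L : W} {η : ℝ} (hη : 0 < η) (v : W) :
    0 ≤ tau L η v ∧ tau L η v ≤ 1 := by
  unfold tau
  have h1 : 0 ≤ (∑ i, |v i - L i|) / η :=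
    div_nonneg (Finset.sum_nonneg fun i _ => abs_nonneg _) hη.le
  exact ⟨le_max_left _ _, max_le zero_le_one (by linarith)⟩

private theorem Split_tau_L (L : W) (η : ℝ) : tau L η L = 1 := by
  unfold tau
  simp

private theorem Split_tau_zero {L : W} {η : ℝ} (hη : 0 < η) {v : W}
    (h : η ≤ ∑ i, |v i - L i|) : tau L η v = 0 := by
  unfold tau
  apply max_eq_left
  have h1 : 1 ≤ (∑ i, |v i - L i|) / η := (one_le_div hη).2 h
  linarith

private theorem Split_comp {f : E n → ℝ} (hf : AP f) {g : ℝ → ℝ} (hg : Continuous g) :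
    AP fun x => g (f x) := by
  obtain ⟨C, hC⟩ := hf.bdd
  exact hf.comp (A := -C) (B := C) (fun x => abs_le.1 (hC x)) hg.continuousOn

private theorem Split_tau_ap {F : E n → W} (hF : ∀ i, AP fun x => F x i) (L : W) (η : ℝ) :
    AP fun x => tau L η (F x) := by
  have h1 : ∀ i, AP fun x => |F x i - L i| := fun i =>
    Split_comp ((hF i).sub (AP.const (L i))) continuous_abs
  have h2 : AP fun x => ∑ i, |F x i - L i| := by
    have e : (fun x => ∑ i, |F x i - L i|) = fun x =>
        |F x 0 - L 0| + |F x 1 - L 1| + |F x 2 - L 2| + |F x 3 - L 3| + |F x 4 - L 4| := by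
      funext x
      rw [Fin.sum_univ_five]
    rw [e]
    exact ((((h1 0).add (h1 1)).add (h1 2)).add (h1 3)).add (h1 4)
  exact Split_comp (g := fun t => max 0 (1 - t / η)) h2 (by fun_prop)

private theorem Split_mono {φ : H 2} {N N' D D' δ δ' Q : ℝ} {F : E 2 → W}
    (hF : Fld φ N D δ Q F) (hN : N ≤ N') (hD : D ≤ D') (hδ : δ ≤ δ') :
    Fld φ N' D' δ' Q F where
  ap := hF.ap
  pos := hF.pos
  good := hF.good
  bp := fun u => (hF.bp u).trans (mul_le_mul_of_nonneg_right hN
    (Q_nonneg (fun x => (hF.good x).s_pos.le) u))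
  ds := fun x r hr => (hF.ds x r hr).trans
    (mul_le_mul_left (ENNReal.ofReal_le_ofReal hD) _)
  dw := fun x r hr => (hF.dw x r hr).trans
    (mul_le_mul_left (ENNReal.ofReal_le_ofReal hD) _)
  lo := hF.lo.trans hδ

private theorem Split_ev (l : List (ℝ × W)) {G G' : W → ℝ} (h : ∀ q ∈ l, G q.2 = G' q.2) :
    ev l G = ev l G' := by
  unfold ev
  congr 1
  apply List.map_congr_left
  intro q hq
  rw [h q hq]

theorem split {k : Fin 4} {a b : ℝ} {φ : H 2} {r : ℝ} (hr : 0 ≤ r)
    (hφ : Supp (Metric.closedBall (dir 0) r) φ) {δ Q : ℝ} (hQ : 0 < Q) {p : ℝ} {L : W}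
    {l : List (ℝ × W)} (h : Rlz φ δ Q ((p, L) :: l)) (hl : ∀ q ∈ l, q.2 ≠ L)
    (hs : SegOK Q L k a b) :
    Rlz φ δ Q ((p / 2, seg k a b L 1) :: (p / 2, seg k a b L (-1)) :: l) := by
  intro G hG ε hε
  have hpa : 0 < 1 + |p| := by positivity
  obtain ⟨n, hn⟩ := walk_lim (g := fun t => G (seg k a b L t))
    (hG.comp ((Split_seg k a b).comp (by fun_prop : Continuous fun t : ℝ => (L, t))))
    (ε / (4 * (1 + |p|))) (by positivity)
  have hζ0 : (0 : ℝ) < (1 / 2) ^ n := by positivity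
  obtain ⟨η₀, hη₀, htube⟩ := tube hs (ζ := 1 - (1 / 2) ^ n) (by linarith)
  obtain ⟨η, hη, hηη, hηl⟩ := Split_eta l L hl hη₀
  have hH : Continuous fun q : W × ℝ × ℝ => G (seg k a b q.1 (q.2.1 * q.2.2)) :=
    hG.comp ((Split_seg k a b).comp
      (by fun_prop : Continuous fun q : W × ℝ × ℝ => (q.1, q.2.1 * q.2.2)))
  have hT := Split_tau_cont L η
  have hcont : Continuous fun v : W => walk n (fun t => G (seg k a b v (tau L η v * t))) 0 := by
    have h1 : Continuous fun q : W × ℝ => G (seg k a b q.1 (tau L η q.1 * q.2)) :=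
      hH.comp (by fun_prop : Continuous fun q : W × ℝ => (q.1, tau L η q.1, q.2))
    exact (walk_cont n (G := fun v t => G (seg k a b v (tau L η v * t))) h1).comp
      (by fun_prop : Continuous fun v : W => (v, (0 : ℝ)))
  obtain ⟨F₀, hF₀, hE₀⟩ := h _ hcont (ε / 4) (by positivity)
  have hGL : walk n (fun t => G (seg k a b L (tau L η L * t))) 0 =
      walk n (fun t => G (seg k a b L t)) 0 := by
    rw [Split_tau_L]
    simp only [one_mul]
  have hGl : ∀ q ∈ l, walk n (fun t => G (seg k a b q.2 (tau L η q.2 * t))) 0 = G q.2 := by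
    intro q hq
    rw [Split_tau_zero hη (hηl q hq)]
    simp only [zero_mul, Split_seg0]
    exact walk_const n _ _
  have hev1 : ev ((p, L) :: l) (fun v => walk n (fun t => G (seg k a b v (tau L η v * t))) 0) =
      p * walk n (fun t => G (seg k a b L t)) 0 + ev l G := by
    have e : ev ((p, L) :: l) (fun v => walk n (fun t => G (seg k a b v (tau L η v * t))) 0) =
        p * walk n (fun t => G (seg k a b L (tau L η L * t))) 0 +
          ev l (fun v => walk n (fun t => G (seg k a b v (tau L η v * t))) 0) := rfl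
    rw [e, hGL, Split_ev l hGl]
  have hev2 : ev ((p / 2, seg k a b L 1) :: (p / 2, seg k a b L (-1)) :: l) G =
      p / 2 * G (seg k a b L 1) + (p / 2 * G (seg k a b L (-1)) + ev l G) := rfl
  have hdiff : |(p * walk n (fun t => G (seg k a b L t)) 0 + ev l G) -
      (p / 2 * G (seg k a b L 1) + (p / 2 * G (seg k a b L (-1)) + ev l G))| ≤ ε / 4 := by
    have e : (p * walk n (fun t => G (seg k a b L t)) 0 + ev l G) -
        (p / 2 * G (seg k a b L 1) + (p / 2 * G (seg k a b L (-1)) + ev l G)) =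
        p * (walk n (fun t => G (seg k a b L t)) 0 -
          (G (seg k a b L 1) + G (seg k a b L (-1))) / 2) := by ring
    rw [e, abs_mul]
    calc |p| * |walk n (fun t => G (seg k a b L t)) 0 -
          (G (seg k a b L 1) + G (seg k a b L (-1))) / 2|
        ≤ |p| * (ε / (4 * (1 + |p|))) := mul_le_mul_of_nonneg_left hn (abs_nonneg p)
      _ = ε / 4 * (|p| / (1 + |p|)) := by
          field_simp
      _ ≤ ε / 4 * 1 := by
          apply mul_le_mul_of_nonneg_left _ (by positivity)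
          rw [div_le_one hpa]
          linarith
      _ = ε / 4 := mul_one _
  have hτ : AP fun x => tau L η (F₀ x) := Split_tau_ap hF₀.ap L η
  have hcase : ∀ x, tau L η (F₀ x) = 0 ∨ ∑ i, |F₀ x i - L i| < η₀ := by
    intro x
    rcases lt_or_ge (∑ i, |F₀ x i - L i|) η with h1 | h1
    · exact Or.inr (lt_of_lt_of_le h1 hηη)
    · exact Or.inl (Split_tau_zero hη h1)
  have hz : ∀ x, ∀ t : ℝ, |t| ≤ 1 - (1 / 2) ^ n → |tau L η (F₀ x) * t| ≤ 1 - (1 / 2) ^ n := by
    intro x t ht
    obtain ⟨h1, h2⟩ := Split_tau_mem (L := L) hη (F₀ x)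
    rw [abs_mul, abs_of_nonneg h1]
    calc tau L η (F₀ x) * |t| ≤ 1 * |t| := mul_le_mul_of_nonneg_right h2 (abs_nonneg t)
      _ = |t| := one_mul _
      _ ≤ _ := ht
  obtain ⟨X, -, -, hF, hE⟩ := waves n hs.ha hs.hb hr hφ (by linarith : (16000 : ℝ) ≤ 16000 + ε / 4)
    (by linarith : (32 : ℝ) ≤ 32 + ε / 4) hQ hF₀ hτ (fun x => Split_tau_mem hη (F₀ x))
    (fun x t ht => by
      rcases hcase x with h1 | h1
      · rw [h1, zero_mul, Split_seg0]
        exact hF₀.good x
      · exact (htube (F₀ x) h1 _ (hz x t ht)).1)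
    (fun x => by
      by_cases hab : a = b
      · exact Or.inl hab
      rcases hcase x with h1 | h1
      · exact Or.inr (Or.inl h1)
      · exact Or.inr (Or.inr fun t ht => ((htube (F₀ x) h1 _ (hz x t ht)).2).resolve_left hab))
    (H' := fun v t' t => G (seg k a b v (t' * t))) hH (ε / 4) (by positivity)
  refine ⟨fun x => seg k a b (F₀ x) (tau L η (F₀ x) * X x),
    Split_mono hF (by linarith) (by linarith) (by linarith), ?_⟩
  rw [hev2]
  rw [hev1] at hE₀
  have h1 := abs_le.1 hE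
  have h2 := abs_le.1 hE₀
  have h3 := abs_le.1 hdiff
  rw [abs_le]
  constructor <;> linarith [h1.1, h1.2, h2.1, h2.2, h3.1, h3.2]

end Pool.Agent.helper12.BR
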