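import Pool.Agent.helper12.BR.Defs

/-!
# BR-WcPert: small perturbations of the conditions for one wave

Real numbers only.  PROOF.  `η' ≤ ε` small (`η' ≤ c / (10⁴ B²)` and `η' ≤ 1 / 100`), then `η ≤ η'² / 10⁴ / B² / C₀² ...` (much smaller than `η'²`, and `η ≤ c / 100`).  `z_i = μ_i s - x_i`, `z_i' = μ_i s' - x_i'`, `|z_i - z_i'| ≤ 2 η`, `|z_i| ≤ 2 B`; `gg' ≤ 2 gg + 16 η²`.
`s' (1 + a' c) ≥ s (1 + a c) / 2` for small `η` (both factors).  `av P' ≤ av P + η` (`av_mono`, `av_add`, `av_const`), so `p' - av P' ≥ (p - av P) + η' / 2`.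
`pos`, `le` (`P' ≤ P + η ≤ C₀ p + η ≤ C₀ p'`), `ps` (`p' s' ≤ p s + C (η + η') ≤ 2 C₁`), `px` (`P' |X'|² ≤ (P + η)(2 |X|² + C η²) ≤ 2 C₂ s (1 + a c) + C η ≤ 4 C₂ s' (1 + a' c)`), `diag` similar.
`cross`: `P' - p' (1 + a' c) = (P - p (1 + a c)) + E`, `|E| ≤ η + (3/2) |p' - p| + |p| |a' - a| ≤ 3 η'`; so the left side is at most `(2 x² + 2 E²)(2 gg + 16 η²)` with `x = P - p (1 + a c)`, i.e. `≤ 4 x² gg + 32 η² x² + 4 E² gg + 32 E² η²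
≤ 4 M₂ (p - av P) s (1 + a c) + 300 B² η'² + ...`, and the right side is at least `8 M₂ (p - av P + η' / 2) s (1 + a c) / 2 ≥ 4 M₂ (p - av P) s (1 + a c) + M₂ η' c` (`s (1 + a c) ≥ c / 2`; note `p - av P ≥ 0`).
-/

set_option autoImplicit false

open MeasureTheory FourierTransform
open scoped ENNReal InnerProductSpace ComplexConjugate

namespace Pool.Agent.helper12.BR

open Pool.Agent.helper12.RT
open Pool.Agent.helper12.AI (beurlingSymbol)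

variable {n : ℕ}

private theorem WcPert_sq {x e d : ℝ} (h : |e| ≤ d) : (x + e) ^ 2 ≤ 2 * x ^ 2 + 2 * d ^ 2 := by
  have h1 : e ^ 2 ≤ d ^ 2 := by
    rw [← sq_abs e]; exact pow_le_pow_left₀ (abs_nonneg _) h 2
  nlinarith [sq_nonneg (x - e)]

private theorem WcPert_mul {a b A B : ℝ} (ha : |a| ≤ A) (hb : |b| ≤ B) : |a * b| ≤ A * B := by
  rw [abs_mul]; exact mul_le_mul ha hb (abs_nonneg _) (le_trans (abs_nonneg _) ha)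

private theorem WcPert_key {B c s a s' a' η t : ℝ} (hc : 0 < c) (hcs : c ≤ s) (hs : |s| ≤ B)
    (ha : |a| ≤ 1 / 2) (ha' : |a'| ≤ 1 / 2) (hss : |s - s'| ≤ η) (haa : |a - a'| ≤ η)
    (ht : |t| ≤ 1) (hsm : η * (3 / 2) + B * η ≤ c / 8) :
    3 / 4 * (s * (1 + a * t)) ≤ s' * (1 + a' * t) ∧ c / 2 ≤ s * (1 + a * t) := by
  have k1 : |a * t| ≤ 1 / 2 * 1 := WcPert_mul ha ht
  have k2 : |a' * t| ≤ 1 / 2 * 1 := WcPert_mul ha' ht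
  have k3 : |(s - s') * (1 + a' * t)| ≤ η * (3 / 2) := by
    refine WcPert_mul hss ?_
    rw [abs_le] at k2 ⊢
    constructor <;> linarith [k2.1, k2.2]
  have k4 : |s * ((a - a') * t)| ≤ B * (η * 1) := WcPert_mul hs (WcPert_mul haa ht)
  have k3' := (abs_le.mp k3).2
  have k4' := (abs_le.mp k4).2
  have k1' := (abs_le.mp k1).1
  have k5 : c * (1 / 2) ≤ s * (1 + a * t) :=
    mul_le_mul hcs (by linarith) (by norm_num) (by linarith)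
  have k6 : s' * (1 + a' * t) = s * (1 + a * t) - (s - s') * (1 + a' * t) - s * ((a - a') * t) := by
    ring
  refine ⟨?_, by linarith⟩
  rw [k6]
  linarith

private theorem WcPert_g {B μ s x s' x' η : ℝ} (hμ : |μ| ≤ 1) (hs : |s| ≤ B) (hx : |x| ≤ B)
    (hss : |s - s'| ≤ η) (hxx : |x - x'| ≤ η) :
    (μ * s' - x') ^ 2 ≤ 2 * (μ * s - x) ^ 2 + 8 * η ^ 2 ∧ (μ * s - x) ^ 2 ≤ 4 * B ^ 2 := by
  constructor
  · have k1 : |μ * (s' - s) + (x - x')| ≤ 2 * η := by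
      have := WcPert_mul hμ (show |s' - s| ≤ η by rw [abs_sub_comm]; exact hss)
      calc _ ≤ |μ * (s' - s)| + |x - x'| := abs_add_le _ _
        _ ≤ 2 * η := by linarith
    have k3 := WcPert_sq (x := μ * s - x) k1
    have k5 : μ * s - x + (μ * (s' - s) + (x - x')) = μ * s' - x' := by ring
    rw [k5] at k3
    linarith
  · have k1 : |μ * s - x| ≤ 2 * B := by
      have := WcPert_mul hμ hs
      calc _ ≤ |μ * s| + |x| := abs_sub _ _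
        _ ≤ 2 * B := by linarith
    have k3 := pow_le_pow_left₀ (abs_nonneg _) k1 2
    rw [sq_abs] at k3
    linarith

private theorem WcPert_x {B μ s x s' x' a a' t η : ℝ} (hB : 1 ≤ B) (hη : 0 ≤ η) (hμ : |μ| ≤ 1)
    (hs : |s| ≤ B) (hx : |x| ≤ B) (hss : |s - s'| ≤ η) (hxx : |x - x'| ≤ η) (ha : |a| ≤ 1 / 2)
    (ha' : |a'| ≤ 1 / 2) (haa : |a - a'| ≤ η) (ht : |t| ≤ 1) :
    (x' + μ * (s' * (a' * t))) ^ 2 ≤ 2 * (x + μ * (s * (a * t))) ^ 2 + 18 * (B * η) ^ 2 ∧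
      (x + μ * (s * (a * t))) ^ 2 ≤ 4 * B ^ 2 := by
  have k0 : 1 * η ≤ B * η := mul_le_mul_of_nonneg_right hB hη
  have k1 : |(s' - s) * (a' * t)| ≤ η * (1 / 2 * 1) :=
    WcPert_mul (by rw [abs_sub_comm]; exact hss) (WcPert_mul ha' ht)
  have k2 : |s * ((a' - a) * t)| ≤ B * (η * 1) :=
    WcPert_mul hs (WcPert_mul (by rw [abs_sub_comm]; exact haa) ht)
  have k3 : |μ * ((s' - s) * (a' * t) + s * ((a' - a) * t))| ≤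
      1 * (η * (1 / 2 * 1) + B * (η * 1)) :=
    WcPert_mul hμ ((abs_add_le _ _).trans (add_le_add k1 k2))
  have k4 : |μ * ((s' - s) * (a' * t) + s * ((a' - a) * t)) + (x' - x)| ≤ 3 * (B * η) := by
    refine (abs_add_le _ _).trans ?_
    rw [abs_sub_comm x' x]
    linarith
  have k5 := WcPert_sq (x := x + μ * (s * (a * t))) k4
  have k6 : x + μ * (s * (a * t)) + (μ * ((s' - s) * (a' * t) + s * ((a' - a) * t)) + (x' - x))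
      = x' + μ * (s' * (a' * t)) := by ring
  rw [k6] at k5
  have k7 : |x + μ * (s * (a * t))| ≤ 2 * B := by
    have := WcPert_mul hμ (WcPert_mul hs (WcPert_mul ha ht))
    calc _ ≤ |x| + |μ * (s * (a * t))| := abs_add_le _ _
      _ ≤ 2 * B := by linarith
  have k8 := pow_le_pow_left₀ (abs_nonneg _) k7 2
  rw [sq_abs] at k8
  exact ⟨by linarith, by linarith⟩

private theorem WcPert_px {B c C₀ C₂ η' η P P' Y Y' S S' : ℝ} (hB : 1 ≤ B) (hC₀ : 1 ≤ C₀)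
    (hC₂ : 1 ≤ C₂) (hc : 0 < c) (hη' : 0 < η') (hη : 0 < η) (h2 : 600 * B ^ 2 * η' ≤ c)
    (h3 : 100 * (C₀ * B) * η = η') (e3 : 100 * η ≤ η') (e4 : η' ≤ 1 / 10)
    (f1 : 3 / 4 * S ≤ S') (f2 : c / 2 ≤ S) (q5 : P * Y ≤ C₂ * S) (q6 : P' ≤ P + η) (q7 : 0 ≤ P)
    (q8 : P ≤ C₀ * B) (r0 : 0 ≤ Y) (r0' : 0 ≤ Y') (r1 : Y' ≤ 2 * Y + 36 * (B * η) ^ 2)
    (r2 : Y ≤ 8 * B ^ 2) : P' * Y' ≤ 4 * C₂ * S' := by
  have hCB : 1 * 1 ≤ C₀ * B := mul_le_mul hC₀ hB (by norm_num) (by linarith)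
  have r3 : P' * Y' ≤ (P + η) * (2 * Y + 36 * (B * η) ^ 2) :=
    mul_le_mul q6 r1 r0' (by linarith)
  have r4 : η * (2 * Y) ≤ η * (16 * B ^ 2) := mul_le_mul_of_nonneg_left (by linarith) hη.le
  have r5 : (P + η) * (36 * (B * η) ^ 2) ≤ (C₀ * B + C₀ * B) * (36 * (B * η) ^ 2) :=
    mul_le_mul_of_nonneg_right (by linarith) (by positivity)
  have r6 : (C₀ * B + C₀ * B) * (36 * (B * η) ^ 2) = 72 / 100 * (B ^ 2 * η' * η) := by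
    rw [← h3]; ring
  have r7 : B ^ 2 * η' * η ≤ c / 600 * 1 := by
    refine mul_le_mul (by linarith) (by linarith) hη.le (by positivity)
  have r8 : B ^ 2 * (100 * η) ≤ B ^ 2 * η' := mul_le_mul_of_nonneg_left e3 (sq_nonneg B)
  have r9 : C₂ * (3 / 4 * S) ≤ C₂ * S' := mul_le_mul_of_nonneg_left f1 (by linarith)
  have r10 : 1 * S ≤ C₂ * S := mul_le_mul_of_nonneg_right hC₂ (by linarith)
  have r11 : (P + η) * (2 * Y + 36 * (B * η) ^ 2) =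
      2 * (P * Y) + η * (2 * Y) + (P + η) * (36 * (B * η) ^ 2) := by ring
  linarith

private theorem WcPert_diag {B c C₀ M₃ η' η P P' g g' S S' : ℝ} (hB : 1 ≤ B) (hC₀ : 1 ≤ C₀)
    (hM₃ : 1 ≤ M₃) (hc : 0 < c) (hη' : 0 < η') (hη : 0 < η) (h2 : 600 * B ^ 2 * η' ≤ c)
    (h3 : 100 * (C₀ * B) * η = η') (e3 : 100 * η ≤ η') (e4 : η' ≤ 1 / 10)
    (f1 : 3 / 4 * S ≤ S') (f2 : c / 2 ≤ S) (q5 : P * g ≤ M₃ * S) (q6 : P' ≤ P + η) (q7 : 0 ≤ P)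
    (q8 : P ≤ C₀ * B) (g0 : 0 ≤ g) (g0' : 0 ≤ g') (gz : g' ≤ 2 * g + 16 * η ^ 2)
    (gb : g ≤ 8 * B ^ 2) : P' * g' ≤ 4 * M₃ * S' := by
  have hCB : 1 * 1 ≤ C₀ * B := mul_le_mul hC₀ hB (by norm_num) (by linarith)
  have hB2 : 1 * η' ≤ B ^ 2 * η' := mul_le_mul_of_nonneg_right (by nlinarith) hη'.le
  have r1 : P' * g' ≤ (P + η) * (2 * g + 16 * η ^ 2) := mul_le_mul q6 gz g0' (by linarith)
  have r4 : η * (2 * g) ≤ η * (16 * B ^ 2) := mul_le_mul_of_nonneg_left (by linarith) hη.le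
  have r5 : (P + η) * (16 * η ^ 2) ≤ (C₀ * B + C₀ * B) * (16 * η ^ 2) :=
    mul_le_mul_of_nonneg_right (by linarith) (by positivity)
  have r6 : (C₀ * B + C₀ * B) * (16 * η ^ 2) = 32 / 100 * (η' * η) := by
    rw [← h3]; ring
  have r7 : η' * η ≤ η' * 1 := mul_le_mul_of_nonneg_left (by linarith) hη'.le
  have r8 : B ^ 2 * (100 * η) ≤ B ^ 2 * η' := mul_le_mul_of_nonneg_left e3 (sq_nonneg B)
  have r9 : M₃ * (3 / 4 * S) ≤ M₃ * S' := mul_le_mul_of_nonneg_left f1 (by linarith)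
  have r10 : 1 * S ≤ M₃ * S := mul_le_mul_of_nonneg_right hM₃ (by linarith)
  have r11 : (P + η) * (2 * g + 16 * η ^ 2) =
      2 * (P * g) + η * (2 * g) + (P + η) * (16 * η ^ 2) := by ring
  linarith

private theorem WcPert_cross {B c C₀ M₂ η' η A A' g g' S S' x x' e : ℝ} (hB : 1 ≤ B)
    (hM₂ : 1 ≤ M₂) (hc : 0 < c) (hη' : 0 < η') (hη : 0 < η) (h2 : 600 * B ^ 2 * η' ≤ c)
    (h3 : 100 * (C₀ * B) * η = η') (e3 : 100 * η ≤ η') (e4 : η' ≤ 1 / 10)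
    (f1 : 3 / 4 * S ≤ S') (f2 : c / 2 ≤ S) (q5 : x ^ 2 * g ≤ M₂ * A * S) (hA : 0 ≤ A)
    (hA' : A + η' / 2 ≤ A') (he : |e| ≤ 2 * η') (hx' : x' = x + e) (hx : |x| ≤ 3 * (C₀ * B))
    (g0 : 0 ≤ g) (g0' : 0 ≤ g') (gz : g' ≤ 2 * g + 16 * η ^ 2)
    (gb : g ≤ 8 * B ^ 2) : x' ^ 2 * g' ≤ 8 * M₂ * A' * S' := by
  have k2 := WcPert_sq (x := x) he
  rw [← hx'] at k2
  have k4 : x ^ 2 ≤ (3 * (C₀ * B)) ^ 2 := by
    have := pow_le_pow_left₀ (abs_nonneg _) hx 2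
    rwa [sq_abs] at this
  have hB2 : 1 ≤ B ^ 2 := by nlinarith
  have r1 : x' ^ 2 * g' ≤ (2 * x ^ 2 + 2 * (2 * η') ^ 2) * (2 * g + 16 * η ^ 2) :=
    mul_le_mul k2 gz g0' (by positivity)
  have r2 : 8 * M₂ * ((A + η' / 2) * (S / 2)) ≤ 8 * M₂ * (A' * S') := by
    refine mul_le_mul_of_nonneg_left (mul_le_mul hA' (by linarith) (by linarith)
      (by linarith)) (by linarith)
  have r3 : η ^ 2 * x ^ 2 ≤ η ^ 2 * (3 * (C₀ * B)) ^ 2 :=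
    mul_le_mul_of_nonneg_left k4 (sq_nonneg _)
  have r4 : η ^ 2 * (3 * (C₀ * B)) ^ 2 = 9 / 10000 * η' ^ 2 := by rw [← h3]; ring
  have r5 : η' ^ 2 * g ≤ η' ^ 2 * (8 * B ^ 2) := mul_le_mul_of_nonneg_left gb (sq_nonneg _)
  have r6 : η' * (600 * B ^ 2 * η') ≤ η' * c := mul_le_mul_of_nonneg_left h2 hη'.le
  have r7 : η' ^ 2 * 1 ≤ η' ^ 2 * B ^ 2 := mul_le_mul_of_nonneg_left hB2 (sq_nonneg _)
  have hη1 : η ^ 2 ≤ 1 := by nlinarith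
  have r8 : η' ^ 2 * η ^ 2 ≤ η' ^ 2 * 1 := mul_le_mul_of_nonneg_left hη1 (sq_nonneg _)
  have r9 : 1 * (η' * (c / 2)) ≤ M₂ * (η' * S) :=
    mul_le_mul hM₂ (mul_le_mul_of_nonneg_left f2 hη'.le) (by positivity) (by linarith)
  have r10 : 8 * M₂ * ((A + η' / 2) * (S / 2)) = 4 * (M₂ * A * S) + 2 * (M₂ * (η' * S)) := by
    ring
  have r11 : (2 * x ^ 2 + 2 * (2 * η') ^ 2) * (2 * g + 16 * η ^ 2) =
      4 * (x ^ 2 * g) + 32 * (η ^ 2 * x ^ 2) + 16 * (η' ^ 2 * g) + 128 * (η' ^ 2 * η ^ 2) := by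
    ring
  have r12 : 0 < η' * c := mul_pos hη' hc
  calc x' ^ 2 * g' ≤ 4 * (x ^ 2 * g) + 32 * (η ^ 2 * x ^ 2) + 16 * (η' ^ 2 * g) +
        128 * (η' ^ 2 * η ^ 2) := by rw [← r11]; exact r1
    _ ≤ 4 * (M₂ * A * S) + 2 * (M₂ * (η' * S)) := by linarith
    _ ≤ 8 * M₂ * (A' * S') := by rw [← r10]; exact r2
    _ = _ := by ring

private theorem WcPert_e {B η' η P P' p p' a a' t : ℝ} (hη' : 0 < η') (hη : 0 < η)
    (e1 : 100 * (B * η) ≤ η') (e3 : 100 * η ≤ η') (hp : |p| ≤ B) (ha' : |a'| ≤ 1 / 2)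
    (haa : |a - a'| ≤ η) (hp1 : p + η' - η ≤ p') (hp2 : p' ≤ p + η' + η) (ht : |t| ≤ 1)
    (q6 : P ≤ P' ∧ P' ≤ P + η) :
    |(P' - P) + -((p' - p) * (1 + a' * t)) + -(p * ((a' - a) * t))| ≤ 2 * η' := by
  have m1 : |P' - P| ≤ η := abs_le.mpr ⟨by linarith [q6.1], by linarith [q6.2]⟩
  have m2 : |(p' - p) * (1 + a' * t)| ≤ (η' + η) * (3 / 2) := by
    refine WcPert_mul (abs_le.mpr ⟨by linarith, by linarith⟩) ?_
    have m3 := WcPert_mul ha' ht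
    rw [abs_le] at m3 ⊢
    constructor <;> linarith [m3.1, m3.2]
  have m4 : |p * ((a' - a) * t)| ≤ B * (η * 1) :=
    WcPert_mul hp (WcPert_mul (by rw [abs_sub_comm]; exact haa) ht)
  refine (abs_add_le _ _).trans ?_
  refine (add_le_add (abs_add_le _ _) le_rfl).trans ?_
  rw [abs_neg, abs_neg]
  linarith

private theorem WcPert_xb {B C₀ P p a t : ℝ} (hB : 1 ≤ B) (hC₀ : 1 ≤ C₀) (hp0 : 0 ≤ p)
    (hpB : p ≤ B) (ha : |a| ≤ 1 / 2) (ht : |t| ≤ 1) (q7 : 0 ≤ P) (q8 : P ≤ C₀ * B) :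
    |P - p * (1 + a * t)| ≤ 3 * (C₀ * B) := by
  have m3 := abs_le.mp (WcPert_mul ha ht)
  have m5 : p * (1 + a * t) ≤ B * 2 :=
    mul_le_mul hpB (by linarith [m3.2]) (by linarith [m3.1]) (by linarith)
  have m6 : 0 ≤ p * (1 + a * t) := mul_nonneg hp0 (by linarith [m3.1])
  have m7 : 1 * B ≤ C₀ * B := mul_le_mul_of_nonneg_right hC₀ (by linarith)
  exact abs_le.mpr ⟨by linarith, by linarith⟩

private theorem WcPert_ps {B C₁ η' η p s p' s' : ℝ} (hC₁ : 1 ≤ C₁) (hB : 1 ≤ B) (hη' : 0 < η')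
    (h1 : B * η' ≤ 1 / 10)
    (e1 : 100 * (B * η) ≤ η') (e3 : 100 * η ≤ η') (e4 : η' ≤ 1 / 10) (hp : |p| ≤ B)
    (hs : |s| ≤ B) (hη : 0 < η)
    (hss : |s - s'| ≤ η) (hp1 : p + η' - η ≤ p') (hp2 : p' ≤ p + η' + η) (k1 : p * s ≤ C₁) :
    p' * s' ≤ 2 * C₁ := by
  have hsB := abs_le.mp hs
  have hss' := abs_le.mp hss
  have k2 : |(p' - p) * s'| ≤ 2 * η' * (B + 1) :=
    WcPert_mul (abs_le.mpr ⟨by linarith, by linarith⟩)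
      (abs_le.mpr ⟨by linarith [hsB.1, hss'.2], by linarith [hsB.2, hss'.1]⟩)
  have k3 : |p * (s' - s)| ≤ B * η := WcPert_mul hp (by rw [abs_sub_comm]; exact hss)
  have k2' := (abs_le.mp k2).2
  have k3' := (abs_le.mp k3).2
  have k4 : p' * s' = p * s + (p' - p) * s' + p * (s' - s) := by ring
  rw [k4]
  linarith

private theorem WcPert_core {B c C₀ C₁ C₂ M₂ M₃ : ℝ} (hB : 1 ≤ B) (hc : 0 < c) (hC₀ : 1 ≤ C₀)
    (hC₁ : 1 ≤ C₁) (hC₂ : 1 ≤ C₂) (hM₂ : 1 ≤ M₂) (hM₃ : 1 ≤ M₃) {η' η : ℝ} (hη' : 0 < η')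
    (hη : 0 < η) (h1 : B * η' ≤ 1 / 10) (h2 : 600 * B ^ 2 * η' ≤ c)
    (h3 : 100 * (C₀ * B) * η = η') (e1 : 100 * (B * η) ≤ η') (e3 : 100 * η ≤ η')
    (e4 : η' ≤ 1 / 10) (e5 : η * (3 / 2) + B * η ≤ c / 8)
    (μ₁ μ₂ s a x₁ x₂ p s' a' x₁' x₂' p' : ℝ) (P P' : ℝ → ℝ)
    (hμ₁ : |μ₁| ≤ 1) (hμ₂ : |μ₂| ≤ 1) (hP : ContinuousOn P (Set.Icc (-1) 1))
    (hP' : ContinuousOn P' (Set.Icc (-1) 1))
    (h : WC C₀ C₁ C₂ M₂ M₃ μ₁ μ₂ s a x₁ x₂ p P) (hcs : c ≤ s) (hs : |s| ≤ B) (hx₁ : |x₁| ≤ B)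
    (hx₂ : |x₂| ≤ B) (hp : |p| ≤ B) (ha : |a| ≤ 1 / 2) (ha' : |a'| ≤ 1 / 2) (hss : |s - s'| ≤ η)
    (haa : |a - a'| ≤ η) (hxx₁ : |x₁ - x₁'| ≤ η) (hxx₂ : |x₂ - x₂'| ≤ η)
    (hpp : |p + η' - p'| ≤ η)
    (hPP : ∀ t ∈ Set.Icc (-1 : ℝ) 1, P t ≤ P' t ∧ P' t ≤ P t + η) :
    WC C₀ (2 * C₁) (4 * C₂) (8 * M₂) (4 * M₃) μ₁ μ₂ s' a' x₁' x₂' p' P' := by
  have hC0 : 0 < C₀ := by linarith
  -- the average
  have hav : RT.av P' ≤ RT.av P + η := by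
    have h5 : RT.av P' ≤ RT.av (fun t => P t + η) :=
      av_mono hP' (hP.add continuousOn_const) fun t ht => (hPP t ht).2
    have h6 : RT.av (fun t => P t + η) = RT.av P + RT.av (fun _ => η) :=
      av_add hP continuousOn_const
    rw [h6, av_const] at h5
    exact h5
  have hp1 : p + η' - η ≤ p' := by linarith [(abs_le.mp hpp).2]
  have hp2 : p' ≤ p + η' + η := by linarith [(abs_le.mp hpp).1]
  have hpB := (abs_le.mp hp).2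
  have havp : RT.av P ≤ p := h.av
  have hIt : ∀ t ∈ Set.Icc (-1 : ℝ) 1, |t| ≤ 1 := fun t ht => abs_le.mpr ⟨ht.1, ht.2⟩
  have hPb : ∀ t ∈ Set.Icc (-1 : ℝ) 1, P t ≤ C₀ * B := by
    intro t ht
    exact (h.le t ht).trans (mul_le_mul_of_nonneg_left hpB hC0.le)
  have hp0 : 0 ≤ p := by
    have k1 := h.le 0 (by simp)
    have k2 := h.pos 0 (by simp)
    exact nonneg_of_mul_nonneg_right (k2.trans k1) hC0
  obtain ⟨u1, u2⟩ := WcPert_g hμ₁ hs hx₁ hss hxx₁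
  obtain ⟨u3, u4⟩ := WcPert_g hμ₂ hs hx₂ hss hxx₂
  have gz : (μ₁ * s' - x₁') ^ 2 + (μ₂ * s' - x₂') ^ 2 ≤
      2 * ((μ₁ * s - x₁) ^ 2 + (μ₂ * s - x₂) ^ 2) + 16 * η ^ 2 := by linarith
  have gb : (μ₁ * s - x₁) ^ 2 + (μ₂ * s - x₂) ^ 2 ≤ 8 * B ^ 2 := by linarith
  have g0 : 0 ≤ (μ₁ * s - x₁) ^ 2 + (μ₂ * s - x₂) ^ 2 := by positivity
  have g0' : 0 ≤ (μ₁ * s' - x₁') ^ 2 + (μ₂ * s' - x₂') ^ 2 := by positivity
  refine ⟨?_, ?_, ?_, ?_, ?_, ?_, ?_⟩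
  · intro t ht
    exact (h.pos t ht).trans (hPP t ht).1
  · intro t ht
    have k1 := h.le t ht
    have k2 := (hPP t ht).2
    have k3 : C₀ * (p + (η' - η)) ≤ C₀ * p' := mul_le_mul_of_nonneg_left (by linarith) hC0.le
    have k4 : 1 * (η' - η) ≤ C₀ * (η' - η) := mul_le_mul_of_nonneg_right hC₀ (by linarith)
    rw [mul_add] at k3
    linarith
  · exact WcPert_ps hC₁ hB hη' h1 e1 e3 e4 hp hs hη hss hp1 hp2 h.ps
  · intro t ht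
    obtain ⟨f1, f2⟩ := WcPert_key hc hcs hs ha ha' hss haa (hIt t ht) e5
    obtain ⟨q1, q2⟩ := WcPert_x hB hη.le hμ₁ hs hx₁ hss hxx₁ ha ha' haa (hIt t ht)
    obtain ⟨q3, q4⟩ := WcPert_x hB hη.le hμ₂ hs hx₂ hss hxx₂ ha ha' haa (hIt t ht)
    refine WcPert_px hB hC₀ hC₂ hc hη' hη h2 h3 e3 e4 f1 f2 (h.px t ht) (hPP t ht).2
      (h.pos t ht) (hPb t ht) (by positivity) (by positivity) (by linarith) (by linarith)
  · change RT.av P' ≤ p'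
    linarith
  · intro t ht
    obtain ⟨f1, f2⟩ := WcPert_key hc hcs hs ha ha' hss haa (hIt t ht) e5
    refine WcPert_cross (A := p - RT.av P) hB hM₂ hc hη' hη h2 h3 e3 e4 f1 f2 (h.cross t ht)
      (by linarith) (by linarith) (WcPert_e hη' hη e1 e3 hp ha' haa hp1 hp2 (hIt t ht) (hPP t ht))
      (by ring) (WcPert_xb hB hC₀ hp0 hpB ha (hIt t ht) (h.pos t ht) (hPb t ht)) g0 g0' gz gb
  · intro t ht
    obtain ⟨f1, f2⟩ := WcPert_key hc hcs hs ha ha' hss haa (hIt t ht) e5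
    exact WcPert_diag hB hC₀ hM₃ hc hη' hη h2 h3 e3 e4 f1 f2 (h.diag t ht) (hPP t ht).2
      (h.pos t ht) (hPb t ht) g0 g0' gz gb

theorem wc_pert {B c C₀ C₁ C₂ M₂ M₃ : ℝ} (hB : 1 ≤ B) (hc : 0 < c) (hC₀ : 1 ≤ C₀) (hC₁ : 1 ≤ C₁)
    (hC₂ : 1 ≤ C₂) (hM₂ : 1 ≤ M₂) (hM₃ : 1 ≤ M₃) :
    ∀ ε > 0, ∃ η' η : ℝ, 0 < η' ∧ η' ≤ ε ∧ 0 < η ∧ η ≤ η' ∧
      ∀ (μ₁ μ₂ s a x₁ x₂ p s' a' x₁' x₂' p' : ℝ) (P P' : ℝ → ℝ), |μ₁| ≤ 1 → |μ₂| ≤ 1 →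
      ContinuousOn P (Set.Icc (-1) 1) → ContinuousOn P' (Set.Icc (-1) 1) →
      WC C₀ C₁ C₂ M₂ M₃ μ₁ μ₂ s a x₁ x₂ p P → c ≤ s → |s| ≤ B → |x₁| ≤ B → |x₂| ≤ B → |p| ≤ B →
      |a| ≤ 1 / 2 → |a'| ≤ 1 / 2 → |s - s'| ≤ η → |a - a'| ≤ η → |x₁ - x₁'| ≤ η →
      |x₂ - x₂'| ≤ η → |p + η' - p'| ≤ η →
      (∀ t ∈ Set.Icc (-1 : ℝ) 1, P t ≤ P' t ∧ P' t ≤ P t + η) →
      WC C₀ (2 * C₁) (4 * C₂) (8 * M₂) (4 * M₃) μ₁ μ₂ s' a' x₁' x₂' p' P' := by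
  intro ε hε
  have hB0 : 0 < B := by linarith
  have hC0 : 0 < C₀ := by linarith
  obtain ⟨η', p1, p2, p3, p4⟩ : ∃ η' : ℝ, 0 < η' ∧ η' ≤ ε ∧ B * η' ≤ 1 / 10 ∧
      600 * B ^ 2 * η' ≤ c := by
    refine ⟨min ε (min (1 / (10 * B)) (c / (600 * B ^ 2))), by positivity, min_le_left _ _, ?_, ?_⟩
    · have : min ε (min (1 / (10 * B)) (c / (600 * B ^ 2))) ≤ 1 / (10 * B) :=
        (min_le_right _ _).trans (min_le_left _ _)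
      rw [le_div_iff₀ (by positivity)] at this
      linarith
    · have : min ε (min (1 / (10 * B)) (c / (600 * B ^ 2))) ≤ c / (600 * B ^ 2) :=
        (min_le_right _ _).trans (min_le_right _ _)
      rw [le_div_iff₀ (by positivity)] at this
      linarith
  obtain ⟨η, p5, p6⟩ : ∃ η : ℝ, 0 < η ∧ 100 * (C₀ * B) * η = η' :=
    ⟨η' / (100 * (C₀ * B)), by positivity, by field_simp⟩
  have hBη : 0 < B * η := mul_pos hB0 p5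
  have e1 : 100 * (B * η) ≤ η' := by
    have : 1 * (B * η) ≤ C₀ * (B * η) := mul_le_mul_of_nonneg_right hC₀ hBη.le
    linarith
  have e3 : 100 * η ≤ η' := by
    have : 1 * η ≤ B * η := mul_le_mul_of_nonneg_right hB p5.le
    linarith
  have e4 : η' ≤ 1 / 10 := by
    have : 1 * η' ≤ B * η' := mul_le_mul_of_nonneg_right hB p1.le
    linarith
  have e5 : η * (3 / 2) + B * η ≤ c / 8 := by
    have h7 : 1 * η' ≤ B ^ 2 * η' := mul_le_mul_of_nonneg_right (by nlinarith) p1.le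
    linarith
  refine ⟨η', η, p1, p2, p5, by linarith, ?_⟩
  intro μ₁ μ₂ s a x₁ x₂ p s' a' x₁' x₂' p' P P' hμ₁ hμ₂ hP hP' h hcs hs hx₁ hx₂ hp ha ha' hss haa
    hxx₁ hxx₂ hpp hPP
  exact WcPert_core hB hc hC₀ hC₁ hC₂ hM₂ hM₃ p1 p5 p3 p4 p6 e1 e3 e4 e5 μ₁ μ₂ s a x₁ x₂ p
    s' a' x₁' x₂' p' P P' hμ₁ hμ₂ hP hP' h hcs hs hx₁ hx₂ hp ha ha' hss haa hxx₁ hxx₂ hpp hPP

end Pool.Agent.helper12.BR
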