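import Pool.Agent.helper12.BR.StepP
import Pool.Agent.helper12.BR.BpPert
import Pool.Agent.helper12.BR.WcPert

/-!
# BR-StepA: one wave, uniform limits of trigonometric polynomials

PROOF.  `B` a common bound (`AP.bdd`, `AP2.bdd`), `B ≥ 1`; `K`-approximations.  Given `ε`, take `η₀` from `bp_pert` for `ε / 4` (bounds `2 B + 2`, `c / 2`, `N + 1`), `η', η` from `wc_pert` with `ε := η₀ / 8`, decrease `η`.
Take trigonometric polynomials `s', x₁', x₂'` within `η`, `p'` within `η` of `p + η'`, `a'` within `η` of `a` with `|a'| ≤ 1 / 2` (take `q / (1 + η)` for an approximation `q` of `a` within `η / 2`), and `pk` with `|P + η / 2 - polyC pk r| ≤ η / 2` on `[-1, 1]`, so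
`P ≤ polyC ≤ P + η`.  `wc_pert` gives `WC` for them, `bp_pert` gives `Bp m s' x₁' x₂' p' (N + ε / 4)`, `step_p` (with `C₀, 2 C₁, 4 C₂, 8 M₂, 4 M₃`) gives for `lam ≥ lam₀` `Bp` of the new fields built from the approximations with `N + ε / 2`;
these are within `C η` of the true new fields uniformly in `lam` (`|s (1 + a cs) - s' (1 + a' cs)| ≤ ...`), so `bp_pert` again (choose `η` small enough for it) gives `N + ε`.  Positivity of `p`, `p'`: `0 ≤ P ≤ C₀ p`.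
-/

set_option autoImplicit false

open MeasureTheory FourierTransform
open scoped ENNReal InnerProductSpace ComplexConjugate

namespace Pool.Agent.helper12.BR

open Pool.Agent.helper12.RT
open Pool.Agent.helper12.AI (beurlingSymbol)

variable {n : ℕ}

private theorem StepA_sa {B η s s' a a' t : ℝ} (hη : 0 ≤ η) (ht : |t| ≤ 1) (ha : |a| ≤ 1 / 2)
    (hB : 0 ≤ B) (hs' : |s'| ≤ B + 1) (h1 : |s - s'| ≤ η) (h2 : |a - a'| ≤ η) :
    |s * (a * t) - s' * (a' * t)| ≤ (B + 3 / 2) * η := by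
  have e : s * (a * t) - s' * (a' * t) = (s - s') * (a * t) + s' * ((a - a') * t) := by ring
  have h3 : |a * t| ≤ 1 / 2 := by
    rw [abs_mul]
    calc |a| * |t| ≤ 1 / 2 * 1 := mul_le_mul ha ht (abs_nonneg _) (by norm_num)
      _ = 1 / 2 := by norm_num
  have h4 : |(a - a') * t| ≤ η := by
    rw [abs_mul]
    calc |a - a'| * |t| ≤ η * 1 := mul_le_mul h2 ht (abs_nonneg _) hη
      _ = η := mul_one η
  have h5 : |(s - s') * (a * t)| ≤ η * (1 / 2) := by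
    rw [abs_mul]
    exact mul_le_mul h1 h3 (abs_nonneg _) hη
  have h6 : |s' * ((a - a') * t)| ≤ (B + 1) * η := by
    rw [abs_mul]
    exact mul_le_mul hs' h4 (abs_nonneg _) (by linarith)
  rw [e]
  calc |(s - s') * (a * t) + s' * ((a - a') * t)|
      ≤ |(s - s') * (a * t)| + |s' * ((a - a') * t)| := abs_add_le _ _
    _ ≤ η * (1 / 2) + (B + 1) * η := add_le_add h5 h6
    _ = (B + 3 / 2) * η := by ring

private theorem StepA_s {B η s s' a a' t : ℝ} (hη : 0 ≤ η) (ht : |t| ≤ 1) (ha : |a| ≤ 1 / 2)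
    (hB : 0 ≤ B) (hs' : |s'| ≤ B + 1) (h1 : |s - s'| ≤ η) (h2 : |a - a'| ≤ η) :
    |s' * (1 + a' * t) - s * (1 + a * t)| ≤ (B + 3) * η := by
  have h3 := StepA_sa hη ht ha hB hs' h1 h2
  have e : s' * (1 + a' * t) - s * (1 + a * t) =
      -((s - s') + (s * (a * t) - s' * (a' * t))) := by ring
  rw [e, abs_neg]
  have h4 := abs_add_le (s - s') (s * (a * t) - s' * (a' * t))
  nlinarith

private theorem StepA_x {B η s s' a a' t x x' μ : ℝ} (hη : 0 ≤ η) (ht : |t| ≤ 1)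
    (ha : |a| ≤ 1 / 2) (hB : 0 ≤ B) (hs' : |s'| ≤ B + 1) (h1 : |s - s'| ≤ η) (h2 : |a - a'| ≤ η)
    (hμ : |μ| ≤ 1) (hx : |x - x'| ≤ η) :
    |(x' + μ * (s' * (a' * t))) - (x + μ * (s * (a * t)))| ≤ (B + 3) * η := by
  have h3 := StepA_sa hη ht ha hB hs' h1 h2
  have e : (x' + μ * (s' * (a' * t))) - (x + μ * (s * (a * t))) =
      -((x - x') + μ * (s * (a * t) - s' * (a' * t))) := by ring
  have h5 : |μ * (s * (a * t) - s' * (a' * t))| ≤ (B + 3 / 2) * η := by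
    rw [abs_mul]
    calc |μ| * |s * (a * t) - s' * (a' * t)| ≤ 1 * ((B + 3 / 2) * η) :=
          mul_le_mul hμ h3 (abs_nonneg _) zero_le_one
      _ = (B + 3 / 2) * η := one_mul _
  rw [e, abs_neg]
  have h4 := abs_add_le (x - x') (μ * (s * (a * t) - s' * (a' * t)))
  nlinarith

private theorem StepA_bs {B s a t : ℝ} (ht : |t| ≤ 1) (ha : |a| ≤ 1 / 2) (hB : 0 ≤ B)
    (hs : |s| ≤ B + 1) : |s * (1 + a * t)| ≤ 2 * B + 2 := by
  have h3 : |a * t| ≤ 1 / 2 := by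
    rw [abs_mul]
    calc |a| * |t| ≤ 1 / 2 * 1 := mul_le_mul ha ht (abs_nonneg _) (by norm_num)
      _ = 1 / 2 := by norm_num
  have h4 : |1 + a * t| ≤ 3 / 2 := by
    have := abs_add_le 1 (a * t)
    rw [abs_one] at this
    linarith
  rw [abs_mul]
  calc |s| * |1 + a * t| ≤ (B + 1) * (3 / 2) := mul_le_mul hs h4 (abs_nonneg _) (by linarith)
    _ ≤ 2 * B + 2 := by linarith

private theorem StepA_bx {B s a t x μ : ℝ} (ht : |t| ≤ 1) (ha : |a| ≤ 1 / 2) (hB : 0 ≤ B)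
    (hs : |s| ≤ B + 1) (hx : |x| ≤ B + 1) (hμ : |μ| ≤ 1) :
    |x + μ * (s * (a * t))| ≤ 2 * B + 2 := by
  have h3 : |a * t| ≤ 1 / 2 := by
    rw [abs_mul]
    calc |a| * |t| ≤ 1 / 2 * 1 := mul_le_mul ha ht (abs_nonneg _) (by norm_num)
      _ = 1 / 2 := by norm_num
  have h4 : |μ * (s * (a * t))| ≤ 1 * ((B + 1) * (1 / 2)) := by
    rw [abs_mul, abs_mul s]
    exact mul_le_mul hμ (mul_le_mul hs h3 (abs_nonneg _) (by linarith)) (by positivity)
      zero_le_one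
  have h5 := abs_add_le x (μ * (s * (a * t)))
  linarith

private theorem StepA_lower {c s a t : ℝ} (hc : 0 < c) (ht : |t| ≤ 1) (ha : |a| ≤ 1 / 2)
    (hs : c / 2 ≤ s) : c / 4 ≤ s * (1 + a * t) := by
  have h3 : |a * t| ≤ 1 / 2 := by
    rw [abs_mul]
    calc |a| * |t| ≤ 1 / 2 * 1 := mul_le_mul ha ht (abs_nonneg _) (by norm_num)
      _ = 1 / 2 := by norm_num
  have h4 := (abs_le.1 h3).1
  have h5 : 1 / 2 ≤ 1 + a * t := by linarith
  nlinarith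

private theorem StepA_a {η a q : ℝ} (hη : 0 < η) (ha : |a| ≤ 1 / 2) (hq : |a - q| ≤ η / 2) :
    |q * (1 + η)⁻¹| ≤ 1 / 2 ∧ |a - q * (1 + η)⁻¹| ≤ η := by
  have h1 : (0 : ℝ) < 1 + η := by linarith
  have h2 : |q| ≤ 1 / 2 * (1 + η) := by
    have := abs_sub_abs_le_abs_sub q a
    rw [abs_sub_comm] at this
    linarith
  have h3 : |q * (1 + η)⁻¹| ≤ 1 / 2 := by
    rw [abs_mul, abs_of_pos (inv_pos.2 h1), ← div_eq_mul_inv, div_le_iff₀ h1]
    exact h2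
  refine ⟨h3, ?_⟩
  have e : a - q * (1 + η)⁻¹ = (a - q) + (q * (1 + η)⁻¹) * η := by
    field_simp
    ring
  rw [e]
  have h4 := abs_add_le (a - q) ((q * (1 + η)⁻¹) * η)
  have h5 : |(q * (1 + η)⁻¹) * η| ≤ 1 / 2 * η := by
    rw [abs_mul, abs_of_pos hη]
    exact mul_le_mul_of_nonneg_right h3 hη.le
  linarith

theorem step_ap {L : ℝ} (hL : 0 ≤ L) {m : E n → ℂ} (hm : SymC L m) {s a x₁ x₂ p : E n → ℝ}
    {P : E n → ℝ → ℝ} (hs : AP s) (ha : AP a) (hx₁ : AP x₁) (hx₂ : AP x₂) (hp : AP p)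
    (hP : AP2 P) {c : ℝ} (hc : 0 < c) (hs0 : ∀ x, c ≤ s x) (ha1 : ∀ x, |a x| ≤ 1 / 2) {d : E n}
    (hd : ‖d‖ = 1) {C₀ C₁ C₂ M₂ M₃ N : ℝ} (hC₀ : 1 ≤ C₀) (hC₁ : 1 ≤ C₁) (hC₂ : 1 ≤ C₂)
    (hM₂ : 1 ≤ M₂) (hM₃ : 1 ≤ M₃) (hN : 8 * M₂ + 4 * M₃ ≤ N) (hN' : 80 * C₀ * C₁ + 8 * C₂ ≤ N)
    (hwc : ∀ x, WC C₀ C₁ C₂ M₂ M₃ (m d).re (m d).im (s x) (a x) (x₁ x) (x₂ x) (p x) (P x))
    (hB : Bp m s x₁ x₂ p N) :
    ∀ ε > 0, ∃ lam₀ : ℝ, ∀ lam ≥ lam₀,
      Bp m (fun x => s x * (1 + a x * cs d lam x))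
        (fun x => x₁ x + (m d).re * (s x * (a x * cs d lam x)))
        (fun x => x₂ x + (m d).im * (s x * (a x * cs d lam x)))
        (fun x => P x (cs d lam x)) (N + ε) := by
  intro ε hε
  obtain ⟨Bs, hBs⟩ := hs.bdd
  obtain ⟨B1, hB1⟩ := hx₁.bdd
  obtain ⟨B2, hB2⟩ := hx₂.bdd
  obtain ⟨Bp', hBp'⟩ := hp.bdd
  obtain ⟨CP, hCP⟩ := hP.bdd
  obtain ⟨B, hBdef⟩ : ∃ B : ℝ, B = 1 + |Bs| + |B1| + |B2| + |Bp'| := ⟨_, rfl⟩
  have i1 := abs_nonneg Bs
  have i2 := abs_nonneg B1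
  have i3 := abs_nonneg B2
  have i4 := abs_nonneg Bp'
  have i5 := abs_nonneg CP
  have j1 := le_abs_self Bs
  have j2 := le_abs_self B1
  have j3 := le_abs_self B2
  have j4 := le_abs_self Bp'
  have j5 := le_abs_self CP
  have hB1' : 1 ≤ B := by linarith
  have hB0 : 0 ≤ B := by linarith
  have bs : ∀ x, |s x| ≤ B := fun x => (hBs x).trans (by linarith)
  have b1 : ∀ x, |x₁ x| ≤ B := fun x => (hB1 x).trans (by linarith)
  have b2 : ∀ x, |x₂ x| ≤ B := fun x => (hB2 x).trans (by linarith)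
  have bp : ∀ x, |p x| ≤ B := fun x => (hBp' x).trans (by linarith)
  have hN0 : 0 ≤ N := by linarith
  have hp0 : ∀ x, 0 ≤ p x := by
    intro x
    have h0 : (0 : ℝ) ∈ Set.Icc (-1 : ℝ) 1 := ⟨by norm_num, by norm_num⟩
    have h1 := (hwc x).pos 0 h0
    have h2 := (hwc x).le 0 h0
    by_contra hneg
    push Not at hneg
    nlinarith
  have hμ₁ : |(m d).re| ≤ 1 := hm.re.bdd d
  have hμ₂ : |(m d).im| ≤ 1 := hm.im.bdd d
  obtain ⟨η₀, hη₀, H0⟩ := bp_pert (n := n) (L := L) hB0 hc hN0 (ε / 4) (by positivity)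
  obtain ⟨η₁, hη₁, H1⟩ := bp_pert (n := n) (L := L) (B := 2 * B + 3 + |CP|) (c := c / 4)
    (N := N + ε / 2) (by linarith) (by positivity) (by linarith) (ε / 2) (by positivity)
  obtain ⟨η', ηw, hη', hη'0, hηw, hηw', Hw⟩ := wc_pert hB1' hc hC₀ hC₁ hC₂ hM₂ hM₃ (η₀ / 8)
    (by positivity)
  obtain ⟨η, hη, g1, g2, g3, g4⟩ : ∃ η : ℝ, 0 < η ∧ η ≤ ηw ∧ (B + 3) * η ≤ η₁ ∧ η ≤ c / 2 ∧
      η ≤ 1 := by
    have hB3 : 0 < B + 3 := by linarith
    refine ⟨min ηw (min (η₁ / (B + 3)) (min (c / 2) 1)), ?_, min_le_left _ _, ?_, ?_, ?_⟩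
    · exact lt_min hηw (lt_min (by positivity) (lt_min (by positivity) one_pos))
    · have h1 : min ηw (min (η₁ / (B + 3)) (min (c / 2) 1)) ≤ η₁ / (B + 3) :=
        (min_le_right _ _).trans (min_le_left _ _)
      rw [le_div_iff₀ hB3] at h1
      linarith
    · exact (min_le_right _ _).trans ((min_le_right _ _).trans (min_le_left _ _))
    · exact (min_le_right _ _).trans ((min_le_right _ _).trans (min_le_right _ _))
  obtain ⟨Ks, s', hs'T, hs'⟩ := hs η hη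
  obtain ⟨Ka, q, hqT, hq⟩ := ha (η / 2) (by positivity)
  obtain ⟨K1, x₁', hx₁'T, hx₁'⟩ := hx₁ η hη
  obtain ⟨K2, x₂', hx₂'T, hx₂'⟩ := hx₂ η hη
  obtain ⟨Kp, p', hp'T, hp'⟩ := (hp.add (AP.const η')) η hη
  obtain ⟨KP, r, pk, hpkT, hpk⟩ := (hP.add (AP2.of_ap (AP.const (η / 2)))) (η / 2) (by positivity)
  have haT : TPr (Ka + 0) fun x => q x * (1 + η)⁻¹ := hqT.mul (TPr.const le_rfl _)
  obtain ⟨a', ha'def⟩ : ∃ a' : E n → ℝ, a' = fun x => q x * (1 + η)⁻¹ := ⟨_, rfl⟩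
  rw [← ha'def] at haT
  have ha' : ∀ x, |a' x| ≤ 1 / 2 ∧ |a x - a' x| ≤ η := by
    intro x
    rw [ha'def]
    exact StepA_a hη (ha1 x) (hq x)
  obtain ⟨K, hKdef⟩ : ∃ K : ℝ, K = |Ks| + |Ka| + |K1| + |K2| + |Kp| + |KP| := ⟨_, rfl⟩
  have k1 := abs_nonneg Ks
  have k2 := abs_nonneg Ka
  have k3 := abs_nonneg K1
  have k4 := abs_nonneg K2
  have k5 := abs_nonneg Kp
  have k6 := abs_nonneg KP
  have l1 := le_abs_self Ks
  have l2 := le_abs_self Ka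
  have l3 := le_abs_self K1
  have l4 := le_abs_self K2
  have l5 := le_abs_self Kp
  have l6 := le_abs_self KP
  have hK0 : 0 ≤ K := by linarith
  have hsK : TPr K s' := hs'T.mono (by linarith)
  have haK : TPr K a' := haT.mono (by linarith)
  have h1K : TPr K x₁' := hx₁'T.mono (by linarith)
  have h2K : TPr K x₂' := hx₂'T.mono (by linarith)
  have hpK : TPr K p' := hp'T.mono (by linarith)
  have hpkK : ∀ k, TPr K (pk k) := fun k => (hpkT k).mono (by linarith)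
  have hPP : ∀ x, ∀ t ∈ Set.Icc (-1 : ℝ) 1, P x t ≤ polyC pk r x t ∧
      polyC pk r x t ≤ P x t + η := by
    intro x t ht
    have h1 := abs_le.1 (hpk x t ht)
    constructor <;> linarith [h1.1, h1.2]
  have hP0 : ∀ x, ∀ t ∈ Set.Icc (-1 : ℝ) 1, 0 ≤ P x t := fun x => (hwc x).pos
  have hcont : ∀ x, ContinuousOn (polyC pk r x) (Set.Icc (-1) 1) := by
    intro x
    apply Continuous.continuousOn
    unfold polyC
    fun_prop
  have hwc' : ∀ x, WC C₀ (2 * C₁) (4 * C₂) (8 * M₂) (4 * M₃) (m d).re (m d).im (s' x) (a' x)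
      (x₁' x) (x₂' x) (p' x) (polyC pk r x) := by
    intro x
    exact Hw _ _ _ _ _ _ _ _ _ _ _ _ _ _ hμ₁ hμ₂ (hP.contOn x) (hcont x) (hwc x) (hs0 x)
      (bs x) (b1 x) (b2 x) (bp x) (ha1 x) (ha' x).1 ((hs' x).trans g1) ((ha' x).2.trans g1)
      ((hx₁' x).trans g1) ((hx₂' x).trans g1) ((hp' x).trans g1)
      (fun t ht => ⟨(hPP x t ht).1, (hPP x t ht).2.trans (by linarith)⟩)
  have hp'0 : ∀ x, 0 ≤ p' x := by
    intro x
    have h1 := abs_le.1 (hp' x)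
    have h2 := hp0 x
    linarith [h1.2]
  have hB' : Bp m s' x₁' x₂' p' (N + ε / 4) := by
    refine H0 m hm s s' x₁ x₁' x₂ x₂' p p' hs.bmr hsK.bmr hx₁.bmr h1K.bmr hx₂.bmr h2K.bmr hp.bmr
      hpK.bmr (fun x => ⟨bs x, b1 x, b2 x, bp x⟩) hs0 hp0 hp'0 (fun x => ⟨?_, ?_, ?_, ?_⟩) hB
    · exact (hs' x).trans (by linarith)
    · exact (hx₁' x).trans (by linarith)
    · exact (hx₂' x).trans (by linarith)
    · have h1 := abs_le.1 (hp' x)
      rw [abs_le]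
      constructor <;> linarith [h1.1, h1.2]
  have hs'c : ∀ x, c / 2 ≤ s' x := by
    intro x
    have h1 := abs_le.1 (hs' x)
    have h2 := hs0 x
    linarith [h1.2]
  obtain ⟨lam₀, hlam₀⟩ := step_p hL hm r hK0 hsK haK h1K h2K hpK hpkK (half_pos hc) hs'c
    (fun x => (ha' x).1) hd (C₀ := C₀) (C₁ := 2 * C₁) (C₂ := 4 * C₂) (M₂ := 8 * M₂)
    (M₃ := 4 * M₃) (N := N + ε / 4) (by linarith) (by linarith) (by linarith) (by linarith)
    (by linarith) (by linarith) (by nlinarith) hwc' hB' (ε / 4) (by positivity)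
  refine ⟨lam₀, fun lam hlam => ?_⟩
  have hst := hlam₀ lam hlam
  have hct : ∀ x, |RT.cs d lam x| ≤ 1 := cs_abs d lam
  have hct' : ∀ x, RT.cs d lam x ∈ Set.Icc (-1 : ℝ) 1 := fun x => abs_le.1 (hct x)
  have bs' : ∀ x, |s' x| ≤ B + 1 := by
    intro x
    have h1 := abs_sub_abs_le_abs_sub (s' x) (s x)
    rw [abs_sub_comm] at h1
    linarith [hs' x, bs x]
  have b1' : ∀ x, |x₁' x| ≤ B + 1 := by
    intro x
    have h1 := abs_sub_abs_le_abs_sub (x₁' x) (x₁ x)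
    rw [abs_sub_comm] at h1
    linarith [hx₁' x, b1 x]
  have b2' : ∀ x, |x₂' x| ≤ B + 1 := by
    intro x
    have h1 := abs_sub_abs_le_abs_sub (x₂' x) (x₂ x)
    rw [abs_sub_comm] at h1
    linarith [hx₂' x, b2 x]
  have hcsAP : AP (RT.cs d lam) := AP.cs hd lam
  have hs'AP := AP.of_tpr hsK
  have ha'AP := AP.of_tpr haK
  have h1'AP := AP.of_tpr h1K
  have h2'AP := AP.of_tpr h2K
  have hone : AP fun _ : E n => (1 : ℝ) := AP.const 1
  have A1 : AP fun x => s x * (1 + a x * RT.cs d lam x) := hs.mul (hone.add (ha.mul hcsAP))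
  have A1' : AP fun x => s' x * (1 + a' x * RT.cs d lam x) :=
    hs'AP.mul (hone.add (ha'AP.mul hcsAP))
  have A2 : AP fun x => x₁ x + (m d).re * (s x * (a x * RT.cs d lam x)) :=
    hx₁.add ((AP.const _).mul (hs.mul (ha.mul hcsAP)))
  have A2' : AP fun x => x₁' x + (m d).re * (s' x * (a' x * RT.cs d lam x)) :=
    h1'AP.add ((AP.const _).mul (hs'AP.mul (ha'AP.mul hcsAP)))
  have A3 : AP fun x => x₂ x + (m d).im * (s x * (a x * RT.cs d lam x)) :=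
    hx₂.add ((AP.const _).mul (hs.mul (ha.mul hcsAP)))
  have A3' : AP fun x => x₂' x + (m d).im * (s' x * (a' x * RT.cs d lam x)) :=
    h2'AP.add ((AP.const _).mul (hs'AP.mul (ha'AP.mul hcsAP)))
  have A4 : AP fun x => P x (RT.cs d lam x) := hP.cs hd lam
  obtain ⟨K', hK'⟩ := polyC_tpr hpkK r hd lam
  have A4' : AP fun x => polyC pk r x (RT.cs d lam x) := AP.of_tpr hK'
  have e : N + ε = N + ε / 2 + ε / 2 := by ring
  rw [e]
  refine H1 m hm _ _ _ _ _ _ _ _ A1'.bmr A1.bmr A2'.bmr A2.bmr A3'.bmr A3.bmr A4'.bmr A4.bmr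
    (fun x => ⟨?_, ?_, ?_, ?_⟩) (fun x => ?_) (fun x => ?_) (fun x => ?_)
    (fun x => ⟨?_, ?_, ?_, ?_⟩) ?_
  · exact (StepA_bs (hct x) (ha' x).1 hB0 (bs' x)).trans (by linarith)
  · exact (StepA_bx (hct x) (ha' x).1 hB0 (bs' x) (b1' x) hμ₁).trans (by linarith)
  · exact (StepA_bx (hct x) (ha' x).1 hB0 (bs' x) (b2' x) hμ₂).trans (by linarith)
  · have h1 := hPP x _ (hct' x)
    have h2 := hP0 x _ (hct' x)
    have h3 := (abs_le.1 (hCP x _ (hct' x))).2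
    rw [abs_le]
    constructor <;> linarith [h1.1, h1.2]
  · exact StepA_lower hc (hct x) (ha' x).1 (hs'c x)
  · exact (hP0 x _ (hct' x)).trans (hPP x _ (hct' x)).1
  · exact hP0 x _ (hct' x)
  · exact (StepA_s hη.le (hct x) (ha1 x) hB0 (bs' x) (hs' x) (ha' x).2).trans g2
  · exact (StepA_x hη.le (hct x) (ha1 x) hB0 (bs' x) (hs' x) (ha' x).2 hμ₁ (hx₁' x)).trans g2
  · exact (StepA_x hη.le (hct x) (ha1 x) hB0 (bs' x) (hs' x) (ha' x).2 hμ₂ (hx₂' x)).trans g2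
  · have h1 := hPP x _ (hct' x)
    have h2 : η ≤ η₁ := by nlinarith
    rw [abs_le]
    constructor <;> linarith [h1.1, h1.2]
  · have e : N + ε / 4 + ε / 4 = N + ε / 2 := by ring
    rw [e] at hst
    exact hst

end Pool.Agent.helper12.BR
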