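import Pool.Agent.helper12.BR.LowP
import Pool.Agent.helper12.BR.HighP
import Pool.Agent.helper12.BR.CommP
import Pool.Agent.helper12.RT.Step

/-!
# BR-StepP: one wave, trigonometric polynomials

PROOF: as `step` in `RT/Step.lean` (copy its proof; `low_p`, `high_p`, `comm_poly` replace `low`, `high`, `comm_one`).  `s₁`, `x₁'`, `x₂'`, `P₁` are all of the form `polyC qk r' x (cs d lam x)` with trigonometric polynomials `qk` (`s₁`: `qk 0 = s`, `qk 1 = s a`), so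
their commutators with the cut-offs `Tr χ` (`exists_cut`) are at most `(C / ρ) ‖u‖`; `T m` commutes with `Tr χ` (`T_split`, `Tr_comm`, or `T_mul`).  So `Tr χ (D' u) = D' (Tr χ u) + r`, `‖r‖ ≤ (C / ρ) ‖u‖`.  With `v = D' u`:
`Q P₁ v ≤ Q P₁ (X_L v) + Q P₁ (X_H v) + (C / ρ) ‖v‖² ≤ Q P₁ (D' (X_L u)) + Q P₁ (D' (X_H u)) + (C / ρ) ‖u‖² ≤ N Q s₁ (X_L u) + N Q s₁ (X_H u) + (ε' + C / ρ) ‖u‖² ≤ N Q s₁ u + (ε' + C / ρ) ‖u‖²`, `‖u‖² ≤ (2 / c) Q s₁ u`.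
First choose `ρ`, then `lam₀`.
-/

set_option autoImplicit false

open MeasureTheory FourierTransform
open scoped ENNReal InnerProductSpace ComplexConjugate

namespace Pool.Agent.helper12.BR

open Pool.Agent.helper12.RT
open Pool.Agent.helper12.AI (beurlingSymbol)

variable {n : ℕ}

/-- the commutator of `χ` and `p₀ + p₁ cs` -/
private theorem StepP_comm_one {K : ℝ} {p₀ p₁ : E n → ℝ} (h0 : TPr K p₀) (h1 : TPr K p₁) :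
    ∃ C : ℝ, 0 ≤ C ∧ ∀ (d : E n) (lam : ℝ) (χ : E n → ℝ) (l : ℝ), ‖d‖ = 1 → BMr χ → 0 ≤ l →
      (∀ ξ ζ, |χ ξ - χ ζ| ≤ l * ‖ξ - ζ‖) → (∀ ξ, χ (ξ + lam • d) = χ ξ) →
      ∀ u : H n, ‖Tr χ (Mr (fun x => p₀ x + p₁ x * cs d lam x) u) -
        Mr (fun x => p₀ x + p₁ x * cs d lam x) (Tr χ u)‖ ≤ C * l * ‖u‖ := by
  obtain ⟨C, hC, hc⟩ := comm_TPr h0
  obtain ⟨C', hC', hc'⟩ := comm_cs h1
  refine ⟨C + C', by positivity, ?_⟩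
  intro d lam χ l hd hχ hl hlip hper u
  have e1 := hc χ l hχ hl hlip u
  have e2 := hc' d lam χ l hχ hl hlip hper u
  have hb : BMr fun x => p₁ x * cs d lam x := h1.bmr.mul (cs_tpr hd lam).bmr
  rw [Mr_add h0.bmr hb, Mr_add h0.bmr hb, map_add]
  have : Tr χ (Mr p₀ u) + Tr χ (Mr (fun x => p₁ x * cs d lam x) u) -
      (Mr p₀ (Tr χ u) + Mr (fun x => p₁ x * cs d lam x) (Tr χ u)) =
      (Tr χ (Mr p₀ u) - Mr p₀ (Tr χ u)) +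
      (Tr χ (Mr (fun x => p₁ x * cs d lam x) u) - Mr (fun x => p₁ x * cs d lam x) (Tr χ u)) := by
    abel
  rw [this]
  calc _ ≤ _ := norm_add_le _ _
    _ ≤ C * l * ‖u‖ + C' * l * ‖u‖ := add_le_add e1 e2
    _ = _ := by ring

/-- one half of the localisation formula -/
private theorem StepP_loc_half {p χ : E n → ℝ} (hp : BMr p) (hχ : BMr χ)
    (h1 : ∀ ξ, |χ ξ| ≤ 1) {κ : ℝ} (hκ : 0 ≤ κ)
    (hc : ∀ u : H n, ‖Tr χ (Mr p u) - Mr p (Tr χ u)‖ ≤ κ * ‖u‖) (v : H n) :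
    |(⟪v, Mr p (Tr χ (Tr χ v))⟫_ℂ).re - Q p (Tr χ v)| ≤ κ * ‖v‖ ^ 2 := by
  rw [Q_eq_inner hp]
  have e1 : ⟪Tr χ v, Mr p (Tr χ v)⟫_ℂ = ⟪v, Tr χ (Mr p (Tr χ v))⟫_ℂ := Tr_inner hχ _ _
  rw [e1, ← Complex.sub_re, ← inner_sub_right]
  have e2 : ‖Tr χ v‖ ≤ 1 * ‖v‖ := Tr_norm_le hχ h1 v
  rw [one_mul] at e2
  calc _ ≤ ‖⟪v, Mr p (Tr χ (Tr χ v)) - Tr χ (Mr p (Tr χ v))⟫_ℂ‖ := Complex.abs_re_le_norm _
    _ ≤ ‖v‖ * ‖Mr p (Tr χ (Tr χ v)) - Tr χ (Mr p (Tr χ v))‖ := norm_inner_le_norm _ _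
    _ = ‖v‖ * ‖Tr χ (Mr p (Tr χ v)) - Mr p (Tr χ (Tr χ v))‖ := by rw [norm_sub_rev]
    _ ≤ ‖v‖ * (κ * ‖Tr χ v‖) := by gcongr; exact hc _
    _ ≤ ‖v‖ * (κ * ‖v‖) := by gcongr
    _ = _ := by ring

private theorem StepP_loc {p χL χH : E n → ℝ} (hp : BMr p) (hL : BMr χL) (hH : BMr χH)
    (hL1 : ∀ ξ, |χL ξ| ≤ 1) (hH1 : ∀ ξ, |χH ξ| ≤ 1)
    (hLH : ∀ ξ, χL ξ * χL ξ + χH ξ * χH ξ = 1) {κ : ℝ}
    (hκ : 0 ≤ κ) (hcL : ∀ u : H n, ‖Tr χL (Mr p u) - Mr p (Tr χL u)‖ ≤ κ * ‖u‖)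
    (hcH : ∀ u : H n, ‖Tr χH (Mr p u) - Mr p (Tr χH u)‖ ≤ κ * ‖u‖) (v : H n) :
    |Q p v - (Q p (Tr χL v) + Q p (Tr χH v))| ≤ 2 * κ * ‖v‖ ^ 2 := by
  have e0 : v = Tr χL (Tr χL v) + Tr χH (Tr χH v) := by
    rw [← Tr_mul hL hL, ← Tr_mul hH hH, ← Tr_add (hL.mul hL) (hH.mul hH)]
    have : (fun ξ => χL ξ * χL ξ + χH ξ * χH ξ) = fun _ : E n => (1 : ℝ) := funext hLH
    rw [this, Tr_const]
    simp
  have e1 : Q p v = (⟪v, Mr p (Tr χL (Tr χL v))⟫_ℂ).re + (⟪v, Mr p (Tr χH (Tr χH v))⟫_ℂ).re := by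
    rw [Q_eq_inner hp, ← Complex.add_re, ← inner_add_right, ← map_add, ← e0]
  have e2 := StepP_loc_half hp hL hL1 hκ hcL v
  have e3 := StepP_loc_half hp hH hH1 hκ hcH v
  rw [e1]
  rw [abs_le] at *
  constructor <;> linarith [e2.1, e2.2, e3.1, e3.2]

/-- `T m` commutes with the cut-offs -/
private theorem StepP_Tcomm {m : E n → ℂ} (hm : BM m) {χ : E n → ℝ} (hχ : BMr χ) (u : H n) :
    Tr χ (T m u) = T m (Tr χ u) := by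
  unfold Tr
  rw [← T_mul hχ.bm hm, ← T_mul hm hχ.bm]
  congr 2
  funext ξ
  ring

/-- the cut-offs and the operator `Dx` -/
private theorem StepP_comm {L : ℝ} {m : E n → ℂ} (hm : SymC L m) {s y₁ y₂ χ : E n → ℝ}
    (hχ : BMr χ) {κ : ℝ} (hs : ∀ u : H n, ‖Tr χ (Mr s u) - Mr s (Tr χ u)‖ ≤ κ * ‖u‖)
    (h₁ : ∀ u : H n, ‖Tr χ (Mr y₁ u) - Mr y₁ (Tr χ u)‖ ≤ κ * ‖u‖)
    (h₂ : ∀ u : H n, ‖Tr χ (Mr y₂ u) - Mr y₂ (Tr χ u)‖ ≤ κ * ‖u‖) (u : H n) :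
    ‖Tr χ (Dx m s y₁ y₂ u) - Dx m s y₁ y₂ (Tr χ u)‖ ≤ 4 * κ * ‖u‖ := by
  have e1 : Tr χ (Dx m s y₁ y₂ u) - Dx m s y₁ y₂ (Tr χ u) =
      T m (Tr χ (Mr s u) - Mr s (Tr χ u)) - ((Tr χ (Mr y₁ u) - Mr y₁ (Tr χ u)) +
        Complex.I • (Tr χ (Mr y₂ u) - Mr y₂ (Tr χ u))) := by
    rw [Dx, Dx, map_sub, map_add, map_smul, StepP_Tcomm hm.bm hχ, map_sub, smul_sub]
    abel
  rw [e1]
  have n1 : ‖T m (Tr χ (Mr s u) - Mr s (Tr χ u))‖ ≤ 2 * (κ * ‖u‖) :=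
    (T_norm2 hm _).trans (mul_le_mul_of_nonneg_left (hs u) (by norm_num))
  have n2 : ‖(Tr χ (Mr y₁ u) - Mr y₁ (Tr χ u)) +
      Complex.I • (Tr χ (Mr y₂ u) - Mr y₂ (Tr χ u))‖ ≤ κ * ‖u‖ + κ * ‖u‖ := by
    refine (norm_add_le _ _).trans (add_le_add (h₁ u) ?_)
    rw [norm_smul, Complex.norm_I, one_mul]
    exact h₂ u
  calc _ ≤ _ := norm_sub_le _ _
    _ ≤ 2 * (κ * ‖u‖) + (κ * ‖u‖ + κ * ‖u‖) := add_le_add n1 n2
    _ = _ := by ring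

theorem step_p {L : ℝ} (hL : 0 ≤ L) {m : E n → ℂ} (hm : SymC L m) {K : ℝ}
    {s a x₁ x₂ p : E n → ℝ} {pk : ℕ → E n → ℝ} (r : ℕ) (hK : 0 ≤ K) (hs : TPr K s) (ha : TPr K a)
    (hx₁ : TPr K x₁) (hx₂ : TPr K x₂) (hp : TPr K p) (hpk : ∀ k, TPr K (pk k)) {c : ℝ}
    (hc : 0 < c) (hs0 : ∀ x, c ≤ s x) (ha1 : ∀ x, |a x| ≤ 1 / 2) {d : E n} (hd : ‖d‖ = 1)
    {C₀ C₁ C₂ M₂ M₃ N : ℝ} (hC₀ : 0 < C₀) (hC₁ : 0 < C₁) (hC₂ : 0 ≤ C₂) (hM₂ : 0 ≤ M₂)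
    (hM₃ : 0 ≤ M₃) (hN : M₂ + M₃ ≤ N) (hN' : 40 * C₀ * C₁ + 2 * C₂ ≤ N)
    (hwc : ∀ x, WC C₀ C₁ C₂ M₂ M₃ (m d).re (m d).im (s x) (a x) (x₁ x) (x₂ x) (p x)
      (polyC pk r x)) (hB : Bp m s x₁ x₂ p N) :
    ∀ ε > 0, ∃ lam₀ : ℝ, ∀ lam ≥ lam₀,
      Bp m (fun x => s x * (1 + a x * cs d lam x))
        (fun x => x₁ x + (m d).re * (s x * (a x * cs d lam x)))
        (fun x => x₂ x + (m d).im * (s x * (a x * cs d lam x)))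
        (fun x => polyC pk r x (cs d lam x)) (N + ε) := by
  intro ε hε
  have hN0 : 0 ≤ N := by linarith
  have hs00 : ∀ x, 0 ≤ s x := fun x => hc.le.trans (hs0 x)
  obtain ⟨Ch, ρ₀, hCh, hρ₀, hhigh⟩ := high_p hL hm r hK hs ha hx₁ hx₂ hp hpk hs00 ha1 hd hC₀ hC₁
    hN' hwc
  -- the commutator constants
  have hsa : TPr (K + K) fun x => s x * a x := hs.mul ha
  have hm1 : TPr (K + K) fun x => (m d).re * (s x * a x) :=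
    ((TPr.const (n := n) (le_refl (0 : ℝ)) (m d).re).mul hsa).mono (by simp)
  have hm2 : TPr (K + K) fun x => (m d).im * (s x * a x) :=
    ((TPr.const (n := n) (le_refl (0 : ℝ)) (m d).im).mul hsa).mono (by simp)
  have hKK : K ≤ K + K := by linarith
  obtain ⟨Cs, hCs, hcs⟩ := StepP_comm_one (hs.mono hKK) hsa
  obtain ⟨Cx, hCx, hcx⟩ := StepP_comm_one (hx₁.mono hKK) hm1
  obtain ⟨Cy, hCy, hcy⟩ := StepP_comm_one (hx₂.mono hKK) hm2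
  obtain ⟨Cp, hCp, hcp⟩ := comm_poly hpk r
  obtain ⟨_, S0, hS0⟩ := hs.bmr
  obtain ⟨_, X0, hX0⟩ := hx₁.bmr
  obtain ⟨_, Y0, hY0⟩ := hx₂.bmr
  obtain ⟨_, P0, hP0⟩ := hp.bmr
  set B : ℝ := 2 * |S0| + |X0| + |Y0| with hBdef
  have hB0 : 0 ≤ B := by positivity
  set S : ℝ := 4 * B with hSdef
  set W : ℝ := C₀ * |P0| with hWdef
  have hS : 0 ≤ S := by positivity
  have hW : 0 ≤ W := by positivity
  set Ck : ℝ := 4 * (Cs + Cx + Cy + Cp) with hCk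
  have hCk0 : 0 ≤ Ck := by positivity
  set A : ℝ := 2 * N * Ck + Ch + 2 * Ck * S ^ 2 + 16 * W * S * Ck + 32 * W * Ck ^ 2 with hA
  have hA0 : 0 ≤ A := by positivity
  set ρ : ℝ := max ρ₀ (A / (c * ε / 4)) with hρdef
  have hρ1 : ρ₀ ≤ ρ := le_max_left _ _
  have hρ2 : 1 ≤ ρ := hρ₀.trans hρ1
  have hρ : 0 < ρ := by linarith
  have hAρ : A / ρ ≤ c * ε / 4 := by
    rw [div_le_iff₀ hρ]
    have : A / (c * ε / 4) ≤ ρ := le_max_right _ _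
    rwa [div_le_iff₀ (by positivity), mul_comm] at this
  obtain ⟨lam₁, hlow⟩ := low_p hL hm r hK hs ha hx₁ hx₂ hp hpk hc hs0 ha1 hd hM₂ hM₃ hN hwc hB
    (c * ε / 4) (by positivity) ρ hρ
  refine ⟨max lam₁ ρ, ?_⟩
  intro lam hlam u
  have hlam1 : lam ≥ lam₁ := (le_max_left _ _).trans hlam
  have hlam2 : lam ≥ ρ := (le_max_right _ _).trans hlam
  obtain ⟨χL, χH, bL, bH, L1, H1, lipL, lipH, perL, perH, LH, sL, sH⟩ :=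
    exists_cut (n := n) hd (lam := lam) hρ
  set s₁ : E n → ℝ := fun x => s x * (1 + a x * cs d lam x) with hs₁
  set y₁ : E n → ℝ := fun x => x₁ x + (m d).re * (s x * (a x * cs d lam x)) with hy₁
  set y₂ : E n → ℝ := fun x => x₂ x + (m d).im * (s x * (a x * cs d lam x)) with hy₂
  set P : E n → ℝ := fun x => polyC pk r x (cs d lam x) with hP
  have hs₁' : s₁ = fun x => s x + (s x * a x) * cs d lam x := by
    funext x; rw [hs₁]; ring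
  have hy₁' : y₁ = fun x => x₁ x + ((m d).re * (s x * a x)) * cs d lam x := by
    funext x; rw [hy₁]; ring
  have hy₂' : y₂ = fun x => x₂ x + ((m d).im * (s x * a x)) * cs d lam x := by
    funext x; rw [hy₂]; ring
  have hcsb : BMr (cs d lam : E n → ℝ) := (cs_tpr hd lam).bmr
  have bs₁ : BMr s₁ := hs.bmr.mul ((BMr.const 1).add (ha.bmr.mul hcsb))
  have by₁ : BMr y₁ := hx₁.bmr.add ((BMr.const _).mul (hs.bmr.mul (ha.bmr.mul hcsb)))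
  have by₂ : BMr y₂ := hx₂.bmr.add ((BMr.const _).mul (hs.bmr.mul (ha.bmr.mul hcsb)))
  obtain ⟨K', hK'⟩ := polyC_tpr hpk r hd lam
  have bP : BMr P := hK'.bmr
  have hcI : ∀ x : E n, cs d lam x ∈ Set.Icc (-1 : ℝ) 1 := fun x => abs_le.1 (cs_abs d lam x)
  have hPn : ∀ x, 0 ≤ P x := fun x => (hwc x).pos _ (hcI x)
  have hac : ∀ x, |a x * cs d lam x| ≤ 1 / 2 := fun x => by
    rw [abs_mul]
    calc |a x| * |cs d lam x| ≤ (1 / 2) * 1 :=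
          mul_le_mul (ha1 x) (cs_abs d lam x) (abs_nonneg _) (by norm_num)
      _ = 1 / 2 := by norm_num
  have hs₁c : ∀ x, c / 2 ≤ s₁ x := fun x => by
    have h1 := hs0 x
    have h2 := abs_le.1 (hac x)
    have : s₁ x = s x * (1 + a x * cs d lam x) := rfl
    rw [this]
    nlinarith [h2.1, h2.2]
  have hsS : ∀ x, |s x| ≤ |S0| := fun x => (hS0 x).trans (le_abs_self _)
  have hs₁S : ∀ x, |s₁ x| ≤ B := fun x => by
    have : s₁ x = s x * (1 + a x * cs d lam x) := rfl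
    rw [this, abs_mul]
    have h2 := abs_le.1 (hac x)
    have h3 : |1 + a x * cs d lam x| ≤ 2 := by
      rw [abs_le]; constructor <;> linarith [h2.1, h2.2]
    calc |s x| * |1 + a x * cs d lam x| ≤ |S0| * 2 :=
          mul_le_mul (hsS x) h3 (abs_nonneg _) (abs_nonneg _)
      _ ≤ B := by
          rw [hBdef]
          linarith [abs_nonneg X0, abs_nonneg Y0]
  have hwave : ∀ (μ : ℝ), |μ| ≤ 1 → ∀ x, |μ * (s x * (a x * cs d lam x))| ≤ |S0| := by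
    intro μ hμ x
    rw [abs_mul, abs_mul]
    calc |μ| * (|s x| * |a x * cs d lam x|) ≤ 1 * (|S0| * 1) := by
          refine mul_le_mul hμ (mul_le_mul (hsS x) ((hac x).trans (by norm_num))
            (abs_nonneg _) (abs_nonneg _)) (by positivity) (by norm_num)
      _ = |S0| := by ring
  have hy₁S : ∀ x, |y₁ x| ≤ B := fun x => by
    have : y₁ x = x₁ x + (m d).re * (s x * (a x * cs d lam x)) := rfl
    rw [this]
    refine (abs_add_le _ _).trans ?_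
    have h1 := hwave _ (hm.re.bdd d) x
    have h2 := (hX0 x).trans (le_abs_self _)
    rw [hBdef]
    linarith [abs_nonneg S0, abs_nonneg Y0]
  have hy₂S : ∀ x, |y₂ x| ≤ B := fun x => by
    have : y₂ x = x₂ x + (m d).im * (s x * (a x * cs d lam x)) := rfl
    rw [this]
    refine (abs_add_le _ _).trans ?_
    have h1 := hwave _ (hm.im.bdd d) x
    have h2 := (hY0 x).trans (le_abs_self _)
    rw [hBdef]
    linarith [abs_nonneg S0, abs_nonneg X0]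
  have hPW : ∀ x, P x ≤ W := fun x => by
    refine ((hwc x).le _ (hcI x)).trans ?_
    rw [hWdef]
    exact mul_le_mul_of_nonneg_left (((le_abs_self _).trans (hP0 x)).trans (le_abs_self _)) hC₀.le
  have hDn : ∀ u : H n, ‖Dx m s₁ y₁ y₂ u‖ ≤ S * ‖u‖ := fun u =>
    Dx_norm hm bs₁ by₁ by₂ (fun x => ⟨hs₁S x, hy₁S x, hy₂S x⟩) u
  -- commutators
  set κ : ℝ := Ck / ρ with hκ
  have hκ0 : 0 ≤ κ := by positivity
  have h4 : ∀ C' : ℝ, 0 ≤ C' → C' ≤ Cs + Cx + Cy + Cp → C' * (4 / ρ) ≤ κ := by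
    intro C' _ hC'
    rw [hκ, hCk, mul_div_assoc', div_le_div_iff_of_pos_right hρ]
    linarith
  have hall : ∀ χ : E n → ℝ, BMr χ → (∀ ξ ζ, |χ ξ - χ ζ| ≤ 4 / ρ * ‖ξ - ζ‖) →
      (∀ ξ, χ (ξ + lam • d) = χ ξ) →
      (∀ u : H n, ‖Tr χ (Mr s₁ u) - Mr s₁ (Tr χ u)‖ ≤ κ * ‖u‖) ∧
      (∀ u : H n, ‖Tr χ (Mr y₁ u) - Mr y₁ (Tr χ u)‖ ≤ κ * ‖u‖) ∧
      (∀ u : H n, ‖Tr χ (Mr y₂ u) - Mr y₂ (Tr χ u)‖ ≤ κ * ‖u‖) ∧
      (∀ u : H n, ‖Tr χ (Mr P u) - Mr P (Tr χ u)‖ ≤ κ * ‖u‖) := by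
    intro χ bχ lip per
    have hρ4 : (0 : ℝ) ≤ 4 / ρ := by positivity
    refine ⟨fun u => ?_, fun u => ?_, fun u => ?_, fun u => ?_⟩
    · have := hcs d lam χ (4 / ρ) hd bχ hρ4 lip per u
      rw [← hs₁'] at this
      exact this.trans (mul_le_mul_of_nonneg_right (h4 Cs hCs (by linarith)) (norm_nonneg _))
    · have := hcx d lam χ (4 / ρ) hd bχ hρ4 lip per u
      rw [← hy₁'] at this
      exact this.trans (mul_le_mul_of_nonneg_right (h4 Cx hCx (by linarith)) (norm_nonneg _))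
    · have := hcy d lam χ (4 / ρ) hd bχ hρ4 lip per u
      rw [← hy₂'] at this
      exact this.trans (mul_le_mul_of_nonneg_right (h4 Cy hCy (by linarith)) (norm_nonneg _))
    · have := hcp d lam χ (4 / ρ) hd bχ hρ4 lip per u
      exact this.trans (mul_le_mul_of_nonneg_right (h4 Cp hCp (by linarith)) (norm_nonneg _))
  obtain ⟨cLs, cLx, cLy, cLp⟩ := hall χL bL lipL perL
  obtain ⟨cHs, cHx, cHy, cHp⟩ := hall χH bH lipH perH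
  -- localisation
  set v : H n := Dx m s₁ y₁ y₂ u with hv
  have hvn : ‖v‖ ≤ S * ‖u‖ := hDn u
  have lw := StepP_loc bP bL bH L1 H1 LH hκ0 cLp cHp v
  have ls := StepP_loc bs₁ bL bH L1 H1 LH hκ0 cLs cHs u
  -- moving the cut-off inside
  have key : ∀ χ : E n → ℝ, BMr χ → (∀ ξ, |χ ξ| ≤ 1) →
      (‖Tr χ v - Dx m s₁ y₁ y₂ (Tr χ u)‖ ≤ 4 * κ * ‖u‖) →
      Q P (Tr χ v) ≤ Q P (Dx m s₁ y₁ y₂ (Tr χ u)) +
        (8 * W * S * κ + 16 * W * κ ^ 2) * ‖u‖ ^ 2 := by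
    intro χ bχ χ1 cχ
    have e1 : Tr χ v = Dx m s₁ y₁ y₂ (Tr χ u) + (Tr χ v - Dx m s₁ y₁ y₂ (Tr χ u)) := by abel
    have e3 : ‖Dx m s₁ y₁ y₂ (Tr χ u)‖ ≤ S * ‖u‖ := by
      have h1 := hDn (Tr χ u)
      have h3 := Tr_norm_le bχ χ1 u
      rw [one_mul] at h3
      exact h1.trans (by gcongr)
    rw [e1]
    refine (Q_add_le' bP hPn hPW _ _).trans ?_
    have h1 : 2 * W * ‖Dx m s₁ y₁ y₂ (Tr χ u)‖ * ‖Tr χ v - Dx m s₁ y₁ y₂ (Tr χ u)‖ ≤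
        2 * W * (S * ‖u‖) * (4 * κ * ‖u‖) := by gcongr
    have h2 : W * ‖Tr χ v - Dx m s₁ y₁ y₂ (Tr χ u)‖ ^ 2 ≤ W * (4 * κ * ‖u‖) ^ 2 := by gcongr
    linear_combination h1 + h2
  have kL := key χL bL L1 (StepP_comm hm bL cLs cLx cLy u)
  have kH := key χH bH H1 (StepP_comm hm bH cHs cHx cHy u)
  have nL : ‖Tr χL u‖ ≤ ‖u‖ := by
    have := Tr_norm_le bL L1 u
    rwa [one_mul] at this
  have nH : ‖Tr χH u‖ ≤ ‖u‖ := by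
    have := Tr_norm_le bH H1 u
    rwa [one_mul] at this
  have lo := hlow lam hlam1 (Tr χL u) (supp_of_symbol bL sL u)
  have hi := hhigh ρ hρ1 lam hlam2 (Tr χH u) (supp_of_symbol bH (fun ξ hξ => sH ξ (by
    by_contra h
    exact hξ h)) u)
  have lo' : c * ε / 4 * ‖Tr χL u‖ ^ 2 ≤ c * ε / 4 * ‖u‖ ^ 2 := by gcongr
  have hi' : Ch / ρ * ‖Tr χH u‖ ^ 2 ≤ Ch / ρ * ‖u‖ ^ 2 := by gcongr
  have lw1 := (abs_le.1 lw).2
  have ls1 := (abs_le.1 ls).1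
  have hv2 : 2 * κ * ‖v‖ ^ 2 ≤ 2 * κ * (S * ‖u‖) ^ 2 := by gcongr
  have hκ2 : κ ^ 2 ≤ Ck ^ 2 / ρ := by
    rw [hκ, div_pow]
    apply div_le_div_of_nonneg_left (by positivity) hρ
    nlinarith
  have ls2 : N * (Q s₁ (Tr χL u) + Q s₁ (Tr χH u)) ≤ N * (Q s₁ u + 2 * κ * ‖u‖ ^ 2) :=
    mul_le_mul_of_nonneg_left (by linarith) hN0
  have hsum : Q P v ≤ N * Q s₁ u + (2 * N * κ + c * ε / 4 + Ch / ρ + 2 * κ * S ^ 2 +
      2 * (8 * W * S * κ + 16 * W * κ ^ 2)) * ‖u‖ ^ 2 := by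
    have lo2 : Q P (Dx m s₁ y₁ y₂ (Tr χL u)) ≤ N * Q s₁ (Tr χL u) +
        c * ε / 4 * ‖Tr χL u‖ ^ 2 := lo
    have hi2 : Q P (Dx m s₁ y₁ y₂ (Tr χH u)) ≤ N * Q s₁ (Tr χH u) + Ch / ρ * ‖Tr χH u‖ ^ 2 := hi
    linarith
  have hcoef : 2 * N * κ + c * ε / 4 + Ch / ρ + 2 * κ * S ^ 2 +
      2 * (8 * W * S * κ + 16 * W * κ ^ 2) ≤ c * ε / 2 := by
    have h1 : 2 * N * κ + Ch / ρ + 2 * κ * S ^ 2 + 2 * (8 * W * S * κ + 16 * W * κ ^ 2) ≤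
        A / ρ := by
      have h2 : W * κ ^ 2 ≤ W * (Ck ^ 2 / ρ) := by gcongr
      have h3 : A / ρ = 2 * N * κ + Ch / ρ + 2 * κ * S ^ 2 + 2 * (8 * W * S * κ) +
          32 * (W * (Ck ^ 2 / ρ)) := by
        rw [hA, hκ]; ring
      rw [h3]
      linarith
    linarith
  have hu : ‖u‖ ^ 2 ≤ 2 / c * Q s₁ u := by
    have := Q_ge bs₁ hs₁c u
    rw [div_mul_eq_mul_div, le_div_iff₀ hc]
    linarith
  show Q P v ≤ (N + ε) * Q s₁ u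
  calc Q P v ≤ N * Q s₁ u + (c * ε / 2) * ‖u‖ ^ 2 := by
        refine hsum.trans ?_
        gcongr
    _ ≤ N * Q s₁ u + (c * ε / 2) * (2 / c * Q s₁ u) := by gcongr
    _ = (N + ε) * Q s₁ u := by
        field_simp

end Pool.Agent.helper12.BR
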