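import Pool.Agent.helper12.BR.Defs

/-!
# BR-Walk: the walker reaches the ends of the interval (proofs: helper59)

PROOFS.  `A g t = av (fun c => g (t + cw t * c))`, `walk (n+1) g = walk n (A g)`.  For `t ∈ [-1, 1]`, `c ∈ [-1, 1]`: `|t + cw t * c| ≤ 1`; precisely `1 - |t + cw t c| ≥ (1 - |t|)/2` (`cw t = (1 - |t|)(1 + |t|)/4 ≤ (1 - |t|)/2`).  `walk n` is linear and monotone on
functions continuous on `[-1, 1]` (induction; `A g` is continuous on `[-1, 1]`), `walk n 1 = 1`.  `q t = 1 - t²`: `A q = q - q²/32` (`av c = 0`, `av c² = 1/2`), so `∑_(j < n) walk j (q²/32) 0 = q 0 - walk n q 0 ≤ 1`, hence some `j < n` has `walk j (q²) 0 ≤ 32 / n`.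
For `ℓ t = (1 + t)/2 g 1 + (1 - t)/2 g (-1)`: `A ℓ = ℓ`, so `walk n ℓ 0 = (g 1 + g (-1))/2`.  `|g - ℓ| ≤ ε/2 + C q²` on `[-1, 1]` for some `C` (continuity at the ends; `q² ≥ const` away from the ends), so `|walk j g 0 - walk j ℓ 0| ≤ ε/2 + C 32 / n ≤ ε`.
`walk_cont`: joint continuity, by induction on `n` with `av_cont` of `RT/TowerB.lean` (`F` continuous on `X × ℝ`).
-/

set_option autoImplicit false

open MeasureTheory FourierTransform
open scoped ENNReal InnerProductSpace ComplexConjugate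

namespace Pool.Agent.helper12.BR

open Pool.Agent.helper12.RT
open Pool.Agent.helper12.AI (beurlingSymbol)

variable {n : ℕ}

theorem cw_bound' {t : ℝ} (ht : |t| ≤ 1) {c : ℝ} (hc : |c| ≤ 1) :
    |t + cw t * c| ≤ 1 - (1 - |t|) / 2 ∧ 0 ≤ cw t ∧ cw t ≤ (1 - |t|) / 2 := by
  have h0 : 0 ≤ |t| := abs_nonneg t
  have h1 : cw t = (1 - |t|) * (1 + |t|) / 4 := by
    have : t ^ 2 = |t| ^ 2 := (sq_abs t).symm
    rw [cw, this]
    ring
  have h2 : 0 ≤ cw t := by
    rw [h1]
    have : 0 ≤ 1 - |t| := by linarith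
    positivity
  have h3 : cw t ≤ (1 - |t|) / 2 := by
    rw [h1]
    nlinarith
  refine ⟨?_, h2, h3⟩
  have h4 : |cw t * c| ≤ (1 - |t|) / 2 := by
    rw [abs_mul, abs_of_nonneg h2]
    calc cw t * |c| ≤ cw t * 1 := mul_le_mul_of_nonneg_left hc h2
      _ ≤ _ := by linarith
  calc |t + cw t * c| ≤ |t| + |cw t * c| := abs_add_le _ _
    _ ≤ |t| + (1 - |t|) / 2 := by linarith
    _ = _ := by ring

theorem cw_continuous : Continuous cw := by
  unfold cw
  fun_prop

/-- one step of the walker -/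
noncomputable def wst (g : ℝ → ℝ) (t : ℝ) : ℝ := av fun c => g (t + cw t * c)

theorem walk_succ (n : ℕ) (g : ℝ → ℝ) (t : ℝ) : walk (n + 1) g t = walk n (wst g) t := rfl

theorem wst_arg_cont {g : ℝ → ℝ} (hg : Continuous g) (t : ℝ) :
    Continuous fun c : ℝ => g (t + cw t * c) := hg.comp (by fun_prop)

theorem wst_cont {g : ℝ → ℝ} (hg : Continuous g) : Continuous (wst g) := by
  unfold wst
  apply av_cont
  have := cw_continuous
  exact hg.comp (by fun_prop)

theorem walk_mono (n : ℕ) : ∀ {f g : ℝ → ℝ}, Continuous f → Continuous g →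
    (∀ t, |t| ≤ 1 → f t ≤ g t) → ∀ t, |t| ≤ 1 → walk n f t ≤ walk n g t := by
  induction n with
  | zero =>
    intro f g _ _ h t ht
    exact h t ht
  | succ n ih =>
    intro f g hf hg h t ht
    rw [walk_succ, walk_succ]
    refine ih (wst_cont hf) (wst_cont hg) ?_ t ht
    intro u hu
    refine av_mono (wst_arg_cont hf u).continuousOn (wst_arg_cont hg u).continuousOn ?_
    intro c hc
    apply h
    have hc' : |c| ≤ 1 := abs_le.2 hc
    have := (cw_bound' hu hc').1
    linarith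

theorem walk_lin (n : ℕ) : ∀ {f g : ℝ → ℝ}, Continuous f → Continuous g → ∀ (a b t : ℝ),
    walk n (fun u => a * f u + b * g u) t = a * walk n f t + b * walk n g t := by
  induction n with
  | zero =>
    intro f g _ _ a b t
    rfl
  | succ n ih =>
    intro f g hf hg a b t
    rw [walk_succ, walk_succ, walk_succ, ← ih (wst_cont hf) (wst_cont hg)]
    congr 1
    funext u
    unfold wst
    rw [← av_mul, ← av_mul]
    rw [← av_add]
    · exact (continuous_const.mul (wst_arg_cont hf u)).continuousOn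
    · exact (continuous_const.mul (wst_arg_cont hg u)).continuousOn

theorem walk_affine (n : ℕ) (a b : ℝ) : ∀ t, walk n (fun u => a + b * u) t = a + b * t := by
  induction n with
  | zero =>
    intro t
    rfl
  | succ n ih =>
    intro t
    rw [walk_succ]
    have h : wst (fun u => a + b * u) = fun u => a + b * u := by
      funext u
      unfold wst
      have h1 : av (fun c => a + b * (u + cw u * c)) = av (fun c => (a + b * u) + (b * cw u) * c) := by
        apply av_congr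
        intro c _
        ring
      rw [h1, av_add (by fun_prop) (by fun_prop), av_const, av_mul]
      rw [av_odd (f := fun c => c) (fun c => rfl)]
      ring
    rw [h]
    exact ih t

theorem wst_q : wst (fun u => 1 - u ^ 2) = fun u => 1 * (1 - u ^ 2) + (-(1 / 32)) * (1 - u ^ 2) ^ 2 := by
  funext u
  unfold wst
  have h1 : av (fun c => 1 - (u + cw u * c) ^ 2) =
      av (fun c => ((1 - u ^ 2) + (-(2 * u * cw u)) * c) + (-(cw u ^ 2)) * c ^ 2) := by
    apply av_congr
    intro c _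
    ring
  rw [h1, av_add (by fun_prop) (by fun_prop), av_add (by fun_prop) (by fun_prop), av_const, av_mul,
    av_mul, av_sq, av_odd (f := fun c => c) (fun c => rfl)]
  unfold cw
  ring

theorem walk_q_succ (n : ℕ) : walk (n + 1) (fun u => 1 - u ^ 2) 0 =
    walk n (fun u => 1 - u ^ 2) 0 - 1 / 32 * walk n (fun u => (1 - u ^ 2) ^ 2) 0 := by
  rw [walk_succ, wst_q, walk_lin n (f := fun u => 1 - u ^ 2) (g := fun u => (1 - u ^ 2) ^ 2)
    (by fun_prop) (by fun_prop)]
  ring

theorem walk_zero_const (n : ℕ) (a t : ℝ) : walk n (fun _ => a) t = a := by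
  have h := walk_affine n a 0 t
  simp only [zero_mul, add_zero] at h
  exact h

theorem walk_q_nonneg (n : ℕ) : 0 ≤ walk n (fun u => 1 - u ^ 2) 0 := by
  have h := walk_mono n (f := fun _ => 0) (g := fun u => 1 - u ^ 2) continuous_const (by fun_prop)
    (fun t ht => by
      have h1 : t ^ 2 = |t| ^ 2 := (sq_abs t).symm
      have h2 := abs_nonneg t
      show (0 : ℝ) ≤ 1 - t ^ 2
      rw [h1]
      nlinarith) 0 (by simp)
  rw [walk_zero_const] at h
  exact h

theorem walk_q2_small {δ : ℝ} (hδ : 0 < δ) : ∃ n : ℕ, walk n (fun u => (1 - u ^ 2) ^ 2) 0 ≤ δ := by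
  by_contra hcon
  push Not at hcon
  have h1 : ∀ n : ℕ, walk n (fun u => 1 - u ^ 2) 0 ≤ 1 - n * (δ / 32) := by
    intro n
    induction n with
    | zero =>
      show (1 : ℝ) - 0 ^ 2 ≤ _
      norm_num
    | succ n ih =>
      rw [walk_q_succ]
      have := hcon n
      push_cast
      linarith
  obtain ⟨n, hn⟩ := exists_nat_gt (32 / δ)
  have h2 := h1 n
  have h3 := walk_q_nonneg n
  rw [div_lt_iff₀ hδ] at hn
  linarith

theorem near_ends {h : ℝ → ℝ} (hh : Continuous h) (h1 : h 1 = 0) (h2 : h (-1) = 0) {ε : ℝ}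
    (hε : 0 < ε) : ∃ C : ℝ, 0 ≤ C ∧ ∀ t, |t| ≤ 1 → |h t| ≤ ε + C * (1 - t ^ 2) ^ 2 := by
  obtain ⟨δ₁, hδ₁, k1⟩ := Metric.continuousAt_iff.1 (hh.continuousAt (x := 1)) ε hε
  obtain ⟨δ₂, hδ₂, k2⟩ := Metric.continuousAt_iff.1 (hh.continuousAt (x := -1)) ε hε
  obtain ⟨M, hM⟩ := (isCompact_Icc (a := (-1 : ℝ)) (b := 1)).exists_bound_of_continuousOn
    hh.continuousOn
  obtain ⟨δ, hδd⟩ : ∃ δ, δ = min 1 (min δ₁ δ₂) := ⟨_, rfl⟩
  have hδ : 0 < δ := by
    rw [hδd]
    exact lt_min one_pos (lt_min hδ₁ hδ₂)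
  have d1 : δ ≤ δ₁ := by
    rw [hδd]
    exact (min_le_right _ _).trans (min_le_left _ _)
  have d2 : δ ≤ δ₂ := by
    rw [hδd]
    exact (min_le_right _ _).trans (min_le_right _ _)
  have d3 : δ ≤ 1 := by
    rw [hδd]
    exact min_le_left _ _
  have hM0 : 0 ≤ M := (norm_nonneg _).trans (hM 0 (by constructor <;> norm_num))
  refine ⟨M / δ ^ 2, by positivity, ?_⟩
  intro t ht
  have ht' := abs_le.1 ht
  have hC : 0 ≤ M / δ ^ 2 * (1 - t ^ 2) ^ 2 := by positivity
  by_cases c1 : 1 - δ < t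
  · have := k1 (x := t) (by
      rw [Real.dist_eq, abs_lt]
      constructor <;> linarith)
    rw [Real.dist_eq, h1, sub_zero] at this
    linarith
  by_cases c2 : t < -1 + δ
  · have := k2 (x := t) (by
      rw [Real.dist_eq, abs_lt]
      constructor <;> linarith)
    rw [Real.dist_eq, h2, sub_zero] at this
    linarith
  push Not at c1 c2
  have h3 : |h t| ≤ M := hM t ht'
  have h4 : δ ≤ 1 - t ^ 2 := by
    have : |t| ≤ 1 - δ := abs_le.2 ⟨by linarith, by linarith⟩
    have h5 : t ^ 2 = |t| ^ 2 := (sq_abs t).symm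
    have h6 := abs_nonneg t
    rw [h5]
    nlinarith
  have h5 : M ≤ M / δ ^ 2 * (1 - t ^ 2) ^ 2 := by
    rw [div_mul_eq_mul_div, le_div_iff₀ (by positivity)]
    apply mul_le_mul_of_nonneg_left _ hM0
    exact pow_le_pow_left₀ hδ.le h4 2
  linarith

theorem walk_lim {g : ℝ → ℝ} (hg : Continuous g) :
    ∀ ε > 0, ∃ n : ℕ, |walk n g 0 - (g 1 + g (-1)) / 2| ≤ ε := by
  intro ε hε
  obtain ⟨a, ha⟩ : ∃ a, a = (g 1 + g (-1)) / 2 := ⟨_, rfl⟩
  obtain ⟨b, hb⟩ : ∃ b, b = (g 1 - g (-1)) / 2 := ⟨_, rfl⟩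
  obtain ⟨C, hC0, hC⟩ := near_ends (h := fun t => g t - (a + b * t)) (by fun_prop)
    (by rw [ha, hb]; ring) (by rw [ha, hb]; ring) (half_pos hε)
  obtain ⟨n, hn⟩ := walk_q2_small (δ := ε / (2 * (C + 1))) (by positivity)
  refine ⟨n, ?_⟩
  have hCn : C * walk n (fun u => (1 - u ^ 2) ^ 2) 0 ≤ ε / 2 := by
    calc C * walk n (fun u => (1 - u ^ 2) ^ 2) 0 ≤ C * (ε / (2 * (C + 1))) :=
          mul_le_mul_of_nonneg_left hn hC0
      _ = ε / 2 * (C / (C + 1)) := by
          field_simp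
      _ ≤ ε / 2 * 1 := by
          apply mul_le_mul_of_nonneg_left _ (by positivity)
          rw [div_le_one (by positivity)]
          linarith
      _ = _ := by ring
  have hup : walk n (fun u => 1 * g u + (-1) * (a + b * u)) 0 ≤
      walk n (fun u => 1 * (ε / 2) + C * (1 - u ^ 2) ^ 2) 0 := by
    apply walk_mono n (by fun_prop) (by fun_prop) _ 0 (by simp)
    intro t ht
    have := (abs_le.1 (hC t ht)).2
    linarith
  have hlo : walk n (fun u => (-1) * (ε / 2) + (-C) * (1 - u ^ 2) ^ 2) 0 ≤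
      walk n (fun u => 1 * g u + (-1) * (a + b * u)) 0 := by
    apply walk_mono n (by fun_prop) (by fun_prop) _ 0 (by simp)
    intro t ht
    have := (abs_le.1 (hC t ht)).1
    linarith
  rw [walk_lin n (f := g) (g := fun u => a + b * u) hg (by fun_prop), walk_affine,
    walk_lin n (f := fun _ => ε / 2) (g := fun u => (1 - u ^ 2) ^ 2) (by fun_prop) (by fun_prop),
    walk_zero_const] at hup
  rw [walk_lin n (f := g) (g := fun u => a + b * u) hg (by fun_prop), walk_affine,
    walk_lin n (f := fun _ => ε / 2) (g := fun u => (1 - u ^ 2) ^ 2) (by fun_prop) (by fun_prop),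
    walk_zero_const] at hlo
  rw [← ha, abs_le]
  constructor <;> linarith

theorem walk_const (n : ℕ) (a t : ℝ) : walk n (fun _ => a) t = a := by
  exact walk_zero_const n a t

theorem walk_cont {X : Type*} [TopologicalSpace X] [FirstCountableTopology X] (n : ℕ)
    {G : X → ℝ → ℝ} (hG : Continuous fun p : X × ℝ => G p.1 p.2) :
    Continuous fun p : X × ℝ => walk n (G p.1) p.2 := by
  induction n generalizing G with
  | zero => exact hG
  | succ n ih =>
    show Continuous fun p : X × ℝ => walk n (wst (G p.1)) p.2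
    apply ih (G := fun x => wst (G x))
    show Continuous fun p : X × ℝ => av fun c => G p.1 (p.2 + cw p.2 * c)
    apply av_cont (X := X × ℝ) (F := fun p c => G p.1 (p.2 + cw p.2 * c))
    have hcw := cw_continuous
    have h : Continuous fun q : (X × ℝ) × ℝ => (q.1.1, q.1.2 + cw q.1.2 * q.2) := by fun_prop
    exact hG.comp h

theorem cw_bound {t : ℝ} (ht : |t| ≤ 1) {c : ℝ} (hc : |c| ≤ 1) :
    |t + cw t * c| ≤ 1 - (1 - |t|) / 2 ∧ 0 ≤ cw t ∧ cw t ≤ (1 - |t|) / 2 := by
  exact cw_bound' ht hc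

end Pool.Agent.helper12.BR
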