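import Pool.Agent.helper12.BR.StepA
import Pool.Agent.helper12.BR.DoubA
import Pool.Agent.helper12.BR.LowerC
import Pool.Agent.helper12.BR.Pot
import Pool.Agent.helper12.BR.SymB

/-!
# BR-Wave: one wave

PROOF.  `F' x = move k (F x) (α x) (β x) (cs (dir k) lam x)`.  `ap`: closure properties.  `pos`: `c / 2`.  `good`: hypothesis.  `bp`: `step_ap` with `a = α`, `P x c = pot Q (F x 0 * (1 + α x * c)) (F x 1 * (1 + β x * c))` (`AP2` by `AP2.add`, `AP2.mul`, `AP2.comp` with `√`),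
`wc_of`, `b_dir`, constants `2 5 5 1920 80`, `8 · 1920 + 4 · 80 ≤ 16000`.  `ds`, `dw`: `doub_ap` (`2 ^ 5 ≤ D`).  `lo`: `T mA (Mr s' φ) = T mA (Mr s φ) + T mA (Mr (s α cs) φ)`, the second term is
`mA (dir k) • Mr (s α cs) φ` up to `ε` (`lower1C`), and `1 + C' + (3/5) y' = (1 + C + (3/5) y) + (mu₁ k + (3/5) ye k) s α cs`, `(4/5) S' = (4/5) S + (4/5) mu₂ k s α cs` (`mA_dir`).  Maximum of the four `lam₀`.
-/

set_option autoImplicit false

open MeasureTheory FourierTransform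
open scoped ENNReal InnerProductSpace ComplexConjugate

namespace Pool.Agent.helper12.BR

open Pool.Agent.helper12.RT
open Pool.Agent.helper12.AI (beurlingSymbol)

variable {n : ℕ}

private theorem Wave_pot_ap {Q : ℝ} {s w : E n → ℝ} (hs : AP s) (hw : AP w) :
    AP fun x => pot Q (s x) (w x) := by
  have h1 : AP fun x => s x * w x * Q⁻¹ := (hs.mul hw).mul (AP.const Q⁻¹)
  obtain ⟨C, hC⟩ := h1.bdd
  have h2 : AP fun x => √(s x * w x * Q⁻¹) :=
    AP.comp (g := Real.sqrt) h1 (fun x => abs_le.1 (hC x)) Real.continuous_sqrt.continuousOn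
  have h3 := hw.add h2
  have h4 : (fun x => w x + √(s x * w x * Q⁻¹)) = fun x => pot Q (s x) (w x) := by
    funext x
    simp only [pot, div_eq_mul_inv]
  rw [h4] at h3
  exact h3

private theorem Wave_pot_ap2 {Q : ℝ} {s w : E n → ℝ → ℝ} (hs : AP2 s) (hw : AP2 w) :
    AP2 fun x c => pot Q (s x c) (w x c) := by
  have h1 : AP2 fun x c => s x c * w x c * Q⁻¹ :=
    (hs.mul hw).mul (AP2.of_ap (AP.const (n := n) Q⁻¹))
  obtain ⟨C, hC⟩ := h1.bdd
  have h2 : AP2 fun x c => √(s x c * w x c * Q⁻¹) :=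
    AP2.comp (g := Real.sqrt) h1 (fun x c hc => abs_le.1 (hC x c hc))
      Real.continuous_sqrt.continuousOn
  have h3 := hw.add h2
  have h4 : (fun x c => w x c + √(s x c * w x c * Q⁻¹)) = fun x c => pot Q (s x c) (w x c) := by
    funext x c
    simp only [pot, div_eq_mul_inv]
  rw [h4] at h3
  exact h3

private theorem Wave_fac_ap2 {s a : E n → ℝ} (hs : AP s) (ha : AP a) :
    AP2 fun x c => s x * (1 + a x * c) :=
  (AP2.of_ap hs).mul ((AP2.of_ap (AP.const (n := n) 1)).add ((AP2.of_ap ha).mul AP2.var))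

private theorem Wave_move0 (k : Fin 4) (v : W) (α β c : ℝ) :
    move k v α β c 0 = v 0 * (1 + α * c) := rfl

private theorem Wave_move1 (k : Fin 4) (v : W) (α β c : ℝ) :
    move k v α β c 1 = v 1 * (1 + β * c) := rfl

private theorem Wave_move2 (k : Fin 4) (v : W) (α β c : ℝ) :
    move k v α β c 2 = v 2 + mu₁ k * (v 0 * (α * c)) := rfl

private theorem Wave_move3 (k : Fin 4) (v : W) (α β c : ℝ) :
    move k v α β c 3 = v 3 + mu₂ k * (v 0 * (α * c)) := rfl

private theorem Wave_move4 (k : Fin 4) (v : W) (α β c : ℝ) :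
    move k v α β c 4 = v 4 + ye k * (v 0 * (α * c)) := rfl

private theorem Wave_Mr_smul {p : E n → ℝ} (hp : BMr p) (a : ℝ) (u : H n) :
    Mr (fun x => a * p x) u = (a : ℂ) • Mr p u := by
  rw [Mr_mul (BMr.const a) hp, Mr_const]

theorem wave (k : Fin 4) {φ : H 2} {r : ℝ} (hr : 0 ≤ r)
    (hφ : Supp (Metric.closedBall (dir 0) r) φ) {N D δ Q : ℝ} (hN : 16000 ≤ N) (hD : 32 ≤ D)
    (hQ : 0 < Q) {F : E 2 → W} (hF : Fld φ N D δ Q F) {α β : E 2 → ℝ} (hα : AP α) (hβ : AP β)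
    (hα1 : ∀ x, |α x| ≤ 1 / 2) (hβ1 : ∀ x, |β x| ≤ 1 / 2)
    (hg : ∀ x, ∀ c ∈ Set.Icc (-1 : ℝ) 1, Good Q (move k (F x) (α x) (β x) c))
    (hx : ∀ x, α x = β x ∨ Cross Q k (F x)) :
    ∀ ε > 0, ∃ lam₀ : ℝ, ∀ lam ≥ lam₀, Fld φ (N + ε) (D + ε) (δ + ε) Q
      (fun x => move k (F x) (α x) (β x) (cs (dir k) lam x)) := by
  intro ε hε
  have hk : ‖dir k‖ = 1 := dir_norm k
  obtain ⟨c, hc, hpos⟩ := hF.pos
  have b1 : (beurlingSymbol (dir k)).re = mu₁ k := (b_dir k).1
  have b2 : (beurlingSymbol (dir k)).im = mu₂ k := (b_dir k).2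
  have hs := hF.ap 0
  have hw := hF.ap 1
  have h2 := hF.ap 2
  have h3 := hF.ap 3
  have h4 := hF.ap 4
  have hp : AP fun x => pot Q (F x 0) (F x 1) := Wave_pot_ap hs hw
  have hP : AP2 fun x c => pot Q (F x 0 * (1 + α x * c)) (F x 1 * (1 + β x * c)) :=
    Wave_pot_ap2 (Wave_fac_ap2 hs hα) (Wave_fac_ap2 hw hβ)
  have hwc : ∀ x, WC 2 5 5 1920 80 (beurlingSymbol (dir k)).re (beurlingSymbol (dir k)).im
      (F x 0) (α x) (F x 2) (F x 3) (pot Q (F x 0) (F x 1))
      (fun c => pot Q (F x 0 * (1 + α x * c)) (F x 1 * (1 + β x * c))) := by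
    intro x
    rw [b1, b2]
    exact wc_of hQ (hα1 x) (hβ1 x) (hF.good x) (hg x) (hx x)
  obtain ⟨l1, g1⟩ := step_ap (L := 8) (by norm_num) symC_b hs hα h2 h3 hp hP hc
    (fun x => (hpos x).1) hα1 hk (by norm_num) (by norm_num) (by norm_num) (by norm_num)
    (by norm_num) (by linarith) (by linarith) hwc hF.bp ε hε
  have hD' : (2 : ℝ) ^ (2 + 3) ≤ D := by norm_num; exact hD
  obtain ⟨l2, g2⟩ := doub_ap hs hα hc (fun x => (hpos x).1) hα1 hD' hF.ds hk ε hε
  obtain ⟨l3, g3⟩ := doub_ap hw hβ hc (fun x => (hpos x).2) hβ1 hD' hF.dw hk ε hε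
  have hq : AP fun x => F x 0 * α x := hs.mul hα
  obtain ⟨l4, g4⟩ := lower1C symC_A (by norm_num) hk hq (dir_norm 0) hr hφ ε hε
  refine ⟨max (max l1 l2) (max l3 l4), fun lam hlam => ?_⟩
  have i1 : l1 ≤ lam := ((le_max_left _ _).trans (le_max_left _ _)).trans hlam
  have i2 : l2 ≤ lam := ((le_max_right _ _).trans (le_max_left _ _)).trans hlam
  have i3 : l3 ≤ lam := ((le_max_left _ _).trans (le_max_right _ _)).trans hlam
  have i4 : l4 ≤ lam := ((le_max_right _ _).trans (le_max_right _ _)).trans hlam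
  have hcs : AP (cs (dir k) lam) := AP.cs hk lam
  have hcI : ∀ x, cs (dir k) lam x ∈ Set.Icc (-1 : ℝ) 1 := fun x => abs_le.1 (cs_abs _ lam x)
  have hsa : AP fun x => F x 0 * (α x * cs (dir k) lam x) := hs.mul (hα.mul hcs)
  have hhalf : ∀ (a : E 2 → ℝ) (x : E 2), |a x| ≤ 1 / 2 → 1 / 2 ≤ 1 + a x * cs (dir k) lam x := by
    intro a x ha
    have h5 : |a x * cs (dir k) lam x| ≤ 1 / 2 := by
      rw [abs_mul]
      calc |a x| * |cs (dir k) lam x| ≤ 1 / 2 * 1 :=
            mul_le_mul ha (cs_abs _ lam x) (abs_nonneg _) (by norm_num)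
        _ = 1 / 2 := by norm_num
    have := (abs_le.1 h5).1
    linarith
  refine ⟨?_, ?_, ?_, ?_, ?_, ?_, ?_⟩
  · intro i
    fin_cases i
    · exact hs.mul ((AP.const 1).add (hα.mul hcs))
    · exact hw.mul ((AP.const 1).add (hβ.mul hcs))
    · exact h2.add ((AP.const (mu₁ k)).mul hsa)
    · exact h3.add ((AP.const (mu₂ k)).mul hsa)
    · exact h4.add ((AP.const (ye k)).mul hsa)
  · refine ⟨c / 2, by positivity, fun x => ⟨?_, ?_⟩⟩
    · rw [Wave_move0]
      have e1 := hhalf α x (hα1 x)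
      have e2 := (hpos x).1
      nlinarith
    · rw [Wave_move1]
      have e1 := hhalf β x (hβ1 x)
      have e2 := (hpos x).2
      nlinarith
  · exact fun x => hg x _ (hcI x)
  · have g := g1 lam i1
    rw [b1, b2] at g
    exact g
  · exact g2 lam i2
  · exact g3 lam i3
  · -- the lower bound
    have g := g4 lam i4
    set q : E 2 → ℝ := fun x => F x 0 * α x * cs (dir k) lam x with hqdef
    have hqa : AP q := hq.mul hcs
    have e0 : (fun x => move k (F x) (α x) (β x) (cs (dir k) lam x) 0) =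
        fun x => F x 0 + q x := by
      funext x
      rw [Wave_move0, hqdef]
      ring
    have e1 : (fun x => 1 + move k (F x) (α x) (β x) (cs (dir k) lam x) 2 +
        3 / 5 * move k (F x) (α x) (β x) (cs (dir k) lam x) 4) =
        fun x => (1 + F x 2 + 3 / 5 * F x 4) + (mu₁ k + 3 / 5 * ye k) * q x := by
      funext x
      rw [Wave_move2, Wave_move4, hqdef]
      ring
    have e2 : (fun x => 4 / 5 * move k (F x) (α x) (β x) (cs (dir k) lam x) 3) =
        fun x => 4 / 5 * F x 3 + (4 / 5 * mu₂ k) * q x := by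
      funext x
      rw [Wave_move3, hqdef]
      ring
    have a1 : AP fun x => 1 + F x 2 + 3 / 5 * F x 4 :=
      ((AP.const 1).add h2).add ((AP.const (3 / 5)).mul h4)
    have a2 : AP fun x => 4 / 5 * F x 3 := (AP.const (4 / 5)).mul h3
    have a3 : AP fun x => (mu₁ k + 3 / 5 * ye k) * q x := (AP.const _).mul hqa
    have a4 : AP fun x => (4 / 5 * mu₂ k) * q x := (AP.const _).mul hqa
    rw [e0, e1, e2, Mr_add hs.bmr hqa.bmr, map_add, Mr_add a1.bmr a3.bmr, Mr_add a2.bmr a4.bmr,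
      Wave_Mr_smul hqa.bmr, Wave_Mr_smul hqa.bmr]
    have hmA : mA (dir k) = ((mu₁ k + 3 / 5 * ye k : ℝ) : ℂ) +
        Complex.I * ((4 / 5 * mu₂ k : ℝ) : ℂ) := by
      apply Complex.ext
      · rw [(mA_dir k).1]
        simp
      · rw [(mA_dir k).2]
        simp
    have hid : T mA (Mr (fun x => F x 0) φ) + T mA (Mr q φ) -
        (Mr (fun x => 1 + F x 2 + 3 / 5 * F x 4) φ +
          ((mu₁ k + 3 / 5 * ye k : ℝ) : ℂ) • Mr q φ +
          Complex.I • (Mr (fun x => 4 / 5 * F x 3) φ + ((4 / 5 * mu₂ k : ℝ) : ℂ) • Mr q φ)) =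
        (T mA (Mr (fun x => F x 0) φ) - (Mr (fun x => 1 + F x 2 + 3 / 5 * F x 4) φ +
          Complex.I • Mr (fun x => 4 / 5 * F x 3) φ)) + (T mA (Mr q φ) - mA (dir k) • Mr q φ) := by
      rw [hmA, smul_add, add_smul, smul_smul]
      abel
    rw [hid]
    exact (norm_add_le _ _).trans (add_le_add hF.lo g)

end Pool.Agent.helper12.BR
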