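import Pool.Agent.helper12.BR.Wave
import Pool.Agent.helper12.BR.Walk
import Pool.Agent.helper12.RT.RL

/-!
# BR-Waves: many waves along the segments

PROOF.  Induction on `n`.  `n = 0`: `X = 0`, `seg k a b v 0 = v`.  Step: take `X` from the induction hypothesis for `n` (with `ε / 2`, and with the function `H' v t' t = av (fun c => H v t' (t + cw t * c))`, continuous by `av_cont`), whose hypotheses hold since
`1 - 2^(-n) ≤ 1 - 2^(-(n+1))`.  `F x = seg k a b (F₀ x) (τ x * X x)`.  Apply `wave` with `α = a τ cw(X) / (1 + a τ X)`, `β = b τ cw(X) / (1 + b τ X)`: `1 + a τ X ≥ 1 - |X| > 0`, so `|α| ≤ cw(X)/(1 - |X|) ≤ 1/2` (`cw_bound`); `α, β` are `AP`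
(`AP.comp` with `x⁻¹` on an interval away from 0), and `move k (seg k a b v z) α β c = seg k a b v (z + τ cw(X) c)` for `z = τ X` (check the five coordinates: `s (1 + a z)(1 + α c) = s (1 + a (z + τ cw c))`, `s (1 + a z) α c = s a τ cw c`).  So the new fields are
`seg k a b (F₀ x) (τ x * X' x)` with `X' = X + cw(X) cs (dir k) lam`, `|X'| ≤ 1 - 2^(-(n+1))` (`cw_bound`), `X'` is `AP`.  `hg` of `wave`: the hypothesis at `t = X + cw(X) c`.  `hx`: if `a = b` or `τ x = 0` then `α = β`, otherwise the hypothesis at `t = X x`.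
Expectation: `rl` of `RT/RL.lean` for `F x c = H (F₀ x) (τ x) (X x + cw (X x) * c)` and `g = ‖φ x‖²` (integrable): the integral with `X'` is within `ε / 2` of `∫ H' (F₀ x) (τ x) (X x) ‖φ x‖²` for large `lam`, and `walk n (H' v t') 0 = walk (n+1) (H v t') 0` by definition.
-/

set_option autoImplicit false

open MeasureTheory FourierTransform
open scoped ENNReal InnerProductSpace ComplexConjugate

namespace Pool.Agent.helper12.BR

open Pool.Agent.helper12.RT
open Pool.Agent.helper12.AI (beurlingSymbol)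

variable {n : ℕ}

private theorem Waves_seg_zero (k : Fin 4) (a b : ℝ) (v : W) : seg k a b v 0 = v := by
  funext i
  fin_cases i <;> simp [seg]

private theorem Waves_move_seg {k : Fin 4} {a b α β z e c : ℝ} (v : W)
    (h1 : α * (1 + a * z) = a * e) (h2 : β * (1 + b * z) = b * e) :
    move k (seg k a b v z) α β c = seg k a b v (z + e * c) := by
  funext i
  fin_cases i
  · simp [seg, move]
    linear_combination v 0 * c * h1
  · simp [seg, move]
    linear_combination v 1 * c * h2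
  · simp [seg, move]
    linear_combination mu₁ k * v 0 * c * h1
  · simp [seg, move]
    linear_combination mu₂ k * v 0 * c * h1
  · simp [seg, move]
    linear_combination ye k * v 0 * c * h1

private theorem Waves_doub_mono {σ : Measure (E 2)} {D D' : ℝ} (h : DoublingLe σ D)
    (hD : D ≤ D') : DoublingLe σ D' := by
  intro x r hr
  refine (h x r hr).trans ?_
  gcongr

private theorem Waves_fld_mono {φ : H 2} {N D δ Q N' D' δ' : ℝ} {F : E 2 → W}
    (h : Fld φ N D δ Q F) (hN : N ≤ N') (hD : D ≤ D') (hδ : δ ≤ δ') : Fld φ N' D' δ' Q F := by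
  refine ⟨h.ap, h.pos, h.good, ?_, Waves_doub_mono h.ds hD, Waves_doub_mono h.dw hD, h.lo.trans hδ⟩
  intro u
  refine (h.bp u).trans ?_
  have h1 : 0 ≤ RT.Q (fun x => F x 0) u := Q_nonneg (fun x => (h.good x).s_pos.le) u
  exact mul_le_mul_of_nonneg_right hN h1

/-- `g(x) = 1 / (1 + a τ X)` -/
private theorem Waves_inv_ap {a : ℝ} (ha : |a| ≤ 1) {τ X : E 2 → ℝ} (hτ : AP τ)
    (hτ1 : ∀ x, 0 ≤ τ x ∧ τ x ≤ 1) (hX : AP X) {ζ : ℝ} (hζ : ζ < 1) (hX1 : ∀ x, |X x| ≤ ζ) :
    (∀ x, 1 - |X x| ≤ 1 + a * (τ x * X x)) ∧ AP fun x => (1 + a * (τ x * X x))⁻¹ := by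
  have key : ∀ x, |a * (τ x * X x)| ≤ |X x| := by
    intro x
    rw [abs_mul, abs_mul, abs_of_nonneg (hτ1 x).1]
    have h1 : τ x * |X x| ≤ 1 * |X x| := mul_le_mul_of_nonneg_right (hτ1 x).2 (abs_nonneg _)
    have h2 : |a| * (τ x * |X x|) ≤ 1 * (τ x * |X x|) :=
      mul_le_mul_of_nonneg_right ha (mul_nonneg (hτ1 x).1 (abs_nonneg _))
    linarith
  have hlow : ∀ x, 1 - |X x| ≤ 1 + a * (τ x * X x) := by
    intro x
    have := (abs_le.mp (key x)).1
    linarith
  refine ⟨hlow, ?_⟩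
  have hap : AP fun x => 1 + a * (τ x * X x) := (AP.const 1).add ((AP.const a).mul (hτ.mul hX))
  refine hap.comp (A := 1 - ζ) (B := 2) (g := fun y => y⁻¹) ?_ ?_
  · intro x
    refine ⟨by linarith [hlow x, hX1 x], ?_⟩
    have := (abs_le.mp (key x)).2
    linarith [hX1 x]
  · intro y hy
    have : y ≠ 0 := by
      have := hy.1
      intro h0
      rw [h0] at this
      linarith
    exact (continuousAt_inv₀ this).continuousWithinAt

theorem waves (n : ℕ) {k : Fin 4} {a b : ℝ} (ha : |a| ≤ 1) (hb : |b| ≤ 1) {φ : H 2} {r : ℝ}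
    (hr : 0 ≤ r) (hφ : Supp (Metric.closedBall (dir 0) r) φ) {N D δ Q : ℝ} (hN : 16000 ≤ N)
    (hD : 32 ≤ D) (hQ : 0 < Q) {F₀ : E 2 → W} (hF : Fld φ N D δ Q F₀) {τ : E 2 → ℝ} (hτ : AP τ)
    (hτ1 : ∀ x, 0 ≤ τ x ∧ τ x ≤ 1)
    (hg : ∀ x, ∀ t : ℝ, |t| ≤ 1 - (1 / 2) ^ n → Good Q (seg k a b (F₀ x) (τ x * t)))
    (hx : ∀ x, a = b ∨ τ x = 0 ∨
      ∀ t : ℝ, |t| ≤ 1 - (1 / 2) ^ n → Cross Q k (seg k a b (F₀ x) (τ x * t)))
    {H' : W → ℝ → ℝ → ℝ} (hH : Continuous fun p : W × ℝ × ℝ => H' p.1 p.2.1 p.2.2) :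
    ∀ ε > 0, ∃ X : E 2 → ℝ, AP X ∧ (∀ x, |X x| ≤ 1 - (1 / 2) ^ n) ∧
      Fld φ (N + ε) (D + ε) (δ + ε) Q (fun x => seg k a b (F₀ x) (τ x * X x)) ∧
      |(∫ x, H' (F₀ x) (τ x) (X x) * ‖φ x‖ ^ 2) -
        ∫ x, walk n (H' (F₀ x) (τ x)) 0 * ‖φ x‖ ^ 2| ≤ ε := by
  induction n generalizing H' with
  | zero =>
    intro ε hε
    refine ⟨fun _ => 0, AP.const 0, fun x => by simp, ?_, ?_⟩
    · have h0 : (fun x => seg k a b (F₀ x) (τ x * 0)) = F₀ := by
        funext x
        rw [mul_zero, Waves_seg_zero]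
      rw [h0]
      exact Waves_fld_mono hF (by linarith) (by linarith) (by linarith)
    · have h0 : ∀ x, walk 0 (H' (F₀ x) (τ x)) 0 = H' (F₀ x) (τ x) 0 := fun x => rfl
      simp only [h0, sub_self, abs_zero]
      exact hε.le
  | succ n ih =>
    intro ε hε
    have hpn : (1 / 2 : ℝ) ^ (n + 1) = (1 / 2) ^ n / 2 := by ring
    have hp0 : (0 : ℝ) < (1 / 2) ^ n := by positivity
    have hle : ∀ t : ℝ, |t| ≤ 1 - (1 / 2) ^ n → |t| ≤ 1 - (1 / 2) ^ (n + 1) := by
      intro t ht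
      rw [hpn]
      linarith
    have hcH : Continuous fun p : W × ℝ × ℝ =>
        av (fun c => H' p.1 p.2.1 (p.2.2 + cw p.2.2 * c)) := by
      apply av_cont (X := W × ℝ × ℝ)
      have h : Continuous fun q : (W × ℝ × ℝ) × ℝ =>
          ((q.1.1, q.1.2.1, q.1.2.2 + cw q.1.2.2 * q.2) : W × ℝ × ℝ) := by
        unfold cw
        fun_prop
      exact hH.comp h
    obtain ⟨X, hX, hX1, hXF, hXe⟩ := ih (H' := fun v t' t => av (fun c => H' v t' (t + cw t * c)))
      (fun x t ht => hg x t (hle t ht))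
      (fun x => (hx x).imp id (fun h => h.imp id fun h t ht => h t (hle t ht))) hcH (ε / 2)
      (by linarith)
    have hX1' : ∀ x, |X x| ≤ 1 := fun x => (hX1 x).trans (by linarith)
    have hζ : (1 : ℝ) - (1 / 2) ^ n < 1 := by linarith
    obtain ⟨ha1, ha2⟩ := Waves_inv_ap ha hτ hτ1 hX hζ hX1
    obtain ⟨hb1, hb2⟩ := Waves_inv_ap hb hτ hτ1 hX hζ hX1
    have hcw : AP fun x => cw (X x) := by
      have h1 : AP fun x => (1 / 4) * (1 - X x * X x) :=
        (AP.const (1 / 4)).mul ((AP.const 1).sub (hX.mul hX))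
      have h2 : (fun x => cw (X x)) = fun x => (1 / 4) * (1 - X x * X x) := by
        funext x
        unfold cw
        ring
      rw [h2]
      exact h1
    have hcwb : ∀ x, 0 ≤ cw (X x) ∧ cw (X x) ≤ (1 - |X x|) / 2 := fun x =>
      (cw_bound (hX1' x) (c := 0) (by simp)).2
    have hX0 : ∀ x, 0 < 1 - |X x| := fun x => by linarith [hX1 x]
    -- the amplitudes
    have hamp : ∀ {a' : ℝ}, |a'| ≤ 1 → (∀ x, 1 - |X x| ≤ 1 + a' * (τ x * X x)) →
        (AP fun x => (1 + a' * (τ x * X x))⁻¹) →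
        (AP fun x => a' * (τ x * cw (X x)) * (1 + a' * (τ x * X x))⁻¹) ∧
        ∀ x, |a' * (τ x * cw (X x)) * (1 + a' * (τ x * X x))⁻¹| ≤ 1 / 2 := by
      intro a' ha' h1 h2
      refine ⟨((AP.const a').mul (hτ.mul hcw)).mul h2, fun x => ?_⟩
      have hpos : 0 < 1 + a' * (τ x * X x) := lt_of_lt_of_le (hX0 x) (h1 x)
      rw [← div_eq_mul_inv, abs_div, abs_of_pos hpos, div_le_iff₀ hpos]
      have h3 : |a' * (τ x * cw (X x))| ≤ cw (X x) := by
        rw [abs_mul, abs_mul, abs_of_nonneg (hτ1 x).1, abs_of_nonneg (hcwb x).1]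
        have h4 : τ x * cw (X x) ≤ 1 * cw (X x) := mul_le_mul_of_nonneg_right (hτ1 x).2 (hcwb x).1
        have h5 : |a'| * (τ x * cw (X x)) ≤ 1 * (τ x * cw (X x)) :=
          mul_le_mul_of_nonneg_right ha' (mul_nonneg (hτ1 x).1 (hcwb x).1)
        linarith
      linarith [h1 x, (hcwb x).2]
    obtain ⟨hα, hα1⟩ := hamp ha ha1 ha2
    obtain ⟨hβ, hβ1⟩ := hamp hb hb1 hb2
    have hmove : ∀ x c, move k (seg k a b (F₀ x) (τ x * X x))
        (a * (τ x * cw (X x)) * (1 + a * (τ x * X x))⁻¹)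
        (b * (τ x * cw (X x)) * (1 + b * (τ x * X x))⁻¹) c =
        seg k a b (F₀ x) (τ x * (X x + cw (X x) * c)) := by
      intro x c
      have hp1 : 1 + a * (τ x * X x) ≠ 0 := (lt_of_lt_of_le (hX0 x) (ha1 x)).ne'
      have hp2 : 1 + b * (τ x * X x) ≠ 0 := (lt_of_lt_of_le (hX0 x) (hb1 x)).ne'
      rw [Waves_move_seg (F₀ x) (e := τ x * cw (X x))]
      · congr 1
        ring
      · rw [mul_assoc, inv_mul_cancel₀ hp1, mul_one]
      · rw [mul_assoc, inv_mul_cancel₀ hp2, mul_one]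
    have hstep : ∀ x, ∀ c ∈ Set.Icc (-1 : ℝ) 1, |X x + cw (X x) * c| ≤ 1 - (1 / 2) ^ (n + 1) := by
      intro x c hc
      have h1 := (cw_bound (hX1' x) (c := c) (abs_le.mpr hc)).1
      rw [hpn]
      linarith [hX1 x]
    obtain ⟨lam₀, hlam₀⟩ := wave k hr hφ (N := N + ε / 2) (D := D + ε / 2) (δ := δ + ε / 2)
      (by linarith) (by linarith) hQ hXF hα hβ hα1 hβ1
      (by
        intro x c hc
        rw [hmove]
        exact hg x _ (hstep x c hc))
      (by
        intro x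
        rcases hx x with h | h | h
        · left
          rw [h]
        · left
          rw [h]
          simp
        · right
          exact h (X x) (hle _ (hX1 x)))
      (ε / 2) (by linarith)
    -- the expectation
    have hF₀c : Continuous F₀ := continuous_pi fun i => (hF.ap i).cont
    have hFc : Continuous fun p : E 2 × ℝ => H' (F₀ p.1) (τ p.1) (X p.1 + cw (X p.1) * p.2) := by
      have h : Continuous fun p : E 2 × ℝ =>
          ((F₀ p.1, τ p.1, X p.1 + cw (X p.1) * p.2) : W × ℝ × ℝ) := by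
        exact (hF₀c.comp continuous_fst).prodMk ((hτ.cont.comp continuous_fst).prodMk
          ((hX.cont.comp continuous_fst).add ((hcw.cont.comp continuous_fst).mul continuous_snd)))
      exact hH.comp h
    obtain ⟨C, hC⟩ : ∃ C : ℝ, ∀ x, ∀ c ∈ Set.Icc (-1 : ℝ) 1,
        |H' (F₀ x) (τ x) (X x + cw (X x) * c)| ≤ C := by
      choose B hB using fun i => (hF.ap i).bdd
      have hK : IsCompact ((Set.univ.pi fun i => Set.Icc (-(B i)) (B i)) ×ˢ
          (Set.Icc (0 : ℝ) 1 ×ˢ Set.Icc (-1 : ℝ) 1)) :=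
        (isCompact_univ_pi fun i => isCompact_Icc).prod (isCompact_Icc.prod isCompact_Icc)
      obtain ⟨C, hC⟩ := hK.exists_bound_of_continuousOn hH.continuousOn
      refine ⟨C, fun x c hc => ?_⟩
      have hm : ((F₀ x, τ x, X x + cw (X x) * c) : W × ℝ × ℝ) ∈
          ((Set.univ.pi fun i => Set.Icc (-(B i)) (B i)) ×ˢ
          (Set.Icc (0 : ℝ) 1 ×ˢ Set.Icc (-1 : ℝ) 1)) := by
        refine ⟨fun i _ => abs_le.mp (hB i x), ⟨hτ1 x, abs_le.mp ?_⟩⟩
        have := hstep x c hc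
        have h0 : (0 : ℝ) < (1 / 2) ^ (n + 1) := by positivity
        linarith
      have := hC _ hm
      rwa [Real.norm_eq_abs] at this
    have hint : Integrable fun x => ‖φ x‖ ^ 2 :=
      (memLp_two_iff_integrable_sq_norm (Lp.memLp φ).1).mp (Lp.memLp φ)
    obtain ⟨lam₁, hlam₁⟩ := rl hFc hC hint (dir_norm k) (ε / 2) (by linarith)
    set lam := max lam₀ lam₁ with hlam
    refine ⟨fun x => X x + cw (X x) * cs (dir k) lam x, hX.add (hcw.mul (AP.cs (dir_norm k) lam)),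
      fun x => hstep x _ (Real.cos_mem_Icc _), ?_, ?_⟩
    · have h1 := hlam₀ lam (le_max_left _ _)
      have h2 : (fun x => move k (seg k a b (F₀ x) (τ x * X x))
          (a * (τ x * cw (X x)) * (1 + a * (τ x * X x))⁻¹)
          (b * (τ x * cw (X x)) * (1 + b * (τ x * X x))⁻¹) (cs (dir k) lam x)) =
          fun x => seg k a b (F₀ x) (τ x * (X x + cw (X x) * cs (dir k) lam x)) := by
        funext x
        exact hmove x _
      rw [h2] at h1
      exact Waves_fld_mono h1 (by linarith) (by linarith) (by linarith)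
    · have h1 := hlam₁ lam (le_max_right _ _)
      have h2 : ∀ x, walk (n + 1) (H' (F₀ x) (τ x)) 0 =
          walk n (fun t => av (fun c => H' (F₀ x) (τ x) (t + cw t * c))) 0 := fun x => rfl
      simp only [h2]
      have h3 : ∀ x, (∫ θ in (0 : ℝ)..1, H' (F₀ x) (τ x)
          (X x + cw (X x) * Real.cos (2 * Real.pi * θ))) =
          av (fun c => H' (F₀ x) (τ x) (X x + cw (X x) * c)) := fun x => rfl
      simp only [h3] at h1
      calc _ ≤ _ := abs_sub_le _
            (∫ x, av (fun c => H' (F₀ x) (τ x) (X x + cw (X x) * c)) * ‖φ x‖ ^ 2) _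
        _ ≤ ε / 2 + ε / 2 := add_le_add h1 hXe
        _ = ε := by ring

end Pool.Agent.helper12.BR
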